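import Pool.Agent.TP.Ker

/-!
# Convolution operators
-/

set_option autoImplicit false

namespace Pool.Agent.TP

open MeasureTheory Set Filter Topology Pool.Agent.TO Pool.Agent.TB Pool.Agent.TC
open scoped ENNReal NNReal Real InnerProductSpace SchwartzMap LineDeriv

/-- the Cauchy-Schwarz inequality with a weight -/
theorem cs_weight {α : Type*} [MeasurableSpace α] {μ : Measure α} {k g : α → ℝ≥0∞}
    (hk : AEMeasurable k μ) (hg : AEMeasurable g μ) :
    (∫⁻ a, k a * g a ∂μ) ^ 2 ≤ (∫⁻ a, k a ∂μ) * ∫⁻ a, k a * g a ^ 2 ∂μ := by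
  have hpq : Real.HolderConjugate 2 2 := Real.HolderConjugate.two_two
  have h1 := ENNReal.lintegral_mul_le_Lp_mul_Lq μ hpq (f := fun a => k a ^ (1 / 2 : ℝ))
    (g := fun a => k a ^ (1 / 2 : ℝ) * g a) (hk.pow_const _) ((hk.pow_const _).mul hg)
  have e0 : ∀ x : ℝ≥0∞, x ^ (1 / 2 : ℝ) * x ^ (1 / 2 : ℝ) = x := by
    intro x
    rw [← ENNReal.rpow_add_of_nonneg _ _ (by norm_num) (by norm_num)]
    norm_num
  have e1 : ∀ x : ℝ≥0∞, (x ^ (1 / 2 : ℝ)) ^ (2:ℝ) = x := by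
    intro x
    rw [← ENNReal.rpow_mul]
    norm_num
  have e2 : ∀ x : ℝ≥0∞, (x ^ (1 / 2 : ℝ)) ^ 2 = x := by
    intro x
    rw [← ENNReal.rpow_natCast, ← ENNReal.rpow_mul]
    norm_num
  have l1 : ∫⁻ a, ((fun a => k a ^ (1 / 2 : ℝ)) * fun a => k a ^ (1 / 2 : ℝ) * g a) a ∂μ =
      ∫⁻ a, k a * g a ∂μ := by
    apply lintegral_congr
    intro a
    simp only [Pi.mul_apply]
    rw [← mul_assoc, e0]
  have l2 : ∫⁻ a, (k a ^ (1 / 2 : ℝ)) ^ (2:ℝ) ∂μ = ∫⁻ a, k a ∂μ := by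
    simp only [e1]
  have l3 : ∫⁻ a, (k a ^ (1 / 2 : ℝ) * g a) ^ (2:ℝ) ∂μ = ∫⁻ a, k a * g a ^ 2 ∂μ := by
    apply lintegral_congr
    intro a
    rw [ENNReal.mul_rpow_of_nonneg _ _ (by norm_num), e1]
    norm_cast
  rw [l1, l2, l3] at h1
  calc (∫⁻ a, k a * g a ∂μ) ^ 2 ≤ ((∫⁻ a, k a ∂μ) ^ (1 / 2 : ℝ) *
      (∫⁻ a, k a * g a ^ 2 ∂μ) ^ (1 / 2 : ℝ)) ^ 2 := pow_le_pow_left₀ zero_le h1 2
    _ = _ := by rw [mul_pow, e2, e2]

/-- an admissible kernel -/
structure KK (κ : E3 → ℝ) (L : ℝ) : Prop where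
  cont : Continuous κ
  int : Integrable κ (volume : Measure E3)
  le : ∫ y, |κ y| ≤ L
  bdd : ∃ C : ℝ, 0 ≤ C ∧ ∀ y, |κ y| ≤ C

/-- the convolution -/
noncomputable def cvf (κ : E3 → ℝ) {F : Type*} [NormedAddCommGroup F] [NormedSpace ℝ F]
    (f : E3 → F) (x : E3) : F := ∫ y, κ y • f (x - y)

variable {F : Type*} [NormedAddCommGroup F] [NormedSpace ℝ F] {κ : E3 → ℝ} {L : ℝ}

theorem KK.nonneg (h : KK κ L) : 0 ≤ L := (integral_nonneg fun _ => abs_nonneg _).trans h.le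

theorem KK.lint (h : KK κ L) : ∫⁻ y, ‖κ y‖ₑ ≤ ENNReal.ofReal L := by
  have h1 : ∫⁻ y, ‖κ y‖ₑ = ENNReal.ofReal (∫ y, |κ y|) := by
    rw [ofReal_integral_eq_lintegral_ofReal h.int.abs (Eventually.of_forall fun _ => abs_nonneg _)]
    apply lintegral_congr
    intro y
    rw [← ofReal_norm, Real.norm_eq_abs]
  rw [h1]
  exact ENNReal.ofReal_le_ofReal h.le

theorem enorm_cvf_le (f : E3 → F) (x : E3) :
    ‖cvf κ f x‖ₑ ≤ ∫⁻ y, ‖κ y‖ₑ * ‖f (x - y)‖ₑ := by
  refine (enorm_integral_le_lintegral_enorm _).trans (le_of_eq ?_)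
  apply lintegral_congr
  intro y
  rw [enorm_smul]

omit [NormedSpace ℝ F] in
theorem meas_shift {f : E3 → F} (hf : StronglyMeasurable f) (x : E3) :
    Measurable fun y => ‖f (x - y)‖ₑ :=
  (hf.comp_measurable (measurable_const.sub measurable_id)).enorm

theorem sq_cvf_le (h : KK κ L) {f : E3 → F} (hf : StronglyMeasurable f) (x : E3) :
    ‖cvf κ f x‖ₑ ^ 2 ≤ ENNReal.ofReal L * ∫⁻ y, ‖κ y‖ₑ * ‖f (x - y)‖ₑ ^ 2 := by
  refine le_trans (pow_le_pow_left₀ zero_le (enorm_cvf_le f x) 2) ?_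
  refine (cs_weight h.cont.enorm.measurable.aemeasurable (meas_shift hf x).aemeasurable).trans ?_
  gcongr
  exact h.lint

theorem stronglyMeasurable_cvf (h : KK κ L) {f : E3 → F} (hf : StronglyMeasurable f) :
    StronglyMeasurable (cvf κ f) := by
  have h2 : StronglyMeasurable (Function.uncurry fun x y : E3 => κ y • f (x - y)) :=
    (h.cont.stronglyMeasurable.comp_measurable measurable_snd).smul
      (hf.comp_measurable (measurable_fst.sub measurable_snd))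
  exact h2.integral_prod_right

theorem meas_uncurry (h : KK κ L) {g : E3 → ℝ≥0∞} (hg : Measurable g) :
    Measurable (Function.uncurry fun x y : E3 => ‖κ y‖ₑ * g (x - y)) :=
  (h.cont.enorm.measurable.comp measurable_snd).mul (hg.comp (measurable_fst.sub measurable_snd))

theorem lintegral_cvf (h : KK κ L) {g : E3 → ℝ≥0∞} (hg : Measurable g) :
    ∫⁻ x, ∫⁻ y, ‖κ y‖ₑ * g (x - y) ≤ ENNReal.ofReal L * ∫⁻ x, g x := by
  rw [lintegral_lintegral_swap (meas_uncurry h hg).aemeasurable]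
  have e1 : ∀ y : E3, ∫⁻ x, ‖κ y‖ₑ * g (x - y) = ‖κ y‖ₑ * ∫⁻ x, g x := by
    intro y
    have m1 : Measurable fun x : E3 => g (x - y) := hg.comp (measurable_id.sub_const y)
    rw [lintegral_const_mul _ m1, lintegral_sub_right_eq_self g y]
  simp only [e1]
  rw [lintegral_mul_const _ h.cont.enorm.measurable]
  gcongr
  exact h.lint

theorem lintegral_sq_cvf_le (h : KK κ L) {f : E3 → F} (hf : StronglyMeasurable f) :
    ∫⁻ x, ‖cvf κ f x‖ₑ ^ 2 ≤ ENNReal.ofReal (L ^ 2) * ∫⁻ x, ‖f x‖ₑ ^ 2 := by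
  have hm := hf.enorm.pow_const 2
  calc ∫⁻ x, ‖cvf κ f x‖ₑ ^ 2
      ≤ ∫⁻ x, ENNReal.ofReal L * ∫⁻ y, ‖κ y‖ₑ * ‖f (x - y)‖ₑ ^ 2 :=
        lintegral_mono fun x => sq_cvf_le h hf x
    _ = ENNReal.ofReal L * ∫⁻ x, ∫⁻ y, ‖κ y‖ₑ * ‖f (x - y)‖ₑ ^ 2 :=
        lintegral_const_mul _ (meas_uncurry h hm).lintegral_prod_right'
    _ ≤ ENNReal.ofReal L * (ENNReal.ofReal L * ∫⁻ x, ‖f x‖ₑ ^ 2) := by
        gcongr
        exact lintegral_cvf h hm
    _ = _ := by rw [← mul_assoc, ← ENNReal.ofReal_mul h.nonneg, pow_two]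

/-- pointwise integrability -/
theorem integrable_cvf (h : KK κ L) {f : E3 → F} (hf : StronglyMeasurable f)
    (h2 : ∫⁻ y, ‖f y‖ₑ ^ 2 < ∞) (x : E3) :
    Integrable (fun y => κ y • f (x - y)) (volume : Measure E3) := by
  obtain ⟨C, hC, hb⟩ := h.bdd
  refine ⟨(h.cont.stronglyMeasurable.smul
    (hf.comp_measurable (measurable_const.sub measurable_id))).aestronglyMeasurable, ?_⟩
  rw [hasFiniteIntegral_iff_enorm]
  simp only [enorm_smul]
  have h3 : (∫⁻ y, ‖κ y‖ₑ * ‖f (x - y)‖ₑ) ^ 2 < ∞ := by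
    refine (cs_weight h.cont.enorm.measurable.aemeasurable (meas_shift hf x).aemeasurable).trans_lt
      ?_
    refine ENNReal.mul_lt_top (h.lint.trans_lt ENNReal.ofReal_lt_top) ?_
    calc ∫⁻ y, ‖κ y‖ₑ * ‖f (x - y)‖ₑ ^ 2 ≤ ∫⁻ y, ENNReal.ofReal C * ‖f (x - y)‖ₑ ^ 2 := by
          apply lintegral_mono
          intro y
          have h5 : ‖κ y‖ₑ ≤ ENNReal.ofReal C := by
            rw [← ofReal_norm]
            exact ENNReal.ofReal_le_ofReal (hb y)
          exact mul_le_mul_left h5 _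
      _ = ENNReal.ofReal C * ∫⁻ y, ‖f y‖ₑ ^ 2 := by
          rw [lintegral_const_mul _ ((meas_shift hf x).pow_const 2),
            lintegral_sub_left_eq_self (fun y => ‖f y‖ₑ ^ 2) x]
      _ < ∞ := ENNReal.mul_lt_top ENNReal.ofReal_lt_top h2
  by_contra hcon
  push Not at hcon
  rw [top_le_iff.1 hcon] at h3
  simp at h3

theorem ae_shift {p : E3 → Prop} (hp : ∀ᵐ y ∂(volume : Measure E3), p y) (x : E3) :
    ∀ᵐ y ∂(volume : Measure E3), p (x - y) :=
  (Measure.measurePreserving_sub_left (volume : Measure E3) x).quasiMeasurePreserving.ae hp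

theorem cvf_congr {f g : E3 → F} (hfg : f =ᵐ[volume] g) (x : E3) : cvf κ f x = cvf κ g x := by
  apply integral_congr_ae
  filter_upwards [ae_shift hfg x] with y hy
  rw [hy]

theorem memLp_cvf (h : KK κ L) (f : V3) : MemLp (cvf κ f) 2 (volume : Measure E3) := by
  refine ⟨(stronglyMeasurable_cvf h (Lp.stronglyMeasurable f)).aestronglyMeasurable, ?_⟩
  rw [eLpNorm_eq_lintegral_rpow_enorm_toReal (by norm_num) (by norm_num)]
  apply ENNReal.rpow_lt_top_of_nonneg (by simp)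
  simp only [ENNReal.toReal_ofNat, ENNReal.rpow_ofNat]
  exact ((lintegral_sq_cvf_le h (Lp.stronglyMeasurable f)).trans_lt
    (ENNReal.mul_lt_top ENNReal.ofReal_lt_top (lintegral_sq_lt f))).ne

theorem norm_le_of_lint {f g : V3} {L : ℝ} (hL : 0 ≤ L)
    (h : ∫⁻ x, ‖f x‖ₑ ^ 2 ≤ ENNReal.ofReal (L ^ 2) * ∫⁻ x, ‖g x‖ₑ ^ 2) : ‖f‖ ≤ L * ‖g‖ := by
  rw [lintegral_sq_V3, lintegral_sq_V3, enorm_sq_ofReal, enorm_sq_ofReal,
    ← ENNReal.ofReal_mul (by positivity), ← mul_pow] at h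
  exact le_of_sq_ofReal (by positivity) h

/-- the convolution operator -/
noncomputable def cvL (h : KK κ L) : V3 →L[ℝ] V3 :=
  LinearMap.mkContinuous
    { toFun := fun f => (memLp_cvf h f).toLp
      map_add' := by
        intro f g
        apply Lp.ext
        filter_upwards [(memLp_cvf h (f + g)).coeFn_toLp, (memLp_cvf h f).coeFn_toLp,
          (memLp_cvf h g).coeFn_toLp,
          Lp.coeFn_add ((memLp_cvf h f).toLp) ((memLp_cvf h g).toLp)] with x h1 h2 h3 h4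
        rw [h1, h4, Pi.add_apply, h2, h3]
        have e1 : cvf κ (f + g : V3) x = cvf κ (fun y => f y + g y) x :=
          cvf_congr (Lp.coeFn_add f g) x
        rw [e1]
        unfold cvf
        simp only [smul_add]
        exact integral_add (integrable_cvf h (Lp.stronglyMeasurable f) (lintegral_sq_lt f) x)
          (integrable_cvf h (Lp.stronglyMeasurable g) (lintegral_sq_lt g) x)
      map_smul' := by
        intro c f
        apply Lp.ext
        filter_upwards [(memLp_cvf h (c • f)).coeFn_toLp, (memLp_cvf h f).coeFn_toLp,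
          Lp.coeFn_smul c ((memLp_cvf h f).toLp)] with x h1 h2 h4
        rw [h1, RingHom.id_apply, h4, Pi.smul_apply, h2]
        have e1 : cvf κ (c • f : V3) x = cvf κ (fun y => c • f y) x :=
          cvf_congr (Lp.coeFn_smul c f) x
        rw [e1]
        unfold cvf
        simp only [smul_comm _ c]
        exact integral_smul _ _ } L (by
    intro f
    apply norm_le_of_lint h.nonneg
    have : ∫⁻ x, ‖((memLp_cvf h f).toLp : E3 → E3) x‖ₑ ^ 2 = ∫⁻ x, ‖cvf κ f x‖ₑ ^ 2 := by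
      apply lintegral_congr_ae
      filter_upwards [(memLp_cvf h f).coeFn_toLp] with x hx
      rw [hx]
    change ∫⁻ x, ‖((memLp_cvf h f).toLp : E3 → E3) x‖ₑ ^ 2 ≤ _
    rw [this]
    exact lintegral_sq_cvf_le h (Lp.stronglyMeasurable f))

theorem coe_cvL (h : KK κ L) (f : V3) : (cvL h f : E3 → E3) =ᵐ[volume] cvf κ f :=
  (memLp_cvf h f).coeFn_toLp

theorem norm_cvL_le (h : KK κ L) (f : V3) : ‖cvL h f‖ ≤ L * ‖f‖ := by
  have h1 := (cvL h).le_opNorm f
  have h2 : ‖cvL h‖ ≤ L := LinearMap.mkContinuous_norm_le _ h.nonneg _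
  exact h1.trans (by gcongr)

/-- convolutions of bounded fields are bounded -/
theorem bd_cvL (h : KK κ L) {f : V3} {A : ℝ} (hA : 0 ≤ A) (hf : Bd f A) :
    Bd (cvL h f) (L * A) := by
  unfold Bd
  filter_upwards [coe_cvL h f] with x hx
  rw [hx]
  unfold cvf
  calc ‖∫ y, κ y • f (x - y)‖ ≤ ∫ y, |κ y| * A := by
        apply norm_integral_le_of_norm_le (h.int.abs.mul_const A)
        filter_upwards [ae_shift hf x] with y hy
        rw [norm_smul, Real.norm_eq_abs]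
        gcongr
    _ = (∫ y, |κ y|) * A := integral_mul_const _ _
    _ ≤ L * A := by
        gcongr
        exact h.le

/-- Fubini's theorem for the pairing -/
theorem inner_cvL (h : KK κ L) (f g : V3) :
    ⟪f, cvL h g⟫_ℝ = ∫ y, κ y * ∫ x, ⟪f x, g (x - y)⟫_ℝ := by
  have e0 : ⟪f, cvL h g⟫_ℝ = ∫ x, ∫ y, ⟪f x, κ y • g (x - y)⟫_ℝ := by
    rw [L2.inner_def]
    apply integral_congr_ae
    filter_upwards [coe_cvL h g] with x hx
    rw [hx]
    exact (integral_inner (integrable_cvf h (Lp.stronglyMeasurable g) (lintegral_sq_lt g) x)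
      (f x)).symm
  have hm : StronglyMeasurable (Function.uncurry fun x y : E3 => ⟪f x, κ y • g (x - y)⟫_ℝ) := by
    have m1 : StronglyMeasurable (fun p : E3 × E3 => f p.1) :=
      (Lp.stronglyMeasurable f).comp_measurable measurable_fst
    have m2 : StronglyMeasurable (fun p : E3 × E3 => κ p.2 • g (p.1 - p.2)) :=
      (h.cont.stronglyMeasurable.comp_measurable measurable_snd).smul
        ((Lp.stronglyMeasurable g).comp_measurable (measurable_fst.sub measurable_snd))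
    exact m1.inner m2
  have hb : ∀ (k : ℝ) (a b : E3), ‖⟪a, k • b⟫_ℝ‖ₑ ≤ ‖k‖ₑ * ‖a‖ₑ ^ 2 + ‖k‖ₑ * ‖b‖ₑ ^ 2 := by
    intro k a b
    have h1 : ‖⟪a, k • b⟫_ℝ‖ ≤ ‖k‖ * (‖a‖ ^ 2 + ‖b‖ ^ 2) := by
      refine (norm_inner_le_norm a _).trans ?_
      rw [norm_smul]
      nlinarith [mul_nonneg (norm_nonneg k) (sq_nonneg (‖a‖ - ‖b‖)),
        mul_nonneg (norm_nonneg k) (mul_nonneg (norm_nonneg a) (norm_nonneg b))]
    rw [← mul_add, ← ofReal_norm, ← ofReal_norm, ← ofReal_norm, ← ofReal_norm,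
      ← ENNReal.ofReal_pow (norm_nonneg _), ← ENNReal.ofReal_pow (norm_nonneg _),
      ← ENNReal.ofReal_add (by positivity) (by positivity), ← ENNReal.ofReal_mul (norm_nonneg _)]
    exact ENNReal.ofReal_le_ofReal h1
  have hi : Integrable (Function.uncurry fun x y : E3 => ⟪f x, κ y • g (x - y)⟫_ℝ)
      ((volume : Measure E3).prod volume) := by
    refine ⟨hm.aestronglyMeasurable, ?_⟩
    rw [hasFiniteIntegral_iff_enorm, lintegral_prod _ hm.enorm.aemeasurable]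
    have mf := (Lp.stronglyMeasurable f).enorm.pow_const 2
    have mg := (Lp.stronglyMeasurable g).enorm.pow_const 2
    have mk := h.cont.enorm.measurable
    calc ∫⁻ x, ∫⁻ y, ‖Function.uncurry (fun x y : E3 => ⟪f x, κ y • g (x - y)⟫_ℝ) (x, y)‖ₑ
        ≤ ∫⁻ x, ∫⁻ y, (‖κ y‖ₑ * ‖f x‖ₑ ^ 2 + ‖κ y‖ₑ * ‖g (x - y)‖ₑ ^ 2) :=
          lintegral_mono fun x => lintegral_mono fun y => hb _ _ _
      _ = ∫⁻ x, ((∫⁻ y, ‖κ y‖ₑ) * ‖f x‖ₑ ^ 2 + ∫⁻ y, ‖κ y‖ₑ * ‖g (x - y)‖ₑ ^ 2) := by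
          apply lintegral_congr
          intro x
          rw [lintegral_add_left (mk.mul_const _), lintegral_mul_const _ mk]
      _ = (∫⁻ y, ‖κ y‖ₑ) * (∫⁻ x, ‖f x‖ₑ ^ 2) + ∫⁻ x, ∫⁻ y, ‖κ y‖ₑ * ‖g (x - y)‖ₑ ^ 2 := by
          rw [lintegral_add_left (mf.const_mul _), lintegral_const_mul _ mf]
      _ < ∞ := by
          refine ENNReal.add_lt_top.2 ⟨ENNReal.mul_lt_top (h.lint.trans_lt ENNReal.ofReal_lt_top)
            (lintegral_sq_lt f), ?_⟩
          exact (lintegral_cvf h mg).trans_lt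
            (ENNReal.mul_lt_top ENNReal.ofReal_lt_top (lintegral_sq_lt g))
  rw [e0, integral_integral_swap hi]
  congr 1
  ext y
  simp only [inner_smul_right]
  exact integral_const_mul _ _

theorem corr_symm (f g : V3) (y : E3) :
    ∫ x, ⟪f x, g (x - y)⟫_ℝ = ∫ x, ⟪g x, f (x - (-y))⟫_ℝ := by
  rw [← integral_add_right_eq_self (fun x => ⟪f x, g (x - y)⟫_ℝ) y]
  congr 1
  ext x
  rw [real_inner_comm, add_sub_cancel_right, sub_neg_eq_add]

/-- the adjoint, odd kernels -/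
theorem anti_cvL (h : KK κ L) (hodd : ∀ y, κ (-y) = -κ y) (f g : V3) :
    ⟪f, cvL h g⟫_ℝ = -⟪cvL h f, g⟫_ℝ := by
  rw [real_inner_comm g (cvL h f), inner_cvL, inner_cvL, ← integral_neg,
    ← integral_neg_eq_self (fun y => κ y * ∫ x, ⟪f x, g (x - y)⟫_ℝ)]
  congr 1
  ext y
  rw [hodd, corr_symm, neg_neg, neg_mul]

/-- the adjoint, even kernels -/
theorem symm_cvL (h : KK κ L) (heven : ∀ y, κ (-y) = κ y) (f g : V3) :
    ⟪f, cvL h g⟫_ℝ = ⟪cvL h f, g⟫_ℝ := by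
  rw [real_inner_comm g (cvL h f), inner_cvL, inner_cvL,
    ← integral_neg_eq_self (fun y => κ y * ∫ x, ⟪f x, g (x - y)⟫_ℝ)]
  congr 1
  ext y
  rw [heven, corr_symm, neg_neg]

/-- convolutions commute with weak derivatives -/
theorem weak_cvL (h : KK κ L) {k : Fin 3} {f g : V3} (hfg : IsWeakDeriv k f g) :
    IsWeakDeriv k (cvL h f) (cvL h g) := by
  intro φ
  rw [integral_inner_eq, integral_inner_eq, inner_cvL, inner_cvL, ← integral_neg]
  congr 1
  ext y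
  have e1 : ∀ (ψ : 𝓢(E3, E3)) (f : V3), ∫ x, ⟪(ψ.toLp 2 (volume : Measure E3) : V3) x, f (x - y)⟫_ℝ =
      ∫ x, ⟪ψ x, f (x - y)⟫_ℝ := by
    intro ψ f
    apply integral_congr_ae
    filter_upwards [ψ.coeFn_toLp 2 (volume : Measure E3)] with x hx
    rw [hx]
  rw [e1, e1, weak_translate hfg φ y]
  ring

end Pool.Agent.TP
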