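import Pool.Agent.TP.Duh
import Pool.Agent.TB.DivSub

/-!
# The low frequencies of the difference where it is subcritical
-/

set_option autoImplicit false

namespace Pool.Agent.TP

open MeasureTheory Set Filter Topology Pool.Agent.TO Pool.Agent.TB Pool.Agent.TC
open scoped ENNReal NNReal Real InnerProductSpace SchwartzMap LineDeriv Laplacian

variable {ρ : ℝ}

theorem sq_add_le (a b : ℝ≥0∞) : (a + b) ^ 2 ≤ 2 * a ^ 2 + 2 * b ^ 2 := by
  by_cases ha : a = ∞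
  · simp [ha]
  by_cases hb : b = ∞
  · simp [hb]
  lift a to ℝ≥0 using ha
  lift b to ℝ≥0 using hb
  norm_cast
  rw [← NNReal.coe_le_coe]
  push_cast
  nlinarith [sq_nonneg ((a:ℝ) - b)]

theorem sq_sum3_le (f : Fin 3 → ℝ≥0∞) : (∑ k, f k) ^ 2 ≤ 4 * ∑ k, f k ^ 2 := by
  rw [Fin.sum_univ_three, Fin.sum_univ_three]
  calc (f 0 + f 1 + f 2) ^ 2 ≤ 2 * (f 0 + f 1) ^ 2 + 2 * f 2 ^ 2 := sq_add_le _ _
    _ ≤ 2 * (2 * f 0 ^ 2 + 2 * f 1 ^ 2) + 4 * f 2 ^ 2 := by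
        gcongr
        · exact sq_add_le _ _
        · norm_num
    _ = _ := by ring

theorem sq_three_le (x y z : ℝ≥0∞) : (x + y + z) ^ 2 ≤ 4 * x ^ 2 + 4 * y ^ 2 + 2 * z ^ 2 := by
  calc (x + y + z) ^ 2 ≤ 2 * (x + y) ^ 2 + 2 * z ^ 2 := sq_add_le _ _
    _ ≤ 2 * (2 * x ^ 2 + 2 * y ^ 2) + 2 * z ^ 2 := by
        gcongr
        exact sq_add_le _ _
    _ = _ := by ring

theorem continuous_Qr_right (hρ : 0 < ρ) (z : E3) : Continuous (Qr hρ z) := by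
  have h1 : Continuous fun f : V3 => ‖mulV (mb_sg hρ z) f‖ ^ 2 :=
    ((mulV (mb_sg hρ z)).continuous.norm).pow 2
  exact h1

theorem continuous_Qr_left (hρ : 0 < ρ) (f : V3) : Continuous fun z => Qr hρ z f := by
  have h1 : Continuous fun z : E3 => (z, f) := by fun_prop
  have h2 : Continuous (Function.uncurry (Qr hρ) ∘ fun z : E3 => (z, f)) :=
    (continuous_Qr hρ).comp h1
  exact h2

theorem aemeas_Qr (hρ : 0 < ρ) (z : E3) {μ : Measure ℝ} {g : ℝ → V3}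
    (hg : AEStronglyMeasurable g μ) : AEMeasurable (fun τ => Qr hρ z (g τ)) μ :=
  ((continuous_Qr_right hρ z).comp_aestronglyMeasurable hg).aemeasurable

theorem lint_inv_sqrt {t : ℝ} (ht : 0 ≤ t) (c : ℝ) (hc : 0 ≤ c) :
    ∫⁻ τ in Ioo 0 t, ENNReal.ofReal (c / √τ) = ENNReal.ofReal (2 * c * √t) := by
  obtain ⟨h1, h2⟩ := integral_inv_sqrt ht c
  rw [← h2, intervalIntegral.integral_of_le ht, integral_Ioc_eq_integral_Ioo,
    ofReal_integral_eq_lintegral_ofReal]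
  · rwa [intervalIntegrable_iff_integrableOn_Ioo_of_le ht] at h1
  · exact Eventually.of_forall fun τ => by positivity

/-- the Cauchy-Schwarz inequality in time -/
theorem csw (hρ : 0 < ρ) (z : E3) {t : ℝ} (ht : 0 ≤ t) {c : ℝ → ℝ} (hc : Measurable c)
    (hc0 : ∀ τ, 0 ≤ c τ) {g : ℝ → V3} (hg : AEStronglyMeasurable g (volume.restrict (Ioo 0 t))) :
    (∫⁻ τ in Ioo 0 t, ENNReal.ofReal (c τ) * ENNReal.ofReal (√(Qr hρ z (g τ)))) ^ 2 ≤
      ENNReal.ofReal (2 * √t) *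
        ∫⁻ τ in Ioo 0 t, ENNReal.ofReal (c τ ^ 2 * √τ) * ENNReal.ofReal (Qr hρ z (g τ)) := by
  have m1 : Measurable fun τ : ℝ => ENNReal.ofReal (1 / √τ) := by fun_prop
  have m2 : AEMeasurable (fun τ : ℝ => ENNReal.ofReal (c τ * √τ) *
      ENNReal.ofReal (√(Qr hρ z (g τ)))) (volume.restrict (Ioo 0 t)) := by
    have h1 := (aemeas_Qr hρ z hg).sqrt.ennreal_ofReal
    have h2 : Measurable fun τ => ENNReal.ofReal (c τ * √τ) := by fun_prop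
    exact h2.aemeasurable.mul h1
  have key := cs_weight m1.aemeasurable m2
  have e1 : ∫⁻ τ in Ioo 0 t, ENNReal.ofReal (1 / √τ) * (ENNReal.ofReal (c τ * √τ) *
      ENNReal.ofReal (√(Qr hρ z (g τ)))) =
      ∫⁻ τ in Ioo 0 t, ENNReal.ofReal (c τ) * ENNReal.ofReal (√(Qr hρ z (g τ))) := by
    apply setLIntegral_congr_fun measurableSet_Ioo
    intro τ hτ
    have h3 : 0 < √τ := Real.sqrt_pos.2 hτ.1
    simp only
    rw [← mul_assoc, ← ENNReal.ofReal_mul (by positivity)]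
    congr 2
    field_simp
  have e2 : ∫⁻ τ in Ioo 0 t, ENNReal.ofReal (1 / √τ) * (ENNReal.ofReal (c τ * √τ) *
      ENNReal.ofReal (√(Qr hρ z (g τ)))) ^ 2 =
      ∫⁻ τ in Ioo 0 t, ENNReal.ofReal (c τ ^ 2 * √τ) * ENNReal.ofReal (Qr hρ z (g τ)) := by
    apply setLIntegral_congr_fun measurableSet_Ioo
    intro τ hτ
    have h3 : 0 < √τ := Real.sqrt_pos.2 hτ.1
    have h4 := hc0 τ
    simp only
    rw [mul_pow, ← ENNReal.ofReal_pow (by positivity), ← ENNReal.ofReal_pow (by positivity),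
      Real.sq_sqrt (Qr_nonneg _ _ _), ← mul_assoc, ← ENNReal.ofReal_mul (by positivity)]
    congr 2
    field_simp
  rw [e1, e2, lint_inv_sqrt ht 1 zero_le_one, mul_one] at key
  exact key

/-- Tonelli's theorem for the local energies -/
theorem tonelli_Qr (hρ : 0 < ρ) {S : Set ℝ} {ω : ℝ → ℝ} (hω : Measurable ω) {g : ℝ → V3}
    (hg : AEStronglyMeasurable g (volume.restrict S)) :
    Measurable (fun z => ∫⁻ τ in S, ENNReal.ofReal (ω τ) * ENNReal.ofReal (Qr hρ z (g τ))) ∧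
    ∫⁻ z, ∫⁻ τ in S, ENNReal.ofReal (ω τ) * ENNReal.ofReal (Qr hρ z (g τ)) =
      ∫⁻ τ in S, ENNReal.ofReal (ω τ) * ENNReal.ofReal (JJ 4 / ρ * ‖g τ‖ ^ 2) := by
  obtain ⟨g', hg', hgg⟩ := hg
  have e1 : ∀ z, ∫⁻ τ in S, ENNReal.ofReal (ω τ) * ENNReal.ofReal (Qr hρ z (g τ)) =
      ∫⁻ τ in S, ENNReal.ofReal (ω τ) * ENNReal.ofReal (Qr hρ z (g' τ)) := by
    intro z
    apply lintegral_congr_ae
    filter_upwards [hgg] with τ hτ
    rw [hτ]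
  have e2 : ∫⁻ τ in S, ENNReal.ofReal (ω τ) * ENNReal.ofReal (JJ 4 / ρ * ‖g τ‖ ^ 2) =
      ∫⁻ τ in S, ENNReal.ofReal (ω τ) * ENNReal.ofReal (JJ 4 / ρ * ‖g' τ‖ ^ 2) := by
    apply lintegral_congr_ae
    filter_upwards [hgg] with τ hτ
    rw [hτ]
  have hm : Measurable (Function.uncurry fun (z : E3) (τ : ℝ) =>
      ENNReal.ofReal (ω τ) * ENNReal.ofReal (Qr hρ z (g' τ))) := by
    have h1 := (meas_Qr hρ hg').ennreal_ofReal
    have h2 : Measurable fun p : E3 × ℝ => ENNReal.ofReal (ω p.2) :=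
      (hω.comp measurable_snd).ennreal_ofReal
    exact h2.mul h1
  constructor
  · simp only [e1]
    exact hm.lintegral_prod_right'
  · simp only [e1]
    rw [e2, lintegral_lintegral_swap hm.aemeasurable]
    apply lintegral_congr
    intro τ
    have h3 : Measurable fun z => ENNReal.ofReal (Qr hρ z (g' τ)) :=
      (continuous_Qr_left hρ (g' τ)).measurable.ennreal_ofReal
    rw [lintegral_const_mul _ h3, lint_Qr]

variable {T : ℝ} {u₀ : V3} {u v : ℝ → V3} {a : ℝ → ℝ} {Du Dv : ℝ → Fin 3 → V3}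

theorem norm_sq_eq_ee (x : E3) : ‖x‖ₑ ^ 2 = ∑ i, ‖⟪(ee i : E3), x⟫_ℝ‖ₑ ^ 2 := by
  have h1 := sum_sq_eq x
  have h2 : ∀ i, ⟪(ee i : E3), x⟫_ℝ = x i := fun i => by rw [real_inner_comm, inner_ee]
  simp only [h2]
  have h3 : ∀ i, ‖x i‖ₑ ^ 2 = ENNReal.ofReal ((x i) ^ 2) := by
    intro i
    rw [← ofReal_norm, ← ENNReal.ofReal_pow (norm_nonneg _), Real.norm_eq_abs, sq_abs]
  simp only [h3]
  rw [← ENNReal.ofReal_sum_of_nonneg (fun i _ => sq_nonneg _), h1, ← ofReal_norm,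
    ← ENNReal.ofReal_pow (norm_nonneg _)]

theorem rel_div_sub (P : Rel T u₀ u₀ u v a Du Dv) {t : ℝ} (ht : t ∈ Ico 0 T) :
    IsDivFree (v t - u t) := isDivFree_sub (P.hv.div t ht) (P.hu.div t ht)

theorem rel_meas_w (P : Rel T u₀ u₀ u v a Du Dv) {t : ℝ} (ht : t ≤ T) :
    AEStronglyMeasurable (fun τ => v τ - u τ) (volume.restrict (Ioo 0 t)) :=
  (P.hv.meas.sub P.hu.meas).mono_measure
    (Measure.restrict_mono (Ioo_subset_Ioo le_rfl ht) le_rfl)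

theorem rel_meas_Dw (P : Rel T u₀ u₀ u v a Du Dv) {t : ℝ} (ht : t ≤ T) (k : Fin 3) :
    AEStronglyMeasurable (fun τ => Dv τ k - Du τ k) (volume.restrict (Ioo 0 t)) :=
  ((meas_grad P.hv.meas P.hDv k).sub (meas_grad P.hu.meas P.hDu k)).mono_measure
    (Measure.restrict_mono (Ioo_subset_Ioo le_rfl ht) le_rfl)

/-- the accumulated local energy -/
noncomputable def HH (hρ : 0 < ρ) (ts : ℝ) (u v : ℝ → V3) (z : E3) : ℝ≥0∞ :=
  ∫⁻ τ in Ioo 0 ts, ENNReal.ofReal (Qr hρ z (v τ - u τ))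

theorem rel_meas_HH (P : Rel T u₀ u₀ u v a Du Dv) (hρ : 0 < ρ) {ts : ℝ} (hts : ts ≤ T) :
    Measurable (HH hρ ts u v) := by
  have h1 := (tonelli_Qr hρ (measurable_const (a := (1:ℝ))) (rel_meas_w P hts)).1
  have h2 : HH hρ ts u v = fun z => ∫⁻ τ in Ioo 0 ts, ENNReal.ofReal 1 *
      ENNReal.ofReal (Qr hρ z (v τ - u τ)) := by
    funext z
    simp [HH]
  rw [h2]
  exact h1

theorem rel_lint_HH (P : Rel T u₀ u₀ u v a Du Dv) (hρ : 0 < ρ) {ts : ℝ} (hts : ts ≤ T) :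
    ∫⁻ z, HH hρ ts u v z = ∫⁻ τ in Ioo 0 ts, ENNReal.ofReal (JJ 4 / ρ * ‖v τ - u τ‖ ^ 2) := by
  have h1 := (tonelli_Qr hρ (measurable_const (a := (1:ℝ))) (rel_meas_w P hts)).2
  simpa [HH] using h1

theorem HH_harnack (hρ : 0 < ρ) (ts : ℝ) (u v : ℝ → V3) {z z' : E3} (h : ‖z - z'‖ ≤ ρ) :
    HH hρ ts u v z ≤ 9 * HH hρ ts u v z' := by
  unfold HH
  rw [← lintegral_const_mul' _ _ (by norm_num)]
  apply lintegral_mono
  intro τ
  simp only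
  have : (9:ℝ≥0∞) = ENNReal.ofReal 9 := by norm_num
  rw [this, ← ENNReal.ofReal_mul (by norm_num)]
  exact ENNReal.ofReal_le_ofReal (Qr_harnack hρ h _)

theorem lint_alg {α : Type*} [MeasurableSpace α] {μ : Measure α} {f : Fin 3 → α → ℝ≥0∞}
    {g l : α → ℝ≥0∞} (hf : ∀ k, AEMeasurable (f k) μ) (hg : AEMeasurable g μ)
    {c d : ℝ≥0∞} (hd : d ≠ ∞) :
    c * (∑ k, ∫⁻ x, f k x ∂μ) + 3 * (∫⁻ x, g x ∂μ) + d * (∫⁻ x, l x ∂μ) =
      ∫⁻ x, (c * (∑ k, f k x) + 3 * g x + d * l x) ∂μ := by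
  have m1 : AEMeasurable (fun x => ∑ k, f k x) μ :=
    Finset.aemeasurable_fun_sum _ fun k _ => hf k
  have m2 : AEMeasurable (fun x => c * (∑ k, f k x)) μ := m1.const_mul _
  have m3 : AEMeasurable (fun x => 3 * g x) μ := hg.const_mul _
  have m4 : AEMeasurable (fun x => c * (∑ k, f k x) + 3 * g x) μ := m2.add m3
  rw [lintegral_add_left' m4, lintegral_add_right' _ m3, lintegral_const_mul'' _ m1,
    lintegral_finsetSum' _ (fun k _ => hf k), lintegral_const_mul'' _ hg,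
    lintegral_const_mul' _ _ hd]

theorem pt_alg {q : Fin 3 → ℝ} {J Q A c : ℝ} (hq : ∀ k, 0 ≤ q k) (hJ : 0 ≤ J) (hQ : 0 ≤ Q)
    (hA : A ≤ c) (hc : 0 ≤ c) {s : ℝ} (hs : 0 ≤ s) :
    ENNReal.ofReal (J * (∑ k, q k) + 3 * Q + 6 * A * J * s) ≤
      ENNReal.ofReal J * (∑ k, ENNReal.ofReal 1 * ENNReal.ofReal (q k)) + 3 * ENNReal.ofReal Q +
        6 * ENNReal.ofReal J * (ENNReal.ofReal c * ENNReal.ofReal s) := by
  simp only [ENNReal.ofReal_one, one_mul]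
  have h6 : (6:ℝ≥0∞) = ENNReal.ofReal 6 := by norm_num
  have h3 : (3:ℝ≥0∞) = ENNReal.ofReal 3 := by norm_num
  have hs0 : 0 ≤ ∑ k, q k := Finset.sum_nonneg fun k _ => hq k
  rw [h6, h3, ← ENNReal.ofReal_sum_of_nonneg (fun k _ => hq k),
    ← ENNReal.ofReal_mul hJ, ← ENNReal.ofReal_mul (by norm_num),
    ← ENNReal.ofReal_mul hc, ← ENNReal.ofReal_mul (by norm_num),
    ← ENNReal.ofReal_mul (by positivity),
    ← ENNReal.ofReal_add (by positivity) (by positivity),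
    ← ENNReal.ofReal_add (by positivity) (by positivity)]
  apply ENNReal.ofReal_le_ofReal
  have h7 : 6 * A * J * s ≤ 6 * J * (c * s) := by
    calc 6 * A * J * s ≤ 6 * c * J * s := by gcongr
      _ = _ := by ring
  linarith

theorem sq_alg {X S Hh W : ℝ≥0∞} {J : ℝ} (hJ : 0 ≤ J) {I : Fin 3 → ℝ≥0∞} (hS : S = ∑ k, I k)
    (h : X ≤ ENNReal.ofReal (√J) * S + 3 * Hh + 6 * ENNReal.ofReal (√J) * W) :
    X ^ 2 ≤ 16 * ENNReal.ofReal J * ∑ k, I k ^ 2 + 36 * Hh ^ 2 +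
        72 * ENNReal.ofReal J * W ^ 2 := by
  have hsJ : ENNReal.ofReal (√J) ^ 2 = ENNReal.ofReal J := by
    rw [← ENNReal.ofReal_pow (Real.sqrt_nonneg _), Real.sq_sqrt hJ]
  calc X ^ 2 ≤ (ENNReal.ofReal (√J) * S + 3 * Hh + 6 * ENNReal.ofReal (√J) * W) ^ 2 :=
        pow_le_pow_left₀ zero_le h 2
    _ ≤ 4 * (ENNReal.ofReal (√J) * S) ^ 2 + 4 * (3 * Hh) ^ 2 +
        2 * (6 * ENNReal.ofReal (√J) * W) ^ 2 := sq_three_le _ _ _
    _ = 4 * ENNReal.ofReal J * (∑ k, I k) ^ 2 + 36 * Hh ^ 2 +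
        72 * ENNReal.ofReal J * W ^ 2 := by
        rw [mul_pow, mul_pow, mul_pow, mul_pow, hsJ, hS]
        ring
    _ ≤ 4 * ENNReal.ofReal J * (4 * ∑ k, I k ^ 2) + 36 * Hh ^ 2 +
        72 * ENNReal.ofReal J * W ^ 2 := by
        gcongr
        exact sq_sum3_le I
    _ = _ := by ring

/-- the pointwise bound -/
theorem rel_pt (P : Rel T u₀ u₀ u v a Du Dv) (hρ : 0 < ρ) {ε t : ℝ} (hε : 0 ≤ ε)
    (ht : t ∈ Ico 0 T) (ha : ∀ τ ∈ Ioo 0 t, a τ ≤ ε / √τ) (z : E3) :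
    ‖cvf (et0 ρ) (v t - u t : V3) z‖ₑ ^ 2 ≤ ENNReal.ofReal (3 * C1 ^ 2) *
      (16 * ENNReal.ofReal (JJ 4 / ρ) * ∑ k, (∫⁻ τ in Ioo 0 t, ENNReal.ofReal 1 *
        ENNReal.ofReal (√(Qr hρ z (Dv τ k - Du τ k)))) ^ 2 +
      36 * (∫⁻ τ in Ioo 0 t, ENNReal.ofReal (Qr hρ z (v τ - u τ))) ^ 2 +
      72 * ENNReal.ofReal (JJ 4 / ρ) * (∫⁻ τ in Ioo 0 t, ENNReal.ofReal (ε / √τ) *
        ENNReal.ofReal (√(Qr hρ z (v τ - u τ)))) ^ 2) := by
  have hC1 := C1_pos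
  have hJ := JJ_pos (n := 4) (by norm_num)
  set J : ℝ := JJ 4 / ρ with hJdef
  have hJ0 : 0 < J := by positivity
  set X : ℝ≥0∞ := ∫⁻ τ in Ioo 0 t,
      ENNReal.ofReal (bnd hρ z (a τ) (v τ - u τ) (fun k => Dv τ k - Du τ k)) with hX
  have h1 : ‖cvf (et0 ρ) (v t - u t : V3) z‖ₑ ^ 2 ≤ ENNReal.ofReal (3 * C1 ^ 2) * X ^ 2 := by
    rw [norm_sq_eq_ee]
    have h2 : ∀ i, ‖⟪(ee i : E3), cvf (et0 ρ) (v t - u t : V3) z⟫_ℝ‖ₑ ^ 2 ≤
        ENNReal.ofReal (C1 ^ 2) * X ^ 2 := by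
      intro i
      rw [← inner_phi hρ (ee i) z (rel_div_sub P ht)]
      have h3 := duh P hρ (ee i) z ht
      rw [norm_ee, mul_one] at h3
      rw [ENNReal.ofReal_pow hC1.le, ← mul_pow]
      exact pow_le_pow_left₀ zero_le h3 2
    calc ∑ i, ‖⟪(ee i : E3), cvf (et0 ρ) (v t - u t : V3) z⟫_ℝ‖ₑ ^ 2
        ≤ ∑ _i : Fin 3, ENNReal.ofReal (C1 ^ 2) * X ^ 2 := Finset.sum_le_sum fun i _ => h2 i
      _ = _ := by
          rw [Finset.sum_const, Finset.card_univ, Fintype.card_fin, nsmul_eq_mul,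
            ENNReal.ofReal_mul (by norm_num), ← mul_assoc]
          norm_num
  refine h1.trans ?_
  gcongr
  set I : Fin 3 → ℝ≥0∞ := fun k => ∫⁻ τ in Ioo 0 t, ENNReal.ofReal 1 *
        ENNReal.ofReal (√(Qr hρ z (Dv τ k - Du τ k))) with hI
  set Hh : ℝ≥0∞ := ∫⁻ τ in Ioo 0 t, ENNReal.ofReal (Qr hρ z (v τ - u τ)) with hHh
  set W : ℝ≥0∞ := ∫⁻ τ in Ioo 0 t, ENNReal.ofReal (ε / √τ) *
        ENNReal.ofReal (√(Qr hρ z (v τ - u τ))) with hW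
  have mD : ∀ k, AEMeasurable (fun τ => ENNReal.ofReal 1 *
      ENNReal.ofReal (√(Qr hρ z (Dv τ k - Du τ k)))) (volume.restrict (Ioo 0 t)) := fun k =>
    ((aemeas_Qr hρ z (rel_meas_Dw P ht.2.le k)).sqrt.ennreal_ofReal).const_mul _
  have mW : AEMeasurable (fun τ => ENNReal.ofReal (Qr hρ z (v τ - u τ)))
      (volume.restrict (Ioo 0 t)) := (aemeas_Qr hρ z (rel_meas_w P ht.2.le)).ennreal_ofReal
  have hd : 6 * ENNReal.ofReal (√J) ≠ ∞ := by finiteness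
  have e1 := lint_alg (c := ENNReal.ofReal (√J)) (l := fun τ => ENNReal.ofReal (ε / √τ) *
    ENNReal.ofReal (√(Qr hρ z (v τ - u τ)))) mD mW hd
  have hX2 : X ≤ ENNReal.ofReal (√J) * (∑ k, I k) + 3 * Hh + 6 * ENNReal.ofReal (√J) * W := by
    rw [hI, hHh, hW, e1, hX]
    apply setLIntegral_mono_ae' measurableSet_Ioo
    refine Eventually.of_forall fun τ hτ => ?_
    have hQ := Qr_nonneg hρ z (v τ - u τ)
    exact pt_alg (fun k => Real.sqrt_nonneg _) (Real.sqrt_nonneg _) hQ (ha τ hτ)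
      (by positivity) (Real.sqrt_nonneg _)
  exact sq_alg hJ0.le rfl hX2

end Pool.Agent.TP
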