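import Pool.Agent.TP.Mul

/-!
# The localised part of the comparison field
-/

set_option autoImplicit false

namespace Pool.Agent.TP

open MeasureTheory Set Filter Topology Pool.Agent.TO Pool.Agent.TB Pool.Agent.TC
open scoped ENNReal NNReal Real InnerProductSpace SchwartzMap LineDeriv Laplacian

/-- a cut-off function with its derivatives -/
structure Cut (χ : E3 → ℝ) (χ1 : Fin 3 → E3 → ℝ) (χ2 : Fin 3 → Fin 3 → E3 → ℝ) (b1 b2 : ℝ)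
    (E : Set E3) : Prop where
  m0 : MB χ 1
  m1 : ∀ j, MB (χ1 j) b1
  m2 : ∀ k j, MB (χ2 k j) b2
  nn : ∀ x, 0 ≤ χ x
  l1 : ∀ j x, HasLineDerivAt ℝ χ (χ1 j x) x (ee j)
  l2 : ∀ k j x, HasLineDerivAt ℝ (χ1 j) (χ2 k j x) x (ee k)
  s0 : ∀ x, x ∉ E → χ x = 0
  s1 : ∀ j x, x ∉ E → χ1 j x = 0
  s2 : ∀ k j x, x ∉ E → χ2 k j x = 0
  mE : MeasurableSet E

variable {χ : E3 → ℝ} {χ1 : Fin 3 → E3 → ℝ} {χ2 : Fin 3 → Fin 3 → E3 → ℝ} {b1 b2 : ℝ}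
  {E : Set E3} {ρ ρ' : ℝ}

/-- the potential of a field -/
noncomputable def bj (hρ : 0 < ρ) (h : ρ ≤ ρ') (j : Fin 3) (f : V3) : V3 :=
  ∑ i, PM j i (Cj hρ h i f) - Cj hρ h j f

theorem continuous_bj (hρ : 0 < ρ) (h : ρ ≤ ρ') (j : Fin 3) : Continuous (bj hρ h j) := by
  unfold bj
  fun_prop

theorem norm_bj_le (hρ : 0 < ρ) (h : ρ ≤ ρ') (j : Fin 3) (f : V3) :
    ‖bj hρ h j f‖ ≤ 4 * (cg * ρ' * ‖f‖) := by
  unfold bj
  refine (norm_sub_le _ _).trans ?_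
  rw [Fin.sum_univ_three]
  have h0 := (norm_PM_le j 0 (Cj hρ h 0 f)).trans (norm_Cj_le hρ h 0 f)
  have h1 := (norm_PM_le j 1 (Cj hρ h 1 f)).trans (norm_Cj_le hρ h 1 f)
  have h2 := (norm_PM_le j 2 (Cj hρ h 2 f)).trans (norm_Cj_le hρ h 2 f)
  have h3 := norm_Cj_le hρ h j f
  have h4 := norm_add_le (PM j 0 (Cj hρ h 0 f) + PM j 1 (Cj hρ h 1 f)) (PM j 2 (Cj hρ h 2 f))
  have h5 := norm_add_le (PM j 0 (Cj hρ h 0 f)) (PM j 1 (Cj hρ h 1 f))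
  linarith

theorem bd_bj (hρ : 0 < ρ) (h : ρ ≤ ρ') (j : Fin 3) {f : V3} {A : ℝ} (hA : 0 ≤ A)
    (hf : Bd f A) : Bd (bj hρ h j f) (4 * (cg * ρ' * A)) := by
  unfold bj
  exact bd_mono (bd_sub (bd_sum3 fun i => bd_PM j i (bd_Cj hρ h i hA hf)) (bd_Cj hρ h j hA hf))
    (by linarith)

theorem weak_bj (hρ : 0 < ρ) (h : ρ ≤ ρ') (j : Fin 3) {k : Fin 3} {f g : V3}
    (hfg : IsWeakDeriv k f g) : IsWeakDeriv k (bj hρ h j f) (bj hρ h j g) := by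
  unfold bj
  exact (weak_sum fun i => weak_PM j i (weak_Cj hρ h i hfg)).sub (weak_Cj hρ h j hfg)

theorem bj_add (hρ : 0 < ρ) (h : ρ ≤ ρ') (j : Fin 3) (f g : V3) :
    bj hρ h j (f + g) = bj hρ h j f + bj hρ h j g := by
  unfold bj
  simp only [map_add, Finset.sum_add_distrib]
  abel

theorem bj_smul (hρ : 0 < ρ) (h : ρ ≤ ρ') (j : Fin 3) (c : ℝ) (f : V3) :
    bj hρ h j (c • f) = c • bj hρ h j f := by
  unfold bj
  simp only [map_smul, smul_sub, Finset.smul_sum]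

/-- the divergence of the potential -/
theorem sum_bj (hρ : 0 < ρ) (h : ρ ≤ ρ') {f : V3} (hf : IsDivFree f) {df : Fin 3 → V3}
    (hd : ∀ k, IsWeakDeriv k f (df k)) : ∑ j, bj hρ h j (df j) = NP hρ h f := by
  unfold bj
  rw [Finset.sum_sub_distrib, Cj_sum_weak hρ h hd, sub_neg_eq_add, Finset.sum_comm]
  have h1 : ∀ i, ∑ j, PM j i (Cj hρ h i (df j)) = 0 := by
    intro i
    have h2 : ∀ j, PM j i (Cj hρ h i (df j)) = Cj hρ h i (PM j i (df j)) := fun j =>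
      PM_cvL _ j i (df j)
    simp only [h2]
    rw [← map_sum, sum_PM_div hf hd i, map_zero]
  simp only [h1, Finset.sum_const_zero, zero_add]

/-- the localised field -/
noncomputable def YY (hc : Cut χ χ1 χ2 b1 b2 E) (hρ : 0 < ρ) (h : ρ ≤ ρ') (f : V3) : V3 :=
  mulV hc.m0 (NP hρ h f) + ∑ j, mulV (hc.m1 j) (bj hρ h j f)

/-- its derivative -/
noncomputable def DY (hc : Cut χ χ1 χ2 b1 b2 E) (hρ : 0 < ρ) (h : ρ ≤ ρ') (k : Fin 3)
    (f g : V3) : V3 :=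
  (mulV (hc.m1 k) (NP hρ h f) + mulV hc.m0 (NP hρ h g)) +
    ∑ j, (mulV (hc.m2 k j) (bj hρ h j f) + mulV (hc.m1 j) (bj hρ h j g))

variable (hc : Cut χ χ1 χ2 b1 b2 E) (hρ : 0 < ρ) (h : ρ ≤ ρ')

include hc in
theorem continuous_YY : Continuous (YY hc hρ h) := by
  have := continuous_bj hρ h
  unfold YY
  fun_prop

include hc in
theorem continuous_DY (k : Fin 3) : Continuous (Function.uncurry (DY hc hρ h k)) := by
  have := continuous_bj hρ h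
  unfold DY Function.uncurry
  fun_prop

theorem weak_NP {k : Fin 3} {f g : V3} (hfg : IsWeakDeriv k f g) :
    IsWeakDeriv k (NP hρ h f) (NP hρ h g) := by
  rw [NP_apply, NP_apply]
  exact (weak_SP hρ hfg).sub (weak_SP _ hfg)

theorem weak_YY {f : V3} {df : Fin 3 → V3} (hd : ∀ k, IsWeakDeriv k f (df k)) (k : Fin 3) :
    IsWeakDeriv k (YY hc hρ h f) (DY hc hρ h k f (df k)) := by
  have w1 := weak_mulV (k := k) hc.m0 (hc.m1 k) (hc.l1 k) (f := NP hρ h f)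
    (df := fun k => NP hρ h (df k)) (fun k => weak_NP hρ h (hd k))
  have w2 : ∀ j, IsWeakDeriv k (mulV (hc.m1 j) (bj hρ h j f))
      (mulV (hc.m2 k j) (bj hρ h j f) + mulV (hc.m1 j) (bj hρ h j (df k))) := fun j =>
    weak_mulV (k := k) (hc.m1 j) (hc.m2 k j) (hc.l2 k j) (f := bj hρ h j f)
      (df := fun k => bj hρ h j (df k)) (fun k => weak_bj hρ h j (hd k))
  exact weak_add w1 (weak_sum w2)

/-- the form of `YY` as a divergence -/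
theorem inner_YY_schwartz {f : V3} (hf : IsDivFree f) {df : Fin 3 → V3}
    (hd : ∀ k, IsWeakDeriv k f (df k)) {g : V3} {dg : Fin 3 → V3}
    (hg : ∀ k, IsWeakDeriv k g (dg k)) :
    ⟪g, YY hc hρ h f⟫_ℝ = -∑ j, ⟪dg j, mulV hc.m0 (bj hρ h j f)⟫_ℝ := by
  have h1 : ∀ j, ⟪dg j, mulV hc.m0 (bj hρ h j f)⟫_ℝ =
      -⟪g, mulV (hc.m1 j) (bj hρ h j f) + mulV hc.m0 (bj hρ h j (df j))⟫_ℝ := by
    intro j
    have w := weak_mulV (k := j) hc.m0 (hc.m1 j) (hc.l1 j) (f := bj hρ h j f)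
      (df := fun k => bj hρ h j (df k)) (fun k => weak_bj hρ h j (hd k))
    exact weak_parts (k := j) (f := g) (g := mulV hc.m0 (bj hρ h j f)) (df := dg)
      (dg := fun j' => mulV (hc.m1 j') (bj hρ h j f) + mulV hc.m0 (bj hρ h j (df j'))) hg w
  simp only [h1, Finset.sum_neg_distrib, neg_neg]
  rw [← inner_sum, Finset.sum_add_distrib, ← map_sum, sum_bj hρ h hf hd, add_comm]
  rfl

theorem div_schwartz {ψ : 𝓢(E3, E3)} (hψ : TestDivFree ψ) : IsDivFree (emb ψ) :=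
  div_of_line (g := fun k => (∂_{ee k} ψ : 𝓢(E3, E3))) (ψ.memLp 2 (volume : Measure E3))
    (fun k => (∂_{ee k} ψ).memLp 2 (volume : Measure E3)) (line_schwartz ψ) hψ

theorem inner_YY {f : V3} (hf : IsDivFree f) {g : V3} {dg : Fin 3 → V3}
    (hg : ∀ k, IsWeakDeriv k g (dg k)) :
    ⟪g, YY hc hρ h f⟫_ℝ = -∑ j, ⟪dg j, mulV hc.m0 (bj hρ h j f)⟫_ℝ := by
  obtain ⟨ψ, h1, h2⟩ := adm_of_divFree hf
  have l1 : Tendsto (fun n => ⟪g, YY hc hρ h (emb (ψ n))⟫_ℝ) atTop (𝓝 ⟪g, YY hc hρ h f⟫_ℝ) :=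
    tendsto_const_nhds.inner (((continuous_YY hc hρ h).tendsto f).comp h2)
  have l2 : Tendsto (fun n => -∑ j, ⟪dg j, mulV hc.m0 (bj hρ h j (emb (ψ n)))⟫_ℝ) atTop
      (𝓝 (-∑ j, ⟪dg j, mulV hc.m0 (bj hρ h j f)⟫_ℝ)) := by
    refine (tendsto_finsetSum _ fun j _ => ?_).neg
    exact tendsto_const_nhds.inner (((mulV hc.m0).continuous.tendsto _).comp
      (((continuous_bj hρ h j).tendsto f).comp h2))
  refine tendsto_nhds_unique l1 (l2.congr fun n => ?_)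
  exact (inner_YY_schwartz hc hρ h (div_schwartz (h1 n)) (weak_schwartz (ψ n)) hg).symm

/-- the antisymmetric part of the gradient -/
noncomputable def Om (dg : Fin 3 → V3) (j : Fin 3) : V3 := dg j - ∑ i, PM j i (dg i)

theorem pair_alg (dg : Fin 3 → V3) (f : V3) :
    -∑ j, ⟪dg j, mulV hc.m0 (bj hρ h j f)⟫_ℝ =
      ∑ j, ⟪mulV hc.m0 (Om dg j), Cj hρ h j f⟫_ℝ := by
  have h1 : ∀ j, ⟪dg j, mulV hc.m0 (bj hρ h j f)⟫_ℝ =
      ∑ i, ⟪mulV hc.m0 (PM i j (dg j)), Cj hρ h i f⟫_ℝ -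
        ⟪mulV hc.m0 (dg j), Cj hρ h j f⟫_ℝ := by
    intro j
    rw [bj, map_sub, map_sum, inner_sub_right, inner_sum]
    simp only [← mulV_symm hc.m0, inner_PM, PM_mulV]
  have h2 : ∀ j, ⟪mulV hc.m0 (Om dg j), Cj hρ h j f⟫_ℝ =
      ⟪mulV hc.m0 (dg j), Cj hρ h j f⟫_ℝ -
        ∑ i, ⟪mulV hc.m0 (PM j i (dg i)), Cj hρ h j f⟫_ℝ := by
    intro j
    rw [Om, map_sub, map_sum, inner_sub_left, sum_inner]
  simp only [h1, h2, Finset.sum_sub_distrib, neg_sub]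
  rw [Finset.sum_comm]

/-- the adjoint field -/
noncomputable def XX (hc : Cut χ χ1 χ2 b1 b2 E) (hρ : 0 < ρ) (h : ρ ≤ ρ') (dg : Fin 3 → V3) : V3 :=
  ∑ j, Cj hρ h j (mulV hc.m0 (Om dg j))

theorem inner_XX (dg : Fin 3 → V3) (f : V3) :
    ⟪XX hc hρ h dg, f⟫_ℝ = -∑ j, ⟪mulV hc.m0 (Om dg j), Cj hρ h j f⟫_ℝ := by
  rw [XX, sum_inner, ← Finset.sum_neg_distrib]
  refine Finset.sum_congr rfl fun j _ => ?_
  rw [anti_Cj, neg_neg]

theorem inner_YY_XX {f : V3} (hf : IsDivFree f) {g : V3} {dg : Fin 3 → V3}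
    (hg : ∀ k, IsWeakDeriv k g (dg k)) :
    ⟪g, YY hc hρ h f⟫_ℝ = -⟪XX hc hρ h dg, f⟫_ℝ := by
  rw [inner_YY hc hρ h hf hg, pair_alg hc hρ h dg f, inner_XX hc hρ h dg f, neg_neg]

/-- the gradient of a Schwartz function -/
noncomputable def gR (φ : 𝓢(E3, ℝ)) : 𝓢(E3, E3) :=
  ∑ j, (∂_{ee j} φ).postcompCLM (ContinuousLinearMap.toSpanSingleton ℝ (ee j : E3))

theorem gR_apply (φ : 𝓢(E3, ℝ)) (x : E3) (j : Fin 3) : gR φ x j = (∂_{ee j} φ) x := by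
  unfold gR
  rw [SchwartzMap.sum_apply, Fin.sum_univ_three]
  change ((∂_{ee 0} φ) x • (ee 0 : E3) + (∂_{ee 1} φ) x • (ee 1 : E3) +
    (∂_{ee 2} φ) x • (ee 2 : E3)) j = _
  fin_cases j <;> simp [ee]

theorem inner_gR (φ : 𝓢(E3, ℝ)) (f : V3) : ⟪emb (gR φ), f⟫_ℝ = ∫ x, fderiv ℝ φ x (f x) := by
  rw [emb_apply, ← integral_inner_eq]
  congr 1
  ext1 x
  rw [fderiv_eq_sum, PiLp.inner_apply]
  refine Finset.sum_congr rfl fun j _ => ?_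
  rw [gR_apply]
  rfl

theorem div_iff (f : V3) : IsDivFree f ↔ ∀ φ, ⟪emb (gR φ), f⟫_ℝ = 0 := by
  unfold IsDivFree
  simp only [inner_gR]

theorem lineDeriv_comm_R (φ : 𝓢(E3, ℝ)) (i j : Fin 3) (x : E3) :
    (∂_{ee i} (∂_{ee j} φ)) x = (∂_{ee j} (∂_{ee i} φ)) x := by
  set L : ℝ →L[ℝ] E3 := ContinuousLinearMap.toSpanSingleton ℝ (ee 0 : E3) with hL
  have h1 := lineDeriv_comm (φ.postcompCLM L) i j
  simp only [lineDeriv_postcomp] at h1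
  have h2 := congrArg (fun ψ : 𝓢(E3, E3) => ψ x 0) h1
  change ((∂_{ee i} (∂_{ee j} φ)) x • (ee 0 : E3)) 0 = ((∂_{ee j} (∂_{ee i} φ)) x • (ee 0 : E3)) 0 at h2
  simpa [ee] using h2

/-- symmetry of the second derivatives -/
theorem lineDeriv_gR (φ : 𝓢(E3, ℝ)) (i j : Fin 3) (x : E3) :
    (∂_{ee i} (gR φ)) x j = (∂_{ee i} (∂_{ee j} φ)) x := by
  have h1 := line_schwartz (gR φ) i x
  have h2 : HasLineDerivAt ℝ (fun x => gR φ x j) ((∂_{ee i} (gR φ)) x j) x (ee i) := by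
    unfold HasLineDerivAt at h1 ⊢
    exact ((EuclideanSpace.proj (𝕜 := ℝ) j : E3 →L[ℝ] ℝ).hasFDerivAt).comp_hasDerivAt _ h1
  have h3 : (fun x => gR φ x j) = (∂_{ee j} φ : 𝓢(E3, ℝ)) := funext fun x => gR_apply φ x j
  rw [h3] at h2
  have h4 : HasLineDerivAt ℝ (∂_{ee j} φ : 𝓢(E3, ℝ)) ((∂_{ee i} (∂_{ee j} φ)) x) x (ee i) := by
    have h5 := ((∂_{ee j} φ).differentiableAt (x := x)).hasFDerivAt.hasLineDerivAt (ee i)
    rwa [← SchwartzMap.lineDerivOp_apply_eq_fderiv] at h5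
  unfold HasLineDerivAt at h2 h4
  exact h2.unique h4

theorem Om_gR (φ : 𝓢(E3, ℝ)) (j : Fin 3) : Om (fun k => emb (∂_{ee k} (gR φ))) j = 0 := by
  unfold Om
  rw [sub_eq_zero]
  apply Lp.ext
  rw [Fin.sum_univ_three]
  filter_upwards [Lp.coeFn_add (PM j 0 (emb (∂_{ee 0} (gR φ))) + PM j 1 (emb (∂_{ee 1} (gR φ))))
      (PM j 2 (emb (∂_{ee 2} (gR φ)))), Lp.coeFn_add (PM j 0 (emb (∂_{ee 0} (gR φ))))
      (PM j 1 (emb (∂_{ee 1} (gR φ)))), coe_PM j 0 (emb (∂_{ee 0} (gR φ))),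
      coe_PM j 1 (emb (∂_{ee 1} (gR φ))), coe_PM j 2 (emb (∂_{ee 2} (gR φ))),
      (∂_{ee 0} (gR φ)).coeFn_toLp 2 (volume : Measure E3),
      (∂_{ee 1} (gR φ)).coeFn_toLp 2 (volume : Measure E3),
      (∂_{ee 2} (gR φ)).coeFn_toLp 2 (volume : Measure E3),
      (∂_{ee j} (gR φ)).coeFn_toLp 2 (volume : Measure E3)] with x h1 h2 h3 h4 h5 h6 h7 h8 h9
  rw [h1, Pi.add_apply, h2, Pi.add_apply, h3, h4, h5, emb_apply, emb_apply, emb_apply, emb_apply,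
    h6, h7, h8, h9, lineDeriv_gR, lineDeriv_gR, lineDeriv_gR]
  ext i
  rw [lineDeriv_gR]
  fin_cases i <;> simp [ee, lineDeriv_comm_R φ j]

theorem div_YY {f : V3} (hf : IsDivFree f) : IsDivFree (YY hc hρ h f) := by
  rw [div_iff]
  intro φ
  rw [inner_YY hc hρ h hf (weak_schwartz (gR φ)), pair_alg hc hρ h _ f]
  simp only [Om_gR, map_zero, inner_zero_left, Finset.sum_const_zero]

theorem PS_gR (φ : 𝓢(E3, ℝ)) (i m : Fin 3) :
    PS i m (gR φ) = ∂_{ee i} (φ.postcompCLM (ContinuousLinearMap.toSpanSingleton ℝ (ee m : E3))) := by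
  rw [lineDeriv_postcomp]
  ext x n
  rw [PS_apply, gR_apply]
  rfl

theorem swap_gR (φ : 𝓢(E3, ℝ)) (i j m : Fin 3) :
    PM i m (Cj hρ h j (emb (gR φ))) = PM j m (Cj hρ h i (emb (gR φ))) := by
  have h1 : ∀ i j, PM i m (Cj hρ h j (emb (gR φ))) = Cj hρ h j (PM i m (emb (gR φ))) :=
    fun i j => PM_cvL _ i m _
  rw [h1, h1, ← emb_PS, ← emb_PS, PS_gR, PS_gR, Cj_swap]

theorem div_XX (dg : Fin 3 → V3) : IsDivFree (XX hc hρ h dg) := by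
  rw [div_iff]
  intro φ
  rw [real_inner_comm, inner_XX hc hρ h dg, neg_eq_zero]
  set G := emb (gR φ) with hG
  have h2 : ∀ j, ⟪mulV hc.m0 (Om dg j), Cj hρ h j G⟫_ℝ =
      ⟪mulV hc.m0 (dg j), Cj hρ h j G⟫_ℝ -
        ∑ i, ⟪mulV hc.m0 (dg i), PM i j (Cj hρ h j G)⟫_ℝ := by
    intro j
    rw [Om, map_sub, map_sum, inner_sub_left, sum_inner]
    congr 1
    refine Finset.sum_congr rfl fun i _ => ?_
    rw [inner_PM, PM_mulV]
  simp only [h2, Finset.sum_sub_distrib]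
  rw [sub_eq_zero, Finset.sum_comm]
  refine Finset.sum_congr rfl fun i _ => ?_
  rw [← inner_sum]
  congr 1
  have h3 : ∀ j, PM i j (Cj hρ h j G) = PM j j (Cj hρ h i G) := fun j => swap_gR hρ h φ i j j
  simp only [h3]
  rw [sum_PM]

end Pool.Agent.TP
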