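import Pool.Agent.TP.Sum
import Pool.Agent.TG.Grow

/-!
# Uniqueness
-/

set_option autoImplicit false

namespace Pool.Agent.TP

open MeasureTheory Set Filter Topology Pool.Agent.TO Pool.Agent.TB Pool.Agent.TC
open scoped ENNReal NNReal Real InnerProductSpace

theorem weak_unique {k : Fin 3} {f g g' : V3} (h : IsWeakDeriv k f g) (h' : IsWeakDeriv k f g') :
    g = g' := by
  rw [weak_iff] at h h'
  apply ext_inner_left ℝ
  intro q
  obtain ⟨ψ, hψ⟩ := exists_seq_toLp q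
  have l1 : Tendsto (fun n => ⟪emb (ψ n), g⟫_ℝ) atTop (𝓝 ⟪q, g⟫_ℝ) := hψ.inner tendsto_const_nhds
  have l2 : Tendsto (fun n => ⟪emb (ψ n), g'⟫_ℝ) atTop (𝓝 ⟪q, g'⟫_ℝ) :=
    hψ.inner tendsto_const_nhds
  refine tendsto_nhds_unique l1 (l2.congr fun n => ?_)
  have h1 := h (ψ n)
  have h2 := h' (ψ n)
  linarith

variable {T : ℝ} {u₀ : V3} {u v : ℝ → V3} {a : ℝ → ℝ} {Du Dv : ℝ → Fin 3 → V3} {ε : ℝ → ℝ} {p : ℝ}

/-- the improvement of the bound at one time -/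
theorem improve (P : Rel T u₀ u₀ u v a Du Dv) (hp0 : 0 < p) (hp : p < 8 / 3)
    (hmono : MonotoneOn ε (Ioo 0 T)) (hlow : ∀ t ∈ Ioo 0 T, t * √t ≤ ε t)
    (hae : ∀ t ∈ Ioo 0 T, a t = ε t / √t)
    (hb : ∀ᵐ t ∂(volume.restrict (Ioo 0 T)), Bd (u t) (ε t / √t) ∧ ∀ k, Bd (Du t k) (ε t / t))
    (hint : IntegrableOn (fun t => ε t ^ p / t) (Ioo 0 T) volume) {S M : ℝ} (hS : 0 < S)
    (hS4 : S ≤ 1 / 4) (hST : 2 * S < T) (hqS : qe ε S ≤ 1 / 2)
    (hM : ∀ s ∈ Ioc 0 (4 * S ^ 2), RE u₀ u v Dv s ≤ M) :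
    RE u₀ u v Dv (S ^ 2) ≤ (2 * (4 * Cf + 8 * Cf ^ 2) *
      ((1 + 2 / (32 - 12 * p)) ^ 2 * (2 * II ε p (2 * S))) + 2 * (Cf * qe ε S ^ 20)) * M := by
  have hCf := Cf_pos
  have hT0 : 0 < T := by linarith
  have h4 : 4 * S ^ 2 ≤ S := by nlinarith
  have h4T : 4 * S ^ 2 < T := by linarith
  have hpos : ∀ t ∈ Ioo 0 T, 0 < ε t := fun t ht => by
    have h1 := hlow t ht
    have h2 : 0 < t * √t := mul_pos ht.1 (Real.sqrt_pos.2 ht.1)
    linarith
  have hSk : ∀ k : ℕ, 0 < S / 2 ^ k := fun k => by positivity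
  have hSle : ∀ k : ℕ, S / 2 ^ k ≤ S := fun k =>
    div_le_self hS.le (one_le_pow₀ (by norm_num))
  have hmem : ∀ k : ℕ, S / 2 ^ k ∈ Ioo 0 T := fun k => ⟨hSk k, (hSle k).trans_lt (by linarith)⟩
  have hεk : ∀ k : ℕ, 0 < ε (S / 2 ^ k) := fun k => hpos _ (hmem k)
  set q : ℕ → ℝ := fun k => qe ε (S / 2 ^ k) with hq
  have hq0 : ∀ k, 0 < q k := fun k => qe_pos (hεk k)
  have hqle : ∀ k, q k ≤ q 0 := fun k => by
    have e0 : q 0 = ε S ^ (((12:ℕ) : ℝ)⁻¹) := by simp [hq, qe]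
    rw [e0]
    exact Real.rpow_le_rpow (hεk k).le (hmono (hmem k) ⟨hS, by linarith⟩ (hSle k)) (by positivity)
  have eq0 : q 0 = qe ε S := by simp [hq]
  have hq2 : ∀ k, q k ≤ 1 / 2 := fun k => (hqle k).trans (eq0 ▸ hqS)
  have hq12 : ∀ k, q k ^ 12 = ε (S / 2 ^ k) := fun k => qe_pow (hεk k)
  have hq8 : ∀ k, S / 2 ^ k ≤ q k ^ 8 := fun k => le_qe (hSk k) (hlow _ (hmem k))
  have hfar : ∀ k, (S / 2 ^ k / q k ^ 4) ^ 2 ≤ S / 2 ^ k := fun k => by
    have h1 := hq8 k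
    have h2 := hSk k
    have h3 := hq0 k
    rw [div_pow, div_le_iff₀ (by positivity)]
    have e : (q k ^ 4) ^ 2 = q k ^ 8 := by ring
    rw [e, sq]
    gcongr
  have hnear : ∀ k : ℕ, 4 * (S / 2 ^ k) ^ 2 ≤ S / 2 ^ k := fun k => by
    have h1 := hSk k
    have h2 := hSle k
    nlinarith
  have hsum_le := sum_block hp0 hmono hpos hint hS hST.le
  set K : ℝ := (1 + 2 / (32 - 12 * p)) ^ 2 with hK
  have hK0 : 0 ≤ K := sq_nonneg _
  have hme : ∀ k, me (q k) ≤ K * ε (S / 2 ^ k) ^ p := fun k => by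
    have h1 := me_le hp (hq0 k) (by linarith [hq2 k])
    rwa [qe_rpow (hεk k)] at h1
  have hpart : ∀ n, ∑ k ∈ Finset.range n, me (q k) ≤ K * (2 * II ε p (2 * S)) := fun n => by
    calc ∑ k ∈ Finset.range n, me (q k) ≤ ∑ k ∈ Finset.range n, K * ε (S / 2 ^ k) ^ p :=
          Finset.sum_le_sum fun k _ => hme k
      _ = K * ∑ k ∈ Finset.range n, ε (S / 2 ^ k) ^ p := by rw [Finset.mul_sum]
      _ ≤ _ := mul_le_mul_of_nonneg_left (hsum_le n) hK0
  have hsm : Summable fun k => me (q k) := summable_of_sum_range_le (fun k => me_nonneg _) hpart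
  have hts : ∑' k, me (q k) ≤ K * (2 * II ε p (2 * S)) :=
    Real.tsum_le_of_sum_range_le (fun k => me_nonneg _) hpart
  have hM0 : 0 ≤ M := ((sq_nonneg _).trans (P.le_RE ⟨by positivity, h4T⟩)).trans
    (hM (4 * S ^ 2) ⟨by positivity, le_rfl⟩)
  have hlim : Tendsto q atTop (𝓝 0) := by
    have l1 : Tendsto (fun k : ℕ => S / 2 ^ k) atTop (𝓝[>] 0) := by
      rw [tendsto_nhdsWithin_iff]
      refine ⟨?_, Eventually.of_forall fun k => hSk k⟩
      have h6 : Tendsto (fun k : ℕ => S * (1 / 2 : ℝ) ^ k) atTop (𝓝 (S * 0)) :=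
        (tendsto_pow_atTop_nhds_zero_of_lt_one (by norm_num) (by norm_num)).const_mul S
      rw [mul_zero] at h6
      refine h6.congr fun k => ?_
      rw [one_div, inv_pow, div_eq_mul_inv]
    exact (tendsto_qe (tendsto_eps hp0 hT0 hmono hpos hint)).comp l1
  have ham : AEStronglyMeasurable a (volume.restrict (Ioo 0 (4 * S ^ 2))) := by
    have hsub : Ioo 0 (4 * S ^ 2) ⊆ Ioo 0 T := Ioo_subset_Ioo le_rfl h4T.le
    have h1 : AEMeasurable ε (volume.restrict (Ioo 0 (4 * S ^ 2))) :=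
      aemeasurable_restrict_of_monotoneOn measurableSet_Ioo (hmono.mono hsub)
    have h2 : AEMeasurable (fun t => ε t / √t) (volume.restrict (Ioo 0 (4 * S ^ 2))) :=
      h1.div (by fun_prop)
    refine (h2.congr ?_).aestronglyMeasurable
    filter_upwards [ae_restrict_mem measurableSet_Ioo] with t ht
    exact (hae t (hsub ht)).symm
  have key := chain P (q := q) hq0 hq2 hS h4T
    (fun k => (hfar k).trans (hmem k).2.le) ham
    (by
      intro k s hs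
      have hsk : s < S / 2 ^ k := hs.2.trans_le (hnear k)
      have hsT : s ∈ Ioo 0 T := ⟨hs.1, hsk.trans (hmem k).2⟩
      rw [hae s hsT, hq12 k]
      have := hmono hsT (hmem k) hsk.le
      gcongr)
    (by
      intro k
      have hsub : Ioo 0 ((S / 2 ^ k / q k ^ 4) ^ 2) ⊆ Ioo 0 T :=
        Ioo_subset_Ioo le_rfl ((hfar k).trans (hmem k).2.le)
      filter_upwards [ae_restrict_of_ae_restrict_of_subset hsub hb,
        ae_restrict_mem measurableSet_Ioo] with s h1 hs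
      have hsk : s < S / 2 ^ k := hs.2.trans_le (hfar k)
      have h2 := hmono (hsub hs) (hmem k) hsk.le
      have hs0 := hs.1
      rw [hq12 k]
      exact ⟨bd_mono h1.1 (by gcongr), fun j => bd_mono (h1.2 j) (by gcongr)⟩)
    hM hlim hsm
  refine key.trans ?_
  rw [eq0]
  gcongr

/-- the relative energy is bounded -/
theorem RE_le (P : Rel T u₀ u₀ u v a Du Dv) {t : ℝ} (ht : t ∈ Ico 0 T) :
    RE u₀ u v Dv t ≤ 5 * ‖u₀‖ ^ 2 := by
  have h1 := P.hu.norm_le ht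
  have h2 := P.hv.norm_le ht
  have h3 : ‖v t - u t‖ ≤ 2 * ‖u₀‖ := (norm_sub_le _ _).trans (by linarith)
  have h4 : 0 ≤ ∫ τ in Ioo 0 t, ∑ k, ‖Dv τ k‖ ^ 2 :=
    integral_nonneg fun τ => Finset.sum_nonneg fun k _ => by positivity
  unfold RE
  nlinarith [norm_nonneg (v t - u t), norm_nonneg (v t), norm_nonneg u₀]

/-- growth on an interval away from zero -/
theorem grow (P : Rel T u₀ u₀ u v a Du Dv) (hmono : MonotoneOn ε (Ioo 0 T))
    (h0 : ∀ t ∈ Ioo 0 T, 0 ≤ ε t) (hae : ∀ t ∈ Ioo 0 T, a t = ε t / √t) {s t : ℝ} (hs : 0 < s)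
    (hst : s ≤ t) (ht : t < T) :
    RE u₀ u v Dv t ≤ RE u₀ u v Dv s * Real.exp (1 / 2 * (ε t ^ 2 / s * (t - s))) := by
  have hsub : Ioo s t ⊆ Ioo 0 T := Ioo_subset_Ioo hs.le ht.le
  have htT : t ∈ Ioo 0 T := ⟨hs.trans_le hst, ht⟩
  have hb : ∀ τ ∈ Ioo s t, a τ ^ 2 ≤ ε t ^ 2 / s := by
    intro τ hτ
    have hτ0 : 0 < τ := hs.trans hτ.1
    have h1 := hmono (hsub hτ) htT hτ.2.le
    have h2 := h0 τ (hsub hτ)
    rw [hae τ (hsub hτ), div_pow, Real.sq_sqrt hτ0.le]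
    have := hτ.1.le
    gcongr
  have hm : AEMeasurable (fun τ => a τ ^ 2) (volume.restrict (Ioo s t)) := by
    have h1 : AEMeasurable ε (volume.restrict (Ioo s t)) :=
      aemeasurable_restrict_of_monotoneOn measurableSet_Ioo (hmono.mono hsub)
    have h2 : AEMeasurable (fun t => (ε t / √t) ^ 2) (volume.restrict (Ioo s t)) :=
      (h1.div (by fun_prop)).pow_const 2
    refine h2.congr ?_
    filter_upwards [ae_restrict_mem measurableSet_Ioo] with τ hτ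
    rw [hae τ (hsub hτ)]
  have hi : IntegrableOn (fun τ => a τ ^ 2) (Ioo s t) volume := by
    refine Integrable.of_bound hm.aestronglyMeasurable (ε t ^ 2 / s) ?_
    filter_upwards [ae_restrict_mem measurableSet_Ioo] with τ hτ
    rw [Real.norm_eq_abs, abs_of_nonneg (sq_nonneg _)]
    exact hb τ hτ
  refine (TG.growth P hs.le hst ht hi).trans ?_
  have hRE : 0 ≤ RE u₀ u v Dv s := (sq_nonneg _).trans (P.le_RE ⟨hs.le, hst.trans_lt ht⟩)
  have h3 : ∫ τ in Ioo s t, a τ ^ 2 ≤ ε t ^ 2 / s * (t - s) := by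
    calc ∫ τ in Ioo s t, a τ ^ 2 ≤ ∫ _τ in Ioo s t, ε t ^ 2 / s :=
          setIntegral_mono_on hi (integrableOn_const (by simp) (by simp)) measurableSet_Ioo hb
      _ = ε t ^ 2 / s * (t - s) := by
          rw [setIntegral_const, measureReal_def, Real.volume_Ioo,
            ENNReal.toReal_ofReal (by linarith), smul_eq_mul]
          ring
  gcongr

theorem core (P : Rel T u₀ u₀ u v a Du Dv) (hT : 0 < T) (hp0 : 0 < p) (hp : p < 8 / 3)
    (hmono : MonotoneOn ε (Ioo 0 T)) (hlow : ∀ t ∈ Ioo 0 T, t * √t ≤ ε t)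
    (hae : ∀ t ∈ Ioo 0 T, a t = ε t / √t)
    (hb : ∀ᵐ t ∂(volume.restrict (Ioo 0 T)), Bd (u t) (ε t / √t) ∧ ∀ k, Bd (Du t k) (ε t / t))
    (hint : IntegrableOn (fun t => ε t ^ p / t) (Ioo 0 T) volume) :
    ∀ t ∈ Ico 0 T, u t = v t := by
  have hpos : ∀ t ∈ Ioo 0 T, 0 < ε t := fun t ht => by
    have h1 := hlow t ht
    have h2 : 0 < t * √t := mul_pos ht.1 (Real.sqrt_pos.2 ht.1)
    linarith
  have hteps := tendsto_eps hp0 hT hmono hpos hint
  have htq := tendsto_qe hteps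
  have htI := tendsto_II hint hT
  set η : ℝ → ℝ := fun S => 2 * (4 * Cf + 8 * Cf ^ 2) *
      ((1 + 2 / (32 - 12 * p)) ^ 2 * (2 * II ε p (2 * S))) + 2 * (Cf * qe ε S ^ 20) with hη
  have htη : Tendsto η (𝓝[>] 0) (𝓝 0) := by
    have h1 := (((htI.const_mul 2).const_mul ((1 + 2 / (32 - 12 * p)) ^ 2)).const_mul
      (2 * (4 * Cf + 8 * Cf ^ 2))).add (((htq.pow 20).const_mul Cf).const_mul 2)
    simpa using h1
  -- the choice of the time
  have hev : ∀ᶠ S in 𝓝[>] (0:ℝ), η S < 1 / 16 ∧ qe ε S < 1 / 2 ∧ S < 1 / 4 ∧ 2 * S < T ∧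
      ε S < 1 ∧ 0 < S := by
    have e1 := htη.eventually_lt_const (u := 1 / 16) (by norm_num)
    have e2 := htq.eventually_lt_const (u := 1 / 2) (by norm_num)
    have e3 := hteps.eventually_lt_const (u := 1) (by norm_num)
    have e4 : ∀ᶠ S in 𝓝[>] (0:ℝ), S ∈ Ioo 0 (min (1 / 4) (T / 2)) :=
      Ioo_mem_nhdsGT (lt_min (by norm_num) (by positivity))
    filter_upwards [e1, e2, e3, e4] with S h1 h2 h3 h4
    have h5 := h4.2.trans_le (min_le_left _ _)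
    have h6 := h4.2.trans_le (min_le_right _ _)
    exact ⟨h1, h2, h5, by linarith, h3, h4.1⟩
  obtain ⟨S₁, hS₁, hS₁all⟩ : ∃ S₁ > 0, ∀ S ∈ Ioc 0 S₁, η S < 1 / 16 ∧ qe ε S < 1 / 2 ∧
      S < 1 / 4 ∧ 2 * S < T ∧ ε S < 1 ∧ 0 < S := by
    rw [eventually_nhdsWithin_iff, Metric.eventually_nhds_iff] at hev
    obtain ⟨δ, hδ, hball⟩ := hev
    refine ⟨δ / 2, by positivity, fun S hS => ?_⟩
    apply hball _ hS.1
    rw [Real.dist_eq, sub_zero, abs_of_pos hS.1]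
    linarith [hS.2]
  obtain ⟨-, -, hS4, hST, hε1, -⟩ := hS₁all S₁ ⟨hS₁, le_rfl⟩
  have h4S : 4 * S₁ ^ 2 ≤ S₁ := by nlinarith
  have h4T : 4 * S₁ ^ 2 < T := by linarith
  -- the improvement on the whole interval
  have himp : ∀ M, (∀ s ∈ Ioc 0 (4 * S₁ ^ 2), RE u₀ u v Dv s ≤ M) →
      ∀ s ∈ Ioc 0 (4 * S₁ ^ 2), RE u₀ u v Dv s ≤ M / 2 := by
    intro M hM
    have hM0 : 0 ≤ M := ((sq_nonneg _).trans (P.le_RE ⟨by positivity, h4T⟩)).trans
      (hM (4 * S₁ ^ 2) ⟨by positivity, le_rfl⟩)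
    have hsmall : ∀ s ∈ Ioc 0 (S₁ ^ 2), RE u₀ u v Dv s ≤ 1 / 16 * M := by
      intro s hs
      have hss : √s ^ 2 = s := Real.sq_sqrt hs.1.le
      have hs0 : 0 < √s := Real.sqrt_pos.2 hs.1
      have hs1 : √s ≤ S₁ := by
        rw [Real.sqrt_le_left hS₁.le]
        exact hs.2
      obtain ⟨g1, g2, g3, g4, -, -⟩ := hS₁all (√s) ⟨hs0, hs1⟩
      have h5 := improve P hp0 hp hmono hlow hae hb hint hs0 g3.le g4 g2.le (M := M) (by
        intro x hx
        refine hM x ⟨hx.1, hx.2.trans ?_⟩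
        rw [hss]
        linarith [hs.2])
      rw [hss] at h5
      refine h5.trans ?_
      change η (√s) * M ≤ _
      gcongr
    intro s hs
    rcases le_or_gt s (S₁ ^ 2) with h6 | h6
    · have := hsmall s ⟨hs.1, h6⟩
      linarith
    · have h7 := grow P hmono (fun t ht => (hpos t ht).le) hae (s := S₁ ^ 2) (t := s)
        (by positivity) h6.le (hs.2.trans_lt h4T)
      have h8 := hsmall (S₁ ^ 2) ⟨by positivity, le_rfl⟩
      have hsT : s ∈ Ioo 0 T := ⟨hs.1, hs.2.trans_lt h4T⟩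
      have h9 : ε s ≤ 1 := (hmono hsT ⟨hS₁, by linarith⟩ (hs.2.trans h4S)).trans hε1.le
      have h10 : 0 < ε s := hpos s hsT
      have h11 : 1 / 2 * (ε s ^ 2 / S₁ ^ 2 * (s - S₁ ^ 2)) ≤ 3 / 2 := by
        have h12 : s - S₁ ^ 2 ≤ 3 * S₁ ^ 2 := by linarith [hs.2]
        have h13 : 0 ≤ s - S₁ ^ 2 := by linarith
        calc 1 / 2 * (ε s ^ 2 / S₁ ^ 2 * (s - S₁ ^ 2)) ≤
            1 / 2 * (1 ^ 2 / S₁ ^ 2 * (3 * S₁ ^ 2)) := by gcongr
          _ = 3 / 2 := by field_simp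
      have h14 : Real.exp (1 / 2 * (ε s ^ 2 / S₁ ^ 2 * (s - S₁ ^ 2))) ≤ 8 := by
        refine (Real.exp_le_exp.2 h11).trans ?_
        have h15 : Real.exp (3 / 2) ≤ Real.exp 1 ^ 2 := by
          rw [← Real.exp_nat_mul]
          apply Real.exp_le_exp.2
          norm_num
        have h16 := Real.exp_one_lt_d9
        have h17 := Real.exp_pos 1
        nlinarith
      have hR0 : 0 ≤ RE u₀ u v Dv (S₁ ^ 2) :=
        (sq_nonneg _).trans (P.le_RE ⟨by positivity, by nlinarith⟩)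
      calc RE u₀ u v Dv s ≤ RE u₀ u v Dv (S₁ ^ 2) * 8 :=
            h7.trans (mul_le_mul_of_nonneg_left h14 hR0)
        _ ≤ (1 / 16 * M) * 8 := by gcongr
        _ = M / 2 := by ring
  have hiter : ∀ n : ℕ, ∀ s ∈ Ioc 0 (4 * S₁ ^ 2), RE u₀ u v Dv s ≤ 5 * ‖u₀‖ ^ 2 / 2 ^ n := by
    intro n
    induction n with
    | zero =>
      intro s hs
      rw [pow_zero, div_one]
      exact RE_le P ⟨hs.1.le, hs.2.trans_lt h4T⟩
    | succ n ih =>
      intro s hs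
      have := himp _ ih s hs
      rwa [div_div, ← pow_succ] at this
  have hzero : ∀ s ∈ Ioc 0 (4 * S₁ ^ 2), RE u₀ u v Dv s ≤ 0 := by
    intro s hs
    have l1 : Tendsto (fun n : ℕ => 5 * ‖u₀‖ ^ 2 * (1 / 2 : ℝ) ^ n) atTop
        (𝓝 (5 * ‖u₀‖ ^ 2 * 0)) :=
      (tendsto_pow_atTop_nhds_zero_of_lt_one (by norm_num) (by norm_num)).const_mul _
    rw [mul_zero] at l1
    refine ge_of_tendsto l1 (Eventually.of_forall fun n => ?_)
    refine (hiter n s hs).trans (le_of_eq ?_)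
    rw [one_div, inv_pow, div_eq_mul_inv]
  have hRE : ∀ t ∈ Ioo 0 T, RE u₀ u v Dv t ≤ 0 := by
    intro t ht
    rcases le_or_gt t (4 * S₁ ^ 2) with h6 | h6
    · exact hzero t ⟨ht.1, h6⟩
    · have h7 := grow P hmono (fun t ht => (hpos t ht).le) hae (s := 4 * S₁ ^ 2) (t := t)
        (by positivity) h6.le ht.2
      have h8 := hzero (4 * S₁ ^ 2) ⟨by positivity, le_rfl⟩
      exact h7.trans (mul_nonpos_of_nonpos_of_nonneg h8 (Real.exp_pos _).le)
  intro t ht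
  rcases ht.1.eq_or_lt with h6 | h6
  · rw [← h6, P.hu.init, P.hv.init]
  · have h7 := (P.le_RE ht).trans (hRE t ⟨h6, ht.2⟩)
    have h8 : ‖v t - u t‖ = 0 := by
      have := norm_nonneg (v t - u t)
      nlinarith
    rw [norm_eq_zero, sub_eq_zero] at h8
    exact h8.symm

end Pool.Agent.TP
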