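import Pool.Agent.TP.Prod2

/-!
# The estimate of the derivative of the modified relative energy at one time
-/

set_option autoImplicit false

namespace Pool.Agent.TP

open MeasureTheory Set Filter Topology Pool.Agent.TO Pool.Agent.TB Pool.Agent.TC
open scoped ENNReal NNReal Real InnerProductSpace SchwartzMap LineDeriv Laplacian

theorem abs_sum_le (d b : Fin 3 → V3) :
    |∑ k, ⟪d k, b k⟫_ℝ| ≤ √(∑ k, ‖d k‖ ^ 2) * √(∑ k, ‖b k‖ ^ 2) := by
  refine (Finset.abs_sum_le_sum_abs _ _).trans ?_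
  calc ∑ k, |⟪d k, b k⟫_ℝ| ≤ ∑ k, ‖d k‖ * ‖b k‖ :=
        Finset.sum_le_sum fun k _ => abs_real_inner_le_norm _ _
    _ ≤ _ := Real.sum_mul_le_sqrt_mul_sqrt _ _ _

theorem cs_sup (d : Fin 3 → V3) {b : Fin 3 → V3} {x : ℝ} (hx : 0 ≤ x) (hb : ∀ k, ‖b k‖ ≤ x) :
    |∑ k, ⟪d k, b k⟫_ℝ| ≤ √(∑ k, ‖d k‖ ^ 2) * (2 * x) := by
  refine (abs_sum_le d b).trans (mul_le_mul_of_nonneg_left ?_ (Real.sqrt_nonneg _))
  apply Real.sqrt_le_iff.2
  refine ⟨by positivity, ?_⟩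
  calc ∑ k, ‖b k‖ ^ 2 ≤ ∑ _k : Fin 3, x ^ 2 :=
        Finset.sum_le_sum fun k _ => pow_le_pow_left₀ (norm_nonneg _) (hb k) 2
    _ = 3 * x ^ 2 := by
        rw [Finset.sum_const, Finset.card_univ, Fintype.card_fin, nsmul_eq_mul]
        push_cast
        ring
    _ ≤ (2 * x) ^ 2 := by nlinarith [sq_nonneg x]

theorem cs_tens (d : Fin 3 → V3) (w : V3) {f : V3} {A : ℝ} (hA : 0 ≤ A) (hf : Bd f A) :
    |∑ k, ⟪d k, tens k w f⟫_ℝ| ≤ √(∑ k, ‖d k‖ ^ 2) * (A * ‖w‖) := by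
  refine (abs_sum_le d _).trans (mul_le_mul_of_nonneg_left ?_ (Real.sqrt_nonneg _))
  apply Real.sqrt_le_iff.2
  exact ⟨by positivity, sum_sq_tens_le hf w⟩

theorem tens_add_right (k : Fin 3) (w : V3) {f g : V3} {A B : ℝ} (hf : Bd f A) (hg : Bd g B) :
    tens k w (f + g) = tens k w f + tens k w g := by
  apply Lp.ext
  filter_upwards [Lp.coeFn_add (tens k w f) (tens k w g), Lp.coeFn_add f g,
    coe_tens_right k w hf, coe_tens_right k w hg, coe_tens_right k w (bd_add hf hg)]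
    with x h1 h2 h3 h4 h5
  rw [h5, h1, Pi.add_apply, h3, h4, h2, Pi.add_apply, smul_add]

theorem tens_add_left (k : Fin 3) (v w : V3) {f : V3} {A : ℝ} (hf : Bd f A) :
    tens k (v + w) f = tens k v f + tens k w f := by
  apply Lp.ext
  filter_upwards [Lp.coeFn_add (tens k v f) (tens k w f), Lp.coeFn_add v w,
    coe_tens_right k v hf, coe_tens_right k w hf, coe_tens_right k (v + w) hf]
    with x h1 h2 h3 h4 h5
  rw [h5, h1, Pi.add_apply, h3, h4, h2, Pi.add_apply, PiLp.add_apply, add_smul]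

variable {m : E3 → ℝ} {B : ℝ}

theorem tens_mulV (k : Fin 3) (hm : MB m B) (w : V3) {f : V3} {A : ℝ} (hf : Bd f A) :
    tens k w (mulV hm f) = tens k (mulV hm w) f := by
  apply Lp.ext
  filter_upwards [coe_tens_right k w (bd_mulV hm hf), coe_tens_right k (mulV hm w) hf,
    coe_mulV hm f, coe_mulV hm w] with x h1 h2 h3 h4
  rw [h1, h2, h3, h4, PiLp.smul_apply, smul_smul, smul_eq_mul, mul_comm]

theorem mb_one_sub {χ : E3 → ℝ} (h : MB χ 1) (hn : ∀ x, 0 ≤ χ x) : MB (fun x => 1 - χ x) 1 where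
  cont := continuous_const.sub h.cont
  le := fun x => by
    have h1 := h.le x
    have h2 := hn x
    rw [abs_of_nonneg h2] at h1
    rw [abs_of_nonneg (by linarith)]
    linarith

theorem mulV_one_sub {χ : E3 → ℝ} (h : MB χ 1) (h' : MB (fun x => 1 - χ x) 1) (f : V3) :
    mulV h' f = f - mulV h f := by
  apply Lp.ext
  filter_upwards [coe_mulV h' f, coe_mulV h f, Lp.coeFn_sub f (mulV h f)] with x h1 h2 h3
  rw [h1, h3, Pi.sub_apply, h2, sub_smul, one_smul]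

variable {χ : E3 → ℝ} {χ1 : Fin 3 → E3 → ℝ} {χ2 : Fin 3 → Fin 3 → E3 → ℝ} {b1 b2 : ℝ}
  {E : Set E3} {ρ ρ' : ℝ} (hc : Cut χ χ1 χ2 b1 b2 E) (hρ : 0 < ρ) (h : ρ ≤ ρ')

theorem supp_YY (f : V3) : SuppIn (YY hc hρ h f) E :=
  suppIn_add (suppIn_mulV hc.m0 hc.s0 _) (suppIn_sum fun j => suppIn_mulV (hc.m1 j) (hc.s1 j) _)

theorem supp_DY (k : Fin 3) (f g : V3) : SuppIn (DY hc hρ h k f g) E :=
  suppIn_add (suppIn_add (suppIn_mulV (hc.m1 k) (hc.s1 k) _) (suppIn_mulV hc.m0 hc.s0 _))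
    (suppIn_sum fun j => suppIn_add (suppIn_mulV (hc.m2 k j) (hc.s2 k j) _)
      (suppIn_mulV (hc.m1 j) (hc.s1 j) _))

variable {f g : V3} {df dg : Fin 3 → V3} {A A' V : ℝ}

include hc hρ h in
theorem cD_nonneg : 0 ≤ cD b1 b2 ρ' := by
  have hb1 := (hc.m1 0).nonneg
  have hb2 := (hc.m2 0 0).nonneg
  have := cg_pos
  have h2 : 0 < ρ' := hρ.trans_le h
  unfold cD
  positivity

/-- the size of the correction -/
theorem norm_YY_supp (hA : 0 ≤ A) (hf : Bd f A) (hV : 0 ≤ V)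
    (hv : volume E ≤ ENNReal.ofReal V) : ‖YY hc hρ h f‖ ≤ cY b1 ρ' * A * √V :=
  norm_le_of_supp (mul_nonneg (cY_nonneg hc hρ h) hA) hV (bd_YY hc hρ h hA hf)
    (supp_YY hc hρ h f) hc.mE hv

/-- the pairing of the difference and the correction, first bound -/
theorem pair_le1 (hA : 0 ≤ A) (hf : Bd f A) (hV : 0 ≤ V) (hv : volume E ≤ ENNReal.ofReal V)
    {W : ℝ} (w : V3) (hw : ‖w‖ ≤ W) :
    |⟪w, YY hc hρ h f⟫_ℝ| ≤ W * (cY b1 ρ' * A * √V) :=
  (abs_real_inner_le_norm _ _).trans (mul_le_mul hw (norm_YY_supp hc hρ h hA hf hV hv)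
    (norm_nonneg _) ((norm_nonneg _).trans hw))

/-- the pairing of the difference and the correction, second bound -/
theorem pair_le2 (hfd : IsDivFree f) (hA : 0 ≤ A) (hf : Bd f A) (hV : 0 ≤ V)
    (hv : volume E ≤ ENNReal.ofReal V) {w : V3} {dw : Fin 3 → V3}
    (hw : ∀ k, IsWeakDeriv k w (dw k)) :
    |⟪w, YY hc hρ h f⟫_ℝ| ≤ √(∑ k, ‖dw k‖ ^ 2) * (2 * (4 * (cg * ρ' * A) * √V)) := by
  have hcg := cg_pos
  have h2 : 0 < ρ' := hρ.trans_le h
  rw [inner_YY hc hρ h hfd hw, abs_neg]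
  refine cs_sup dw (by positivity) fun k => ?_
  exact norm_le_of_supp (by positivity) hV
    (by simpa using bd_mulV hc.m0 (bd_bj hρ h k hA hf)) (suppIn_mulV hc.m0 hc.s0 _) hc.mE hv

theorem tens_left_le (k : Fin 3) (hf : Bd f A) (y : V3) : ‖tens k f y‖ ≤ A * ‖y‖ := by
  have h1 := tens_sub_le k hf y 0
  have h2 : tens k f (0:V3) = 0 := by
    apply Lp.ext
    filter_upwards [coe_tens_left k hf (0:V3), Lp.coeFn_zero E3 2 (volume : Measure E3)]
      with x hx h0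
    rw [hx, h0]
    simp
  rwa [h2, sub_zero, sub_zero] at h1

theorem bd_tens (k : Fin 3) {f g : V3} {A B : ℝ} (hA : 0 ≤ A) (hf : Bd f A) (hg : Bd g B) :
    Bd (tens k f g) (A * B) := by
  unfold Bd
  filter_upwards [coe_tens_left k hf g, hf, hg] with x hx h3 h5
  rw [hx, norm_smul, Real.norm_eq_abs]
  have h4 := abs_coord_le (f x) k
  exact mul_le_mul (h4.trans h3) h5 (norm_nonneg _) hA

theorem norm_le_sqrt_sum (d : Fin 3 → V3) (k : Fin 3) : ‖d k‖ ≤ √(∑ k, ‖d k‖ ^ 2) := by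
  apply Real.le_sqrt_of_sq_le
  exact Finset.single_le_sum (f := fun k => ‖d k‖ ^ 2) (fun _ _ => by positivity)
    (Finset.mem_univ k)

/-- the main term -/
theorem T1_le (h' : MB (fun x => 1 - χ x) 1) {r a2 W Bq : ℝ} (hr : 0 < r)
    (hA : 0 ≤ A) (hf : Bd f A) (ha2 : 0 ≤ a2) (hfN : Bd (f - NP hρ h f) a2) {w : V3}
    {dw : Fin 3 → V3} (hdw : ∀ k, IsWeakDeriv k w (dw k)) (hW : ‖w‖ ≤ W)
    (hB : ‖mulV h' (SP hr w)‖ ≤ Bq) :
    |∑ k, ⟪dw k, tens k w f - tens k w (YY hc hρ h f)⟫_ℝ| ≤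
      √(∑ k, ‖dw k‖ ^ 2) * (2 * A * Bq + 2 * A * (2 * cg * r * √(∑ k, ‖dw k‖ ^ 2)) +
        (a2 + 12 * (b1 * (cg * ρ')) * A) * W) := by
  have hcg := cg_pos
  have hb1 := (hc.m1 0).nonneg
  have hρ' : 0 < ρ' := hρ.trans_le h
  set Z := ∑ j, mulV (hc.m1 j) (bj hρ h j f) with hZ
  set N := NP hρ h f with hN
  have bN : Bd N (2 * A) := bd_NP hρ h hA hf
  have bZ : Bd Z (12 * (b1 * (cg * ρ')) * A) :=
    bd_mono (bd_sum3 fun j => bd_mulV (hc.m1 j) (bd_bj hρ h j hA hf)) (le_of_eq (by ring))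
  have bY : Bd (YY hc hρ h f) (cY b1 ρ' * A) := bd_YY hc hρ h hA hf
  set P2 := (f - N) + -Z with hP2
  have bP2 : Bd P2 (a2 + 12 * (b1 * (cg * ρ')) * A) := bd_add hfN (bd_neg bZ)
  have bP1 : Bd (mulV h' N) (2 * A) := by simpa using bd_mulV h' bN
  have e1 : f = YY hc hρ h f + (mulV h' N + P2) := by
    rw [mulV_one_sub hc.m0 h', hP2, YY, ← hZ, ← hN]
    abel
  have e2 : ∀ k, tens k w f - tens k w (YY hc hρ h f) =
      tens k (mulV h' (SP hr w)) N + tens k (w - SP hr w) (mulV h' N) + tens k w P2 := by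
    intro k
    have e3 : tens k w f = tens k w (YY hc hρ h f) + (tens k w (mulV h' N) + tens k w P2) := by
      conv_lhs => rw [e1]
      rw [tens_add_right k w bY (bd_add bP1 bP2), tens_add_right k w bP1 bP2]
    have e4 : tens k w (mulV h' N) =
        tens k (SP hr w) (mulV h' N) + tens k (w - SP hr w) (mulV h' N) := by
      rw [← tens_add_left k _ _ bP1, add_sub_cancel]
    rw [e3, e4, tens_mulV k h' (SP hr w) bN]
    abel
  simp only [e2, inner_add_right, Finset.sum_add_distrib]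
  have t1 := cs_tens dw (mulV h' (SP hr w)) (by positivity) bN
  have t2 := cs_tens dw (w - SP hr w) (by positivity) bP1
  have t3 := cs_tens dw w (A := a2 + 12 * (b1 * (cg * ρ')) * A) (by positivity) bP2
  have hs := SP_close hr hdw
  set s := √(∑ k, ‖dw k‖ ^ 2) with hsd
  have hs0 : 0 ≤ s := Real.sqrt_nonneg _
  have t1' : s * (2 * A * ‖mulV h' (SP hr w)‖) ≤ s * (2 * A * Bq) := by gcongr
  have t2' : s * (2 * A * ‖w - SP hr w‖) ≤ s * (2 * A * (2 * cg * r * s)) := by gcongr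
  have t3' : s * ((a2 + 12 * (b1 * (cg * ρ')) * A) * ‖w‖) ≤
      s * ((a2 + 12 * (b1 * (cg * ρ')) * A) * W) := by gcongr
  calc _ ≤ |∑ k, ⟪dw k, tens k (mulV h' (SP hr w)) N⟫_ℝ| +
        |∑ k, ⟪dw k, tens k (w - SP hr w) (mulV h' N)⟫_ℝ| + |∑ k, ⟪dw k, tens k w P2⟫_ℝ| :=
        (abs_add_le _ _).trans (add_le_add (abs_add_le _ _) le_rfl)
    _ ≤ s * (2 * A * Bq) + s * (2 * A * (2 * cg * r * s)) +
        s * ((a2 + 12 * (b1 * (cg * ρ')) * A) * W) :=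
        add_le_add (add_le_add (t1.trans t1') (t2.trans t2')) (t3.trans t3')
    _ = _ := by ring

/-- the algebraic form of the derivative -/
theorem re0_zL (hA : 0 ≤ A) (hf : Bd f A) :
    re0 f g df dg + zL hc hρ h f g df dg = -∑ k, ‖dg k - df k‖ ^ 2 +
      ∑ k, ⟪dg k - df k, tens k (g - f) f - tens k (g - f) (YY hc hρ h f)⟫_ℝ -
      ∑ k, ⟪dg k - df k, tens k f (YY hc hρ h f)⟫_ℝ -
      ∑ k, ⟪df k, tens k (g - f) (YY hc hρ h f)⟫_ℝ -
      ∑ k, ⟪dg k - df k, DY hc hρ h k f (df k)⟫_ℝ -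
      ∑ j, ⟪mulV hc.m0 (Om (fun k => dg k - df k) j), NP hρ h (df j)⟫_ℝ +
      ∑ k, ⟪df k, tens k f (XX hc hρ h (fun k => dg k - df k))⟫_ℝ := by
  have bY : Bd (YY hc hρ h f) (cY b1 ρ' * A) := bd_YY hc hρ h hA hf
  have e1 : ∀ k, tens k g (YY hc hρ h f) =
      tens k (g - f) (YY hc hρ h f) + tens k f (YY hc hρ h f) := by
    intro k
    rw [← tens_add_left k _ _ bY, sub_add_cancel]
  unfold re0 zL
  simp only [e1, inner_sub_left, inner_sub_right, inner_add_right, Finset.sum_sub_distrib,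
    Finset.sum_add_distrib, real_inner_comm]
  ring

theorem final_alg {G s x y R : ℝ} (hs : s ^ 2 = G) (hR : R ≤ -G + s * (1 / 8 * s) + s * x + y) :
    R ≤ -(1 / 2) * G + x ^ 2 + y := by
  nlinarith [sq_nonneg (s - 2 * x), sq_nonneg x, sq_nonneg s]

/-- **the estimate at one time** -/
theorem static (h' : MB (fun x => 1 - χ x) 1) {r a2 W Bq : ℝ} (hr : 0 < r)
    (hA : 0 ≤ A) (hf : Bd f A) (hA' : 0 ≤ A') (hbd : ∀ k, Bd (df k) A') (ha2 : 0 ≤ a2)
    (hfN : Bd (f - NP hρ h f) a2) (hdf : ∀ k, IsWeakDeriv k f (df k))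
    (hdg : ∀ k, IsWeakDeriv k g (dg k)) (hW : ‖g - f‖ ≤ W)
    (hB : ‖mulV h' (SP hr (g - f))‖ ≤ Bq) (hV : 0 ≤ V) (hv : volume E ≤ ENNReal.ofReal V)
    (h8 : 4 * cg * r * A ≤ 1 / 8) :
    re0 f g df dg + zL hc hρ h f g df dg ≤ -(1 / 2) * (∑ k, ‖dg k - df k‖ ^ 2) +
      (2 * A * Bq + (a2 + 12 * (b1 * (cg * ρ')) * A) * W +
        √V * (2 * (A * (cY b1 ρ' * A)) + 2 * (cD b1 b2 ρ' * A + cY b1 ρ' * A') + 24 * A' +
          36 * (cg * ρ' * (A * A')))) ^ 2 + 3 * (A' * W * (cY b1 ρ' * A * √V)) := by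
  have hcg := cg_pos
  have hρ' : 0 < ρ' := hρ.trans_le h
  have hcY := cY_nonneg hc hρ h
  have hcD := cD_nonneg hc hρ h
  have hdw : ∀ k, IsWeakDeriv k (g - f) (dg k - df k) := fun k => (hdg k).sub (hdf k)
  have hsV : 0 ≤ √V := Real.sqrt_nonneg _
  have hW0 : 0 ≤ W := (norm_nonneg _).trans hW
  have nY := norm_YY_supp hc hρ h hA hf hV hv
  have bY : Bd (YY hc hρ h f) (cY b1 ρ' * A) := bd_YY hc hρ h hA hf
  have t1 := T1_le hc hρ h h' hr hA hf ha2 hfN hdw hW hB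
  have t2 : |∑ k, ⟪dg k - df k, tens k f (YY hc hρ h f)⟫_ℝ| ≤
      √(∑ k, ‖dg k - df k‖ ^ 2) * (2 * (A * (cY b1 ρ' * A * √V))) :=
    cs_sup (fun k => dg k - df k) (by positivity) fun k =>
      (tens_left_le k hf _).trans (mul_le_mul_of_nonneg_left nY hA)
  have t3 : |∑ k, ⟪df k, tens k (g - f) (YY hc hρ h f)⟫_ℝ| ≤
      3 * (A' * W * (cY b1 ρ' * A * √V)) := by
    have e : ∀ k, ⟪df k, tens k (g - f) (YY hc hρ h f)⟫_ℝ =
        ⟪tens k (g - f) (df k), YY hc hρ h f⟫_ℝ := fun k =>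
      (tens_swap k (g - f) (hbd k) bY).symm
    simp only [e]
    refine sum_abs_inner_le (by positivity) (fun k => ?_) fun _ => nY
    exact (norm_tens_right_le k (g - f) (hbd k)).trans (mul_le_mul_of_nonneg_left hW hA')
  have t4 : |∑ k, ⟪dg k - df k, DY hc hρ h k f (df k)⟫_ℝ| ≤
      √(∑ k, ‖dg k - df k‖ ^ 2) * (2 * ((cD b1 b2 ρ' * A + cY b1 ρ' * A') * √V)) :=
    cs_sup (fun k => dg k - df k) (by positivity) fun k =>
      norm_le_of_supp (by positivity) hV (bd_DY hc hρ h k hA hf hA' (hbd k))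
        (supp_DY hc hρ h k _ _) hc.mE hv
  have nO : ∀ j, ‖Om (fun k => dg k - df k) j‖ ≤ 4 * √(∑ k, ‖dg k - df k‖ ^ 2) := fun j =>
    norm_Om_le _ j fun k => norm_le_sqrt_sum (fun k => dg k - df k) k
  have t5 : |∑ j, ⟪mulV hc.m0 (Om (fun k => dg k - df k) j), NP hρ h (df j)⟫_ℝ| ≤
      3 * (4 * √(∑ k, ‖dg k - df k‖ ^ 2) * (2 * A' * √V)) := by
    simp only [mulV_symm]
    refine sum_abs_inner_le (by positivity) nO fun j => ?_
    exact norm_le_of_supp (by positivity) hV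
      (by simpa using bd_mulV hc.m0 (bd_NP hρ h hA' (hbd j))) (suppIn_mulV hc.m0 hc.s0 _) hc.mE hv
  have t6 : |∑ k, ⟪df k, tens k f (XX hc hρ h (fun k => dg k - df k))⟫_ℝ| ≤
      3 * (4 * √(∑ k, ‖dg k - df k‖ ^ 2) * (cg * ρ' * (3 * (A * A')) * √V)) := by
    set X := XX hc hρ h (fun k => dg k - df k) with hX
    set F := ∑ k, tens k f (df k) with hF
    have bF : Bd F (3 * (A * A')) := bd_sum3 fun k => bd_tens k hA hf (hbd k)
    have e1 : ∑ k, ⟪df k, tens k f X⟫_ℝ = ⟪X, F⟫_ℝ := by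
      rw [hF, inner_sum]
      refine Finset.sum_congr rfl fun k _ => ?_
      rw [L2.inner_def, L2.inner_def]
      apply integral_congr_ae
      filter_upwards [coe_tens_left k hf X, coe_tens_left k hf (df k)] with x h1 h2
      rw [h1, h2, inner_smul_right, inner_smul_right, real_inner_comm]
    rw [e1, hX, inner_XX, abs_neg]
    simp only [mulV_symm]
    refine sum_abs_inner_le (by positivity) nO fun j => ?_
    exact norm_le_of_supp (by positivity) hV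
      (by simpa using bd_mulV hc.m0 (bd_Cj hρ h j (by positivity) bF))
      (suppIn_mulV hc.m0 hc.s0 _) hc.mE hv
  rw [re0_zL hc hρ h hA hf]
  set G := ∑ k, ‖dg k - df k‖ ^ 2 with hG
  have hG0 : 0 ≤ G := Finset.sum_nonneg fun k _ => by positivity
  set s := √G with hs
  have hs0 : 0 ≤ s := Real.sqrt_nonneg _
  have hss : s ^ 2 = G := Real.sq_sqrt hG0
  apply final_alg hss
  have h9 : 2 * A * (2 * cg * r * s) ≤ 1 / 8 * s := by
    calc 2 * A * (2 * cg * r * s) = (4 * cg * r * A) * s := by ring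
      _ ≤ 1 / 8 * s := by gcongr
  have h10 : s * (2 * A * (2 * cg * r * s)) ≤ s * (1 / 8 * s) := by gcongr
  have t1' := (abs_le.1 t1).2
  have t2' := (abs_le.1 t2).1
  have t3' := (abs_le.1 t3).1
  have t4' := (abs_le.1 t4).1
  have t5' := (abs_le.1 t5).1
  have t6' := (abs_le.1 t6).2
  linarith

end Pool.Agent.TP
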