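import Pool.Agent.TG.Main
import Pool.Agent.TB.Chain

/-!
# Weak derivatives of classically differentiable fields
-/

set_option autoImplicit false

namespace Pool.Agent.TP

open MeasureTheory Set Filter Topology Pool.Agent.TO Pool.Agent.TB Pool.Agent.TC
open scoped ENNReal NNReal Real InnerProductSpace SchwartzMap LineDeriv Laplacian FourierTransform

theorem int_inner {f g : E3 → E3} (hf : MemLp f 2 (volume : Measure E3))
    (hg : MemLp g 2 (volume : Measure E3)) :
    Integrable (fun x => ⟪f x, g x⟫_ℝ) (volume : Measure E3) := by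
  refine (L2.integrable_inner (𝕜 := ℝ) hf.toLp hg.toLp).congr ?_
  filter_upwards [hf.coeFn_toLp, hg.coeFn_toLp] with x h1 h2
  rw [h1, h2]

theorem line_schwartz (φ : 𝓢(E3, E3)) (k : Fin 3) (x : E3) :
    HasLineDerivAt ℝ φ ((∂_{ee k} φ) x) x (ee k) := by
  have h1 := (φ.differentiableAt (x := x)).hasFDerivAt.hasLineDerivAt (ee k)
  rwa [← SchwartzMap.lineDerivOp_apply_eq_fderiv] at h1

theorem weak_of_line {k : Fin 3} {f g : E3 → E3} (hf : MemLp f 2 (volume : Measure E3))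
    (hg : MemLp g 2 (volume : Measure E3)) (h : ∀ x, HasLineDerivAt ℝ f (g x) x (ee k)) :
    IsWeakDeriv k hf.toLp hg.toLp := by
  intro φ
  have m1 := φ.memLp 2 (volume : Measure E3)
  have m2 := (∂_{ee k} φ).memLp 2 (volume : Measure E3)
  have key := integral_bilinear_hasLineDerivAt_right_eq_neg_left_of_integrable
    (μ := (volume : Measure E3)) (f := f) (f' := g) (g := φ) (g' := (∂_{ee k} φ : 𝓢(E3, E3)))
    (v := ee k) (B := (innerSL ℝ : E3 →L[ℝ] E3 →L[ℝ] ℝ)) (int_inner hg m1) (int_inner hf m2)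
    (int_inner hf m1) (fun x _ => h x) (fun x _ => line_schwartz φ k x)
  have e1 : ∫ x, ⟪(∂_{ee k} φ) x, (hf.toLp : V3) x⟫_ℝ = ∫ x, ⟪f x, (∂_{ee k} φ) x⟫_ℝ := by
    apply integral_congr_ae
    filter_upwards [hf.coeFn_toLp] with x hx
    rw [hx, real_inner_comm]
  have e2 : ∫ x, ⟪φ x, (hg.toLp : V3) x⟫_ℝ = ∫ x, ⟪g x, φ x⟫_ℝ := by
    apply integral_congr_ae
    filter_upwards [hg.coeFn_toLp] with x hx
    rw [hx, real_inner_comm]
  rw [e1, e2]
  exact key

theorem weak_schwartz (ψ : 𝓢(E3, E3)) (k : Fin 3) :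
    IsWeakDeriv k (emb ψ) (emb (∂_{ee k} ψ)) :=
  weak_of_line (ψ.memLp 2 (volume : Measure E3)) ((∂_{ee k} ψ).memLp 2 (volume : Measure E3))
    (line_schwartz ψ k)

/-- a field with classical derivatives of zero trace is divergence-free -/
theorem div_of_line {f : E3 → E3} {g : Fin 3 → E3 → E3} (hf : MemLp f 2 (volume : Measure E3))
    (hg : ∀ k, MemLp (g k) 2 (volume : Measure E3))
    (h : ∀ k x, HasLineDerivAt ℝ f (g k x) x (ee k)) (hd : ∀ x, ∑ k, (g k x) k = 0) :
    IsDivFree hf.toLp := by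
  intro φ
  have m1 := φ.memLp 2 (volume : Measure E3)
  have hφ : ∀ k x, HasLineDerivAt ℝ φ ((∂_{ee k} φ) x) x (ee k) := by
    intro k x
    have h1 := (φ.differentiableAt (x := x)).hasFDerivAt.hasLineDerivAt (ee k)
    rwa [← SchwartzMap.lineDerivOp_apply_eq_fderiv] at h1
  have comp_mem : ∀ {u : E3 → E3}, MemLp u 2 (volume : Measure E3) → ∀ k : Fin 3,
      MemLp (fun x => u x k) 2 (volume : Measure E3) := by
    intro u hu k
    exact (EuclideanSpace.proj (𝕜 := ℝ) k : E3 →L[ℝ] ℝ).comp_memLp' hu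
  have hfk : ∀ k x, HasLineDerivAt ℝ (fun x => f x k) (g k x k) x (ee k) := by
    intro k x
    have h1 := h k x
    unfold HasLineDerivAt at h1 ⊢
    exact ((EuclideanSpace.proj (𝕜 := ℝ) k : E3 →L[ℝ] ℝ).hasFDerivAt).comp_hasDerivAt _ h1
  have e0 : ∀ k : Fin 3, ∫ x, f x k * (∂_{ee k} φ) x = -∫ x, g k x k * φ x := fun k =>
    parts (comp_mem hf k) (comp_mem (hg k) k) m1 ((∂_{ee k} φ).memLp 2 volume)
      (hfk k) (hφ k)
  have e1 : ∫ x, fderiv ℝ φ x ((hf.toLp : V3) x) = ∫ x, ∑ k, f x k * (∂_{ee k} φ) x := by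
    apply integral_congr_ae
    filter_upwards [hf.coeFn_toLp] with x hx
    rw [hx, fderiv_eq_sum]
  have i1 : ∀ k, Integrable (fun x => f x k * (∂_{ee k} φ) x) (volume : Measure E3) := fun k =>
    (comp_mem hf k).integrable_mul ((∂_{ee k} φ).memLp 2 volume)
  have i2 : ∀ k, Integrable (fun x => g k x k * φ x) (volume : Measure E3) := fun k =>
    (comp_mem (hg k) k).integrable_mul m1
  rw [e1, integral_finsetSum _ (fun k _ => i1 k)]
  simp only [e0]
  rw [Finset.sum_neg_distrib, ← integral_finsetSum _ (fun k _ => i2 k)]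
  have e2 : ∀ x, ∑ k, g k x k * φ x = 0 := by
    intro x
    rw [← Finset.sum_mul, hd x, zero_mul]
  simp only [e2, integral_zero, neg_zero]

end Pool.Agent.TP
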