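import Pool.Agent.TP.Sop
import Pool.Agent.TP.Weak

/-!
# The averaging operators on fields with weak derivatives
-/

set_option autoImplicit false

namespace Pool.Agent.TP

open MeasureTheory Set Filter Topology Pool.Agent.TO Pool.Agent.TB Pool.Agent.TC
open scoped ENNReal NNReal Real InnerProductSpace SchwartzMap LineDeriv Laplacian FourierTransform

variable {ρ ρ' r : ℝ}

theorem lineDeriv_comm_C (φ : 𝓢(E3, F3)) (i j : Fin 3) :
    ∂_{ee i} (∂_{ee j} φ) = ∂_{ee j} (∂_{ee i} φ) := by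
  apply fourier_inj
  intro ξ
  rw [fourier_lineDeriv, fourier_lineDeriv, fourier_lineDeriv, fourier_lineDeriv, smul_smul,
    smul_smul, mul_comm]

theorem reS_iS (ψ : 𝓢(E3, E3)) : reS (iS ψ) = ψ := by
  ext x i
  rw [reS_apply, iS_apply]
  rfl

theorem lineDeriv_comm (ψ : 𝓢(E3, E3)) (i j : Fin 3) :
    (∂_{ee i} (∂_{ee j} ψ) : 𝓢(E3, E3)) = ∂_{ee j} (∂_{ee i} ψ) := by
  have h1 : ∀ i j : Fin 3, (∂_{ee i} (∂_{ee j} ψ) : 𝓢(E3, E3)) =
      reS (∂_{ee i} (∂_{ee j} (iS ψ))) := by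
    intro i j
    rw [← reS_lineDeriv, ← reS_lineDeriv, reS_iS]
  rw [h1, h1, lineDeriv_comm_C]

/-- integration by parts for two fields with weak derivatives -/
theorem weak_parts {f g : V3} {df dg : Fin 3 → V3} (hf : ∀ k, IsWeakDeriv k f (df k))
    {k : Fin 3} (hg : IsWeakDeriv k g (dg k)) : ⟪df k, g⟫_ℝ = -⟪f, dg k⟫_ℝ := by
  obtain ⟨ψ, h1, h2⟩ := exists_seq_H1 hf
  have l1 : Tendsto (fun n => ⟪emb (∂_{ee k} (ψ n)), g⟫_ℝ) atTop (𝓝 ⟪df k, g⟫_ℝ) :=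
    (h2 k).inner tendsto_const_nhds
  have l2 : Tendsto (fun n => -⟪emb (ψ n), dg k⟫_ℝ) atTop (𝓝 (-⟪f, dg k⟫_ℝ)) :=
    (h1.inner tendsto_const_nhds).neg
  exact tendsto_nhds_unique l1 (l2.congr fun n => (weak_emb hg (ψ n)).symm)

theorem Cj_swap_weak (hρ : 0 < ρ) (h : ρ ≤ ρ') {f : V3} {df : Fin 3 → V3}
    (hf : ∀ k, IsWeakDeriv k f (df k)) (i j : Fin 3) :
    Cj hρ h j (df i) = Cj hρ h i (df j) := by
  obtain ⟨ψ, h1, h2⟩ := exists_seq_H1 hf
  have l1 := ((Cj hρ h j).continuous.tendsto _).comp (h2 i)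
  have l2 := ((Cj hρ h i).continuous.tendsto _).comp (h2 j)
  exact tendsto_nhds_unique l1 (l2.congr fun n => (Cj_swap hρ h i j (ψ n)).symm)

theorem Cj_sum_weak (hρ : 0 < ρ) (h : ρ ≤ ρ') {f : V3} {df : Fin 3 → V3}
    (hf : ∀ k, IsWeakDeriv k f (df k)) : ∑ k, Cj hρ h k (df k) = -NP hρ h f := by
  obtain ⟨ψ, h1, h2⟩ := exists_seq_H1 hf
  have l1 : Tendsto (fun n => ∑ k, Cj hρ h k (emb (∂_{ee k} (ψ n)))) atTop
      (𝓝 (∑ k, Cj hρ h k (df k))) :=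
    tendsto_finsetSum _ fun k _ => ((Cj hρ h k).continuous.tendsto _).comp (h2 k)
  have l2 := (((NP hρ h).continuous.tendsto _).comp h1).neg
  exact tendsto_nhds_unique l1 (l2.congr fun n => (Cj_sum hρ h (ψ n)).symm)

theorem Cj_LL (hρ : 0 < ρ) (h : ρ ≤ ρ') (hr : 0 < r) {f : V3} {df : Fin 3 → V3}
    (hf : ∀ k, IsWeakDeriv k f (df k)) (j : Fin 3) :
    Cj hρ h j (LL hr f) = -NP hρ h (SS hr (df j)) := by
  obtain ⟨ψ, h1, h2⟩ := exists_seq_H1 hf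
  have l1 := ((Cj hρ h j).continuous.tendsto _).comp (((LL hr).continuous.tendsto _).comp h1)
  have l2 := (((NP hρ h).continuous.tendsto _).comp
    (((SS hr).continuous.tendsto _).comp (h2 j))).neg
  refine tendsto_nhds_unique l1 (l2.congr fun n => ?_)
  simp only [Function.comp]
  rw [LL_emb, laplacian_real, ← emb_apply, map_sum, map_sum, SS_emb, ← lineDeriv_mol,
    ← Cj_sum hρ h]
  refine Finset.sum_congr rfl fun k _ => ?_
  rw [Cj_swap hρ h k j, lineDeriv_comm _ k j]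

theorem LL_symm (hr : 0 < r) (f g : V3) : ⟪LL hr f, g⟫_ℝ = ⟪f, LL hr g⟫_ℝ := by
  obtain ⟨φ, hφ⟩ := exists_seq_toLp f
  obtain ⟨ψ, hψ⟩ := exists_seq_toLp g
  have l1 := (((LL hr).continuous.tendsto f).comp hφ).inner (𝕜 := ℝ) hψ
  have l2 := hφ.inner (𝕜 := ℝ) (((LL hr).continuous.tendsto g).comp hψ)
  refine tendsto_nhds_unique l1 (l2.congr fun n => ?_)
  simp only [Function.comp]
  rw [← emb_apply, ← emb_apply, LL_emb, LL_emb, laplacian_real, laplacian_real, ← emb_apply,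
    ← emb_apply, map_sum, map_sum, sum_inner, inner_sum]
  refine Finset.sum_congr rfl fun k _ => ?_
  rw [weak_emb (weak_schwartz _ k), real_inner_comm, weak_emb (weak_schwartz _ k),
    lineDeriv_mol, lineDeriv_mol, ← SS_emb, ← SS_emb]
  rw [real_inner_comm]
  exact congrArg Neg.neg (symm_avL (ker_mu hr) _ _)

/-- the linear term, general form -/
theorem inner_LL' (hr : 0 < r) {f g : V3} {df dg : Fin 3 → V3}
    (hf : ∀ k, IsWeakDeriv k f (df k)) (hg : ∀ k, IsWeakDeriv k g (dg k)) :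
    ⟪LL hr f, g⟫_ℝ = -∑ k, ⟪SS hr (df k), dg k⟫_ℝ := by
  obtain ⟨ψ, h1, h2⟩ := exists_seq_H1 hf
  have l1 : Tendsto (fun n => ⟪LL hr (emb (ψ n)), g⟫_ℝ) atTop
      (𝓝 ⟪LL hr f, g⟫_ℝ) :=
    (((LL hr).continuous.tendsto _).comp h1).inner tendsto_const_nhds
  have l2 : Tendsto (fun n => -∑ k, ⟪SS hr (emb (∂_{ee k} (ψ n))), dg k⟫_ℝ) atTop
      (𝓝 (-∑ k, ⟪SS hr (df k), dg k⟫_ℝ)) :=
    (tendsto_finsetSum _ fun k _ =>
      (((SS hr).continuous.tendsto _).comp (h2 k)).inner tendsto_const_nhds).neg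
  refine tendsto_nhds_unique l1 (l2.congr fun n => ?_)
  rw [LL_emb, laplacian_real, ← emb_apply, map_sum, sum_inner, ← Finset.sum_neg_distrib]
  refine Finset.sum_congr rfl fun k _ => ?_
  rw [weak_emb (hg k), lineDeriv_mol, SS_emb]

/-- limits of bounded fields are bounded -/
theorem bd_of_tendsto {f : ℕ → V3} {g : V3} {A : ℝ} (h : Tendsto f atTop (𝓝 g))
    (hb : ∀ᶠ n in atTop, Bd (f n) A) : Bd g A := by
  have h1 := tendstoInMeasure_of_tendsto_Lp h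
  obtain ⟨ns, hns, hlim⟩ := h1.exists_seq_tendsto_ae
  obtain ⟨N, hN⟩ := eventually_atTop.1 hb
  have h2 : ∀ᵐ x ∂(volume : Measure E3), ∀ n, N ≤ n → ‖(f n : E3 → E3) x‖ ≤ A := by
    rw [ae_all_iff]
    intro n
    by_cases hn : N ≤ n
    · filter_upwards [hN n hn] with x hx _
      exact hx
    · exact Eventually.of_forall fun x h => absurd h hn
  unfold Bd
  filter_upwards [hlim, h2] with x hx hb
  refine le_of_tendsto hx.norm ?_
  filter_upwards [hns.tendsto_atTop.eventually_ge_atTop N] with n hn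
  exact hb _ hn

theorem et0_scale (hρ : 0 < ρ) (y : E3) : et0 ρ (ρ • y) = (ρ ^ 3)⁻¹ * et0 1 y := by
  unfold et0
  rw [sg_scale hρ]
  field_simp

theorem cvf_et0 (hρ : 0 < ρ) (ψ : 𝓢(E3, E3)) (x : E3) :
    cvf (et0 ρ) ψ x = ∫ y, et0 1 y • ψ (x - ρ • y) := by
  have h1 := Measure.integral_comp_smul (volume : Measure E3)
    (fun y => et0 ρ y • ψ (x - y)) ρ
  rw [finrank_euclideanSpace, Fintype.card_fin, abs_of_pos (by positivity)] at h1
  simp only [et0_scale hρ, mul_smul] at h1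
  rw [integral_smul] at h1
  exact (smul_right_injective _ (by positivity : (ρ ^ 3)⁻¹ ≠ 0) h1).symm

theorem tendsto_cvf_et0 (ψ : 𝓢(E3, E3)) (x : E3) :
    Tendsto (fun n => cvf (et0 (rn n)) ψ x) atTop (𝓝 (ψ x)) := by
  have e1 : ∀ n, cvf (et0 (rn n)) ψ x = ∫ y, et0 1 y • ψ (x - rn n • y) := fun n =>
    cvf_et0 (rn_pos n) ψ x
  simp only [e1]
  have e2 : ψ x = ∫ y, et0 1 y • ψ x := by
    rw [integral_smul_const, integral_et0 one_pos, one_smul]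
  rw [e2]
  have hr : Tendsto rn atTop (𝓝 0) := tendsto_one_div_add_atTop_nhds_zero_nat
  apply tendsto_integral_of_dominated_convergence
    (fun y => et0 1 y * SchwartzMap.seminorm ℝ 0 0 ψ)
  · intro n
    have := ψ.continuous
    have := continuous_et0 one_pos
    exact Continuous.aestronglyMeasurable (by fun_prop)
  · exact (integrable_et0 one_pos).mul_const _
  · intro n
    refine Eventually.of_forall fun y => ?_
    rw [norm_smul, Real.norm_of_nonneg (et0_nonneg one_pos y)]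
    have := et0_nonneg one_pos y
    gcongr
    exact SchwartzMap.norm_le_seminorm ℝ ψ _
  · refine Eventually.of_forall fun y => ?_
    have h1 : Tendsto (fun n => x - rn n • y) atTop (𝓝 x) := by
      have := (hr.smul_const y).const_sub x
      simpa using this
    exact ((ψ.continuous.tendsto x).comp h1).const_smul _

/-- averages are close to the identity -/
theorem SP_close_schwartz (hρ : 0 < ρ) (ψ : 𝓢(E3, E3)) :
    ‖emb ψ - SP hρ (emb ψ)‖ ≤ cg * ρ * ∑ k, ‖emb (∂_{ee k} ψ)‖ := by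
  have hcg := cg_pos
  set M : ℝ := cg * ρ * ∑ k, ‖emb (∂_{ee k} ψ)‖ with hM
  have hM0 : 0 ≤ M := by positivity
  have hev : ∀ᶠ n in atTop, rn n ≤ ρ := by
    have hr : Tendsto rn atTop (𝓝 0) := tendsto_one_div_add_atTop_nhds_zero_nat
    filter_upwards [hr.eventually_lt_const hρ] with n hn using hn.le
  have h1 : ∀ᶠ n in atTop, ∫⁻ x, ‖cvf (et0 (rn n)) ψ x - cvf (et0 ρ) ψ x‖ₑ ^ 2 ≤
      ENNReal.ofReal (M ^ 2) := by
    filter_upwards [hev] with n hn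
    have h2 : ‖SP (rn_pos n) (emb ψ) - SP hρ (emb ψ)‖ ≤ M := by
      have h3 := Cj_sum (rn_pos n) hn ψ
      rw [NP_apply] at h3
      rw [← norm_neg, ← h3, hM, Finset.mul_sum]
      exact (norm_sum_le _ _).trans (Finset.sum_le_sum fun k _ => norm_Cj_le _ hn k _)
    have h4 : ∫⁻ x, ‖cvf (et0 (rn n)) ψ x - cvf (et0 ρ) ψ x‖ₑ ^ 2 =
        ‖SP (rn_pos n) (emb ψ) - SP hρ (emb ψ)‖ₑ ^ 2 := by
      rw [← lintegral_sq_V3]
      apply lintegral_congr_ae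
      filter_upwards [Lp.coeFn_sub (SP (rn_pos n) (emb ψ)) (SP hρ (emb ψ)),
        coe_cvL_emb (kk_et0 (rn_pos n)) ψ, coe_cvL_emb (kk_et0 hρ) ψ] with x h5 h6 h7
      rw [h5, Pi.sub_apply]
      unfold SP
      rw [h6, h7]
    rw [h4, enorm_sq_ofReal]
    exact ENNReal.ofReal_le_ofReal (pow_le_pow_left₀ (norm_nonneg _) h2 2)
  have h5 : ∫⁻ x, ‖ψ x - cvf (et0 ρ) ψ x‖ₑ ^ 2 ≤ ENNReal.ofReal (M ^ 2) := by
    have m1 : ∀ n, Measurable fun x => ‖cvf (et0 (rn n)) ψ x - cvf (et0 ρ) ψ x‖ₑ ^ 2 := by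
      intro n
      have s1 := stronglyMeasurable_cvf (kk_et0 (rn_pos n)) ψ.continuous.stronglyMeasurable
      have s2 := stronglyMeasurable_cvf (kk_et0 hρ) ψ.continuous.stronglyMeasurable
      exact ((s1.sub s2).enorm).pow_const 2
    have h6 : ∀ x, liminf (fun n => ‖cvf (et0 (rn n)) ψ x - cvf (et0 ρ) ψ x‖ₑ ^ 2) atTop =
        ‖ψ x - cvf (et0 ρ) ψ x‖ₑ ^ 2 := by
      intro x
      apply Tendsto.liminf_eq
      have := ((tendsto_cvf_et0 ψ x).sub_const (cvf (et0 ρ) ψ x)).enorm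
      exact (ENNReal.continuous_pow 2).tendsto _ |>.comp this
    calc ∫⁻ x, ‖ψ x - cvf (et0 ρ) ψ x‖ₑ ^ 2
        = ∫⁻ x, liminf (fun n => ‖cvf (et0 (rn n)) ψ x - cvf (et0 ρ) ψ x‖ₑ ^ 2) atTop := by
          simp only [h6]
      _ ≤ liminf (fun n => ∫⁻ x, ‖cvf (et0 (rn n)) ψ x - cvf (et0 ρ) ψ x‖ₑ ^ 2) atTop :=
          lintegral_liminf_le m1
      _ ≤ ENNReal.ofReal (M ^ 2) := by
          refine liminf_le_of_le (by isBoundedDefault) ?_
          intro b hb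
          obtain ⟨n, hn1, hn2⟩ := (hb.and h1).exists
          exact hn1.trans hn2
  have h7 : ‖emb ψ - SP hρ (emb ψ)‖ₑ ^ 2 = ∫⁻ x, ‖ψ x - cvf (et0 ρ) ψ x‖ₑ ^ 2 := by
    rw [← lintegral_sq_V3]
    apply lintegral_congr_ae
    filter_upwards [Lp.coeFn_sub (emb ψ) (SP hρ (emb ψ)),
      coe_cvL_emb (kk_et0 hρ) ψ, ψ.coeFn_toLp 2 (volume : Measure E3)] with x h5 h6 h7
    rw [h5, Pi.sub_apply]
    unfold SP
    rw [h6, emb_apply, h7]
  rw [← h7, enorm_sq_ofReal] at h5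
  exact le_of_sq_ofReal hM0 h5

theorem SP_close_sum (hρ : 0 < ρ) {f : V3} {df : Fin 3 → V3}
    (hf : ∀ k, IsWeakDeriv k f (df k)) : ‖f - SP hρ f‖ ≤ cg * ρ * ∑ k, ‖df k‖ := by
  obtain ⟨ψ, h1, h2⟩ := exists_seq_H1 hf
  have l1 : Tendsto (fun n => ‖emb (ψ n) - SP hρ (emb (ψ n))‖) atTop (𝓝 ‖f - SP hρ f‖) :=
    (h1.sub (((SP hρ).continuous.tendsto _).comp h1)).norm
  have l2 : Tendsto (fun n => cg * ρ * ∑ k, ‖emb (∂_{ee k} (ψ n))‖) atTop
      (𝓝 (cg * ρ * ∑ k, ‖df k‖)) :=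
    (tendsto_finsetSum _ fun k _ => (h2 k).norm).const_mul _
  exact le_of_tendsto_of_tendsto' l1 l2 fun n => SP_close_schwartz hρ (ψ n)

theorem sum_norm_le (d : Fin 3 → V3) : ∑ k, ‖d k‖ ≤ 2 * √(∑ k, ‖d k‖ ^ 2) := by
  have h1 : (∑ k, ‖d k‖) ^ 2 ≤ (2 * √(∑ k, ‖d k‖ ^ 2)) ^ 2 := by
    rw [mul_pow, Real.sq_sqrt (by positivity), Fin.sum_univ_three, Fin.sum_univ_three]
    nlinarith [sq_nonneg (‖d 0‖ - ‖d 1‖), sq_nonneg (‖d 1‖ - ‖d 2‖), sq_nonneg (‖d 0‖ - ‖d 2‖),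
      sq_nonneg ‖d 0‖, sq_nonneg ‖d 1‖, sq_nonneg ‖d 2‖]
  exact abs_le_of_sq_le_sq' h1 (by positivity) |>.2

theorem SP_close (hρ : 0 < ρ) {f : V3} {df : Fin 3 → V3}
    (hf : ∀ k, IsWeakDeriv k f (df k)) : ‖f - SP hρ f‖ ≤ 2 * cg * ρ * √(∑ k, ‖df k‖ ^ 2) := by
  have hcg := cg_pos
  refine (SP_close_sum hρ hf).trans ?_
  calc cg * ρ * ∑ k, ‖df k‖ ≤ cg * ρ * (2 * √(∑ k, ‖df k‖ ^ 2)) := by
        gcongr
        exact sum_norm_le df
    _ = _ := by ring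

theorem bd_add {f g : V3} {A B : ℝ} (hf : Bd f A) (hg : Bd g B) : Bd (f + g) (A + B) := by
  unfold Bd at *
  filter_upwards [hf, hg, Lp.coeFn_add f g] with x h1 h2 h3
  rw [h3, Pi.add_apply]
  exact (norm_add_le _ _).trans (add_le_add h1 h2)

theorem bd_neg {f : V3} {A : ℝ} (hf : Bd f A) : Bd (-f) A := by
  unfold Bd at *
  filter_upwards [hf, Lp.coeFn_neg f] with x h1 h3
  rw [h3, Pi.neg_apply, norm_neg]
  exact h1

theorem bd_sub {f g : V3} {A B : ℝ} (hf : Bd f A) (hg : Bd g B) : Bd (f - g) (A + B) := by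
  rw [sub_eq_add_neg]
  exact bd_add hf (bd_neg hg)

theorem bd_mono {f : V3} {A B : ℝ} (hf : Bd f A) (h : A ≤ B) : Bd f B := by
  unfold Bd at *
  filter_upwards [hf] with x h1 using h1.trans h

theorem bd_sum3 {f : Fin 3 → V3} {A : ℝ} (hf : ∀ k, Bd (f k) A) : Bd (∑ k, f k) (3 * A) := by
  rw [Fin.sum_univ_three]
  exact bd_mono (bd_add (bd_add (hf 0) (hf 1)) (hf 2)) (by linarith)

/-- the pointwise version -/
theorem SP_close_bd (hρ : 0 < ρ) {f : V3} {df : Fin 3 → V3} {A : ℝ} (hA : 0 ≤ A)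
    (hf : ∀ k, IsWeakDeriv k f (df k)) (hb : ∀ k, Bd (df k) A) :
    Bd (f - SP hρ f) (3 * (cg * ρ * A)) := by
  have hcg := cg_pos
  have hr : Tendsto rn atTop (𝓝 0) := tendsto_one_div_add_atTop_nhds_zero_nat
  have h1 : Tendsto (fun n => SP (rn_pos n) f) atTop (𝓝 f) := by
    rw [tendsto_iff_norm_sub_tendsto_zero]
    have h2 : Tendsto (fun n => cg * rn n * ∑ k, ‖df k‖) atTop (𝓝 0) := by
      have := (hr.const_mul cg).mul_const (∑ k, ‖df k‖)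
      simpa using this
    refine squeeze_zero (fun n => norm_nonneg _) (fun n => ?_) h2
    rw [norm_sub_rev]
    exact SP_close_sum (rn_pos n) hf
  apply bd_of_tendsto (h1.sub_const (SP hρ f))
  filter_upwards [hr.eventually_lt_const hρ] with n hn
  have h3 := Cj_sum_weak (rn_pos n) hn.le hf
  rw [NP_apply] at h3
  have h4 : SP (rn_pos n) f - SP hρ f = -∑ k, Cj (rn_pos n) hn.le k (df k) := by
    rw [h3, neg_neg]
  rw [h4]
  exact bd_neg (bd_sum3 fun k => bd_Cj (rn_pos n) hn.le k hA (hb k))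

end Pool.Agent.TP
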