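import Pool.Agent.TP.Mul
import Pool.Agent.TG.Grow

/-!
# The weak formulation with general test fields
-/

set_option autoImplicit false

namespace Pool.Agent.TP

open MeasureTheory Set Filter Topology Pool.Agent.TO Pool.Agent.TB Pool.Agent.TC
open scoped ENNReal NNReal Real InnerProductSpace SchwartzMap LineDeriv Laplacian

variable {r : ℝ}

theorem inner_GG_bdd' (hr : 0 < r) {f g : V3} {df : Fin 3 → V3} {A : ℝ}
    (hf : ∀ k, IsWeakDeriv k f (df k)) (hg : Bd g A) (h : V3) :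
    ⟪GG hr f h, g⟫_ℝ = ∑ k, ⟪SS hr (df k), tens k h g⟫_ℝ := by
  obtain ⟨ψ, h1, h2⟩ := exists_seq_H1 hf
  have l1 : Tendsto (fun n => ⟪GG hr (emb (ψ n)) h, g⟫_ℝ) atTop
      (𝓝 ⟪GG hr f h, g⟫_ℝ) := by
    have h3 := ((GG hr).continuous.tendsto _).comp h1
    have h4 : Tendsto (fun n => GG hr (emb (ψ n)) h) atTop (𝓝 (GG hr f h)) :=
      ((ContinuousLinearMap.apply ℝ V3 h).continuous.tendsto _).comp h3
    exact h4.inner tendsto_const_nhds
  have l2 : Tendsto (fun n => ∑ k, ⟪SS hr (emb (∂_{ee k} (ψ n))), tens k h g⟫_ℝ) atTop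
      (𝓝 (∑ k, ⟪SS hr (df k), tens k h g⟫_ℝ)) :=
    tendsto_finsetSum _ fun k _ =>
      (((SS hr).continuous.tendsto _).comp (h2 k)).inner
        tendsto_const_nhds
  refine tendsto_nhds_unique l1 (l2.congr fun n => ?_)
  rw [GG_emb, inner_AA_tens _ _ hg]
  refine Finset.sum_congr rfl fun k _ => ?_
  rw [lineDeriv_mol, SS_emb]

theorem tens_swap (k : Fin 3) (v : V3) {a b : V3} {A B : ℝ} (ha : Bd a A) (hb : Bd b B) :
    ⟪tens k v a, b⟫_ℝ = ⟪a, tens k v b⟫_ℝ := by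
  rw [L2.inner_def, L2.inner_def]
  apply integral_congr_ae
  filter_upwards [coe_tens_right k v ha, coe_tens_right k v hb] with x h1 h2
  rw [h1, h2, inner_smul_left, inner_smul_right]
  rfl

theorem GG_eq (hr : 0 < r) {f : V3} {df : Fin 3 → V3} {A : ℝ}
    (hf : ∀ k, IsWeakDeriv k f (df k)) (hb : ∀ k, Bd (df k) A) (v : V3) :
    GG hr f v = ∑ k, tens k v (SS hr (df k)) := by
  apply ext_inner_right ℝ
  intro g
  obtain ⟨φ, hφ⟩ := exists_seq_toLp g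
  have l1 : Tendsto (fun n => ⟪GG hr f v, emb (φ n)⟫_ℝ) atTop (𝓝 ⟪GG hr f v, g⟫_ℝ) :=
    tendsto_const_nhds.inner hφ
  have l2 : Tendsto (fun n => ⟪∑ k, tens k v (SS hr (df k)), emb (φ n)⟫_ℝ) atTop
      (𝓝 ⟪∑ k, tens k v (SS hr (df k)), g⟫_ℝ) := tendsto_const_nhds.inner hφ
  refine tendsto_nhds_unique l1 (l2.congr fun n => ?_)
  rw [inner_GG_bdd' hr hf (bd_emb (φ n)), sum_inner]
  exact Finset.sum_congr rfl fun k _ => tens_swap k v (bd_SS hr (hb k)) (bd_emb (φ n))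

theorem inner_GG_unbdd' (hr : 0 < r) (f : V3) {v : V3} (hd : IsDivFree v) {w : V3}
    {dw : Fin 3 → V3} (hw : ∀ k, IsWeakDeriv k w (dw k)) :
    ⟪GG hr f v, w⟫_ℝ = -∑ k, ⟪dw k, tens k v (SS hr f)⟫_ℝ := by
  obtain ⟨ψ, h1⟩ := exists_seq_toLp f
  obtain ⟨C, hC, hb⟩ := exists_bd_SS hr
  have h1' : Tendsto (fun n => emb (ψ n)) atTop (𝓝 f) := h1
  have l1 : Tendsto (fun n => ⟪GG hr (emb (ψ n)) v, w⟫_ℝ) atTop
      (𝓝 ⟪GG hr f v, w⟫_ℝ) := by
    have h3 := ((GG hr).continuous.tendsto _).comp h1'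
    have h4 : Tendsto (fun n => GG hr (emb (ψ n)) v) atTop (𝓝 (GG hr f v)) :=
      ((ContinuousLinearMap.apply ℝ V3 v).continuous.tendsto _).comp h3
    exact h4.inner tendsto_const_nhds
  have l3 : ∀ k, Tendsto (fun n => tens k v (SS hr (emb (ψ n)))) atTop
      (𝓝 (tens k v (SS hr f))) := by
    intro k
    rw [tendsto_iff_norm_sub_tendsto_zero]
    have h5 := ((tendsto_iff_norm_sub_tendsto_zero.1 h1').const_mul C).mul_const ‖v‖
    rw [mul_zero, zero_mul] at h5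
    refine squeeze_zero (fun n => norm_nonneg _) (fun n => ?_) h5
    apply tens_sub_right_le k v (hb _) (hb _)
    rw [← map_sub]
    exact hb _
  have l2 : Tendsto (fun n => -∑ k, ⟪dw k, tens k v (SS hr (emb (ψ n)))⟫_ℝ) atTop
      (𝓝 (-∑ k, ⟪dw k, tens k v (SS hr f)⟫_ℝ)) :=
    (tendsto_finsetSum _ fun k _ => tendsto_const_nhds.inner (l3 k)).neg
  refine tendsto_nhds_unique l1 (l2.congr fun n => ?_)
  rw [GG_emb, SS_emb, anti_one hd _ hw]

/-- passage to the limit in an integrated identity -/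
theorem limit_formula {F : ℕ → ℝ → ℝ} {g M : ℝ → ℝ} {s t : ℝ} {A : ℕ → ℝ} {A0 : ℝ}
    (hFi : ∀ n, IntegrableOn (F n) (Ioo s t) volume) (hM : IntegrableOn M (Ioo s t) volume)
    (hb : ∀ n, ∀ᵐ τ ∂(volume.restrict (Ioo s t)), ‖F n τ‖ ≤ M τ)
    (hlim : ∀ᵐ τ ∂(volume.restrict (Ioo s t)), Tendsto (fun n => F n τ) atTop (𝓝 (g τ)))
    (hA : Tendsto A atTop (𝓝 A0)) (heq : ∀ n, A n = ∫ τ in Ioo s t, F n τ) :
    IntegrableOn g (Ioo s t) volume ∧ A0 = ∫ τ in Ioo s t, g τ := by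
  refine ⟨?_, ?_⟩
  · refine Integrable.mono' hM (aestronglyMeasurable_of_tendsto_ae atTop (fun n => (hFi n).1)
      hlim) ?_
    filter_upwards [hlim, ae_all_iff.2 hb] with τ h1 h2
    exact le_of_tendsto h1.norm (Eventually.of_forall h2)
  · have lim1 := tendsto_integral_of_dominated_convergence M (fun n => (hFi n).1) hM hb hlim
    exact tendsto_nhds_unique (hA.congr heq) lim1

/-- the integrand of the weak formulation in gradient form -/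
noncomputable def TT (dφ : Fin 3 → V3) (f : V3) (df : Fin 3 → V3) : ℝ :=
  -∑ k, ⟪dφ k, df k⟫_ℝ + ∑ k, ⟪tens k f (dφ k), f⟫_ℝ

variable {T : ℝ} {u₀ : V3} {u : ℝ → V3} {Du : ℝ → Fin 3 → V3}

theorem rh_eq_TT (hr : 0 < r) {φ f : V3} {dφ df : Fin 3 → V3} {A : ℝ}
    (hφ : ∀ k, IsWeakDeriv k φ (dφ k)) (hb : ∀ k, Bd (dφ k) A)
    (hf : ∀ k, IsWeakDeriv k f (df k)) :
    rh hr φ f = TT (fun k => SS hr (dφ k)) f df := by
  rw [rh, TT, inner_LL' hr hφ hf, GG_eq hr hφ hb, sum_inner]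

theorem abs_TT_le {dφ : Fin 3 → V3} {f : V3} {df : Fin 3 → V3} {A : ℝ}
    (hb : ∀ k, Bd (dφ k) A) :
    |TT dφ f df| ≤ ∑ k, ‖dφ k‖ * ‖df k‖ + 3 * A * ‖f‖ ^ 2 := by
  unfold TT
  refine (abs_add_le _ _).trans (add_le_add ?_ ?_)
  · rw [abs_neg]
    exact (Finset.abs_sum_le_sum_abs _ _).trans
      (Finset.sum_le_sum fun k _ => abs_real_inner_le_norm _ _)
  · refine (Finset.abs_sum_le_sum_abs _ _).trans ?_
    calc ∑ k, |⟪tens k f (dφ k), f⟫_ℝ| ≤ ∑ _k : Fin 3, A * ‖f‖ ^ 2 := by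
          refine Finset.sum_le_sum fun k _ => (abs_real_inner_le_norm _ _).trans ?_
          have := norm_tens_right_le k f (hb k)
          nlinarith [norm_nonneg f]
      _ = _ := by
          rw [Finset.sum_const, Finset.card_univ, Fintype.card_fin]
          simp
          ring

theorem lemT (hu : IsLeray T u₀ u)
    (hDu : ∀ᵐ t ∂(volume.restrict (Ioo 0 T)), ∀ k, IsWeakDeriv k (u t) (Du t k))
    (hDui : ∀ t ∈ Ico 0 T, IntegrableOn (fun τ => ∑ k, ‖Du τ k‖ ^ 2) (Ioo 0 t) volume)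
    {φ : V3} (hdiv : IsDivFree φ) {dφ : Fin 3 → V3} (hφ : ∀ k, IsWeakDeriv k φ (dφ k)) {A : ℝ}
    (hb : ∀ k, Bd (dφ k) A) {s t : ℝ} (hs : 0 ≤ s) (hst : s ≤ t) (ht : t < T) :
    IntegrableOn (fun τ => TT dφ (u τ) (Du τ)) (Ioo s t) volume ∧
    ⟪φ, u t⟫_ℝ - ⟪φ, u s⟫_ℝ = ∫ τ in Ioo s t, TT dφ (u τ) (Du τ) := by
  have hA : 0 ≤ A := by
    obtain ⟨x, hx⟩ := (hb 0).exists
    exact (norm_nonneg _).trans hx
  have hsubT : Ioo s t ⊆ Ioo 0 T := Ioo_subset_Ioo hs ht.le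
  have hsub0 : Ioo s t ⊆ Ioo 0 t := Ioo_subset_Ioo hs le_rfl
  have ht0 : t ∈ Ico 0 T := ⟨hs.trans hst, ht⟩
  have hDu' := ae_restrict_of_ae_restrict_of_subset hsubT hDu
  set M : ℝ → ℝ := fun τ => (∑ k, ‖dφ k‖ ^ 2 + 3 * A * ‖u₀‖ ^ 2) + ∑ k, ‖Du τ k‖ ^ 2 with hM
  refine limit_formula (F := fun n τ => rh (rn_pos n) φ (u τ)) (M := M)
    (A := fun n => ⟪SS (rn_pos n) φ, u t⟫_ℝ - ⟪SS (rn_pos n) φ, u s⟫_ℝ) ?_ ?_ ?_ ?_ ?_ ?_
  · intro n
    have := integrable_rh hu (rn_pos n) φ hs hst ht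
    rwa [intervalIntegrable_iff_integrableOn_Ioo_of_le hst] at this
  · exact (integrableOn_const (by simp) (by simp)).add ((hDui t ht0).mono_set hsub0)
  · intro n
    filter_upwards [hDu', ae_restrict_mem measurableSet_Ioo] with τ h1 h2
    have hτ : τ ∈ Ico 0 T := ⟨hs.trans h2.1.le, h2.2.trans ht⟩
    rw [rh_eq_TT (rn_pos n) hφ hb h1, Real.norm_eq_abs]
    refine (abs_TT_le fun k => bd_SS (rn_pos n) (hb k)).trans ?_
    have h3 := hu.norm_le hτ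
    have h4 : ∑ k, ‖SS (rn_pos n) (dφ k)‖ * ‖Du τ k‖ ≤ ∑ k, (‖dφ k‖ ^ 2 + ‖Du τ k‖ ^ 2) := by
      refine Finset.sum_le_sum fun k _ => ?_
      have h5 := norm_SS_le (rn_pos n) (dφ k)
      nlinarith [sq_nonneg (‖dφ k‖ - ‖Du τ k‖), norm_nonneg (Du τ k), norm_nonneg (dφ k),
        norm_nonneg (SS (rn_pos n) (dφ k)), mul_le_mul_of_nonneg_right h5 (norm_nonneg (Du τ k))]
    rw [Finset.sum_add_distrib] at h4
    have h6 : 3 * A * ‖u τ‖ ^ 2 ≤ 3 * A * ‖u₀‖ ^ 2 := by gcongr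
    simp only [hM]
    linarith
  · filter_upwards [hDu'] with τ h1
    have e1 : ∀ n, rh (rn_pos n) φ (u τ) = TT (fun k => SS (rn_pos n) (dφ k)) (u τ) (Du τ) :=
      fun n => rh_eq_TT (rn_pos n) hφ hb h1
    simp only [e1]
    unfold TT
    refine Tendsto.add (tendsto_finsetSum _ fun k _ => ?_).neg (tendsto_finsetSum _ fun k _ => ?_)
    · exact (tendsto_SS (dφ k)).inner tendsto_const_nhds
    · exact (tendsto_tens k (u τ) (tendsto_SS (dφ k)) (fun n => bd_SS (rn_pos n) (hb k))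
        (hb k)).inner tendsto_const_nhds
  · exact ((tendsto_SS φ).inner tendsto_const_nhds).sub ((tendsto_SS φ).inner tendsto_const_nhds)
  · intro n
    rw [tested hu (rn_pos n) (adm_of_divFree hdiv) hs hst ht,
      intervalIntegral.integral_of_le hst, integral_Ioc_eq_integral_Ioo]

end Pool.Agent.TP
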