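import Pool.Agent.TP.Gsum

/-!
# From one scale to the next
-/

set_option autoImplicit false

namespace Pool.Agent.TP

open MeasureTheory Set Filter Topology
open scoped ENNReal NNReal Real

/-- a primitive which is bounded almost everywhere is bounded -/
theorem abs_le_of_ae {f g : ℝ → ℝ} {s t B : ℝ} (hst : s < t)
    (hg : IntegrableOn g (Ioo s t) volume)
    (hf : ∀ x ∈ Icc s t, f x = f s + ∫ τ in Ioo s x, g τ)
    (hB : ∀ᵐ τ ∂(volume.restrict (Ioo s t)), |f τ| ≤ B) : ∀ x ∈ Icc s t, |f x| ≤ B := by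
  have hg' : IntervalIntegrable g volume s t := by
    rwa [intervalIntegrable_iff_integrableOn_Ioo_of_le hst.le]
  set F : ℝ → ℝ := fun x => f s + ∫ τ in s..x, g τ with hF
  have eF : ∀ x ∈ Icc s t, f x = F x := by
    intro x hx
    rw [hf x hx, hF]
    simp only
    rw [intervalIntegral.integral_of_le hx.1, integral_Ioc_eq_integral_Ioo]
  have acF : AbsolutelyContinuousOnInterval F s t :=
    TG.ac_of_dist_le (hg'.absolutelyContinuousOnInterval_intervalIntegral left_mem_uIcc)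
      fun x _ y _ => by simp [hF]
  have cF : ContinuousOn F (Icc s t) := by
    have := acF.continuousOn
    rwa [uIcc_of_le hst.le] at this
  -- the set of good points is dense
  have hd : Icc s t ⊆ closure ({x | |f x| ≤ B} ∩ Ioo s t) := by
    have h1 : ∀ᵐ τ ∂(volume.restrict (Ioo s t)), τ ∈ ({x | |f x| ≤ B} ∩ Ioo s t) := by
      filter_upwards [hB, ae_restrict_mem measurableSet_Ioo] with τ h1 h2
      exact ⟨h1, h2⟩
    rw [← closure_Ioo hst.ne]
    apply closure_minimal _ isClosed_closure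
    intro x hx
    rw [Metric.mem_closure_iff]
    intro ε hε
    by_contra hcon
    push Not at hcon
    have hball : Metric.ball x ε ∩ Ioo s t ⊆ ({x | |f x| ≤ B} ∩ Ioo s t)ᶜ := by
      intro y hy hy2
      have := hcon y hy2
      have h3 := hy.1
      rw [Metric.mem_ball, dist_comm] at h3
      linarith
    have hopen : IsOpen (Metric.ball x ε ∩ Ioo s t) := Metric.isOpen_ball.inter isOpen_Ioo
    have hpos : 0 < volume (Metric.ball x ε ∩ Ioo s t) :=
      hopen.measure_pos volume ⟨x, Metric.mem_ball_self hε, hx⟩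
    have h2 : (volume.restrict (Ioo s t)) ({x | |f x| ≤ B} ∩ Ioo s t)ᶜ = 0 := h1
    have h3 : (volume.restrict (Ioo s t)) (Metric.ball x ε ∩ Ioo s t) = 0 :=
      measure_mono_null hball h2
    rw [Measure.restrict_apply hopen.measurableSet, inter_assoc, inter_self] at h3
    rw [h3] at hpos
    exact lt_irrefl _ hpos
  intro x hx
  rw [eF x hx]
  have hx2 := hd hx
  have hcl : ContinuousWithinAt F ({x | |f x| ≤ B} ∩ Ioo s t) x :=
    (cF x hx).mono (inter_subset_right.trans Ioo_subset_Icc_self)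
  have h5 : Tendsto F (𝓝[{x | |f x| ≤ B} ∩ Ioo s t] x) (𝓝 (F x)) := hcl
  have hne : (𝓝[{x | |f x| ≤ B} ∩ Ioo s t] x).NeBot := mem_closure_iff_nhdsWithin_neBot.1 hx2
  refine le_of_tendsto h5.abs ?_
  filter_upwards [self_mem_nhdsWithin] with y hy
  rw [← eF y (Ioo_subset_Icc_self hy.2)]
  exact hy.1

theorem step_alg {θ A0 A1 G P0 P1 C m m' n n' M S : ℝ} (hθ0 : 0 ≤ θ) (hθ1 : θ ≤ 1)
    (hS : 0 < S) (hC : 0 < C) (hM : 0 ≤ M) (hG : 0 ≤ G) (hn : 0 ≤ n) (hn' : 0 ≤ n')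
    (hnm : n ^ 2 ≤ m) (hnm' : n' ^ 2 ≤ m')
    (h0 : A0 ≤ -G + C * m * M / S ^ 2) (h1 : A1 ≤ -G + C * m' * M / (S / 2) ^ 2)
    (hP0 : |P0| ≤ √G * (C * n * S * √M)) (hP1 : |P1| ≤ √G * (C * n' * (S / 2) * √M)) :
    (1 - θ) * A0 + θ * A1 + 2 * (4 / (3 * S ^ 2)) * (P0 - P1) ≤
      (4 * C + 8 * C ^ 2) * (m + m') * M / S ^ 2 := by
  have hm : 0 ≤ m := (sq_nonneg _).trans hnm
  have hm' : 0 ≤ m' := (sq_nonneg _).trans hnm'
  have hsG : √G ^ 2 = G := Real.sq_sqrt hG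
  have hsM : √M ^ 2 = M := Real.sq_sqrt hM
  have hg0 : 0 ≤ √G := Real.sqrt_nonneg G
  have hm0 : 0 ≤ √M := Real.sqrt_nonneg M
  -- the convex combination
  have a1 : (1 - θ) * A0 ≤ (1 - θ) * (-G + C * m * M / S ^ 2) :=
    mul_le_mul_of_nonneg_left h0 (by linarith)
  have a2 : θ * A1 ≤ θ * (-G + C * m' * M / (S / 2) ^ 2) := mul_le_mul_of_nonneg_left h1 hθ0
  have e1 : C * m' * M / (S / 2) ^ 2 = 4 * (C * m' * M / S ^ 2) := by
    field_simp
    ring
  have b0 : 0 ≤ C * m * M / S ^ 2 := by positivity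
  have b1 : 0 ≤ C * m' * M / S ^ 2 := by positivity
  have a3 : (1 - θ) * A0 + θ * A1 ≤ -G + C * m * M / S ^ 2 + 4 * (C * m' * M / S ^ 2) := by
    rw [e1] at a2
    nlinarith
  -- the pairings
  have c1 : P0 - P1 ≤ √G * (C * n * S * √M) + √G * (C * n' * (S / 2) * √M) := by
    have := (abs_le.1 hP0).2
    have := (abs_le.1 hP1).1
    linarith
  have c2 : 2 * (4 / (3 * S ^ 2)) * (P0 - P1) ≤
      2 * (4 / (3 * S ^ 2)) * (√G * (C * n * S * √M) + √G * (C * n' * (S / 2) * √M)) := by gcongr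
  set y := C * (n + n') * √M / S with hy
  have hy0 : 0 ≤ y := by positivity
  have c3 : 2 * (4 / (3 * S ^ 2)) * (√G * (C * n * S * √M) + √G * (C * n' * (S / 2) * √M)) ≤
      3 * (√G * y) := by
    have e2 : 2 * (4 / (3 * S ^ 2)) * (√G * (C * n * S * √M) + √G * (C * n' * (S / 2) * √M)) =
        8 / 3 * (√G * (C * (n + n' / 2) * √M / S)) := by
      field_simp
      ring
    rw [e2]
    have : √G * (C * (n + n' / 2) * √M / S) ≤ √G * y := by
      rw [hy]
      gcongr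
      linarith
    have h3 : 0 ≤ √G * y := by positivity
    linarith
  have c4 : 3 * (√G * y) ≤ G + 9 / 4 * y ^ 2 := by
    nlinarith [sq_nonneg (√G - 3 / 2 * y)]
  have c5 : y ^ 2 ≤ 2 * C ^ 2 * (m + m') * M / S ^ 2 := by
    rw [hy, div_pow, mul_pow, mul_pow, hsM]
    have : (n + n') ^ 2 ≤ 2 * (m + m') := by nlinarith [sq_nonneg (n - n')]
    calc C ^ 2 * (n + n') ^ 2 * M / S ^ 2 ≤ C ^ 2 * (2 * (m + m')) * M / S ^ 2 := by gcongr
      _ = _ := by ring
  have e3 : (4 * C + 8 * C ^ 2) * (m + m') * M / S ^ 2 =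
      4 * (C * m * M / S ^ 2) + 4 * (C * m' * M / S ^ 2) + 4 * (2 * C ^ 2 * (m + m') * M / S ^ 2) := by
    ring
  have b2 : 0 ≤ 2 * C ^ 2 * (m + m') * M / S ^ 2 := by positivity
  rw [e3]
  linarith

/-- **one step** -/
theorem step {R re p z p' z' G : ℝ → ℝ} {S C m m' n n' M : ℝ} (hS : 0 < S) (hC : 0 < C)
    (hM : 0 ≤ M) (hn : 0 ≤ n) (hn' : 0 ≤ n') (hnm : n ^ 2 ≤ m) (hnm' : n' ^ 2 ≤ m')
    (hG : ∀ τ, 0 ≤ G τ)
    (hre : IntegrableOn re (Ioo (S ^ 2 / 4) (S ^ 2)) volume)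
    (hR : ∀ x ∈ Icc (S ^ 2 / 4) (S ^ 2), R x = R (S ^ 2 / 4) + ∫ τ in Ioo (S ^ 2 / 4) x, re τ)
    (hp : ∀ s t, S ^ 2 / 4 ≤ s → s ≤ t → t ≤ 4 * S ^ 2 →
      IntegrableOn z (Ioo s t) volume ∧ p t - p s = ∫ τ in Ioo s t, z τ)
    (hp' : ∀ s t, (S / 2) ^ 2 / 4 ≤ s → s ≤ t → t ≤ 4 * (S / 2) ^ 2 →
      IntegrableOn z' (Ioo s t) volume ∧ p' t - p' s = ∫ τ in Ioo s t, z' τ)
    (h1 : ∀ᵐ τ ∂(volume.restrict (Ioo (S ^ 2 / 4) (4 * S ^ 2))),
      re τ + 2 * z τ ≤ -G τ + C * m * M / S ^ 2 ∧ |p τ| ≤ √(G τ) * (C * n * S * √M))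
    (h2 : ∀ᵐ τ ∂(volume.restrict (Ioo ((S / 2) ^ 2 / 4) (4 * (S / 2) ^ 2))),
      re τ + 2 * z' τ ≤ -G τ + C * m' * M / (S / 2) ^ 2 ∧
        |p' τ| ≤ √(G τ) * (C * n' * (S / 2) * √M)) :
    R (S ^ 2) + 2 * p (S ^ 2) ≤ R (S ^ 2 / 4) + 2 * p' (S ^ 2 / 4) +
      (4 * C + 8 * C ^ 2) * (m + m') * M := by
  have hS2 : 0 < S ^ 2 := by positivity
  have e4 : 4 * (S / 2) ^ 2 = S ^ 2 := by ring
  have e5 : (S / 2) ^ 2 / 4 = S ^ 2 / 16 := by ring
  rw [e4] at hp' h2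
  rw [e5] at hp' h2
  set s := S ^ 2 / 4 with hs
  set t := S ^ 2 with ht
  have hst : s < t := by rw [hs]; linarith
  have hΔ : t - s = 3 / 4 * S ^ 2 := by rw [hs]; ring
  -- the weight
  set θ : ℝ → ℝ := fun τ => (4 / (3 * S ^ 2)) * (t - τ) with hθ
  have θs : θ s = 1 := by
    simp only [hθ, hΔ]
    field_simp
  have θt : θ t = 0 := by simp [hθ]
  have prim : ∀ x ∈ Icc s t, θ x = θ s + ∫ τ in Ioo s x, (fun _ => -(4 / (3 * S ^ 2))) τ := by
    intro x hx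
    rw [setIntegral_const, measureReal_def, Real.volume_Ioo,
      ENNReal.toReal_ofReal (by linarith [hx.1])]
    simp only [hθ, smul_eq_mul]
    ring
  have prim1 : ∀ x ∈ Icc s t, (fun τ => 1 - θ τ) x = (fun τ => 1 - θ τ) s +
      ∫ τ in Ioo s x, (fun _ => 4 / (3 * S ^ 2)) τ := by
    intro x hx
    have := prim x hx
    rw [setIntegral_const, measureReal_def, Real.volume_Ioo,
      ENNReal.toReal_ofReal (by linarith [hx.1])] at this ⊢
    simp only [smul_eq_mul] at this ⊢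
    linarith
  have ic : ∀ c : ℝ, IntegrableOn (fun _ : ℝ => c) (Ioo s t) volume := fun c =>
    integrableOn_const (by simp) (by simp)
  have hpz := (hp s t le_rfl hst.le (by linarith)).1
  have hpz' := (hp' s t (by rw [hs]; linarith) hst.le le_rfl).1
  have hp1 : ∀ x ∈ Icc s t, p x = p s + ∫ τ in Ioo s x, z τ := fun x hx => by
    have := (hp s x le_rfl hx.1 (by linarith [hx.2])).2
    linarith
  have hp1' : ∀ x ∈ Icc s t, p' x = p' s + ∫ τ in Ioo s x, z' τ := fun x hx => by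
    have := (hp' s x (by rw [hs]; linarith) hx.1 hx.2).2
    linarith
  obtain ⟨j1, k1⟩ := prod_rule hst.le hpz (ic _) hp1 prim1
  obtain ⟨j2, k2⟩ := prod_rule hst.le hpz' (ic _) hp1' prim
  have k0 := hR t (right_mem_Icc.2 hst.le)
  simp only [θs, θt, sub_self, zero_mul, sub_zero, one_mul, zero_sub] at k1 k2
  have hint : R t + 2 * p t - (R s + 2 * p' s) = ∫ τ in Ioo s t, (re τ +
      2 * ((1 - θ τ) * z τ + 4 / (3 * S ^ 2) * p τ) +
      2 * (θ τ * z' τ + -(4 / (3 * S ^ 2)) * p' τ)) := by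
    have i12 : Integrable (fun τ => re τ + 2 * ((1 - θ τ) * z τ + 4 / (3 * S ^ 2) * p τ))
      (volume.restrict (Ioo s t)) := hre.add (j1.const_mul 2)
    have i22 : Integrable (fun τ => 2 * (θ τ * z' τ + -(4 / (3 * S ^ 2)) * p' τ))
      (volume.restrict (Ioo s t)) := j2.const_mul 2
    have i11 : Integrable re (volume.restrict (Ioo s t)) := hre
    have i13 : Integrable (fun τ => 2 * ((1 - θ τ) * z τ + 4 / (3 * S ^ 2) * p τ))
      (volume.restrict (Ioo s t)) := j1.const_mul 2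
    have a1 := integral_add i12 i22
    have a2 := integral_add i11 i13
    rw [a1, a2, integral_const_mul, integral_const_mul, ← k1, ← k2, k0]
    ring
  have hle : ∫ τ in Ioo s t, (re τ +
      2 * ((1 - θ τ) * z τ + 4 / (3 * S ^ 2) * p τ) +
      2 * (θ τ * z' τ + -(4 / (3 * S ^ 2)) * p' τ)) ≤
      ∫ _τ in Ioo s t, (4 * C + 8 * C ^ 2) * (m + m') * M / S ^ 2 := by
    apply integral_mono_ae ((hre.add (j1.const_mul 2)).add (j2.const_mul 2)) (ic _)
    have hsub1 : Ioo s t ⊆ Ioo s (4 * S ^ 2) := Ioo_subset_Ioo le_rfl (by linarith)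
    have hsub2 : Ioo s t ⊆ Ioo (S ^ 2 / 16) t := Ioo_subset_Ioo (by rw [hs]; linarith) le_rfl
    filter_upwards [ae_restrict_of_ae_restrict_of_subset hsub1 h1,
      ae_restrict_of_ae_restrict_of_subset hsub2 h2, ae_restrict_mem measurableSet_Ioo]
      with τ q1 q2 hτ
    have θ0 : 0 ≤ θ τ := by
      simp only [hθ]
      have : 0 ≤ t - τ := by linarith [hτ.2]
      positivity
    have θ1 : θ τ ≤ 1 := by
      rw [← θs]
      simp only [hθ]
      have := hτ.1.le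
      gcongr
    have key := step_alg (A0 := re τ + 2 * z τ) (A1 := re τ + 2 * z' τ) (P0 := p τ) (P1 := p' τ)
      θ0 θ1 hS hC hM (hG τ) hn hn' hnm hnm' q1.1 q2.1 q1.2 q2.2
    change re τ + 2 * ((1 - θ τ) * z τ + 4 / (3 * S ^ 2) * p τ) +
      2 * (θ τ * z' τ + -(4 / (3 * S ^ 2)) * p' τ) ≤ _
    refine le_trans (le_of_eq ?_) key
    ring
  have hconst : ∫ _τ in Ioo s t, (4 * C + 8 * C ^ 2) * (m + m') * M / S ^ 2 ≤
      (4 * C + 8 * C ^ 2) * (m + m') * M := by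
    rw [setIntegral_const, measureReal_def, Real.volume_Ioo, hΔ,
      ENNReal.toReal_ofReal (by positivity), smul_eq_mul]
    have hm : 0 ≤ m := (sq_nonneg _).trans hnm
    have hm' : 0 ≤ m' := (sq_nonneg _).trans hnm'
    have e : 3 / 4 * S ^ 2 * ((4 * C + 8 * C ^ 2) * (m + m') * M / S ^ 2) =
        3 / 4 * ((4 * C + 8 * C ^ 2) * (m + m') * M) := by
      field_simp
    rw [e]
    have : 0 ≤ (4 * C + 8 * C ^ 2) * (m + m') * M := by positivity
    linarith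
  have := hint.le.trans (hle.trans hconst)
  linarith

end Pool.Agent.TP
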