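import Pool.Agent.TP.Scale2
import Pool.Agent.TP.Step

/-!
# All scales
-/

set_option autoImplicit false

namespace Pool.Agent.TP

open MeasureTheory Set Filter Topology Pool.Agent.TO Pool.Agent.TB Pool.Agent.TC
open scoped ENNReal NNReal Real InnerProductSpace

/-- the error at one scale -/
noncomputable def me (q : ℝ) : ℝ := q ^ 32 * lg q ^ 2

theorem me_nonneg (q : ℝ) : 0 ≤ me q := by
  unfold me
  positivity

theorem sq_le_me {q : ℝ} (hq : 0 < q) (hq1 : q ≤ 1) : (q ^ 16) ^ 2 ≤ me q := by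
  have h := one_le_lg hq hq1
  have e : (q ^ 16) ^ 2 = q ^ 32 := by ring
  rw [e, me]
  exact le_mul_of_one_le_right (by positivity) (one_le_pow₀ h)

variable {T : ℝ} {u₀ : V3} {u v : ℝ → V3} {a : ℝ → ℝ} {Du Dv : ℝ → Fin 3 → V3}

theorem chain (P : Rel T u₀ u₀ u v a Du Dv) {S M : ℝ} {q : ℕ → ℝ} (hq : ∀ k, 0 < q k)
    (hq2 : ∀ k, q k ≤ 1 / 2) (hS : 0 < S) (h4 : 4 * S ^ 2 < T)
    (hT1 : ∀ k, (S / 2 ^ k / q k ^ 4) ^ 2 ≤ T)
    (ham : AEStronglyMeasurable a (volume.restrict (Ioo 0 (4 * S ^ 2))))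
    (ha : ∀ k, ∀ s ∈ Ioo 0 (4 * (S / 2 ^ k) ^ 2), a s ≤ q k ^ 12 / √s)
    (hb : ∀ k, ∀ᵐ s ∂(volume.restrict (Ioo 0 ((S / 2 ^ k / q k ^ 4) ^ 2))),
      Bd (u s) (q k ^ 12 / √s) ∧ ∀ j, Bd (Du s j) (q k ^ 12 / s))
    (hM : ∀ s ∈ Ioc 0 (4 * S ^ 2), RE u₀ u v Dv s ≤ M) (hlim : Tendsto q atTop (𝓝 0))
    (hsum : Summable fun k => me (q k)) :
    RE u₀ u v Dv (S ^ 2) ≤ (2 * (4 * Cf + 8 * Cf ^ 2) * (∑' k, me (q k)) +
      2 * (Cf * q 0 ^ 20)) * M := by
  have hCf := Cf_pos
  have hT0 : 0 < T := lt_trans (by positivity) h4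
  have hSk : ∀ k : ℕ, 0 < S / 2 ^ k := fun k => by positivity
  have hSle : ∀ k : ℕ, S / 2 ^ k ≤ S := fun k =>
    div_le_self hS.le (one_le_pow₀ (by norm_num))
  have hSsq : ∀ k : ℕ, 4 * (S / 2 ^ k) ^ 2 ≤ 4 * S ^ 2 := fun k => by
    have := pow_le_pow_left₀ (hSk k).le (hSle k) 2
    linarith
  have hM0 : 0 ≤ M := ((sq_nonneg _).trans (P.le_RE ⟨by positivity, h4⟩)).trans
    (hM (4 * S ^ 2) ⟨by positivity, le_rfl⟩)
  -- the corrections
  have hsc := fun k => scale P (q := q k) (S := S / 2 ^ k) (M := M) (hq k) (hq2 k) (hSk k)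
    ((hSsq k).trans_lt h4) (hT1 k)
    (ham.mono_measure (Measure.restrict_mono (Ioo_subset_Ioo le_rfl (hSsq k)) le_rfl)) (ha k)
    (hb k) (fun s hs => hM s ⟨hs.1, hs.2.trans (hSsq k)⟩)
  choose p z hp hest using hsc
  set F : ℕ → ℝ := fun k => RE u₀ u v Dv ((S / 2 ^ k) ^ 2) + 2 * p k ((S / 2 ^ k) ^ 2) with hF
  set K : ℝ := 4 * Cf + 8 * Cf ^ 2 with hK
  have hK0 : 0 < K := by positivity
  have hhalf : ∀ k : ℕ, S / 2 ^ (k + 1) = S / 2 ^ k / 2 := fun k => by
    rw [pow_succ]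
    field_simp
  have hstep : ∀ k, F k ≤ F (k + 1) + K * (me (q k) + me (q (k + 1))) * M := by
    intro k
    have hSk0 := hSk k
    have hlt : (S / 2 ^ k) ^ 2 < T := by
      have := hSsq k
      have h5 : 0 < (S / 2 ^ k) ^ 2 := by positivity
      linarith
    obtain ⟨i1, i2⟩ := rel_re P (s := (S / 2 ^ k) ^ 2 / 4) (t := (S / 2 ^ k) ^ 2)
      (A := q k ^ 12 / √((S / 2 ^ k) ^ 2 / 4)) (by positivity)
      (by have : 0 < (S / 2 ^ k) ^ 2 := by positivity
          linarith) hlt (by have := hq k; positivity) (by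
        intro τ hτ
        have h6 : 0 < (S / 2 ^ k) ^ 2 / 4 := by positivity
        refine (ha k τ ⟨h6.trans hτ.1, ?_⟩).trans ?_
        · have := hτ.2
          have : 0 < (S / 2 ^ k) ^ 2 := by positivity
          linarith
        · have h7 : √((S / 2 ^ k) ^ 2 / 4) ≤ √τ := Real.sqrt_le_sqrt hτ.1.le
          have h8 : 0 < √((S / 2 ^ k) ^ 2 / 4) := Real.sqrt_pos.2 h6
          have := hq k
          gcongr)
      (ham.mono_measure (Measure.restrict_mono (Ioo_subset_Ioo (by positivity) (by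
        have := hSsq k
        have : 0 < (S / 2 ^ k) ^ 2 := by positivity
        linarith)) le_rfl))
    have hp' := hp (k + 1)
    have he' := hest (k + 1)
    rw [hhalf k] at hp' he'
    have hst := step (R := RE u₀ u v Dv) (re := fun τ => 2 * re0 (u τ) (v τ) (Du τ) (Dv τ))
      (p := p k) (z := z k) (p' := p (k + 1)) (z' := z (k + 1)) (G := Gd Du Dv) (S := S / 2 ^ k)
      (C := Cf) (m := me (q k)) (m' := me (q (k + 1))) (n := q k ^ 16) (n' := q (k + 1) ^ 16)
      (M := M) hSk0 hCf hM0 (by have := hq k; positivity) (by have := hq (k + 1); positivity)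
      (sq_le_me (hq k) (by linarith [hq2 k])) (sq_le_me (hq (k + 1)) (by linarith [hq2 (k + 1)]))
      (fun τ => Gd_nonneg τ) i1 i2 (hp k) hp'
      (by
        filter_upwards [hest k] with τ hτ
        refine ⟨?_, hτ.2.2⟩
        have := hτ.1
        rw [me]
        linarith)
      (by
        filter_upwards [he'] with τ hτ
        refine ⟨?_, hτ.2.2⟩
        have := hτ.1
        rw [me]
        linarith)
    have e1 : (S / 2 ^ (k + 1)) ^ 2 = (S / 2 ^ k) ^ 2 / 4 := by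
      rw [hhalf k]
      ring
    simp only [hF]
    rw [e1]
    exact hst
  have hind : ∀ n, F 0 ≤ F n + K * (∑ k ∈ Finset.range n, (me (q k) + me (q (k + 1)))) * M := by
    intro n
    induction n with
    | zero => simp
    | succ n ih =>
      rw [Finset.sum_range_succ]
      have := hstep n
      nlinarith
  have hs1 : ∀ n, ∑ k ∈ Finset.range n, (me (q k) + me (q (k + 1))) ≤ 2 * ∑' k, me (q k) := by
    intro n
    rw [Finset.sum_add_distrib]
    have h5 : ∑ k ∈ Finset.range n, me (q k) ≤ ∑' k, me (q k) :=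
      hsum.sum_le_tsum _ fun k _ => me_nonneg _
    have h6 : ∑ k ∈ Finset.range n, me (q (k + 1)) ≤ ∑' k, me (q k) := by
      have h7 := hsum.sum_le_tsum (Finset.range (n + 1)) fun k _ => me_nonneg _
      rw [Finset.sum_range_succ'] at h7
      have := me_nonneg (q 0)
      linarith
    linarith
  have hpb : ∀ k, |p k ((S / 2 ^ k) ^ 2)| ≤ Cf * q k ^ 20 * M := by
    intro k
    have hSk0 := hSk k
    have h5 : 0 < (S / 2 ^ k) ^ 2 := by positivity
    refine abs_le_of_ae (f := p k) (g := z k) (s := (S / 2 ^ k) ^ 2 / 4)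
      (t := 4 * (S / 2 ^ k) ^ 2) (by linarith)
      (hp k _ _ le_rfl (by linarith) le_rfl).1 ?_ ?_ _ ⟨by linarith, by linarith⟩
    · intro x hx
      have := (hp k _ x le_rfl hx.1 hx.2).2
      linarith
    · filter_upwards [hest k] with τ hτ
      exact hτ.2.1
  have hF0 : Tendsto F atTop (𝓝 0) := by
    have l1 : Tendsto (fun k : ℕ => (S / 2 ^ k) ^ 2) atTop (𝓝[>] 0) := by
      rw [tendsto_nhdsWithin_iff]
      refine ⟨?_, Eventually.of_forall fun k => by
        have := hSk k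
        exact pow_pos this 2⟩
      have h6 : Tendsto (fun k : ℕ => S * (1 / 2 : ℝ) ^ k) atTop (𝓝 (S * 0)) :=
        (tendsto_pow_atTop_nhds_zero_of_lt_one (by norm_num) (by norm_num)).const_mul S
      have h7 := h6.pow 2
      rw [mul_zero, zero_pow two_ne_zero] at h7
      refine h7.congr fun k => ?_
      rw [one_div, inv_pow, div_eq_mul_inv]
    have l2 := (P.tendsto_RE hT0).comp l1
    rw [sub_self, norm_zero, zero_pow two_ne_zero] at l2
    have l3 : Tendsto (fun k => p k ((S / 2 ^ k) ^ 2)) atTop (𝓝 0) := by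
      have l4 : Tendsto (fun k => Cf * q k ^ 20 * M) atTop (𝓝 (Cf * 0 ^ 20 * M)) :=
        ((hlim.pow 20).const_mul Cf).mul_const M
      rw [zero_pow (by norm_num), mul_zero, zero_mul] at l4
      exact squeeze_zero_norm (fun k => by rw [Real.norm_eq_abs]; exact hpb k) l4
    have l5 := l2.add (l3.const_mul 2)
    rw [mul_zero, add_zero] at l5
    exact l5
  have hfin : F 0 ≤ K * (2 * ∑' k, me (q k)) * M := by
    have l6 : Tendsto (fun n => F n + K * (2 * ∑' k, me (q k)) * M) atTop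
        (𝓝 (0 + K * (2 * ∑' k, me (q k)) * M)) := hF0.add_const _
    rw [zero_add] at l6
    refine ge_of_tendsto l6 (Eventually.of_forall fun n => ?_)
    refine (hind n).trans ?_
    have := hs1 n
    gcongr
  have h0 := hpb 0
  have h01 := (abs_le.1 h0).1
  have e0 : F 0 = RE u₀ u v Dv (S ^ 2) + 2 * p 0 (S ^ 2) := by
    simp [hF]
  have e2 : (S / 2 ^ 0) ^ 2 = S ^ 2 := by simp
  rw [e2] at h01
  rw [e0] at hfin
  nlinarith

end Pool.Agent.TP
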