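import Pool.Agent.TO.Stmt

/-!
# Pointwise bounds for the gradient
-/

set_option autoImplicit false

namespace Pool.Agent.TP

open MeasureTheory Set Pool.Agent.TO

/-- `|∂_k u(t, x)| ≤ b(t)` for `k = 1, 2, 3` and almost every `(t, x)` -/
def GBdd (T : ℝ) (u : ℝ → V3) (b : ℝ → ℝ) : Prop :=
  ∀ᵐ t ∂(volume.restrict (Ioo 0 T)), ∀ k, ∃ g : V3, WeakPartial k (u t) g ∧ FBdd g (b t)

end Pool.Agent.TP
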