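import Pool.Agent.TP.Fin
import Pool.Agent.TP.Stmt

/-!
# Uniqueness beyond the Serrin endpoint
-/

set_option autoImplicit false

namespace Pool.Agent.TP

open MeasureTheory Set Filter Topology Pool.Agent.TO Pool.Agent.TB Pool.Agent.TC
open scoped ENNReal NNReal Real InnerProductSpace

theorem uniq {T p : ℝ} {u₀ : V3} {u v : ℝ → V3} {ε : ℝ → ℝ} (hp0 : 0 < p) (hp : p < 8 / 3)
    (hu : IsLeray T u₀ u) (hv : IsLeray T u₀ v) (hmono : MonotoneOn ε (Ioo 0 T))
    (h0 : ∀ t ∈ Ioo 0 T, 0 ≤ ε t) (hub : BddBy T u (fun t => ε t / √t))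
    (hgb : GBdd T u (fun t => ε t / t))
    (hint : IntegrableOn (fun t => ε t ^ p / t) (Ioo 0 T) volume) : ∀ t ∈ Ico 0 T, u t = v t := by
  intro t₀ ht₀
  have hT : 0 < T := ht₀.1.trans_lt ht₀.2
  set e : ℝ → ℝ := fun t => max (ε t) (t * √t) with he
  have hle : ∀ t, ε t ≤ e t := fun t => le_max_left _ _
  have hlow : ∀ t ∈ Ioo 0 T, t * √t ≤ e t := fun t _ => le_max_right _ _
  have hmono' : MonotoneOn e (Ioo 0 T) := by
    intro s hs t ht hst
    have h1 := hmono hs ht hst
    have h2 : s * √s ≤ t * √t := by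
      have := Real.sqrt_le_sqrt hst
      have := ht.1.le
      gcongr
    exact max_le_max h1 h2
  have hint' : IntegrableOn (fun t => e t ^ p / t) (Ioo 0 T) volume := by
    have h1 : IntegrableOn (fun t : ℝ => t ^ (3 / 2 * p - 1)) (Ioo 0 T) volume :=
      (intervalIntegral.integrableOn_Ioo_rpow_iff hT).2 (by linarith)
    refine (hint.add h1).mono' ?_ ?_
    · have h2 : AEMeasurable e (volume.restrict (Ioo 0 T)) :=
        aemeasurable_restrict_of_monotoneOn measurableSet_Ioo hmono'
      exact ((h2.pow_const p).div (by fun_prop)).aestronglyMeasurable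
    · filter_upwards [ae_restrict_mem measurableSet_Ioo] with t ht
      have ht0 := ht.1
      have h3 := h0 t ht
      have hst : 0 < t * √t := mul_pos ht0 (Real.sqrt_pos.2 ht0)
      have he0 : 0 ≤ e t := h3.trans (hle t)
      rw [Real.norm_eq_abs, abs_of_nonneg (by positivity), Pi.add_apply]
      have h4 : (t * √t) ^ p / t = t ^ (3 / 2 * p - 1) := by
        have e1 : t * √t = t ^ (3 / 2 : ℝ) := by
          rw [Real.sqrt_eq_rpow]
          nth_rewrite 1 [← Real.rpow_one t]
          rw [← Real.rpow_add ht0]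
          norm_num
        rw [e1, ← Real.rpow_mul ht0.le, Real.rpow_sub_one ht0.ne']
      have h5 : 0 ≤ ε t ^ p / t := by positivity
      have h6 : 0 ≤ (t * √t) ^ p / t := by positivity
      rw [← h4]
      rcases le_total (ε t) (t * √t) with h7 | h7
      · rw [he]
        simp only [max_eq_right h7]
        linarith
      · rw [he]
        simp only [max_eq_left h7]
        linarith
  set a : ℝ → ℝ := (Ioo 0 T).indicator fun t => e t / √t with ha
  have hae : ∀ t ∈ Ioo 0 T, a t = e t / √t := fun t ht => by rw [ha, indicator_of_mem ht]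
  have ha0 : ∀ t, 0 ≤ a t := by
    intro t
    apply indicator_nonneg
    intro t ht
    have := (h0 t ht).trans (hle t)
    positivity
  have hua : BddBy T u a := by
    unfold BddBy
    filter_upwards [hub, ae_restrict_mem measurableSet_Ioo] with t h1 ht
    filter_upwards [h1] with x hx
    rw [hae t ht]
    refine hx.trans ?_
    have := hle t
    gcongr
  obtain ⟨Du, Dv, P⟩ := exists_rel hu hv ha0 hua
  refine core P hT hp0 hp hmono' hlow hae ?_ hint' t₀ ht₀
  filter_upwards [hub, hgb, P.hDu, ae_restrict_mem measurableSet_Ioo] with t h1 h2 h3 ht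
  have ht0 := ht.1
  refine ⟨?_, fun k => ?_⟩
  · have h4 : Bd (u t) (ε t / √t) := h1
    refine bd_mono h4 ?_
    have := hle t
    gcongr
  · obtain ⟨g, hg1, hg2⟩ := h2 k
    have h5 : g = Du t k := weak_unique hg1 (h3 k)
    have h6 : Bd g (ε t / t) := hg2
    rw [← h5]
    refine bd_mono h6 ?_
    have := hle t
    gcongr

end Pool.Agent.TP
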