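import Pool.Agent.TP.Pot

/-!
# Smooth cut-off functions adapted to a function with a Harnack inequality
-/

set_option autoImplicit false

namespace Pool.Agent.TP

open MeasureTheory Set Filter Topology Pool.Agent.TO Pool.Agent.TB Pool.Agent.TC
open scoped ENNReal NNReal Real InnerProductSpace SchwartzMap LineDeriv Laplacian Convolution

/-- the constant in the bounds for the derivatives of the mollifier -/
theorem exists_const2 : ∃ C : ℝ, 1 ≤ C ∧ ∀ (r : ℝ) (hr : 0 < r),
    (∀ k : Fin 3, KBdd (∂_{ee k} (eS hr)) (C / r ^ 4) r) ∧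
    ∀ k j : Fin 3, KBdd (∂_{ee k} (∂_{ee j} (eS hr))) (C / r ^ 5) r := by
  set g : 𝓢(E3, ℝ) := eS one_pos with hg
  have g0 : ∀ y, 1 < ‖y‖ → g y = 0 := fun y hy => et_zero one_pos hy.le
  set C : ℝ := 1 + ∑ k : Fin 3, SchwartzMap.seminorm ℝ 0 0 (∂_{ee k} g) +
    ∑ p : Fin 3 × Fin 3, SchwartzMap.seminorm ℝ 0 0 (∂_{ee p.1} (∂_{ee p.2} g)) with hC
  have s1 : 0 ≤ ∑ k : Fin 3, SchwartzMap.seminorm ℝ 0 0 (∂_{ee k} g) :=
    Finset.sum_nonneg fun j _ => by positivity
  have s2 : 0 ≤ ∑ p : Fin 3 × Fin 3, SchwartzMap.seminorm ℝ 0 0 (∂_{ee p.1} (∂_{ee p.2} g)) :=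
    Finset.sum_nonneg fun j _ => by positivity
  have hC1 : 1 ≤ C := by linarith
  refine ⟨C, hC1, fun r hr => ?_⟩
  have b1 : ∀ (k : Fin 3) z, |(∂_{ee k} g) z| ≤ C := fun k z => by
    have h1 := SchwartzMap.norm_le_seminorm ℝ (∂_{ee k} g) z
    have h2 := Finset.single_le_sum (f := fun k : Fin 3 => SchwartzMap.seminorm ℝ 0 0 (∂_{ee k} g))
      (fun j _ => by positivity) (Finset.mem_univ k)
    rw [Real.norm_eq_abs] at h1
    linarith
  have b2 : ∀ (k j : Fin 3) z, |(∂_{ee k} (∂_{ee j} g)) z| ≤ C := fun k j z => by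
    have h1 := SchwartzMap.norm_le_seminorm ℝ (∂_{ee k} (∂_{ee j} g)) z
    have h2 := Finset.single_le_sum (f := fun p : Fin 3 × Fin 3 =>
      SchwartzMap.seminorm ℝ 0 0 (∂_{ee p.1} (∂_{ee p.2} g)))
      (fun j _ => by positivity) (Finset.mem_univ (k, j))
    rw [Real.norm_eq_abs] at h1
    simp only at h2
    linarith
  have e0 : ∀ y, eS hr y = r⁻¹ ^ 3 * g (r⁻¹ • y) := by
    intro y
    rw [eS_apply, hg, eS_apply]
    unfold et
    simp
  have e1 : ∀ (k : Fin 3) y, (∂_{ee k} (eS hr)) y = r⁻¹ ^ 3 * r⁻¹ * (∂_{ee k} g) (r⁻¹ • y) :=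
    fun k => lineDeriv_scale e0 (ee k)
  have e2 : ∀ (k j : Fin 3) y, (∂_{ee k} (∂_{ee j} (eS hr))) y =
      r⁻¹ ^ 3 * r⁻¹ * r⁻¹ * (∂_{ee k} (∂_{ee j} g)) (r⁻¹ • y) :=
    fun k j => lineDeriv_scale (e1 j) (ee k)
  have z1 := fun k : Fin 3 => zero_lineDeriv g0 (ee k)
  have z2 := fun k j : Fin 3 => zero_lineDeriv (z1 j) (ee k)
  have hn : ∀ y : E3, r < ‖y‖ → 1 < ‖r⁻¹ • y‖ := by
    intro y hy
    rw [norm_smul, norm_inv, Real.norm_of_nonneg hr.le, inv_mul_eq_div, one_lt_div hr]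
    exact hy
  constructor
  · intro k y
    refine ⟨?_, fun hy => ?_⟩
    · rw [e1, abs_mul, abs_of_nonneg (by positivity)]
      calc r⁻¹ ^ 3 * r⁻¹ * |(∂_{ee k} g) (r⁻¹ • y)| ≤ r⁻¹ ^ 3 * r⁻¹ * C := by
            gcongr
            exact b1 _ _
        _ = C / r ^ 4 := by field_simp
    · rw [e1, z1 _ _ (hn y hy), mul_zero]
  · intro k j y
    refine ⟨?_, fun hy => ?_⟩
    · rw [e2, abs_mul, abs_of_nonneg (by positivity)]
      calc r⁻¹ ^ 3 * r⁻¹ * r⁻¹ * |(∂_{ee k} (∂_{ee j} g)) (r⁻¹ • y)| ≤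
            r⁻¹ ^ 3 * r⁻¹ * r⁻¹ * C := by
            gcongr
            exact b2 _ _ _
        _ = C / r ^ 5 := by field_simp
    · rw [e2, z2 _ _ _ (hn y hy), mul_zero]

/-- the constant in the bounds for the cut-off functions -/
noncomputable def Cb : ℝ := Classical.choose exists_const2 * om

theorem Cb_pos : 0 < Cb := by
  have h1 := (Classical.choose_spec exists_const2).1
  have := om_pos
  unfold Cb
  positivity

/-- the convolution of a kernel with an indicator function -/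
noncomputable def mcv (κ : 𝓢(E3, ℝ)) (A : Set E3) (x : E3) : ℝ :=
  ∫ y, A.indicator (fun _ => (1:ℝ)) y * κ (x - y)

variable {κ : 𝓢(E3, ℝ)} {A E : Set E3} {r : ℝ}

theorem abs_indicator_le (A : Set E3) (y : E3) : |A.indicator (fun _ => (1:ℝ)) y| ≤ 1 := by
  by_cases h : y ∈ A
  · simp [h]
  · simp [h]

theorem int_mcv (κ : 𝓢(E3, ℝ)) (hA : MeasurableSet A) (x : E3) :
    Integrable (fun y => A.indicator (fun _ => (1:ℝ)) y * κ (x - y)) (volume : Measure E3) := by
  have h1 : Integrable (fun y => κ (x - y)) (volume : Measure E3) := κ.integrable.comp_sub_left x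
  refine Integrable.bdd_mul (c := 1) h1
    ((measurable_const.indicator hA).aestronglyMeasurable) (Eventually.of_forall fun y => ?_)
  rw [Real.norm_eq_abs]
  exact abs_indicator_le A y

theorem mcv_eq_conv (κ : 𝓢(E3, ℝ)) (A : Set E3) : mcv κ A =
    ((A.indicator fun _ => (1:ℝ)) ⋆[ContinuousLinearMap.lsmul ℝ ℝ, volume] κ) := by
  funext x
  rfl

theorem hcs_of_zero (h : ∀ y, r < ‖y‖ → κ y = 0) : HasCompactSupport κ := by
  apply HasCompactSupport.intro (isCompact_closedBall (0:E3) r)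
  intro y hy
  apply h
  rw [Metric.mem_closedBall, dist_zero_right, not_le] at hy
  exact hy

theorem line_mcv (h : ∀ y, r < ‖y‖ → κ y = 0) (hA : MeasurableSet A) (k : Fin 3) (x : E3) :
    HasLineDerivAt ℝ (mcv κ A) (mcv (∂_{ee k} κ) A x) x (ee k) := by
  have hc := hcs_of_zero h
  have hf : LocallyIntegrable (A.indicator fun _ => (1:ℝ)) (volume : Measure E3) :=
    (locallyIntegrable_const 1).indicator hA
  have h1 := hc.hasFDerivAt_convolution_right (ContinuousLinearMap.lsmul ℝ ℝ) hf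
    ((κ.smooth 1)) x
  have h2 := h1.hasLineDerivAt (ee k)
  rw [← mcv_eq_conv] at h2
  have hex := (hc.fderiv ℝ).convolutionExists_right
    ((ContinuousLinearMap.lsmul ℝ ℝ : ℝ →L[ℝ] ℝ →L[ℝ] ℝ).precompR E3) hf
    ((κ.smooth 1).continuous_fderiv one_ne_zero) x
  have h3 : ((A.indicator fun _ => (1:ℝ)) ⋆[(ContinuousLinearMap.lsmul ℝ ℝ :
      ℝ →L[ℝ] ℝ →L[ℝ] ℝ).precompR E3, volume] fderiv ℝ κ) x (ee k) = mcv (∂_{ee k} κ) A x := by
    rw [convolution_def, ContinuousLinearMap.integral_apply hex]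
    rfl
  rwa [h3] at h2

theorem continuous_mcv (h : ∀ y, r < ‖y‖ → κ y = 0) (hA : MeasurableSet A) :
    Continuous (mcv κ A) := by
  have hc := hcs_of_zero h
  have hf : LocallyIntegrable (A.indicator fun _ => (1:ℝ)) (volume : Measure E3) :=
    (locallyIntegrable_const 1).indicator hA
  rw [continuous_iff_continuousAt]
  intro x
  rw [mcv_eq_conv]
  exact (hc.hasFDerivAt_convolution_right (ContinuousLinearMap.lsmul ℝ ℝ) hf
    ((κ.smooth 1)) x).continuousAt

theorem abs_mcv_le {B : ℝ} (h : KBdd κ B r) (hB : 0 ≤ B) (hr : 0 ≤ r) (hA : MeasurableSet A)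
    (x : E3) : |mcv κ A x| ≤ B * (om * r ^ 3) := by
  have hv := vol_closedBall hr x
  have h1 : ∀ y, ‖A.indicator (fun _ => (1:ℝ)) y * κ (x - y)‖ ≤
      (Metric.closedBall x r).indicator (fun _ => B) y := by
    intro y
    rw [norm_mul, Real.norm_eq_abs, Real.norm_eq_abs]
    by_cases hy : y ∈ Metric.closedBall x r
    · rw [indicator_of_mem hy]
      calc |A.indicator (fun _ => (1:ℝ)) y| * |κ (x - y)| ≤ 1 * B := by
            gcongr
            · exact abs_indicator_le A y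
            · exact (h _).1
        _ = B := one_mul B
    · rw [indicator_of_notMem hy]
      have : r < ‖x - y‖ := by
        rw [Metric.mem_closedBall, not_le, dist_comm, dist_eq_norm] at hy
        exact hy
      rw [(h _).2 this, abs_zero, mul_zero]
  have h2 : Integrable ((Metric.closedBall x r).indicator fun _ => B) (volume : Measure E3) := by
    rw [integrable_indicator_iff Metric.isClosed_closedBall.measurableSet]
    exact integrableOn_const (by rw [hv]; exact ENNReal.ofReal_ne_top) (by simp)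
  rw [← Real.norm_eq_abs]
  calc ‖mcv κ A x‖ ≤ ∫ y, (Metric.closedBall x r).indicator (fun _ => B) y :=
        norm_integral_le_of_norm_le h2 (Eventually.of_forall h1)
    _ = B * (om * r ^ 3) := by
        rw [integral_indicator Metric.isClosed_closedBall.measurableSet, setIntegral_const,
          measureReal_def, hv, ENNReal.toReal_ofReal (by have := om_pos; positivity), smul_eq_mul,
          mul_comm]

theorem mcv_zero (h : ∀ y, r < ‖y‖ → κ y = 0) {x : E3} (hx : ∀ y, ‖x - y‖ ≤ r → y ∉ A) :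
    mcv κ A x = 0 := by
  unfold mcv
  apply integral_eq_zero_of_ae
  refine Eventually.of_forall fun y => ?_
  simp only [Pi.zero_apply]
  by_cases hy : ‖x - y‖ ≤ r
  · rw [indicator_of_notMem (hx y hy), zero_mul]
  · rw [h _ (not_le.1 hy), mul_zero]

theorem mcv_eS_nonneg (hr : 0 < r) (x : E3) : 0 ≤ mcv (eS hr) A x := by
  apply integral_nonneg
  intro y
  simp only [Pi.zero_apply]
  have h1 : 0 ≤ A.indicator (fun _ => (1:ℝ)) y := indicator_nonneg (fun _ _ => zero_le_one) y
  have h2 : 0 ≤ eS hr (x - y) := et_nonneg hr _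
  positivity

theorem mcv_eS_le (hr : 0 < r) (hA : MeasurableSet A) (x : E3) : mcv (eS hr) A x ≤ 1 := by
  calc mcv (eS hr) A x ≤ ∫ y, eS hr (x - y) := by
        apply integral_mono (int_mcv _ hA x) ((eS hr).integrable.comp_sub_left x)
        intro y
        simp only
        have h2 : 0 ≤ eS hr (x - y) := et_nonneg hr _
        have h3 := (abs_le.1 (abs_indicator_le A y)).2
        nlinarith
    _ = ∫ y, eS hr y := integral_sub_left_eq_self _ _ x
    _ = 1 := integral_et hr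

theorem mcv_eS_one (hr : 0 < r) {x : E3} (hx : ∀ y, ‖x - y‖ ≤ r → y ∈ A) :
    mcv (eS hr) A x = 1 := by
  calc mcv (eS hr) A x = ∫ y, eS hr (x - y) := by
        apply integral_congr_ae
        refine Eventually.of_forall fun y => ?_
        simp only
        by_cases hy : ‖x - y‖ ≤ r
        · rw [indicator_of_mem (hx y hy), one_mul]
        · rw [eS_apply, et_zero hr (not_le.1 hy).le, mul_zero]
    _ = ∫ y, eS hr y := integral_sub_left_eq_self _ _ x
    _ = 1 := integral_et hr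

/-- the cut-off function of a set -/
theorem cut_of (hr : 0 < r) (hA : MeasurableSet A) (hE : MeasurableSet E)
    (h : ∀ x, x ∉ E → ∀ y, ‖x - y‖ ≤ r → y ∉ A) :
    Cut (mcv (eS hr) A) (fun j => mcv (∂_{ee j} (eS hr)) A)
      (fun k j => mcv (∂_{ee k} (∂_{ee j} (eS hr))) A) (Cb / r) (Cb / r ^ 2) E := by
  obtain ⟨hC, hK⟩ := Classical.choose_spec exists_const2
  obtain ⟨k1, k2⟩ := hK r hr
  set C := Classical.choose exists_const2 with hCdef
  have hC0 : 0 ≤ C := zero_le_one.trans hC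
  have z0 : ∀ y, r < ‖y‖ → eS hr y = 0 := fun y hy => et_zero hr hy.le
  have z1 : ∀ (j : Fin 3) y, r < ‖y‖ → (∂_{ee j} (eS hr)) y = 0 := fun j y hy => (k1 j y).2 hy
  have z2 : ∀ (k j : Fin 3) y, r < ‖y‖ → (∂_{ee k} (∂_{ee j} (eS hr))) y = 0 :=
    fun k j y hy => (k2 k j y).2 hy
  have e1 : C / r ^ 4 * (om * r ^ 3) = Cb / r := by
    unfold Cb
    rw [← hCdef]
    field_simp
  have e2 : C / r ^ 5 * (om * r ^ 3) = Cb / r ^ 2 := by
    unfold Cb
    rw [← hCdef]
    field_simp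
  refine
    { m0 := ⟨continuous_mcv z0 hA, fun x => ?_⟩
      m1 := fun j => ⟨continuous_mcv (z1 j) hA, fun x => ?_⟩
      m2 := fun k j => ⟨continuous_mcv (z2 k j) hA, fun x => ?_⟩
      nn := fun x => mcv_eS_nonneg hr x
      l1 := fun j x => line_mcv z0 hA j x
      l2 := fun k j x => line_mcv (z1 j) hA k x
      s0 := fun x hx => mcv_zero z0 (h x hx)
      s1 := fun j x hx => mcv_zero (z1 j) (h x hx)
      s2 := fun k j x hx => mcv_zero (z2 k j) (h x hx)
      mE := hE }
  · rw [abs_of_nonneg (mcv_eS_nonneg hr x)]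
    exact mcv_eS_le hr hA x
  · rw [← e1]
    exact abs_mcv_le (k1 j) (by positivity) hr.le hA x
  · rw [← e2]
    exact abs_mcv_le (k2 k j) (by positivity) hr.le hA x

/-- cut-off functions adapted to the level sets of a function with a Harnack inequality -/
theorem exists_cut (hr : 0 < r) {H : E3 → ℝ≥0∞} (hH : Measurable H)
    (harn : ∀ z z', ‖z - z'‖ ≤ r → H z ≤ 9 * H z') {h0 I : ℝ} (hh : 0 < h0) (hI : 0 ≤ I)
    (hint : ∫⁻ z, H z ≤ ENNReal.ofReal I) :
    ∃ χ χ1 χ2 E, Cut χ χ1 χ2 (Cb / r) (Cb / r ^ 2) E ∧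
      (∀ z, 1 - χ z ≠ 0 → H z ≤ ENNReal.ofReal (9 * h0)) ∧
      volume E ≤ ENNReal.ofReal (9 * I / h0) := by
  set A : Set E3 := {z | ENNReal.ofReal h0 ≤ H z} with hA
  set E : Set E3 := {z | ENNReal.ofReal h0 ≤ 9 * H z} with hE
  have mA : MeasurableSet A := measurableSet_le measurable_const hH
  have mE : MeasurableSet E := measurableSet_le measurable_const (hH.const_mul 9)
  have h9 : (9:ℝ≥0∞) = ENNReal.ofReal 9 := by norm_num
  refine ⟨_, _, _, E, cut_of hr mA mE ?_, ?_, ?_⟩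
  · intro x hx y hy hyA
    apply hx
    rw [norm_sub_rev] at hy
    exact le_trans hyA (harn y x hy)
  · intro z hz
    by_contra hcon
    apply hz
    rw [mcv_eS_one hr, sub_self]
    intro y hy
    rw [hA, mem_setOf_eq]
    rw [not_le] at hcon
    have h1 := hcon.trans_le (harn z y hy)
    rw [ENNReal.ofReal_mul (by norm_num), ← h9] at h1
    exact ((ENNReal.mul_lt_mul_iff_right (by norm_num) (by norm_num)).1 h1).le
  · have h1 := mul_meas_ge_le_lintegral (μ := (volume : Measure E3)) (hH.const_mul 9)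
      (ENNReal.ofReal h0)
    rw [lintegral_const_mul _ hH] at h1
    have h2 : ENNReal.ofReal h0 * volume E ≤ ENNReal.ofReal (9 * I) := by
      refine h1.trans ?_
      rw [ENNReal.ofReal_mul (by norm_num), ← h9]
      gcongr
    rw [ENNReal.ofReal_div_of_pos hh, ENNReal.le_div_iff_mul_le (by left; simpa using hh)
      (by left; exact ENNReal.ofReal_ne_top), mul_comm]
    exact h2

end Pool.Agent.TP
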