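import Pool.Agent.TP.Quad

/-!
# Duhamel's formula for the averages of the difference
-/

set_option autoImplicit false

namespace Pool.Agent.TP

open MeasureTheory Set Filter Topology Pool.Agent.TO Pool.Agent.TB Pool.Agent.TC
open scoped ENNReal NNReal Real InnerProductSpace SchwartzMap LineDeriv Laplacian

variable {ρ r : ℝ}

theorem kkS (κ : 𝓢(E3, ℝ)) : KK κ (∫ y, |κ y|) where
  cont := κ.continuous
  int := κ.integrable
  le := le_rfl
  bdd := ⟨SchwartzMap.seminorm ℝ 0 0 κ, by positivity, fun y => by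
    have := SchwartzMap.norm_le_seminorm ℝ κ y
    rwa [Real.norm_eq_abs] at this⟩

theorem cvL_kkS (κ : 𝓢(E3, ℝ)) (ψ : 𝓢(E3, E3)) : cvL (kkS κ) (emb ψ) = emb (mK κ ψ) := by
  apply Lp.ext
  filter_upwards [coe_cvL_emb (kkS κ) ψ, (mK κ ψ).coeFn_toLp 2 (volume : Measure E3)] with x h1 h2
  rw [h1, emb_apply, h2, mK_apply]
  rfl

/-- the derivative of the mollification -/
noncomputable def DK (hr : 0 < r) (k : Fin 3) : V3 →L[ℝ] V3 := cvL (kkS (∂_{ee k} (eS hr)))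

theorem DK_eq (hr : 0 < r) {f : V3} {df : Fin 3 → V3} (hf : ∀ k, IsWeakDeriv k f (df k))
    (k : Fin 3) : DK hr k f = SS hr (df k) := by
  obtain ⟨ψ, h1, h2⟩ := exists_seq_H1 hf
  have l1 := ((DK hr k).continuous.tendsto _).comp h1
  have l2 := ((SS hr).continuous.tendsto _).comp (h2 k)
  refine tendsto_nhds_unique l1 (l2.congr fun n => ?_)
  simp only [Function.comp]
  rw [DK, cvL_kkS, ← lineDeriv_mK_left, SS_emb, ← lineDeriv_mol]
  rfl

/-- measurability of the gradient -/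
theorem meas_grad {μ : Measure ℝ} {u : ℝ → V3} {Du : ℝ → Fin 3 → V3}
    (hm : AEStronglyMeasurable u μ) (hDu : ∀ᵐ t ∂μ, ∀ k, IsWeakDeriv k (u t) (Du t k))
    (k : Fin 3) : AEStronglyMeasurable (fun τ => Du τ k) μ := by
  refine aestronglyMeasurable_of_tendsto_ae atTop
    (f := fun n τ => DK (rn_pos n) k (u τ)) (fun n => ?_) ?_
  · exact (DK (rn_pos n) k).continuous.comp_aestronglyMeasurable hm
  · filter_upwards [hDu] with τ hτ
    have e1 : ∀ n, DK (rn_pos n) k (u τ) = SS (rn_pos n) (Du τ k) := fun n =>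
      DK_eq (rn_pos n) hτ k
    simp only [e1]
    exact tendsto_SS (Du τ k)

/-- the constant for the test fields -/
noncomputable def C1 : ℝ := 152 * c0

theorem C1_pos : 0 < C1 := by
  have := c0_pos
  unfold C1
  positivity

/-- the bound of the integrand in Duhamel's formula -/
noncomputable def bnd (hρ : 0 < ρ) (z : E3) (A : ℝ) (w : V3) (dw : Fin 3 → V3) : ℝ :=
  √(JJ 4 / ρ) * (∑ k, √(Qr hρ z (dw k))) + 3 * Qr hρ z w + 6 * A * √(JJ 4 / ρ) * √(Qr hρ z w)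

theorem TT_diff_le (hρ : 0 < ρ) (e z : E3) {u v : V3} {A : ℝ} (hA : 0 ≤ A) (hu : Bd u A)
    (du dv : Fin 3 → V3) :
    |TT (dphiV hρ e z) v dv - TT (dphiV hρ e z) u du| ≤
      C1 * ‖e‖ * bnd hρ z A (v - u) (fun k => dv k - du k) := by
  have hC1 := C1_pos
  set d := dphiV hρ e z with hd
  set w := v - u with hw
  have hbd : ∀ k, Bd (d k) (152 * c0 * ‖e‖ * ρ⁻¹ ^ 4) := bd_dphi hρ e z
  have hle : ∀ k, ∀ᵐ y ∂(volume : Measure E3), ‖d k y‖ ≤ C1 * ‖e‖ * sg ρ (y - z) ^ 4 :=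
    dphi_le hρ e z
  have hC : 0 ≤ C1 * ‖e‖ := by positivity
  have e1 : TT d v dv - TT d u du = -∑ k, ⟪d k, dv k - du k⟫_ℝ +
      ∑ k, (⟪tens k w (d k), w⟫_ℝ + ⟪tens k w (d k), u⟫_ℝ + ⟪tens k u (d k), w⟫_ℝ) := by
    have e2 : ∀ k, tens k w (d k) = tens k v (d k) - tens k u (d k) := fun k =>
      tens_sub_left k v u (hbd k)
    have e3 : ∀ k, ⟪tens k w (d k), w⟫_ℝ + ⟪tens k w (d k), u⟫_ℝ + ⟪tens k u (d k), w⟫_ℝ =
        ⟪tens k v (d k), v⟫_ℝ - ⟪tens k u (d k), u⟫_ℝ := by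
      intro k
      rw [e2 k]
      simp only [hw, inner_sub_left, inner_sub_right]
      ring
    unfold TT
    simp only [e3, inner_sub_right, Finset.sum_sub_distrib]
    ring
  have a1 : ∀ k, |⟪d k, dv k - du k⟫_ℝ| ≤
      C1 * ‖e‖ * √(JJ 4 / ρ) * √(Qr hρ z (dv k - du k)) := by
    intro k
    rw [L2.inner_def]
    apply lin_le hρ z _ hC
    filter_upwards [hle k] with y hy
    refine (abs_real_inner_le_norm _ _).trans ?_
    gcongr
  have a2 : ∀ k, |⟪tens k w (d k), w⟫_ℝ| ≤ C1 * ‖e‖ * Qr hρ z w := by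
    intro k
    rw [L2.inner_def]
    apply quad_le hρ z _ hC
    filter_upwards [hle k, coe_tens_right k w (hbd k)] with y hy h2
    rw [h2]
    refine (abs_real_inner_le_norm _ _).trans ?_
    rw [norm_smul]
    have h3 := PiLp.norm_apply_le (w y) k
    calc ‖(w y) k‖ * ‖d k y‖ * ‖w y‖ ≤ ‖w y‖ * (C1 * ‖e‖ * sg ρ (y - z) ^ 4) * ‖w y‖ := by
          gcongr
      _ = _ := by ring
  have a3 : ∀ k, |⟪tens k w (d k), u⟫_ℝ| ≤ C1 * ‖e‖ * A * √(JJ 4 / ρ) * √(Qr hρ z w) := by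
    intro k
    rw [L2.inner_def]
    apply lin_le hρ z _ (by positivity)
    filter_upwards [hle k, coe_tens_right k w (hbd k), hu] with y hy h2 h4
    rw [h2]
    refine (abs_real_inner_le_norm _ _).trans ?_
    rw [norm_smul]
    have h3 := PiLp.norm_apply_le (w y) k
    calc ‖(w y) k‖ * ‖d k y‖ * ‖u y‖ ≤ ‖w y‖ * (C1 * ‖e‖ * sg ρ (y - z) ^ 4) * A := by
          gcongr
      _ = _ := by ring
  have a4 : ∀ k, |⟪tens k u (d k), w⟫_ℝ| ≤ C1 * ‖e‖ * A * √(JJ 4 / ρ) * √(Qr hρ z w) := by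
    intro k
    rw [L2.inner_def]
    apply lin_le hρ z _ (by positivity)
    filter_upwards [hle k, coe_tens_right k u (hbd k), hu] with y hy h2 h4
    rw [h2]
    refine (abs_real_inner_le_norm _ _).trans ?_
    rw [norm_smul]
    have h3 := (PiLp.norm_apply_le (u y) k).trans h4
    calc ‖(u y) k‖ * ‖d k y‖ * ‖w y‖ ≤ A * (C1 * ‖e‖ * sg ρ (y - z) ^ 4) * ‖w y‖ := by
          gcongr
      _ = _ := by ring
  rw [e1]
  refine (abs_add_le _ _).trans ?_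
  rw [abs_neg]
  have b1 : |∑ k, ⟪d k, dv k - du k⟫_ℝ| ≤
      ∑ k, C1 * ‖e‖ * √(JJ 4 / ρ) * √(Qr hρ z (dv k - du k)) :=
    (Finset.abs_sum_le_sum_abs _ _).trans (Finset.sum_le_sum fun k _ => a1 k)
  have b2 : |∑ k, (⟪tens k w (d k), w⟫_ℝ + ⟪tens k w (d k), u⟫_ℝ + ⟪tens k u (d k), w⟫_ℝ)| ≤
      ∑ _k : Fin 3, (C1 * ‖e‖ * Qr hρ z w + 2 * (C1 * ‖e‖ * A * √(JJ 4 / ρ) * √(Qr hρ z w))) := by
    refine (Finset.abs_sum_le_sum_abs _ _).trans (Finset.sum_le_sum fun k _ => ?_)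
    have c1 := abs_add_le (⟪tens k w (d k), w⟫_ℝ + ⟪tens k w (d k), u⟫_ℝ) ⟪tens k u (d k), w⟫_ℝ
    have c2 := abs_add_le ⟪tens k w (d k), w⟫_ℝ ⟪tens k w (d k), u⟫_ℝ
    linarith [a2 k, a3 k, a4 k]
  refine (add_le_add b1 b2).trans (le_of_eq ?_)
  rw [Finset.sum_const, Finset.card_univ, Fintype.card_fin, ← Finset.mul_sum, bnd]
  simp only [nsmul_eq_mul, Nat.cast_ofNat]
  ring

variable {T : ℝ} {u₀ : V3} {u v : ℝ → V3} {a : ℝ → ℝ} {Du Dv : ℝ → Fin 3 → V3}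

/-- Duhamel's formula for the pairing with a test field -/
theorem duh (P : Rel T u₀ u₀ u v a Du Dv) (hρ : 0 < ρ) (e z : E3) {t : ℝ} (ht : t ∈ Ico 0 T) :
    ‖⟪phiV hρ e z, v t - u t⟫_ℝ‖ₑ ≤ ENNReal.ofReal (C1 * ‖e‖) * ∫⁻ τ in Ioo 0 t,
      ENNReal.ofReal (bnd hρ z (a τ) (v τ - u τ) (fun k => Dv τ k - Du τ k)) := by
  have hC1 := C1_pos
  obtain ⟨i1, e1⟩ := lemT P.hu P.hDu P.hDui (div_phi hρ e z) (weak_phi hρ e z) (bd_dphi hρ e z)
    le_rfl ht.1 ht.2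
  obtain ⟨i2, e2⟩ := lemT P.hv P.hDv P.hDvi (div_phi hρ e z) (weak_phi hρ e z) (bd_dphi hρ e z)
    le_rfl ht.1 ht.2
  have e3 : ⟪phiV hρ e z, v t - u t⟫_ℝ = ∫ τ in Ioo 0 t, (TT (dphiV hρ e z) (v τ) (Dv τ) -
      TT (dphiV hρ e z) (u τ) (Du τ)) := by
    rw [integral_sub i2 i1, ← e1, ← e2, P.hu.init, P.hv.init, inner_sub_right]
    ring
  have hsub : Ioo 0 t ⊆ Ioo 0 T := Ioo_subset_Ioo le_rfl ht.2.le
  rw [e3]
  refine (enorm_integral_le_lintegral_enorm _).trans ?_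
  rw [← lintegral_const_mul' _ _ ENNReal.ofReal_ne_top]
  apply lintegral_mono_ae
  filter_upwards [ae_restrict_of_ae_restrict_of_subset hsub P.hua] with τ hτ
  rw [← ofReal_norm, Real.norm_eq_abs, ← ENNReal.ofReal_mul (by positivity)]
  exact ENNReal.ofReal_le_ofReal (TT_diff_le hρ e z (P.ha0 τ) hτ _ _)

end Pool.Agent.TP
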