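import Pool.Agent.TP.Duh

/-!
# The low frequencies of the small solution
-/

set_option autoImplicit false

namespace Pool.Agent.TP

open MeasureTheory Set Filter Topology Pool.Agent.TO Pool.Agent.TB Pool.Agent.TC
open scoped ENNReal NNReal Real InnerProductSpace SchwartzMap LineDeriv Laplacian

variable {ρ : ℝ}

theorem integrable_sg_shift (hρ : 0 < ρ) (z : E3) :
    Integrable (fun y => sg ρ (y - z) ^ 4) (volume : Measure E3) :=
  (integrable_sg hρ (n := 4) le_rfl).comp_sub_right z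

theorem integral_sg_shift (hρ : 0 < ρ) (z : E3) :
    ∫ y, sg ρ (y - z) ^ 4 = JJ 4 / ρ := by
  rw [integral_sub_right_eq_self (fun y => sg ρ y ^ 4) z, integral_sg hρ, rho4 hρ]

theorem abs_inner_dphi_le (hρ : 0 < ρ) (e z : E3) (k : Fin 3) {f : V3} {B : ℝ} (hB : 0 ≤ B)
    (hf : Bd f B) : |⟪dphiV hρ e z k, f⟫_ℝ| ≤ C1 * ‖e‖ * B * (JJ 4 / ρ) := by
  have hC1 := C1_pos
  rw [L2.inner_def, ← Real.norm_eq_abs, ← integral_sg_shift hρ z, ← integral_const_mul]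
  refine norm_integral_le_of_norm_le ((integrable_sg_shift hρ z).const_mul _) ?_
  filter_upwards [dphi_le hρ e z k, hf] with y h1 h2
  rw [Real.norm_eq_abs]
  refine (abs_real_inner_le_norm _ _).trans ?_
  have h3 : 0 ≤ sg ρ (y - z) := (sg_pos hρ _).le
  calc ‖dphiV hρ e z k y‖ * ‖f y‖ ≤ (152 * c0 * ‖e‖ * sg ρ (y - z) ^ 4) * B := by
        have : 0 ≤ 152 * c0 * ‖e‖ * sg ρ (y - z) ^ 4 := (norm_nonneg _).trans h1
        gcongr
    _ = C1 * ‖e‖ * B * sg ρ (y - z) ^ 4 := by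
        unfold C1
        ring

theorem abs_TT_phi_le (hρ : 0 < ρ) (e z : E3) {f : V3} {df : Fin 3 → V3} {A A' : ℝ}
    (hA : 0 ≤ A) (hA' : 0 ≤ A') (hf : Bd f A) (hdf : ∀ k, Bd (df k) A') :
    |TT (dphiV hρ e z) f df| ≤ 3 * (C1 * ‖e‖ * (A' + A ^ 2) * (JJ 4 / ρ)) := by
  have h1 : ∀ k, ⟪tens k f (dphiV hρ e z k), f⟫_ℝ = ⟪dphiV hρ e z k, tens k f f⟫_ℝ := fun k =>
    tens_swap k f (bd_dphi hρ e z k) hf
  have h2 : ∀ k, Bd (tens k f f) (A ^ 2) := by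
    intro k
    filter_upwards [coe_tens_left k hf f, hf] with x hx h3
    rw [hx, norm_smul, Real.norm_eq_abs]
    have h4 := abs_coord_le (f x) k
    nlinarith [norm_nonneg (f x), abs_nonneg (f x k)]
  unfold TT
  simp only [h1]
  rw [neg_add_eq_sub, ← Finset.sum_sub_distrib]
  refine (Finset.abs_sum_le_sum_abs _ _).trans ?_
  have h5 : ∀ k, |⟪dphiV hρ e z k, tens k f f⟫_ℝ - ⟪dphiV hρ e z k, df k⟫_ℝ| ≤
      C1 * ‖e‖ * (A' + A ^ 2) * (JJ 4 / ρ) := by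
    intro k
    have h6 := abs_inner_dphi_le hρ e z k (sq_nonneg A) (h2 k)
    have h7 := abs_inner_dphi_le hρ e z k hA' (hdf k)
    refine (abs_sub _ _).trans ?_
    calc _ ≤ C1 * ‖e‖ * A ^ 2 * (JJ 4 / ρ) + C1 * ‖e‖ * A' * (JJ 4 / ρ) := add_le_add h6 h7
      _ = _ := by ring
  calc ∑ k, |⟪dphiV hρ e z k, tens k f f⟫_ℝ - ⟪dphiV hρ e z k, df k⟫_ℝ|
      ≤ ∑ _k : Fin 3, C1 * ‖e‖ * (A' + A ^ 2) * (JJ 4 / ρ) := Finset.sum_le_sum fun k _ => h5 k
    _ = _ := by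
        rw [Finset.sum_const, Finset.card_univ, Fintype.card_fin, nsmul_eq_mul]
        push_cast
        ring

theorem norm_cvf_le (hρ : 0 < ρ) {f : V3} {A : ℝ} (hA : 0 ≤ A) (hf : Bd f A) (z : E3) :
    ‖cvf (et0 ρ) f z‖ ≤ A := by
  unfold cvf
  have h1 : ∫ y, et0 ρ y * A = A := by
    rw [integral_mul_const, integral_et0 hρ, one_mul]
  rw [← h1]
  refine norm_integral_le_of_norm_le ((integrable_et0 hρ).mul_const A) ?_
  filter_upwards [ae_shift hf z] with y hy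
  rw [norm_smul, Real.norm_eq_abs, abs_of_nonneg (et0_nonneg hρ y)]
  exact mul_le_mul_of_nonneg_left hy (et0_nonneg hρ y)

variable {T : ℝ} {u₀ : V3} {u : ℝ → V3} {Du : ℝ → Fin 3 → V3}

/-- the low frequencies of a solution of type one -/
theorem far (hu : IsLeray T u₀ u)
    (hDu : ∀ᵐ t ∂(volume.restrict (Ioo 0 T)), ∀ k, IsWeakDeriv k (u t) (Du t k))
    (hDui : ∀ t ∈ Ico 0 T, IntegrableOn (fun τ => ∑ k, ‖Du τ k‖ ^ 2) (Ioo 0 t) volume)
    (hρ : 0 < ρ) {e τ : ℝ} (he : 0 ≤ e) (he1 : e ≤ 1) (hτ : 0 < τ) (hτρ : 2 * τ ≤ ρ ^ 2)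
    (hρT : ρ ^ 2 ≤ T)
    (hb : ∀ᵐ s ∂(volume.restrict (Ioo τ (ρ ^ 2))), Bd (u s) (e / √s) ∧ ∀ k, Bd (Du s k) (e / s)) :
    Bd (SP hρ (u τ)) (e / ρ * (2 + 6 * C1 * JJ 4 * Real.log (ρ ^ 2 / τ))) := by
  have hC1 := C1_pos
  have hJ := JJ_pos (n := 4) le_rfl
  have hρ2 : 0 < ρ ^ 2 := by positivity
  -- a good time
  obtain ⟨t', ht', hgood⟩ : ∃ t' ∈ Ioo (ρ ^ 2 / 2) (ρ ^ 2), Bd (u t') (e / √t') := by
    have hsub : Ioo (ρ ^ 2 / 2) (ρ ^ 2) ⊆ Ioo τ (ρ ^ 2) :=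
      Ioo_subset_Ioo (by linarith) le_rfl
    have h1 := ae_restrict_of_ae_restrict_of_subset hsub hb
    have h2 : ∀ᵐ s ∂(volume.restrict (Ioo (ρ ^ 2 / 2) (ρ ^ 2))), s ∈ Ioo (ρ ^ 2 / 2) (ρ ^ 2) ∧
        Bd (u s) (e / √s) := by
      filter_upwards [h1, ae_restrict_mem measurableSet_Ioo] with s h3 h4
      exact ⟨h4, h3.1⟩
    have hne : (volume.restrict (Ioo (ρ ^ 2 / 2) (ρ ^ 2))) ≠ 0 := by
      rw [Ne, Measure.restrict_eq_zero, Real.volume_Ioo]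
      simp only [ENNReal.ofReal_eq_zero, not_le]
      linarith
    have : NeZero (volume.restrict (Ioo (ρ ^ 2 / 2) (ρ ^ 2))) := ⟨hne⟩
    obtain ⟨s, hs⟩ := h2.exists
    exact ⟨s, hs.1, hs.2⟩
  have hτt : τ ≤ t' := by linarith [ht'.1]
  have ht'T : t' < T := ht'.2.trans_le hρT
  have ht'0 : 0 < t' := by linarith [ht'.1]
  have hτT : τ ∈ Ico 0 T := ⟨hτ.le, hτt.trans_lt ht'T⟩
  have hlog : 0 ≤ Real.log (ρ ^ 2 / τ) := Real.log_nonneg (by rw [le_div_iff₀ hτ]; linarith)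
  -- the pointwise bound
  have key : ∀ z : E3, ‖cvf (et0 ρ) (u τ) z‖ ≤
      e / ρ * (2 + 6 * C1 * JJ 4 * Real.log (ρ ^ 2 / τ)) := by
    intro z
    have hK0 : 0 ≤ e / ρ * (2 + 6 * C1 * JJ 4 * Real.log (ρ ^ 2 / τ)) := by positivity
    suffices H : ∀ q : E3, ⟪q, cvf (et0 ρ) (u τ) z⟫_ℝ ≤
        ‖q‖ * (e / ρ * (2 + 6 * C1 * JJ 4 * Real.log (ρ ^ 2 / τ))) by
      have h1 := H (cvf (et0 ρ) (u τ) z)
      rw [real_inner_self_eq_norm_sq] at h1
      rcases (norm_nonneg (cvf (et0 ρ) (u τ) z)).eq_or_lt with h2 | h2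
      · rw [← h2]
        exact hK0
      · nlinarith
    intro q
    obtain ⟨i1, e1⟩ := lemT hu hDu hDui (div_phi hρ q z) (weak_phi hρ q z)
      (bd_dphi hρ q z) hτ.le hτt ht'T
    rw [inner_phi hρ q z (hu.div τ hτT), inner_phi hρ q z (hu.div t' ⟨ht'0.le, ht'T⟩)] at e1
    have b1 : |⟪q, cvf (et0 ρ) (u t') z⟫_ℝ| ≤ ‖q‖ * (2 * e / ρ) := by
      refine (abs_real_inner_le_norm _ _).trans ?_
      refine mul_le_mul_of_nonneg_left ?_ (norm_nonneg _)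
      refine (norm_cvf_le hρ (by positivity) hgood z).trans ?_
      have h3 : ρ / 2 ≤ √t' := by
        apply Real.le_sqrt_of_sq_le
        nlinarith [ht'.1]
      calc e / √t' ≤ e / (ρ / 2) := by gcongr
        _ = 2 * e / ρ := by field_simp
    have b2 : |∫ s in Ioo τ t', TT (dphiV hρ q z) (u s) (Du s)| ≤
        ‖q‖ * (6 * C1 * e * (JJ 4 / ρ) * Real.log (ρ ^ 2 / τ)) := by
      have i2 : IntegrableOn (fun s : ℝ => 6 * C1 * ‖q‖ * e * (JJ 4 / ρ) * s⁻¹) (Ioo τ t')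
          volume := by
        have h4 : IntervalIntegrable (fun s : ℝ => s⁻¹) volume τ t' := by
          apply intervalIntegral.intervalIntegrable_inv
          · intro s hs
            rw [uIcc_of_le hτt] at hs
            exact (hτ.trans_le hs.1).ne'
          · exact continuousOn_id
        rw [intervalIntegrable_iff_integrableOn_Ioo_of_le hτt] at h4
        exact h4.const_mul _
      have h5 : |∫ s in Ioo τ t', TT (dphiV hρ q z) (u s) (Du s)| ≤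
          ∫ s in Ioo τ t', 6 * C1 * ‖q‖ * e * (JJ 4 / ρ) * s⁻¹ := by
        rw [← Real.norm_eq_abs]
        refine norm_integral_le_of_norm_le i2 ?_
        filter_upwards [ae_restrict_of_ae_restrict_of_subset
          (Ioo_subset_Ioo le_rfl ht'.2.le : Ioo τ t' ⊆ Ioo τ (ρ ^ 2)) hb,
          ae_restrict_mem measurableSet_Ioo] with s hs hs2
        have hs0 : 0 < s := hτ.trans hs2.1
        rw [Real.norm_eq_abs]
        refine (abs_TT_phi_le hρ q z (by positivity) (by positivity) hs.1 hs.2).trans ?_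
        have h6 : e / s + (e / √s) ^ 2 ≤ 2 * e * s⁻¹ := by
          rw [div_pow, Real.sq_sqrt hs0.le, ← add_div, div_eq_mul_inv]
          have : e + e ^ 2 ≤ 2 * e := by nlinarith
          gcongr
        calc 3 * (C1 * ‖q‖ * (e / s + (e / √s) ^ 2) * (JJ 4 / ρ)) ≤
            3 * (C1 * ‖q‖ * (2 * e * s⁻¹) * (JJ 4 / ρ)) := by gcongr
          _ = _ := by ring
      refine h5.trans ?_
      rw [integral_const_mul, ← integral_Ioc_eq_integral_Ioo,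
        ← intervalIntegral.integral_of_le hτt, integral_inv_of_pos hτ ht'0]
      have h7 : Real.log (t' / τ) ≤ Real.log (ρ ^ 2 / τ) := by
        apply Real.log_le_log (by positivity)
        have := ht'.2.le
        gcongr
      calc 6 * C1 * ‖q‖ * e * (JJ 4 / ρ) * Real.log (t' / τ) ≤
          6 * C1 * ‖q‖ * e * (JJ 4 / ρ) * Real.log (ρ ^ 2 / τ) := by gcongr
        _ = _ := by ring
    have e2 : ⟪q, cvf (et0 ρ) (u τ) z⟫_ℝ = ⟪q, cvf (et0 ρ) (u t') z⟫_ℝ -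
        ∫ s in Ioo τ t', TT (dphiV hρ q z) (u s) (Du s) := by linarith
    rw [e2]
    calc ⟪q, cvf (et0 ρ) (u t') z⟫_ℝ - ∫ s in Ioo τ t', TT (dphiV hρ q z) (u s) (Du s)
        ≤ ‖q‖ * (2 * e / ρ) + ‖q‖ * (6 * C1 * e * (JJ 4 / ρ) * Real.log (ρ ^ 2 / τ)) := by
          have := (abs_le.1 b1).2
          have := (abs_le.1 b2).1
          linarith
      _ = _ := by ring
  have h8 := coe_cvL (kk_et0 hρ) (u τ)
  unfold Bd
  filter_upwards [h8] with z hz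
  have h9 : (SP hρ (u τ) : E3 → E3) z = cvf (et0 ρ) (u τ) z := hz
  rw [h9]
  exact key z

end Pool.Agent.TP
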