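import Pool.Agent.TP.Test

/-!
# The test fields
-/

set_option autoImplicit false

namespace Pool.Agent.TP

open MeasureTheory Set Filter Topology Pool.Agent.TO Pool.Agent.TB Pool.Agent.TC
open scoped ENNReal NNReal Real InnerProductSpace SchwartzMap LineDeriv Laplacian

variable {ρ : ℝ}

/-- the projection of `et0 ρ • e` -/
noncomputable def fld (ρ : ℝ) (e x : E3) : E3 :=
  (et0 ρ x + Ps ρ x) • e + (be ρ x * ⟪e, x⟫_ℝ) • x

/-- its derivative in the direction `h` -/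
noncomputable def dfl (ρ : ℝ) (e h x : E3) : E3 :=
  (al1 ρ x * ⟪x, h⟫_ℝ) • e + ((be ρ x * ⟪e, h⟫_ℝ + be1 ρ x * ⟪x, h⟫_ℝ * ⟪e, x⟫_ℝ) • x +
    (be ρ x * ⟪e, x⟫_ℝ) • h)

theorem line_fld (hρ : 0 < ρ) (e h x : E3) :
    HasLineDerivAt ℝ (fld ρ e) (dfl ρ e h x) x h := by
  have h1 := ((hasFDerivAt_et0 hρ x).add (hasFDerivAt_Ps hρ x)).smul_const e
  have h2 : HasFDerivAt (fun x : E3 => ⟪e, x⟫_ℝ) (innerSL ℝ e) x := (innerSL ℝ e).hasFDerivAt
  have h3 := ((hasFDerivAt_be hρ x).mul h2).smul (hasFDerivAt_id x)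
  have h4 := (h1.add h3).hasLineDerivAt h
  have h5 : HasLineDerivAt ℝ (fld ρ e) _ x h := h4
  convert h5 using 1
  simp only [add_apply, ContinuousLinearMap.smulRight_apply, smul_apply, innerSL_apply_apply,
    smul_eq_mul, ContinuousLinearMap.id_apply, dfl, al1, id, Pi.mul_apply]
  congr 1
  · congr 1
    ring
  · rw [add_comm]
    congr 1
    congr 1
    ring

theorem continuous_fld (hρ : 0 < ρ) (e : E3) : Continuous (fld ρ e) := by
  have := continuous_et0 hρ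
  have := continuous_Ps hρ
  have := continuous_be hρ
  unfold fld
  fun_prop

theorem continuous_dfl (hρ : 0 < ρ) (e h : E3) : Continuous (dfl ρ e h) := by
  have := continuous_al1 hρ
  have := continuous_be1 hρ
  have := continuous_be hρ
  unfold dfl
  fun_prop

theorem dfl_div (hρ : 0 < ρ) (e x : E3) : ∑ k, (dfl ρ e (ee k) x) k = 0 := by
  have h1 := div_id hρ x
  have h2 := sum_sq_eq x
  have h3 : ⟪e, x⟫_ℝ = e 0 * x 0 + e 1 * x 1 + e 2 * x 2 := by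
    rw [real_inner_comm, PiLp.inner_apply, Fin.sum_univ_three]
    rfl
  have e0 : ∀ k : Fin 3, (dfl ρ e (ee k) x) k = al1 ρ x * x k * e k +
      ((be ρ x * e k + be1 ρ x * x k * ⟪e, x⟫_ℝ) * x k + be ρ x * ⟪e, x⟫_ℝ) := by
    intro k
    simp only [dfl, PiLp.add_apply, PiLp.smul_apply, smul_eq_mul, inner_ee, ee_apply]
    simp
  simp only [e0]
  rw [Fin.sum_univ_three] at h2 ⊢
  rw [h3]
  linear_combination (e 0 * x 0 + e 1 * x 1 + e 2 * x 2) * h1 +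
    (e 0 * x 0 + e 1 * x 1 + e 2 * x 2) * be1 ρ x * h2

theorem et0_le (hρ : 0 < ρ) (x : E3) : et0 ρ x ≤ 15 / 2 * c0 * sg ρ x ^ 3 := by
  have h1 := sg_pos hρ x
  have h2 := rho_sg hρ x
  have h3 := c0_pos
  have h4 : (ρ * sg ρ x) ^ 4 ≤ 1 := pow_le_one₀ (by positivity) h2
  unfold et0
  have h5 : ρ ^ 4 * sg ρ x ^ 7 ≤ sg ρ x ^ 3 := by
    have : ρ ^ 4 * sg ρ x ^ 7 = (ρ * sg ρ x) ^ 4 * sg ρ x ^ 3 := by ring
    rw [this]
    exact mul_le_of_le_one_left (by positivity) h4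
  nlinarith

theorem norm_fld_le (hρ : 0 < ρ) (e x : E3) : ‖fld ρ e x‖ ≤ 21 * c0 * ‖e‖ * sg ρ x ^ 3 := by
  have h1 := sg_pos hρ x
  have h3 := c0_pos
  have h4 := et0_le hρ x
  have h5 := abs_Ps_le hρ x
  have h6 := be_le hρ x
  have h7 := nrm_sg hρ x
  have h8 := be_nonneg hρ x
  have h9 := et0_nonneg hρ x
  unfold fld
  refine (norm_add_le _ _).trans ?_
  rw [norm_smul, norm_smul, Real.norm_eq_abs, Real.norm_eq_abs]
  have a1 : |et0 ρ x + Ps ρ x| * ‖e‖ ≤ 10 * c0 * ‖e‖ * sg ρ x ^ 3 := by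
    have := abs_add_le (et0 ρ x) (Ps ρ x)
    rw [abs_of_nonneg h9] at this
    have h10 : |et0 ρ x + Ps ρ x| ≤ 10 * c0 * sg ρ x ^ 3 := by linarith
    calc |et0 ρ x + Ps ρ x| * ‖e‖ ≤ 10 * c0 * sg ρ x ^ 3 * ‖e‖ := by gcongr
      _ = _ := by ring
  have a2 : |be ρ x * ⟪e, x⟫_ℝ| * ‖x‖ ≤ 21 / 2 * c0 * ‖e‖ * sg ρ x ^ 3 := by
    rw [abs_mul, abs_of_nonneg h8]
    calc be ρ x * |⟪e, x⟫_ℝ| * ‖x‖ ≤ (21 / 2 * c0 * sg ρ x ^ 5) * (‖e‖ * ‖x‖) * ‖x‖ := by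
          gcongr
          exact abs_real_inner_le_norm _ _
      _ = 21 / 2 * c0 * ‖e‖ * sg ρ x ^ 3 * (‖x‖ * sg ρ x) ^ 2 := by ring
      _ ≤ 21 / 2 * c0 * ‖e‖ * sg ρ x ^ 3 * 1 := by
          gcongr
          exact pow_le_one₀ (by positivity) h7
      _ = _ := mul_one _
  have : 0 ≤ c0 * ‖e‖ * sg ρ x ^ 3 := by positivity
  linarith

theorem norm_dfl_le (hρ : 0 < ρ) (e h x : E3) :
    ‖dfl ρ e h x‖ ≤ 152 * c0 * ‖e‖ * ‖h‖ * sg ρ x ^ 4 := by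
  have h1 := sg_pos hρ x
  have h3 := c0_pos
  have h6 := be_le hρ x
  have h7 := nrm_sg hρ x
  have h8 := be_nonneg hρ x
  have h2 := rho_sg hρ x
  have hx := abs_real_inner_le_norm x h
  have hex := abs_real_inner_le_norm e x
  have heh := abs_real_inner_le_norm e h
  have p1 : ‖x‖ * sg ρ x ^ 5 ≤ sg ρ x ^ 4 := by
    have : ‖x‖ * sg ρ x ^ 5 = (‖x‖ * sg ρ x) * sg ρ x ^ 4 := by ring
    rw [this]
    exact mul_le_of_le_one_left (by positivity) h7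
  have p2 : ‖x‖ ^ 3 * sg ρ x ^ 7 ≤ sg ρ x ^ 4 := by
    have : ‖x‖ ^ 3 * sg ρ x ^ 7 = (‖x‖ * sg ρ x) ^ 3 * sg ρ x ^ 4 := by ring
    rw [this]
    exact mul_le_of_le_one_left (by positivity) (pow_le_one₀ (by positivity) h7)
  have al : |al1 ρ x| ≤ 63 * c0 * sg ρ x ^ 5 := by
    unfold al1
    have h4 : (ρ * sg ρ x) ^ 4 ≤ 1 := pow_le_one₀ (by positivity) h2
    have h5 : ρ ^ 4 * sg ρ x ^ 9 ≤ sg ρ x ^ 5 := by
      have : ρ ^ 4 * sg ρ x ^ 9 = (ρ * sg ρ x) ^ 4 * sg ρ x ^ 5 := by ring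
      rw [this]
      exact mul_le_of_le_one_left (by positivity) h4
    rw [abs_le]
    constructor
    · have : 0 ≤ c0 * sg ρ x ^ 5 := by positivity
      nlinarith
    · have : 0 ≤ c0 * (ρ ^ 4 * sg ρ x ^ 9) := by positivity
      have : 0 ≤ c0 * sg ρ x ^ 5 := by positivity
      nlinarith
  have b1 : |be1 ρ x| ≤ 135 / 2 * c0 * sg ρ x ^ 7 := by
    unfold be1
    have h4 : (ρ * sg ρ x) ^ 2 ≤ 1 := pow_le_one₀ (by positivity) h2
    have h5 : ρ ^ 2 * sg ρ x ^ 9 ≤ sg ρ x ^ 7 := by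
      have : ρ ^ 2 * sg ρ x ^ 9 = (ρ * sg ρ x) ^ 2 * sg ρ x ^ 7 := by ring
      rw [this]
      exact mul_le_of_le_one_left (by positivity) h4
    rw [abs_le]
    have h10 : 0 ≤ ρ ^ 2 * sg ρ x ^ 9 := by positivity
    have h11 : 0 ≤ sg ρ x ^ 7 := by positivity
    constructor <;> nlinarith
  unfold dfl
  refine (norm_add_le _ _).trans ?_
  have q1 : ‖(al1 ρ x * ⟪x, h⟫_ℝ) • e‖ ≤ 63 * c0 * ‖e‖ * ‖h‖ * sg ρ x ^ 4 := by
    rw [norm_smul, Real.norm_eq_abs, abs_mul]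
    calc |al1 ρ x| * |⟪x, h⟫_ℝ| * ‖e‖ ≤ (63 * c0 * sg ρ x ^ 5) * (‖x‖ * ‖h‖) * ‖e‖ := by gcongr
      _ = 63 * c0 * ‖e‖ * ‖h‖ * (‖x‖ * sg ρ x ^ 5) := by ring
      _ ≤ _ := by gcongr
  have q2 : ‖(be ρ x * ⟪e, h⟫_ℝ + be1 ρ x * ⟪x, h⟫_ℝ * ⟪e, x⟫_ℝ) • x‖ ≤
      78 * c0 * ‖e‖ * ‖h‖ * sg ρ x ^ 4 := by
    rw [norm_smul, Real.norm_eq_abs]
    calc |be ρ x * ⟪e, h⟫_ℝ + be1 ρ x * ⟪x, h⟫_ℝ * ⟪e, x⟫_ℝ| * ‖x‖
        ≤ (|be ρ x * ⟪e, h⟫_ℝ| + |be1 ρ x * ⟪x, h⟫_ℝ * ⟪e, x⟫_ℝ|) * ‖x‖ := by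
          gcongr
          exact abs_add_le _ _
      _ ≤ ((21 / 2 * c0 * sg ρ x ^ 5) * (‖e‖ * ‖h‖) +
          (135 / 2 * c0 * sg ρ x ^ 7) * (‖x‖ * ‖h‖) * (‖e‖ * ‖x‖)) * ‖x‖ := by
          rw [abs_mul, abs_mul, abs_mul, abs_of_nonneg h8]
          gcongr
      _ = 21 / 2 * c0 * ‖e‖ * ‖h‖ * (‖x‖ * sg ρ x ^ 5) +
          135 / 2 * c0 * ‖e‖ * ‖h‖ * (‖x‖ ^ 3 * sg ρ x ^ 7) := by ring
      _ ≤ 21 / 2 * c0 * ‖e‖ * ‖h‖ * sg ρ x ^ 4 +
          135 / 2 * c0 * ‖e‖ * ‖h‖ * sg ρ x ^ 4 := by gcongr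
      _ = _ := by ring
  have q3 : ‖(be ρ x * ⟪e, x⟫_ℝ) • h‖ ≤ 21 / 2 * c0 * ‖e‖ * ‖h‖ * sg ρ x ^ 4 := by
    rw [norm_smul, Real.norm_eq_abs, abs_mul, abs_of_nonneg h8]
    calc be ρ x * |⟪e, x⟫_ℝ| * ‖h‖ ≤ (21 / 2 * c0 * sg ρ x ^ 5) * (‖e‖ * ‖x‖) * ‖h‖ := by gcongr
      _ = 21 / 2 * c0 * ‖e‖ * ‖h‖ * (‖x‖ * sg ρ x ^ 5) := by ring
      _ ≤ _ := by gcongr
  have q4 := norm_add_le ((be ρ x * ⟪e, h⟫_ℝ + be1 ρ x * ⟪x, h⟫_ℝ * ⟪e, x⟫_ℝ) • x)
    ((be ρ x * ⟪e, x⟫_ℝ) • h)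
  have : 0 ≤ c0 * ‖e‖ * ‖h‖ * sg ρ x ^ 4 := by positivity
  linarith

theorem memLp_of_sg (hρ : 0 < ρ) (z : E3) {f : E3 → E3} {C : ℝ} {n : ℕ} (hn : 2 ≤ n)
    (hf : Continuous f) (hle : ∀ y, ‖f y‖ ≤ C * sg ρ (y - z) ^ n) :
    MemLp f 2 (volume : Measure E3) := by
  rw [memLp_two_iff_integrable_sq_norm hf.aestronglyMeasurable]
  have h1 : Integrable (fun y : E3 => C ^ 2 * sg ρ (y - z) ^ (2 * n)) (volume : Measure E3) :=
    ((integrable_sg hρ (by omega : 4 ≤ 2 * n)).comp_sub_right z).const_mul _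
  refine Integrable.mono' h1 (hf.norm.pow 2).aestronglyMeasurable ?_
  refine Eventually.of_forall fun y => ?_
  rw [Real.norm_of_nonneg (by positivity)]
  calc ‖f y‖ ^ 2 ≤ (C * sg ρ (y - z) ^ n) ^ 2 := pow_le_pow_left₀ (norm_nonneg _) (hle y) 2
    _ = _ := by ring

theorem memLp_phi (hρ : 0 < ρ) (e z : E3) :
    MemLp (fun y => fld ρ e (y - z)) 2 (volume : Measure E3) :=
  memLp_of_sg hρ z (by norm_num) ((continuous_fld hρ e).comp (continuous_id.sub continuous_const))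
    fun y => norm_fld_le hρ e (y - z)

theorem memLp_dphi (hρ : 0 < ρ) (e z h : E3) :
    MemLp (fun y => dfl ρ e h (y - z)) 2 (volume : Measure E3) :=
  memLp_of_sg hρ z (by norm_num) ((continuous_dfl hρ e h).comp (continuous_id.sub continuous_const))
    fun y => norm_dfl_le hρ e h (y - z)

/-- the test field -/
noncomputable def phiV (hρ : 0 < ρ) (e z : E3) : V3 := (memLp_phi hρ e z).toLp

/-- its derivatives -/
noncomputable def dphiV (hρ : 0 < ρ) (e z : E3) (k : Fin 3) : V3 := (memLp_dphi hρ e z (ee k)).toLp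

theorem line_shift {f : E3 → E3} {f' x z h : E3} (hf : HasLineDerivAt ℝ f f' (x - z) h) :
    HasLineDerivAt ℝ (fun y => f (y - z)) f' x h := by
  unfold HasLineDerivAt at *
  refine hf.congr_of_eventuallyEq (Eventually.of_forall fun t => ?_)
  simp only
  congr 1
  abel

theorem weak_phi (hρ : 0 < ρ) (e z : E3) (k : Fin 3) :
    IsWeakDeriv k (phiV hρ e z) (dphiV hρ e z k) :=
  weak_of_line (memLp_phi hρ e z) (memLp_dphi hρ e z (ee k)) fun x =>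
    line_shift (line_fld hρ e (ee k) (x - z))

theorem div_phi (hρ : 0 < ρ) (e z : E3) : IsDivFree (phiV hρ e z) :=
  div_of_line (g := fun k y => dfl ρ e (ee k) (y - z)) (memLp_phi hρ e z)
    (fun k => memLp_dphi hρ e z (ee k)) (fun k x => line_shift (line_fld hρ e (ee k) (x - z)))
    fun x => dfl_div hρ e (x - z)

theorem norm_ee (k : Fin 3) : ‖(ee k : E3)‖ = 1 := by simp [ee]

theorem dphi_le (hρ : 0 < ρ) (e z : E3) (k : Fin 3) :
    ∀ᵐ y ∂(volume : Measure E3), ‖dphiV hρ e z k y‖ ≤ 152 * c0 * ‖e‖ * sg ρ (y - z) ^ 4 := by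
  filter_upwards [(memLp_dphi hρ e z (ee k)).coeFn_toLp] with y hy
  rw [dphiV, hy]
  have := norm_dfl_le hρ e (ee k) (y - z)
  rwa [norm_ee, mul_one] at this

theorem bd_dphi (hρ : 0 < ρ) (e z : E3) (k : Fin 3) :
    Bd (dphiV hρ e z k) (152 * c0 * ‖e‖ * ρ⁻¹ ^ 4) := by
  unfold Bd
  filter_upwards [dphi_le hρ e z k] with y hy
  refine hy.trans ?_
  have h1 := sg_pos hρ (y - z)
  have h3 := c0_pos
  gcongr
  exact sg_le_inv hρ _

/-- the scalar potential -/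
noncomputable def zt (ρ : ℝ) (e x : E3) : ℝ := Ps ρ x * ⟪x, e⟫_ℝ

/-- its derivative -/
noncomputable def dzt (ρ : ℝ) (e h x : E3) : ℝ :=
  Ps ρ x * ⟪e, h⟫_ℝ + be ρ x * ⟪x, h⟫_ℝ * ⟪x, e⟫_ℝ

theorem line_zt (hρ : 0 < ρ) (e h x : E3) :
    HasLineDerivAt ℝ (fun x => zt ρ e x • (ee 0 : E3)) (dzt ρ e h x • (ee 0 : E3)) x h := by
  have h2 : HasFDerivAt (fun x : E3 => ⟪x, e⟫_ℝ) (innerSL ℝ e) x := by
    have h3 : HasFDerivAt (fun x : E3 => ⟪e, x⟫_ℝ) (innerSL ℝ e) x := (innerSL ℝ e).hasFDerivAt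
    refine h3.congr_of_eventuallyEq (Eventually.of_forall fun y => ?_)
    exact real_inner_comm _ _
  have h3 := ((hasFDerivAt_Ps hρ x).mul h2).smul_const (ee 0 : E3)
  have h5 : HasLineDerivAt ℝ (fun x => zt ρ e x • (ee 0 : E3)) _ x h := h3.hasLineDerivAt h
  convert h5 using 1
  simp only [add_apply, ContinuousLinearMap.smulRight_apply, smul_apply, innerSL_apply_apply,
    smul_eq_mul, dzt]
  congr 1
  ring

theorem memLp_zt (hρ : 0 < ρ) (e z : E3) :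
    MemLp (fun y => zt ρ e (y - z) • (ee 0 : E3)) 2 (volume : Measure E3) := by
  have hc : Continuous (zt ρ e) := by
    have := continuous_Ps hρ
    unfold zt
    fun_prop
  refine memLp_of_sg (C := 5 / 2 * c0 * ‖e‖) hρ z (n := 2) (by norm_num)
    ((hc.comp (continuous_id.sub continuous_const)).smul continuous_const) fun y => ?_
  rw [norm_smul, norm_ee, mul_one, Real.norm_eq_abs]
  set x := y - z with hx
  have h1 := sg_pos hρ x
  have h3 := c0_pos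
  unfold zt
  rw [abs_mul]
  calc |Ps ρ x| * |⟪x, e⟫_ℝ| ≤ (5 / 2 * c0 * sg ρ x ^ 3) * (‖x‖ * ‖e‖) := by
        gcongr
        · exact abs_Ps_le hρ x
        · exact abs_real_inner_le_norm _ _
    _ = 5 / 2 * c0 * ‖e‖ * sg ρ x ^ 2 * (‖x‖ * sg ρ x) := by ring
    _ ≤ 5 / 2 * c0 * ‖e‖ * sg ρ x ^ 2 * 1 := by
        gcongr
        exact nrm_sg hρ x
    _ = _ := mul_one _

theorem memLp_dzt (hρ : 0 < ρ) (e z h : E3) :
    MemLp (fun y => dzt ρ e h (y - z) • (ee 0 : E3)) 2 (volume : Measure E3) := by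
  have hc : Continuous (dzt ρ e h) := by
    have := continuous_Ps hρ
    have := continuous_be hρ
    unfold dzt
    fun_prop
  refine memLp_of_sg (C := 13 * c0 * ‖e‖ * ‖h‖) hρ z (n := 3) (by norm_num)
    ((hc.comp (continuous_id.sub continuous_const)).smul continuous_const) fun y => ?_
  rw [norm_smul, norm_ee, mul_one, Real.norm_eq_abs]
  set x := y - z with hx
  have h1 := sg_pos hρ x
  have h3 := c0_pos
  have h8 := be_nonneg hρ x
  unfold dzt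
  refine (abs_add_le _ _).trans ?_
  rw [abs_mul, abs_mul, abs_mul, abs_of_nonneg h8]
  calc |Ps ρ x| * |⟪e, h⟫_ℝ| + be ρ x * |⟪x, h⟫_ℝ| * |⟪x, e⟫_ℝ|
      ≤ (5 / 2 * c0 * sg ρ x ^ 3) * (‖e‖ * ‖h‖) +
        (21 / 2 * c0 * sg ρ x ^ 5) * (‖x‖ * ‖h‖) * (‖x‖ * ‖e‖) := by
        gcongr
        · exact abs_Ps_le hρ x
        · exact abs_real_inner_le_norm _ _
        · exact be_le hρ x
        · exact abs_real_inner_le_norm _ _
        · exact abs_real_inner_le_norm _ _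
    _ = 5 / 2 * c0 * ‖e‖ * ‖h‖ * sg ρ x ^ 3 +
        21 / 2 * c0 * ‖e‖ * ‖h‖ * sg ρ x ^ 3 * (‖x‖ * sg ρ x) ^ 2 := by ring
    _ ≤ 5 / 2 * c0 * ‖e‖ * ‖h‖ * sg ρ x ^ 3 +
        21 / 2 * c0 * ‖e‖ * ‖h‖ * sg ρ x ^ 3 * 1 := by
        gcongr
        exact pow_le_one₀ (by positivity) (nrm_sg hρ x)
    _ = _ := by ring

/-- the gradient part is orthogonal to divergence-free fields -/
theorem grad_orth (hρ : 0 < ρ) (e z : E3) {f : V3} (hf : IsDivFree f) :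
    ∫ y, ⟪Ps ρ (y - z) • e + (be ρ (y - z) * ⟪e, y - z⟫_ℝ) • (y - z), f y⟫_ℝ = 0 := by
  have h1 := divfree_ext hf (Q := (memLp_zt hρ e z).toLp)
    (DQ := fun k => (memLp_dzt hρ e z (ee k)).toLp)
    (fun k => weak_of_line (memLp_zt hρ e z) (memLp_dzt hρ e z (ee k)) fun x =>
      line_shift (line_zt hρ e (ee k) (x - z))) 0
  rw [← h1]
  simp only [L2.inner_def]
  rw [← integral_finsetSum _ (fun k _ => L2.integrable_inner (𝕜 := ℝ) _ _)]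
  apply integral_congr_ae
  rw [Filter.EventuallyEq]
  simp only [Fin.sum_univ_three]
  filter_upwards [(memLp_dzt hρ e z (ee 0)).coeFn_toLp, (memLp_dzt hρ e z (ee 1)).coeFn_toLp,
    (memLp_dzt hρ e z (ee 2)).coeFn_toLp, coe_PM 0 0 f, coe_PM 1 0 f, coe_PM 2 0 f]
    with y h1 h2 h3 h4 h5 h6
  have g4 : (((MM 0 0).compLp f : V3) : E3 → E3) y = f y 0 • ee 0 := h4
  have g5 : (((MM 1 0).compLp f : V3) : E3 → E3) y = f y 1 • ee 0 := h5
  have g6 : (((MM 2 0).compLp f : V3) : E3 → E3) y = f y 2 • ee 0 := h6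
  rw [h1, h2, h3, g4, g5, g6]
  have e1 : ∀ a b : ℝ, ⟪a • (ee 0 : E3), b • (ee 0 : E3)⟫_ℝ = a * b := by
    intro a b
    rw [inner_smul_left, inner_smul_right, real_inner_self_eq_norm_sq, norm_ee]
    simp
  rw [e1, e1, e1, inner_add_left, inner_smul_left, inner_smul_left]
  simp only [dzt, inner_ee, conj_trivial]
  have e2 : ∀ a : E3, ⟪a, f y⟫_ℝ = a 0 * f y 0 + a 1 * f y 1 + a 2 * f y 2 := by
    intro a
    rw [real_inner_comm, PiLp.inner_apply, Fin.sum_univ_three]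
    rfl
  rw [e2, e2, real_inner_comm e (y - z)]
  ring

/-- pairing with the test field gives the average -/
theorem inner_phi (hρ : 0 < ρ) (e z : E3) {f : V3} (hf : IsDivFree f) :
    ⟪phiV hρ e z, f⟫_ℝ = ⟪e, cvf (et0 ρ) f z⟫_ℝ := by
  have i1 := integrable_cvf (kk_et0 hρ) (Lp.stronglyMeasurable f) (lintegral_sq_lt f) z
  have e0 : cvf (et0 ρ) f z = ∫ y, et0 ρ (y - z) • f y := by
    unfold cvf
    rw [← integral_sub_left_eq_self (fun y => et0 ρ (y - z) • f y) volume z]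
    congr 1
    ext1 y
    rw [show z - y - z = -y by abel, et0_neg]
  have i2 : Integrable (fun y => et0 ρ (y - z) • f y) (volume : Measure E3) := by
    have := i1.comp_sub_left z
    refine this.congr (Eventually.of_forall fun y => ?_)
    simp only
    rw [show z - (z - y) = y by abel, ← et0_neg, neg_sub]
  have e1 : ⟪phiV hρ e z, f⟫_ℝ = ∫ y, (⟪e, et0 ρ (y - z) • f y⟫_ℝ +
      ⟪Ps ρ (y - z) • e + (be ρ (y - z) * ⟪e, y - z⟫_ℝ) • (y - z), f y⟫_ℝ) := by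
    rw [L2.inner_def]
    apply integral_congr_ae
    filter_upwards [(memLp_phi hρ e z).coeFn_toLp] with y hy
    rw [phiV, hy, fld, inner_smul_right, add_smul, add_assoc, inner_add_left, inner_smul_left]
    rfl
  have i3 : Integrable (fun y => ⟪e, et0 ρ (y - z) • f y⟫_ℝ) (volume : Measure E3) :=
    i2.const_inner e
  have i4 : Integrable (fun y => ⟪Ps ρ (y - z) • e + (be ρ (y - z) * ⟪e, y - z⟫_ℝ) • (y - z),
      f y⟫_ℝ) (volume : Measure E3) := by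
    have i5 := L2.integrable_inner (𝕜 := ℝ) (phiV hρ e z) f
    refine (i5.sub i3).congr ?_
    filter_upwards [(memLp_phi hρ e z).coeFn_toLp] with y hy
    rw [Pi.sub_apply, phiV, hy, fld, inner_smul_right, add_smul, add_assoc, inner_add_left,
      inner_smul_left]
    simp
  rw [e1, integral_add i3 i4, grad_orth hρ e z hf, add_zero, integral_inner i2, e0]

end Pool.Agent.TP
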