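import Pool.Agent.TC.Rel
import Pool.Agent.TG.Gron
import Pool.Agent.TO.Cor

/-!
# The product rule for primitives; the weighted dissipation of the difference
-/

set_option autoImplicit false

namespace Pool.Agent.TP

open MeasureTheory Set Filter Topology Pool.Agent.TO Pool.Agent.TB Pool.Agent.TC
open scoped ENNReal NNReal Real InnerProductSpace SchwartzMap LineDeriv Laplacian

/-- the product rule for primitives of integrable functions -/
theorem prod_rule {f g θ θ' : ℝ → ℝ} {s t : ℝ} (hst : s ≤ t)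
    (hg : IntegrableOn g (Ioo s t) volume) (hθ : IntegrableOn θ' (Ioo s t) volume)
    (hf : ∀ x ∈ Icc s t, f x = f s + ∫ τ in Ioo s x, g τ)
    (hf' : ∀ x ∈ Icc s t, θ x = θ s + ∫ τ in Ioo s x, θ' τ) :
    IntegrableOn (fun τ => θ τ * g τ + θ' τ * f τ) (Ioo s t) volume ∧
    θ t * f t - θ s * f s = ∫ τ in Ioo s t, (θ τ * g τ + θ' τ * f τ) := by
  have hg' : IntervalIntegrable g volume s t := by
    rwa [intervalIntegrable_iff_integrableOn_Ioo_of_le hst]
  have hθ' : IntervalIntegrable θ' volume s t := by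
    rwa [intervalIntegrable_iff_integrableOn_Ioo_of_le hst]
  set F : ℝ → ℝ := fun x => f s + ∫ τ in s..x, g τ with hF
  set Θ : ℝ → ℝ := fun x => θ s + ∫ τ in s..x, θ' τ with hΘ
  have hs : s ∈ uIcc s t := left_mem_uIcc
  have eF : ∀ x ∈ Icc s t, f x = F x := by
    intro x hx
    rw [hf x hx, hF]
    simp only
    rw [intervalIntegral.integral_of_le hx.1, integral_Ioc_eq_integral_Ioo]
  have eΘ : ∀ x ∈ Icc s t, θ x = Θ x := by
    intro x hx
    rw [hf' x hx, hΘ]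
    simp only
    rw [intervalIntegral.integral_of_le hx.1, integral_Ioc_eq_integral_Ioo]
  have acF : AbsolutelyContinuousOnInterval F s t :=
    TG.ac_of_dist_le (hg'.absolutelyContinuousOnInterval_intervalIntegral hs)
      fun x _ y _ => by simp [hF]
  have acΘ : AbsolutelyContinuousOnInterval Θ s t :=
    TG.ac_of_dist_le (hθ'.absolutelyContinuousOnInterval_intervalIntegral hs)
      fun x _ y _ => by simp [hΘ]
  have cF : ContinuousOn F (Icc s t) := by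
    have := acF.continuousOn
    rwa [uIcc_of_le hst] at this
  have cΘ : ContinuousOn Θ (Icc s t) := by
    have := acΘ.continuousOn
    rwa [uIcc_of_le hst] at this
  have key := acΘ.integral_deriv_mul_eq_sub acF
  have hint : ∀ᵐ x ∂(volume.restrict (Ioo s t)),
      deriv Θ x * F x + Θ x * deriv F x = θ x * g x + θ' x * f x := by
    filter_upwards [ae_restrict_mem measurableSet_Ioo,
      ae_restrict_of_ae hg'.ae_hasDerivAt_integral,
      ae_restrict_of_ae hθ'.ae_hasDerivAt_integral] with x h2 h3 h4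
    have hx : x ∈ uIcc s t := by
      rw [uIcc_of_le hst]
      exact Ioo_subset_Icc_self h2
    have d1 : HasDerivAt F (g x) x := (h3 hx s hs).const_add _
    have d2 : HasDerivAt Θ (θ' x) x := (h4 hx s hs).const_add _
    rw [d1.deriv, d2.deriv, eF x (Ioo_subset_Icc_self h2), eΘ x (Ioo_subset_Icc_self h2)]
    ring
  have hI : IntegrableOn (fun τ => θ τ * g τ + θ' τ * f τ) (Ioo s t) volume := by
    obtain ⟨CF, hCF⟩ := isCompact_Icc.exists_bound_of_continuousOn cF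
    obtain ⟨CΘ, hCΘ⟩ := isCompact_Icc.exists_bound_of_continuousOn cΘ
    have i1 : IntegrableOn (fun τ => Θ τ * g τ) (Ioo s t) volume := by
      refine Integrable.bdd_mul (c := CΘ) hg
        ((cΘ.mono Ioo_subset_Icc_self).aestronglyMeasurable measurableSet_Ioo) ?_
      filter_upwards [ae_restrict_mem measurableSet_Ioo] with x hx
      exact hCΘ x (Ioo_subset_Icc_self hx)
    have i2 : IntegrableOn (fun τ => F τ * θ' τ) (Ioo s t) volume := by
      refine Integrable.bdd_mul (c := CF) hθ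
        ((cF.mono Ioo_subset_Icc_self).aestronglyMeasurable measurableSet_Ioo) ?_
      filter_upwards [ae_restrict_mem measurableSet_Ioo] with x hx
      exact hCF x (Ioo_subset_Icc_self hx)
    refine (i1.add i2).congr ?_
    filter_upwards [ae_restrict_mem measurableSet_Ioo] with x hx
    simp only [Pi.add_apply]
    rw [eF x (Ioo_subset_Icc_self hx), eΘ x (Ioo_subset_Icc_self hx)]
    ring
  refine ⟨hI, ?_⟩
  rw [intervalIntegral.integral_of_le hst, integral_Ioc_eq_integral_Ioo,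
    integral_congr_ae hint] at key
  rw [key, eF t (right_mem_Icc.2 hst), eΘ t (right_mem_Icc.2 hst),
    eF s (left_mem_Icc.2 hst), eΘ s (left_mem_Icc.2 hst)]

theorem re0_le2 {u v : V3} {du dv : Fin 3 → V3} {A : ℝ} (hA : 0 ≤ A) (hu : Bd u A) :
    2 * re0 u v du dv ≤ -∑ k, ‖dv k - du k‖ ^ 2 + A ^ 2 * ‖v - u‖ ^ 2 := by
  have h1 := re0_le (v := v) (du := du) (dv := dv) hA hu
  set G := ∑ k, ‖dv k - du k‖ ^ 2 with hG
  have hG0 : 0 ≤ G := Finset.sum_nonneg fun k _ => by positivity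
  have h2 : √G ^ 2 = G := Real.sq_sqrt hG0
  nlinarith [sq_nonneg (A * ‖v - u‖ - √G)]

theorem sqrt_prim {s x : ℝ} (hs : 0 ≤ s) (hx : s ≤ x) :
    √x = √s + ∫ τ in Ioo s x, (1 / 2) / √τ := by
  obtain ⟨h1, h2⟩ := integral_inv_sqrt hs (1 / 2)
  obtain ⟨h3, h4⟩ := integral_inv_sqrt (hs.trans hx) (1 / 2)
  have h5 : IntervalIntegrable (fun τ : ℝ => (1 / 2) / √τ) volume s x :=
    h1.symm.trans h3
  have h6 := intervalIntegral.integral_add_adjacent_intervals h1 h5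
  rw [h2, h4, intervalIntegral.integral_of_le hx, integral_Ioc_eq_integral_Ioo] at h6
  linarith

variable {T : ℝ} {u₀ v₀ : V3} {u v : ℝ → V3} {a : ℝ → ℝ} {Du Dv : ℝ → Fin 3 → V3}

/-- the dissipation of the difference -/
noncomputable def Gd (Du Dv : ℝ → Fin 3 → V3) (τ : ℝ) : ℝ := ∑ k, ‖Dv τ k - Du τ k‖ ^ 2

theorem Gd_nonneg (τ : ℝ) : 0 ≤ Gd Du Dv τ := Finset.sum_nonneg fun k _ => by positivity

theorem rel_Gd (P : Rel T u₀ v₀ u v a Du Dv) {t : ℝ} (ht : t ∈ Ico 0 T) :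
    IntegrableOn (Gd Du Dv) (Ioo 0 t) volume := by
  have h1 := ((P.hDvi t ht).const_mul 2).add ((P.hDui t ht).const_mul 2)
  refine h1.mono' ?_ ?_
  · unfold Gd
    refine Finset.aestronglyMeasurable_fun_sum _ fun k _ => ?_
    have hm : Measure.restrict volume (Ioo 0 t) ≤ Measure.restrict volume (Ioo 0 T) :=
      Measure.restrict_mono (Ioo_subset_Ioo le_rfl ht.2.le) le_rfl
    have h3 : AEStronglyMeasurable (fun τ => ‖Dv τ k - Du τ k‖) (volume.restrict (Ioo 0 t)) := by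
      apply meas_weak (k := k) (f := fun τ => v τ - u τ)
        ((P.hv.meas.sub P.hu.meas).mono_measure hm)
      filter_upwards [ae_mono hm P.hDu, ae_mono hm P.hDv] with τ h1 h2
      exact (h2 k).sub (h1 k)
    exact h3.pow 2
  · refine Eventually.of_forall fun τ => ?_
    rw [Real.norm_eq_abs, abs_of_nonneg (Gd_nonneg τ)]
    exact sum_sq_sub_le _ _

theorem rel_re (P : Rel T u₀ v₀ u v a Du Dv) {s t A : ℝ} (hs : 0 ≤ s) (hst : s ≤ t)
    (ht : t < T) (hA : 0 ≤ A) (ha : ∀ τ ∈ Ioo s t, a τ ≤ A)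
    (ham : AEStronglyMeasurable a (volume.restrict (Ioo s t))) :
    IntegrableOn (fun τ => 2 * re0 (u τ) (v τ) (Du τ) (Dv τ)) (Ioo s t) volume ∧
    ∀ x ∈ Icc s t, RE v₀ u v Dv x = RE v₀ u v Dv s +
      ∫ τ in Ioo s x, 2 * re0 (u τ) (v τ) (Du τ) (Dv τ) := by
  have hi : IntegrableOn (fun τ => a τ ^ 2) (Ioo s t) volume := by
    refine Integrable.of_bound (ham.pow 2) (A ^ 2) ?_
    filter_upwards [ae_restrict_mem measurableSet_Ioo] with τ hτ
    rw [Real.norm_eq_abs, abs_of_nonneg (sq_nonneg _)]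
    exact pow_le_pow_left₀ (P.ha0 τ) (ha τ hτ) 2
  refine ⟨(P.RE_formula hs hst ht hi).1.const_mul 2, fun x hx => ?_⟩
  have h1 := (P.RE_formula hs hx.1 (hx.2.trans_lt ht)
    (hi.mono_set (Ioo_subset_Ioo le_rfl hx.2))).2
  rw [integral_const_mul]
  linarith

/-- the weighted dissipation -/
theorem G_int (P : Rel T u₀ v₀ u v a Du Dv) {ε t M : ℝ} (hε : 0 ≤ ε) (ht : t ∈ Ioo 0 T)
    (ham : AEStronglyMeasurable a (volume.restrict (Ioo 0 t)))
    (ha : ∀ τ ∈ Ioo 0 t, a τ ≤ ε / √τ) (hM : ∀ τ ∈ Ioc 0 t, RE v₀ u v Dv τ ≤ M) :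
    IntegrableOn (fun τ => √τ * Gd Du Dv τ) (Ioo 0 t) volume ∧
    ∫ τ in Ioo 0 t, √τ * Gd Du Dv τ ≤ (1 + 2 * ε ^ 2) * √t * M := by
  have ht0 := ht.1
  have ht' : t ∈ Ico 0 T := ⟨ht.1.le, ht.2⟩
  have hRE : ∀ τ ∈ Ico 0 T, 0 ≤ RE v₀ u v Dv τ := fun τ hτ => (sq_nonneg _).trans (P.le_RE hτ)
  have hM0 : 0 ≤ M := (hRE t ht').trans (hM t ⟨ht0, le_rfl⟩)
  have hI : IntegrableOn (fun τ => √τ * Gd Du Dv τ) (Ioo 0 t) volume := by
    refine Integrable.bdd_mul (c := √t) (rel_Gd P ht') (by fun_prop) ?_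
    filter_upwards [ae_restrict_mem measurableSet_Ioo] with τ hτ
    rw [Real.norm_eq_abs, abs_of_nonneg (Real.sqrt_nonneg _)]
    exact Real.sqrt_le_sqrt hτ.2.le
  refine ⟨hI, ?_⟩
  have step : ∀ s ∈ Ioo 0 t, ∫ τ in Ioo s t, √τ * Gd Du Dv τ ≤ (1 + 2 * ε ^ 2) * √t * M := by
    intro s hs
    have hs0 := hs.1
    have hsub : Ioo s t ⊆ Ioo 0 t := Ioo_subset_Ioo hs0.le le_rfl
    obtain ⟨i1, e1⟩ := rel_re P (A := ε / √s) hs0.le hs.2.le ht.2 (by positivity) (by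
      intro τ hτ
      refine (ha τ (hsub hτ)).trans ?_
      have h1 : √s ≤ √τ := Real.sqrt_le_sqrt hτ.1.le
      have h2 : 0 < √s := Real.sqrt_pos.2 hs0
      gcongr) (ham.mono_measure (Measure.restrict_mono hsub le_rfl))
    have i2 : IntegrableOn (fun τ : ℝ => (1 / 2) / √τ) (Ioo s t) volume := by
      have := (integral_inv_sqrt ht0.le (1 / 2)).1
      rw [intervalIntegrable_iff_integrableOn_Ioo_of_le ht0.le] at this
      exact this.mono_set hsub
    obtain ⟨i3, e3⟩ := prod_rule hs.2.le i1 i2 e1 (fun x hx => sqrt_prim hs0.le hx.1)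
    have i4 : IntegrableOn (fun τ : ℝ => ((ε ^ 2 + 1 / 2) * M) / √τ) (Ioo s t) volume := by
      have := (integral_inv_sqrt ht0.le ((ε ^ 2 + 1 / 2) * M)).1
      rw [intervalIntegrable_iff_integrableOn_Ioo_of_le ht0.le] at this
      exact this.mono_set hsub
    have hle : ∫ τ in Ioo s t, (√τ * (2 * re0 (u τ) (v τ) (Du τ) (Dv τ)) +
        (1 / 2) / √τ * RE v₀ u v Dv τ) ≤
        ∫ τ in Ioo s t, (((ε ^ 2 + 1 / 2) * M) / √τ - √τ * Gd Du Dv τ) := by
      apply integral_mono_ae i3 (i4.sub (hI.mono_set hsub))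
      filter_upwards [ae_restrict_mem measurableSet_Ioo,
        ae_restrict_of_ae_restrict_of_subset (Ioo_subset_Ioo hs0.le ht.2.le) P.hua] with τ hτ h1
      have hτ0 : 0 < τ := hs0.trans hτ.1
      have hτT : τ ∈ Ico 0 T := ⟨hτ0.le, hτ.2.trans ht.2⟩
      have hsτ : 0 < √τ := Real.sqrt_pos.2 hτ0
      have h2 := re0_le2 (v := v τ) (du := Du τ) (dv := Dv τ) (P.ha0 τ) h1
      have h3 := hM τ ⟨hτ0, hτ.2.le⟩
      have h4 := P.le_RE hτT
      have h5 : a τ ^ 2 ≤ ε ^ 2 / τ := by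
        have := pow_le_pow_left₀ (P.ha0 τ) (ha τ ⟨hτ0, hτ.2⟩) 2
        rwa [div_pow, Real.sq_sqrt hτ0.le] at this
      have h6 : 2 * re0 (u τ) (v τ) (Du τ) (Dv τ) ≤ -Gd Du Dv τ + ε ^ 2 / τ * M := by
        have : a τ ^ 2 * ‖v τ - u τ‖ ^ 2 ≤ ε ^ 2 / τ * M := by
          gcongr
          linarith
        unfold Gd
        linarith
      have h7 : √τ * (2 * re0 (u τ) (v τ) (Du τ) (Dv τ)) ≤
          √τ * (-Gd Du Dv τ + ε ^ 2 / τ * M) := by gcongr
      have h8 : (1 / 2) / √τ * RE v₀ u v Dv τ ≤ (1 / 2) / √τ * M := by gcongr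
      have h9 : √τ * (-Gd Du Dv τ + ε ^ 2 / τ * M) + (1 / 2) / √τ * M =
          ((ε ^ 2 + 1 / 2) * M) / √τ - √τ * Gd Du Dv τ := by
        have : √τ * (ε ^ 2 / τ * M) = ε ^ 2 * M / √τ := by
          have h10 : √τ * √τ = τ := Real.mul_self_sqrt hτ0.le
          have h11 : √τ / τ = 1 / √τ := by
            rw [div_eq_div_iff hτ0.ne' hsτ.ne', h10, one_mul]
          calc √τ * (ε ^ 2 / τ * M) = ε ^ 2 * M * (√τ / τ) := by ring
            _ = _ := by rw [h11]; ring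
        rw [mul_add, this]
        ring
      change _ ≤ ((ε ^ 2 + 1 / 2) * M) / √τ - √τ * Gd Du Dv τ
      linarith
    rw [integral_sub i4 (hI.mono_set hsub)] at hle
    have e4 : ∫ τ in Ioo s t, ((ε ^ 2 + 1 / 2) * M) / √τ = 2 * ((ε ^ 2 + 1 / 2) * M) * (√t - √s) := by
      have h1 := sqrt_prim hs0.le hs.2.le
      have h2 : ∀ τ : ℝ, ((ε ^ 2 + 1 / 2) * M) / √τ = 2 * ((ε ^ 2 + 1 / 2) * M) * ((1 / 2) / √τ) := by
        intro τ
        ring
      simp only [h2]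
      rw [integral_const_mul]
      congr 1
      linarith
    have hsqs : 0 ≤ √s := Real.sqrt_nonneg s
    have hst' : 0 ≤ √t := Real.sqrt_nonneg t
    have h1 := hM s ⟨hs0, hs.2.le⟩
    have h2 := hRE t ht'
    have h3 : √s * RE v₀ u v Dv s ≤ √s * M := by gcongr
    have h4 : 0 ≤ √t * RE v₀ u v Dv t := by positivity
    have h5 : 0 ≤ ε ^ 2 * M * √s := by positivity
    nlinarith
  have lim : Tendsto (fun s => √s * (∫ τ in Ioo 0 t, Gd Du Dv τ) + (1 + 2 * ε ^ 2) * √t * M)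
      (𝓝[>] 0) (𝓝 (√0 * (∫ τ in Ioo 0 t, Gd Du Dv τ) + (1 + 2 * ε ^ 2) * √t * M)) := by
    apply Tendsto.mono_left _ nhdsWithin_le_nhds
    exact ((Real.continuous_sqrt.tendsto 0).mul_const _).add_const _
  rw [Real.sqrt_zero, zero_mul, zero_add] at lim
  refine ge_of_tendsto lim ?_
  filter_upwards [Ioo_mem_nhdsGT ht0] with s hs
  have h1 := step s hs
  have hsub : Ioo 0 s ⊆ Ioo 0 t := Ioo_subset_Ioo le_rfl hs.2.le
  have e5 : ∫ τ in Ioo 0 t, √τ * Gd Du Dv τ = (∫ τ in Ioo 0 s, √τ * Gd Du Dv τ) +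
      ∫ τ in Ioo s t, √τ * Gd Du Dv τ := by
    have j1 : IntervalIntegrable (fun τ => √τ * Gd Du Dv τ) volume 0 s := by
      rw [intervalIntegrable_iff_integrableOn_Ioo_of_le hs.1.le]
      exact hI.mono_set hsub
    have j2 : IntervalIntegrable (fun τ => √τ * Gd Du Dv τ) volume s t := by
      rw [intervalIntegrable_iff_integrableOn_Ioo_of_le hs.2.le]
      exact hI.mono_set (Ioo_subset_Ioo hs.1.le le_rfl)
    have j3 := intervalIntegral.integral_add_adjacent_intervals j1 j2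
    rw [intervalIntegral.integral_of_le hs.1.le, intervalIntegral.integral_of_le hs.2.le,
      intervalIntegral.integral_of_le ht0.le, integral_Ioc_eq_integral_Ioo,
      integral_Ioc_eq_integral_Ioo, integral_Ioc_eq_integral_Ioo] at j3
    exact j3.symm
  have h2 : ∫ τ in Ioo 0 s, √τ * Gd Du Dv τ ≤ √s * ∫ τ in Ioo 0 t, Gd Du Dv τ := by
    calc ∫ τ in Ioo 0 s, √τ * Gd Du Dv τ ≤ ∫ τ in Ioo 0 s, √s * Gd Du Dv τ := by
          apply setIntegral_mono_on (hI.mono_set hsub)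
            (((rel_Gd P ht').mono_set hsub).const_mul _) measurableSet_Ioo
          intro τ hτ
          have := Gd_nonneg (Du := Du) (Dv := Dv) τ
          have h3 : √τ ≤ √s := Real.sqrt_le_sqrt hτ.2.le
          gcongr
      _ = √s * ∫ τ in Ioo 0 s, Gd Du Dv τ := integral_const_mul _ _
      _ ≤ √s * ∫ τ in Ioo 0 t, Gd Du Dv τ := by
          have h4 : ∫ τ in Ioo 0 s, Gd Du Dv τ ≤ ∫ τ in Ioo 0 t, Gd Du Dv τ :=
            setIntegral_mono_set (rel_Gd P ht') (Eventually.of_forall fun τ => Gd_nonneg τ)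
              (HasSubset.Subset.eventuallyLE hsub)
          gcongr
  linarith

theorem G_lint (P : Rel T u₀ v₀ u v a Du Dv) {ε t M : ℝ} (hε : 0 ≤ ε) (hε1 : ε ≤ 1)
    (ht : t ∈ Ioo 0 T) (ham : AEStronglyMeasurable a (volume.restrict (Ioo 0 t)))
    (ha : ∀ τ ∈ Ioo 0 t, a τ ≤ ε / √τ) (hM : ∀ τ ∈ Ioc 0 t, RE v₀ u v Dv τ ≤ M) :
    ∫⁻ τ in Ioo 0 t, ENNReal.ofReal (√τ) * ENNReal.ofReal (∑ k, ‖Dv τ k - Du τ k‖ ^ 2) ≤
      ENNReal.ofReal (3 * √t * M) := by
  obtain ⟨h1, h2⟩ := G_int P hε ht ham ha hM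
  have hM0 : 0 ≤ M := ((sq_nonneg _).trans (P.le_RE ⟨ht.1.le, ht.2⟩)).trans (hM t ⟨ht.1, le_rfl⟩)
  have e1 : ∀ τ : ℝ, ENNReal.ofReal (√τ) * ENNReal.ofReal (∑ k, ‖Dv τ k - Du τ k‖ ^ 2) =
      ENNReal.ofReal (√τ * Gd Du Dv τ) := by
    intro τ
    rw [ENNReal.ofReal_mul (Real.sqrt_nonneg _), Gd]
  simp only [e1]
  rw [← ofReal_integral_eq_lintegral_ofReal h1
    (Eventually.of_forall fun τ => mul_nonneg (Real.sqrt_nonneg _) (Gd_nonneg τ))]
  apply ENNReal.ofReal_le_ofReal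
  refine h2.trans ?_
  have : ε ^ 2 ≤ 1 := by nlinarith
  have h3 : 0 ≤ √t := Real.sqrt_nonneg _
  gcongr
  linarith

end Pool.Agent.TP
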