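import Pool.Agent.TG.Main

/-!
# The kernels
-/

set_option autoImplicit false

namespace Pool.Agent.TP

open MeasureTheory Set Filter Topology Pool.Agent.TO Pool.Agent.TB Pool.Agent.TC
open scoped ENNReal NNReal Real InnerProductSpace SchwartzMap LineDeriv

/-- `(ρ² + |x|²)^(-1/2)` -/
noncomputable def sg (ρ : ℝ) (x : E3) : ℝ := (√(ρ ^ 2 + ‖x‖ ^ 2))⁻¹

variable {ρ : ℝ}

theorem sg_arg_pos (hρ : 0 < ρ) (x : E3) : 0 < ρ ^ 2 + ‖x‖ ^ 2 := by positivity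

theorem sg_pos (hρ : 0 < ρ) (x : E3) : 0 < sg ρ x := by
  have := sg_arg_pos hρ x
  unfold sg
  positivity

theorem sg_sq (hρ : 0 < ρ) (x : E3) : sg ρ x ^ 2 * (ρ ^ 2 + ‖x‖ ^ 2) = 1 := by
  have := sg_arg_pos hρ x
  unfold sg
  rw [inv_pow, Real.sq_sqrt this.le]
  field_simp

theorem rho_sg (hρ : 0 < ρ) (x : E3) : ρ * sg ρ x ≤ 1 := by
  have h1 := sg_sq hρ x
  have h2 := sg_pos hρ x
  have h3 : (ρ * sg ρ x) ^ 2 ≤ 1 ^ 2 := by
    rw [mul_pow]
    nlinarith [mul_nonneg (sq_nonneg (sg ρ x)) (sq_nonneg ‖x‖)]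
  exact abs_le_of_sq_le_sq' h3 (by norm_num) |>.2

theorem nrm_sg (hρ : 0 < ρ) (x : E3) : ‖x‖ * sg ρ x ≤ 1 := by
  have h1 := sg_sq hρ x
  have h2 := sg_pos hρ x
  have h3 : (‖x‖ * sg ρ x) ^ 2 ≤ 1 ^ 2 := by
    rw [mul_pow]
    nlinarith [mul_nonneg (sq_nonneg (sg ρ x)) (sq_nonneg ρ)]
  exact abs_le_of_sq_le_sq' h3 (by norm_num) |>.2

theorem sg_neg (x : E3) : sg ρ (-x) = sg ρ x := by
  unfold sg
  rw [norm_neg]

theorem sg_scale (hρ : 0 < ρ) (y : E3) : sg ρ (ρ • y) = ρ⁻¹ * sg 1 y := by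
  unfold sg
  rw [norm_smul, Real.norm_of_nonneg hρ.le]
  have : ρ ^ 2 + (ρ * ‖y‖) ^ 2 = ρ ^ 2 * (1 ^ 2 + ‖y‖ ^ 2) := by ring
  rw [this, Real.sqrt_mul (by positivity), Real.sqrt_sq hρ.le, mul_inv]

theorem hasFDerivAt_sg (hρ : 0 < ρ) (x : E3) :
    HasFDerivAt (sg ρ) (-(sg ρ x) ^ 3 • innerSL ℝ x) x := by
  have h0 := sg_arg_pos hρ x
  have h1 : HasFDerivAt (fun x : E3 => ρ ^ 2 + ‖x‖ ^ 2) (2 • innerSL ℝ x) x :=
    (hasStrictFDerivAt_norm_sq x).hasFDerivAt.const_add _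
  have h3 : √(ρ ^ 2 + ‖x‖ ^ 2) ≠ 0 := by positivity
  have h2 := ((Real.hasDerivAt_sqrt h0.ne').inv h3).comp_hasFDerivAt x h1
  have h4 : HasFDerivAt (sg ρ) _ x := h2
  refine h4.congr_fderiv ?_
  ext h
  simp only [sg, smul_apply, innerSL_apply_apply, smul_eq_mul, nsmul_eq_mul]
  field_simp
  simp

theorem continuous_sg (hρ : 0 < ρ) : Continuous (sg ρ) :=
  continuous_iff_continuousAt.2 fun x => (hasFDerivAt_sg hρ x).continuousAt

theorem sg_le_inv (hρ : 0 < ρ) (x : E3) : sg ρ x ≤ ρ⁻¹ := by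
  rw [← one_div, le_div_iff₀ hρ, mul_comm]
  exact rho_sg hρ x

theorem sg_pow_eq (n : ℕ) (x : E3) : sg 1 x ^ n = (1 + ‖x‖ ^ 2) ^ (-(n:ℝ) / 2) := by
  unfold sg
  rw [Real.sqrt_eq_rpow, ← Real.rpow_neg (by positivity), ← Real.rpow_natCast,
    ← Real.rpow_mul (by positivity)]
  norm_num
  congr 1
  ring

theorem integrable_sg_one {n : ℕ} (hn : 4 ≤ n) :
    Integrable (fun x : E3 => sg 1 x ^ n) (volume : Measure E3) := by
  simp only [sg_pow_eq]
  apply integrable_rpow_neg_one_add_norm_sq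
  rw [finrank_euclideanSpace, Fintype.card_fin]
  have : (4:ℝ) ≤ n := by exact_mod_cast hn
  norm_num
  linarith

/-- the constants -/
noncomputable def JJ (n : ℕ) : ℝ := ∫ x : E3, sg 1 x ^ n

theorem integrable_sg (hρ : 0 < ρ) {n : ℕ} (hn : 4 ≤ n) :
    Integrable (fun x : E3 => sg ρ x ^ n) (volume : Measure E3) := by
  have h1 := ((integrable_sg_one hn).const_mul (ρ⁻¹ ^ n)).comp_smul (inv_ne_zero hρ.ne')
  refine h1.congr (Eventually.of_forall fun x => ?_)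
  simp only
  rw [← mul_pow, ← sg_scale hρ, smul_smul, mul_inv_cancel₀ hρ.ne', one_smul]

theorem integral_sg (hρ : 0 < ρ) (n : ℕ) :
    ∫ x : E3, sg ρ x ^ n = ρ ^ 3 * ρ⁻¹ ^ n * JJ n := by
  have h1 := Measure.integral_comp_smul (volume : Measure E3) (fun x => sg ρ x ^ n) ρ
  rw [finrank_euclideanSpace, Fintype.card_fin, abs_of_pos (by positivity), smul_eq_mul] at h1
  simp only [sg_scale hρ, mul_pow] at h1
  rw [integral_const_mul] at h1
  have h2 : (ρ ^ 3) * (ρ⁻¹ ^ n * JJ n) = ∫ x : E3, sg ρ x ^ n := by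
    unfold JJ
    rw [h1]
    field_simp
  rw [← h2]
  ring

theorem JJ_pos {n : ℕ} (hn : 4 ≤ n) : 0 < JJ n := by
  have h1 : ∀ x : E3, 0 < sg 1 x ^ n := fun x => pow_pos (sg_pos one_pos x) n
  unfold JJ
  rw [integral_pos_iff_support_of_nonneg (fun x => (h1 x).le) (integrable_sg_one hn)]
  have : Function.support (fun x : E3 => sg 1 x ^ n) = univ := by
    ext x
    simp [(h1 x).ne']
  rw [this]
  simp

/-- the normalising constant -/
noncomputable def c0 : ℝ := 2 / (15 * JJ 7)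

theorem c0_pos : 0 < c0 := by
  have := JJ_pos (n := 7) (by norm_num)
  unfold c0
  positivity

/-- the averaging kernel -/
noncomputable def et0 (ρ : ℝ) (x : E3) : ℝ := 15 / 2 * c0 * ρ ^ 4 * sg ρ x ^ 7

/-- the radial part of the gradient of the potential of `et0` -/
noncomputable def Ps (ρ : ℝ) (x : E3) : ℝ := -c0 * (sg ρ x ^ 3 + 3 / 2 * ρ ^ 2 * sg ρ x ^ 5)

/-- the coefficient of the gradient of `Ps` -/
noncomputable def be (ρ : ℝ) (x : E3) : ℝ := c0 * (3 * sg ρ x ^ 5 + 15 / 2 * ρ ^ 2 * sg ρ x ^ 7)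

/-- the coefficient of the gradient of `be` -/
noncomputable def be1 (ρ : ℝ) (x : E3) : ℝ :=
  c0 * (-15 * sg ρ x ^ 7 - 105 / 2 * ρ ^ 2 * sg ρ x ^ 9)

/-- the coefficient of the gradient of `et0 + Ps` -/
noncomputable def al1 (ρ : ℝ) (x : E3) : ℝ := -(105 / 2) * c0 * ρ ^ 4 * sg ρ x ^ 9 + be ρ x

theorem et0_nonneg (hρ : 0 < ρ) (x : E3) : 0 ≤ et0 ρ x := by
  have := sg_pos hρ x
  have := c0_pos
  unfold et0
  positivity

theorem et0_neg (x : E3) : et0 ρ (-x) = et0 ρ x := by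
  unfold et0
  rw [sg_neg]

theorem integral_et0 (hρ : 0 < ρ) : ∫ x, et0 ρ x = 1 := by
  have := JJ_pos (n := 7) (by norm_num)
  unfold et0
  rw [integral_const_mul, integral_sg hρ, c0]
  field_simp

theorem integrable_et0 (hρ : 0 < ρ) : Integrable (et0 ρ) (volume : Measure E3) :=
  (integrable_sg hρ (by norm_num)).const_mul _

theorem continuous_et0 (hρ : 0 < ρ) : Continuous (et0 ρ) := by
  have := continuous_sg hρ
  unfold et0
  fun_prop

theorem continuous_Ps (hρ : 0 < ρ) : Continuous (Ps ρ) := by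
  have := continuous_sg hρ
  unfold Ps
  fun_prop

theorem continuous_be (hρ : 0 < ρ) : Continuous (be ρ) := by
  have := continuous_sg hρ
  unfold be
  fun_prop

theorem continuous_be1 (hρ : 0 < ρ) : Continuous (be1 ρ) := by
  have := continuous_sg hρ
  unfold be1
  fun_prop

theorem continuous_al1 (hρ : 0 < ρ) : Continuous (al1 ρ) := by
  have := continuous_sg hρ
  have := continuous_be hρ
  unfold al1
  fun_prop

/-- derivatives of powers -/
theorem hasFDerivAt_sg_pow (hρ : 0 < ρ) (n : ℕ) (x : E3) :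
    HasFDerivAt (fun x => sg ρ x ^ n) (-(n * sg ρ x ^ (n + 2)) • innerSL ℝ x) x := by
  have h1 := (hasDerivAt_pow n (sg ρ x)).comp_hasFDerivAt x (hasFDerivAt_sg hρ x)
  have h2 : HasFDerivAt (fun x => sg ρ x ^ n) _ x := h1
  refine h2.congr_fderiv ?_
  ext h
  simp only [smul_apply, innerSL_apply_apply, smul_eq_mul, nsmul_eq_mul]
  rcases n with _ | n
  · simp
  · simp only [Nat.add_sub_cancel]
    ring

theorem hasFDerivAt_et0 (hρ : 0 < ρ) (x : E3) :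
    HasFDerivAt (et0 ρ) ((-(105 / 2) * c0 * ρ ^ 4 * sg ρ x ^ 9) • innerSL ℝ x) x := by
  have h1 := (hasFDerivAt_sg_pow hρ 7 x).const_mul (15 / 2 * c0 * ρ ^ 4)
  refine h1.congr_fderiv ?_
  ext h
  simp only [smul_apply, innerSL_apply_apply, smul_eq_mul]
  push_cast
  ring

theorem hasFDerivAt_Ps (hρ : 0 < ρ) (x : E3) : HasFDerivAt (Ps ρ) (be ρ x • innerSL ℝ x) x := by
  have h1 := ((hasFDerivAt_sg_pow hρ 3 x).add
    ((hasFDerivAt_sg_pow hρ 5 x).const_mul (3 / 2 * ρ ^ 2))).const_mul (-c0)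
  refine h1.congr_fderiv ?_
  ext h
  simp only [smul_apply, add_apply, innerSL_apply_apply, smul_eq_mul, be]
  push_cast
  ring

theorem hasFDerivAt_be (hρ : 0 < ρ) (x : E3) : HasFDerivAt (be ρ) (be1 ρ x • innerSL ℝ x) x := by
  have h1 := (((hasFDerivAt_sg_pow hρ 5 x).const_mul 3).add
    ((hasFDerivAt_sg_pow hρ 7 x).const_mul (15 / 2 * ρ ^ 2))).const_mul c0
  refine h1.congr_fderiv ?_
  ext h
  simp only [smul_apply, add_apply, innerSL_apply_apply, smul_eq_mul, be1]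
  push_cast
  ring

/-- the trace identity -/
theorem trace_id (hρ : 0 < ρ) (x : E3) : 3 * Ps ρ x + be ρ x * ‖x‖ ^ 2 = -et0 ρ x := by
  have h := sg_sq hρ x
  have h1 : sg ρ x ^ 2 * ‖x‖ ^ 2 = 1 - sg ρ x ^ 2 * ρ ^ 2 := by linarith
  unfold Ps be et0
  linear_combination (c0 * (3 * sg ρ x ^ 3 + 15 / 2 * ρ ^ 2 * sg ρ x ^ 5)) * h1

/-- the divergence identity -/
theorem div_id (hρ : 0 < ρ) (x : E3) : al1 ρ x + be1 ρ x * ‖x‖ ^ 2 + 4 * be ρ x = 0 := by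
  have h := sg_sq hρ x
  have h1 : sg ρ x ^ 2 * ‖x‖ ^ 2 = 1 - sg ρ x ^ 2 * ρ ^ 2 := by linarith
  unfold al1 be1 be
  linear_combination (c0 * (-15 * sg ρ x ^ 5 - 105 / 2 * ρ ^ 2 * sg ρ x ^ 7)) * h1

end Pool.Agent.TP
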