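import Pool.Agent.TP.Low

/-!
# The mean square of the low frequencies of the difference on the subcritical set
-/

set_option autoImplicit false

namespace Pool.Agent.TP

open MeasureTheory Set Filter Topology Pool.Agent.TO Pool.Agent.TB Pool.Agent.TC
open scoped ENNReal NNReal Real InnerProductSpace SchwartzMap LineDeriv Laplacian

variable {ρ : ℝ}

theorem lint_alg2 {α : Type*} [MeasurableSpace α] {μ : Measure α} {f : Fin 3 → α → ℝ≥0∞}
    {g l : α → ℝ≥0∞} (hf : ∀ k, Measurable (f k)) (hg : Measurable g) (hl : Measurable l)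
    (C c1 c2 c3 : ℝ≥0∞) :
    ∫⁻ x, C * (c1 * (∑ k, f k x) + c2 * g x + c3 * l x) ∂μ =
      C * (c1 * (∑ k, ∫⁻ x, f k x ∂μ) + c2 * (∫⁻ x, g x ∂μ) + c3 * (∫⁻ x, l x ∂μ)) := by
  have m1 : Measurable (fun x => ∑ k, f k x) := Finset.measurable_fun_sum _ fun k _ => hf k
  have m2 : Measurable (fun x => c1 * (∑ k, f k x)) := m1.const_mul _
  have m3 : Measurable (fun x => c2 * g x) := hg.const_mul _
  have m4 : Measurable (fun x => c1 * (∑ k, f k x) + c2 * g x) := m2.add m3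
  have m5 : Measurable (fun x => c1 * (∑ k, f k x) + c2 * g x + c3 * l x) :=
    m4.add (hl.const_mul _)
  rw [lintegral_const_mul _ m5, lintegral_add_left m4, lintegral_add_left m2,
    lintegral_const_mul _ m1, lintegral_const_mul _ hg, lintegral_const_mul _ hl,
    lintegral_finsetSum _ (fun k _ => hf k)]

theorem B_alg {J t ts M cG h1 ε K : ℝ} (hJ : 0 ≤ J) (ht : 0 ≤ t) (hts : 0 ≤ ts) (hM : 0 ≤ M)
    (hcG : 0 ≤ cG) (hh : 0 ≤ h1) (hε : 0 ≤ ε) (hK : 0 ≤ K) {A B D : ℝ≥0∞}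
    (hA : A ≤ ENNReal.ofReal (J * (cG * √t * M))) (hB : B ≤ ENNReal.ofReal (J * M * ts))
    (hD : D ≤ ENNReal.ofReal (J * M * (2 * ε ^ 2 * √t))) :
    ENNReal.ofReal K * ((16 * ENNReal.ofReal J * ENNReal.ofReal (2 * √t)) * A +
      (36 * ENNReal.ofReal h1) * B +
      (72 * ENNReal.ofReal J * ENNReal.ofReal (2 * √t)) * D) ≤
      ENNReal.ofReal (K * (32 * cG * J ^ 2 * t + 36 * h1 * J * ts + 288 * J ^ 2 * ε ^ 2 * t) * M) := by
  have hst : √t * √t = t := Real.mul_self_sqrt ht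
  have h16 : (16:ℝ≥0∞) = ENNReal.ofReal 16 := by norm_num
  have h36 : (36:ℝ≥0∞) = ENNReal.ofReal 36 := by norm_num
  have h72 : (72:ℝ≥0∞) = ENNReal.ofReal 72 := by norm_num
  calc ENNReal.ofReal K * ((16 * ENNReal.ofReal J * ENNReal.ofReal (2 * √t)) * A +
      (36 * ENNReal.ofReal h1) * B +
      (72 * ENNReal.ofReal J * ENNReal.ofReal (2 * √t)) * D)
      ≤ ENNReal.ofReal K * ((16 * ENNReal.ofReal J * ENNReal.ofReal (2 * √t)) *
        ENNReal.ofReal (J * (cG * √t * M)) + (36 * ENNReal.ofReal h1) * ENNReal.ofReal (J * M * ts) +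
      (72 * ENNReal.ofReal J * ENNReal.ofReal (2 * √t)) *
        ENNReal.ofReal (J * M * (2 * ε ^ 2 * √t))) := by gcongr
    _ = ENNReal.ofReal (K * (16 * J * (2 * √t) * (J * (cG * √t * M)) + 36 * h1 * (J * M * ts) +
        72 * J * (2 * √t) * (J * M * (2 * ε ^ 2 * √t)))) := by
        rw [h16, h36, h72]
        rw [← ENNReal.ofReal_mul (by norm_num), ← ENNReal.ofReal_mul (by positivity),
          ← ENNReal.ofReal_mul (by positivity), ← ENNReal.ofReal_mul (by norm_num),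
          ← ENNReal.ofReal_mul (by positivity), ← ENNReal.ofReal_mul (by norm_num),
          ← ENNReal.ofReal_mul (by positivity), ← ENNReal.ofReal_mul (by positivity),
          ← ENNReal.ofReal_add (by positivity) (by positivity),
          ← ENNReal.ofReal_add (by positivity) (by positivity),
          ← ENNReal.ofReal_mul (by positivity)]
    _ = _ := by
        congr 1
        have e : K * (16 * J * (2 * √t) * (J * (cG * √t * M)) + 36 * h1 * (J * M * ts) +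
          72 * J * (2 * √t) * (J * M * (2 * ε ^ 2 * √t))) =
          K * (32 * cG * J ^ 2 * (√t * √t) + 36 * h1 * J * ts + 288 * J ^ 2 * ε ^ 2 * (√t * √t)) *
            M := by ring
        rw [e, hst]

variable {T : ℝ} {u₀ v₀ : V3} {u v : ℝ → V3} {a : ℝ → ℝ} {Du Dv : ℝ → Fin 3 → V3}

theorem B_le (P : Rel T u₀ u₀ u v a Du Dv) (hρ : 0 < ρ) {ε t ts M cG h1 : ℝ} (hε : 0 ≤ ε)
    (ht : t ∈ Ioo 0 T) (hts : t ≤ ts) (htsT : ts ≤ T) (ha : ∀ τ ∈ Ioo 0 t, a τ ≤ ε / √τ)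
    (hM0 : 0 ≤ M) (hM : ∀ τ ∈ Ioo 0 ts, ‖v τ - u τ‖ ^ 2 ≤ M) (hcG : 0 ≤ cG)
    (hG : ∫⁻ τ in Ioo 0 t, ENNReal.ofReal (√τ) * ENNReal.ofReal (∑ k, ‖Dv τ k - Du τ k‖ ^ 2) ≤
      ENNReal.ofReal (cG * √t * M)) (hh : 0 ≤ h1) {m : E3 → ℝ} (hm : MB m 1)
    (hE : ∀ z, m z ≠ 0 → HH hρ ts u v z ≤ ENNReal.ofReal h1) :
    ‖mulV hm (SP hρ (v t - u t))‖ ^ 2 ≤ 3 * C1 ^ 2 * (32 * cG * (JJ 4 / ρ) ^ 2 * t +
      36 * h1 * (JJ 4 / ρ) * ts + 288 * (JJ 4 / ρ) ^ 2 * ε ^ 2 * t) * M := by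
  have ht' : t ∈ Ico 0 T := ⟨ht.1.le, ht.2⟩
  have ht0 := ht.1
  have hts0 : 0 < ts := ht0.trans_le hts
  have hJJ := JJ_pos (n := 4) (by norm_num)
  set J : ℝ := JJ 4 / ρ with hJ
  have hJ0 : 0 < J := by positivity
  set R : Fin 3 → E3 → ℝ≥0∞ := fun k z => ∫⁻ τ in Ioo 0 t, ENNReal.ofReal ((1:ℝ) ^ 2 * √τ) *
    ENNReal.ofReal (Qr hρ z (Dv τ k - Du τ k)) with hR
  set Rw : E3 → ℝ≥0∞ := fun z => ∫⁻ τ in Ioo 0 t, ENNReal.ofReal ((ε / √τ) ^ 2 * √τ) *
    ENNReal.ofReal (Qr hρ z (v τ - u τ)) with hRw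
  have ω1 : Measurable fun τ : ℝ => (1:ℝ) ^ 2 * √τ := by fun_prop
  have ω2 : Measurable fun τ : ℝ => (ε / √τ) ^ 2 * √τ := by fun_prop
  have tR := fun k => tonelli_Qr hρ ω1 (rel_meas_Dw P ht.2.le k)
  have tRw := tonelli_Qr hρ ω2 (rel_meas_w P ht.2.le)
  have hpt : ∀ᵐ z ∂(volume : Measure E3), ‖(mulV hm (SP hρ (v t - u t)) : E3 → E3) z‖ₑ ^ 2 ≤
      ENNReal.ofReal (3 * C1 ^ 2) * ((16 * ENNReal.ofReal J * ENNReal.ofReal (2 * √t)) *
        (∑ k, R k z) + (36 * ENNReal.ofReal h1) * HH hρ ts u v z +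
        (72 * ENNReal.ofReal J * ENNReal.ofReal (2 * √t)) * Rw z) := by
    filter_upwards [coe_mulV hm (SP hρ (v t - u t)), coe_cvL (kk_et0 hρ) (v t - u t)] with z h1' h2
    rw [h1']
    have h3 : (SP hρ (v t - u t) : E3 → E3) z = cvf (et0 ρ) (v t - u t : V3) z := h2
    rw [h3]
    by_cases hz : m z = 0
    · rw [hz, zero_smul]
      simp
    have h4 : ‖m z • cvf (et0 ρ) (v t - u t : V3) z‖ₑ ≤ ‖cvf (et0 ρ) (v t - u t : V3) z‖ₑ := by
      rw [enorm_smul]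
      have : ‖m z‖ₑ ≤ 1 := by
        rw [← ofReal_norm, ← ENNReal.ofReal_one]
        exact ENNReal.ofReal_le_ofReal (hm.le z)
      calc ‖m z‖ₑ * ‖cvf (et0 ρ) (v t - u t : V3) z‖ₑ ≤ 1 * _ := by gcongr
        _ = _ := one_mul _
    refine (pow_le_pow_left₀ zero_le h4 2).trans ?_
    refine (rel_pt P hρ hε ht' ha z).trans ?_
    have c1 := fun k => csw hρ z ht0.le (c := fun _ => (1:ℝ)) measurable_const
      (fun _ => zero_le_one) (rel_meas_Dw P ht.2.le k)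
    have c2 := csw hρ z ht0.le (c := fun τ => ε / √τ) (by fun_prop)
      (fun τ => by positivity) (rel_meas_w P ht.2.le)
    have c3 : (∫⁻ τ in Ioo 0 t, ENNReal.ofReal (Qr hρ z (v τ - u τ))) ^ 2 ≤
        ENNReal.ofReal h1 * HH hρ ts u v z := by
      have : ∫⁻ τ in Ioo 0 t, ENNReal.ofReal (Qr hρ z (v τ - u τ)) ≤ HH hρ ts u v z :=
        lintegral_mono_set (Ioo_subset_Ioo le_rfl hts)
      rw [sq]
      exact mul_le_mul' (this.trans (hE z hz)) this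
    rw [mul_assoc (16 * ENNReal.ofReal J), mul_assoc (72 * ENNReal.ofReal J),
      mul_assoc (36:ℝ≥0∞), Finset.mul_sum (f := fun k => R k z)]
    gcongr with k
    · exact c1 k
  have key : ENNReal.ofReal (‖mulV hm (SP hρ (v t - u t))‖ ^ 2) ≤
      ENNReal.ofReal (3 * C1 ^ 2) * ((16 * ENNReal.ofReal J * ENNReal.ofReal (2 * √t)) *
        (∑ k, ∫⁻ z, R k z) + (36 * ENNReal.ofReal h1) * (∫⁻ z, HH hρ ts u v z) +
        (72 * ENNReal.ofReal J * ENNReal.ofReal (2 * √t)) * (∫⁻ z, Rw z)) := by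
    rw [← lint_alg2 (fun k => (tR k).1) (rel_meas_HH P hρ htsT) tRw.1]
    refine le_trans (le_of_eq ?_) (lintegral_mono_ae hpt)
    rw [← enorm_sq_ofReal, ← lintegral_sq_V3]
  have hS1 : ∑ k, ∫⁻ z, R k z ≤ ENNReal.ofReal (J * (cG * √t * M)) := by
    have e1 : ∀ k, ∫⁻ z, R k z = ∫⁻ τ in Ioo 0 t, ENNReal.ofReal ((1:ℝ) ^ 2 * √τ) *
        ENNReal.ofReal (J * ‖Dv τ k - Du τ k‖ ^ 2) := fun k => (tR k).2
    have mm : ∀ k ∈ Finset.univ (α := Fin 3), AEMeasurable (fun τ => ENNReal.ofReal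
        ((1:ℝ) ^ 2 * √τ) * ENNReal.ofReal (J * ‖Dv τ k - Du τ k‖ ^ 2))
        (volume.restrict (Ioo 0 t)) := by
      intro k _
      have h5 := (((rel_meas_Dw P ht.2.le k).norm.pow 2).const_mul J).aemeasurable.ennreal_ofReal
      exact (ω1.ennreal_ofReal.aemeasurable).mul h5
    rw [Finset.sum_congr rfl fun k _ => e1 k, ← lintegral_finsetSum' _ mm,
      ENNReal.ofReal_mul hJ0.le]
    refine le_trans (le_of_eq ?_) (mul_le_mul_right hG (ENNReal.ofReal J))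
    rw [← lintegral_const_mul' _ _ ENNReal.ofReal_ne_top]
    apply lintegral_congr
    intro τ
    rw [← Finset.mul_sum, ← ENNReal.ofReal_sum_of_nonneg (fun k _ => by positivity),
      ← Finset.mul_sum, ENNReal.ofReal_mul hJ0.le, one_pow, one_mul]
    ring
  have hS2 : ∫⁻ z, HH hρ ts u v z ≤ ENNReal.ofReal (J * M * ts) := by
    rw [rel_lint_HH P hρ htsT]
    calc ∫⁻ τ in Ioo 0 ts, ENNReal.ofReal (J * ‖v τ - u τ‖ ^ 2)
        ≤ ∫⁻ _τ in Ioo 0 ts, ENNReal.ofReal (J * M) := by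
          apply setLIntegral_mono' measurableSet_Ioo
          intro τ hτ
          apply ENNReal.ofReal_le_ofReal
          have := hM τ hτ
          gcongr
      _ = ENNReal.ofReal (J * M * ts) := by
          rw [setLIntegral_const, Real.volume_Ioo, sub_zero, ← ENNReal.ofReal_mul (by positivity)]
  have hS3 : ∫⁻ z, Rw z ≤ ENNReal.ofReal (J * M * (2 * ε ^ 2 * √t)) := by
    have e1 : ∫⁻ z, Rw z = ∫⁻ τ in Ioo 0 t, ENNReal.ofReal ((ε / √τ) ^ 2 * √τ) *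
        ENNReal.ofReal (J * ‖v τ - u τ‖ ^ 2) := tRw.2
    rw [e1]
    calc ∫⁻ τ in Ioo 0 t, ENNReal.ofReal ((ε / √τ) ^ 2 * √τ) *
        ENNReal.ofReal (J * ‖v τ - u τ‖ ^ 2)
        ≤ ∫⁻ τ in Ioo 0 t, ENNReal.ofReal (J * M) * ENNReal.ofReal (ε ^ 2 / √τ) := by
          apply setLIntegral_mono' measurableSet_Ioo
          intro τ hτ
          have h6 := hM τ ⟨hτ.1, hτ.2.trans_le hts⟩
          have h7 : (ε / √τ) ^ 2 * √τ = ε ^ 2 / √τ := by
            have : 0 < √τ := Real.sqrt_pos.2 hτ.1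
            field_simp
          rw [h7, mul_comm]
          gcongr
      _ = ENNReal.ofReal (J * M) * ENNReal.ofReal (2 * ε ^ 2 * √t) := by
          rw [lintegral_const_mul' _ _ ENNReal.ofReal_ne_top,
            lint_inv_sqrt ht0.le _ (by positivity)]
      _ = _ := by rw [← ENNReal.ofReal_mul (by positivity)]
  have fin := key.trans (B_alg hJ0.le ht0.le hts0.le hM0 hcG hh hε (by positivity) hS1 hS2 hS3)
  exact (ENNReal.ofReal_le_ofReal_iff (by positivity)).1 fin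

end Pool.Agent.TP
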