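import Pool.Agent.TP.Lin

/-!
# Multiplication operators and coordinate operators
-/

set_option autoImplicit false

namespace Pool.Agent.TP

open MeasureTheory Set Filter Topology Pool.Agent.TO Pool.Agent.TB Pool.Agent.TC
open scoped ENNReal NNReal Real InnerProductSpace SchwartzMap LineDeriv Laplacian

/-- a bounded continuous function -/
structure MB (m : E3 → ℝ) (B : ℝ) : Prop where
  cont : Continuous m
  le : ∀ x, |m x| ≤ B

variable {m m' : E3 → ℝ} {B B' : ℝ}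

theorem MB.nonneg (h : MB m B) : 0 ≤ B := (abs_nonneg _).trans (h.le 0)

theorem MB.memLp (h : MB m B) : MemLp m ∞ (volume : Measure E3) :=
  memLp_top_of_bound h.cont.aestronglyMeasurable B (Eventually.of_forall fun x => h.le x)

/-- the multiplication operator -/
noncomputable def mulV (h : MB m B) : V3 →L[ℝ] V3 :=
  (ContinuousLinearMap.lsmul ℝ ℝ : ℝ →L[ℝ] E3 →L[ℝ] E3).holderL volume ∞ 2 2 h.memLp.toLp

theorem coe_mulV (h : MB m B) (f : V3) : (mulV h f : E3 → E3) =ᵐ[volume] fun x => m x • f x := by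
  have h1 := ContinuousLinearMap.coeFn_holder (ContinuousLinearMap.lsmul ℝ ℝ : ℝ →L[ℝ] E3 →L[ℝ] E3)
    (p := ∞) (q := 2) (r := 2) (μ := volume) h.memLp.toLp f
  filter_upwards [h1, h.memLp.coeFn_toLp] with x h2 h3
  change ((ContinuousLinearMap.lsmul ℝ ℝ : ℝ →L[ℝ] E3 →L[ℝ] E3).holder 2 h.memLp.toLp f :
    E3 → E3) x = _
  rw [h2, h3]
  rfl

theorem norm_mulV_le (h : MB m B) (f : V3) : ‖mulV h f‖ ≤ B * ‖f‖ := by
  apply Lp.norm_le_mul_norm_of_ae_le_mul
  filter_upwards [coe_mulV h f] with x hx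
  rw [hx, norm_smul, Real.norm_eq_abs]
  gcongr
  exact h.le x

theorem mulV_symm (h : MB m B) (f g : V3) : ⟪mulV h f, g⟫_ℝ = ⟪f, mulV h g⟫_ℝ := by
  rw [L2.inner_def, L2.inner_def]
  apply integral_congr_ae
  filter_upwards [coe_mulV h f, coe_mulV h g] with x h1 h2
  rw [h1, h2, inner_smul_left, inner_smul_right]
  rfl

theorem bd_mulV (h : MB m B) {f : V3} {A : ℝ} (hf : Bd f A) : Bd (mulV h f) (B * A) := by
  unfold Bd at *
  filter_upwards [coe_mulV h f, hf] with x h1 h2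
  rw [h1, norm_smul, Real.norm_eq_abs]
  have := h.nonneg
  gcongr
  exact h.le x

/-- weak derivatives pass to the limit -/
theorem weak_of_tendsto {k : Fin 3} {f g : ℕ → V3} {f0 g0 : V3} (hf : Tendsto f atTop (𝓝 f0))
    (hg : Tendsto g atTop (𝓝 g0)) (h : ∀ n, IsWeakDeriv k (f n) (g n)) :
    IsWeakDeriv k f0 g0 := by
  intro φ
  have h1 : Tendsto (fun n => ⟪emb (∂_{ee k} φ), f n⟫_ℝ) atTop (𝓝 ⟪emb (∂_{ee k} φ), f0⟫_ℝ) :=
    tendsto_const_nhds.inner hf
  have h2 : Tendsto (fun n => -⟪emb φ, g n⟫_ℝ) atTop (𝓝 (-⟪emb φ, g0⟫_ℝ)) :=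
    (tendsto_const_nhds.inner hg).neg
  have h3 := tendsto_nhds_unique h1 (h2.congr fun n => (weak_emb (h n) φ).symm)
  rw [integral_inner_eq, integral_inner_eq]
  exact h3

theorem weak_add {k : Fin 3} {f g f' g' : V3} (h : IsWeakDeriv k f f')
    (h' : IsWeakDeriv k g g') : IsWeakDeriv k (f + g) (f' + g') := by
  intro φ
  have h1 := weak_emb h φ
  have h2 := weak_emb h' φ
  rw [integral_inner_eq, integral_inner_eq]
  change ⟪emb (∂_{ee k} φ), f + g⟫_ℝ = -⟪emb φ, f' + g'⟫_ℝ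
  rw [inner_add_right, inner_add_right, h1, h2]
  ring

theorem weak_sum {k : Fin 3} {f f' : Fin 3 → V3} (h : ∀ j, IsWeakDeriv k (f j) (f' j)) :
    IsWeakDeriv k (∑ j, f j) (∑ j, f' j) := by
  rw [Fin.sum_univ_three, Fin.sum_univ_three]
  exact weak_add (weak_add (h 0) (h 1)) (h 2)

theorem weak_neg {k : Fin 3} {f f' : V3} (h : IsWeakDeriv k f f') : IsWeakDeriv k (-f) (-f') := by
  intro φ
  have h1 := weak_emb h φ
  rw [integral_inner_eq, integral_inner_eq]
  change ⟪emb (∂_{ee k} φ), -f⟫_ℝ = -⟪emb φ, -f'⟫_ℝ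
  rw [inner_neg_right, inner_neg_right, h1]

/-- the product rule for weak derivatives -/
theorem weak_mulV (h : MB m B) (h' : MB m' B') {k : Fin 3}
    (hl : ∀ x, HasLineDerivAt ℝ m (m' x) x (ee k)) {f : V3} {df : Fin 3 → V3}
    (hf : ∀ k, IsWeakDeriv k f (df k)) :
    IsWeakDeriv k (mulV h f) (mulV h' f + mulV h (df k)) := by
  obtain ⟨ψ, h1, h2⟩ := exists_seq_H1 hf
  have l1 := ((mulV h).continuous.tendsto _).comp h1
  have l2 := (((mulV h').continuous.tendsto _).comp h1).add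
    (((mulV h).continuous.tendsto _).comp (h2 k))
  refine weak_of_tendsto l1 l2 fun n => ?_
  have mem : ∀ {m : E3 → ℝ} {B : ℝ} (_ : MB m B) (φ : 𝓢(E3, E3)),
      MemLp (fun x => m x • φ x) 2 (volume : Measure E3) := by
    intro m B h φ
    refine (Lp.memLp (mulV h (emb φ))).ae_eq ?_
    filter_upwards [coe_mulV h (emb φ), φ.coeFn_toLp 2 (volume : Measure E3)] with x h3 h4
    rw [h3, emb_apply, h4]
  have w := weak_of_line (k := k) (mem h (ψ n)) ((mem h' (ψ n)).add (mem h (∂_{ee k} (ψ n)))) (by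
    intro x
    have g1 := hl x
    have g2 := line_schwartz (ψ n) k x
    unfold HasLineDerivAt at g1 g2 ⊢
    have g3 := g1.smul g2
    simp only [zero_smul, add_zero] at g3
    have g4 : HasDerivAt (fun t : ℝ => m (x + t • ee k) • (ψ n) (x + t • ee k))
        (m' x • (ψ n) x + m x • (∂_{ee k} (ψ n)) x) 0 := by
      rw [add_comm]
      exact g3
    exact g4)
  convert w using 1
  · apply Lp.ext
    filter_upwards [coe_mulV h (emb (ψ n)), (ψ n).coeFn_toLp 2 (volume : Measure E3),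
      (mem h (ψ n)).coeFn_toLp] with x h3 h4 h5
    rw [h5]
    simp only [Function.comp]
    rw [h3, emb_apply, h4]
  · apply Lp.ext
    filter_upwards [coe_mulV h (emb (∂_{ee k} (ψ n))), coe_mulV h' (emb (ψ n)),
      (ψ n).coeFn_toLp 2 (volume : Measure E3), (∂_{ee k} (ψ n)).coeFn_toLp 2 (volume : Measure E3),
      ((mem h' (ψ n)).add (mem h (∂_{ee k} (ψ n)))).coeFn_toLp,
      Lp.coeFn_add (mulV h' (emb (ψ n))) (mulV h (emb (∂_{ee k} (ψ n))))] with x h3 h4 h5 h6 h7 h8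
    rw [h7]
    simp only [Function.comp]
    rw [h8, Pi.add_apply, h3, h4, emb_apply, emb_apply, h5, h6]
    rfl

/-- the coordinate operators -/
noncomputable def PM (k j : Fin 3) : V3 →L[ℝ] V3 := (MM k j).compLpL 2 (volume : Measure E3)

theorem coe_PM (k j : Fin 3) (f : V3) : (PM k j f : E3 → E3) =ᵐ[volume] fun x => f x k • ee j := by
  filter_upwards [(MM k j).coeFn_compLpL f] with x hx
  rw [PM, hx, MM_apply]

theorem inner_PM (k j : Fin 3) (f g : V3) : ⟪f, PM k j g⟫_ℝ = ⟪PM j k f, g⟫_ℝ := by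
  rw [L2.inner_def, L2.inner_def]
  apply integral_congr_ae
  filter_upwards [coe_PM k j g, coe_PM j k f] with x h1 h2
  rw [h1, h2, inner_smul_left, inner_smul_right, inner_ee, real_inner_comm, inner_ee]
  simp only [conj_trivial]
  ring

theorem norm_PM_le (k j : Fin 3) (f : V3) : ‖PM k j f‖ ≤ ‖f‖ := by
  rw [← one_mul ‖f‖]
  apply Lp.norm_le_mul_norm_of_ae_le_mul
  filter_upwards [coe_PM k j f] with x hx
  rw [hx, norm_smul, one_mul, Real.norm_eq_abs]
  have h1 : ‖(ee j : E3)‖ = 1 := by simp [ee]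
  rw [h1, mul_one]
  exact abs_coord_le _ _

theorem bd_PM (k j : Fin 3) {f : V3} {A : ℝ} (hf : Bd f A) : Bd (PM k j f) A := by
  unfold Bd at *
  filter_upwards [coe_PM k j f, hf] with x hx h2
  rw [hx, norm_smul, Real.norm_eq_abs]
  have h1 : ‖(ee j : E3)‖ = 1 := by simp [ee]
  rw [h1, mul_one]
  exact (abs_coord_le _ _).trans h2

theorem sum_PM (f : V3) : ∑ i, PM i i f = f := by
  apply Lp.ext
  rw [Fin.sum_univ_three]
  filter_upwards [coe_PM 0 0 f, coe_PM 1 1 f, coe_PM 2 2 f,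
    Lp.coeFn_add (PM 0 0 f + PM 1 1 f) (PM 2 2 f), Lp.coeFn_add (PM 0 0 f) (PM 1 1 f)]
    with x h0 h1 h2 h3 h4
  rw [h3, Pi.add_apply, h4, Pi.add_apply, h0, h1, h2]
  ext i
  fin_cases i <;> simp [ee]

theorem PM_cvL {κ : E3 → ℝ} {L : ℝ} (h : KK κ L) (k j : Fin 3) (f : V3) :
    PM k j (cvL h f) = cvL h (PM k j f) := by
  apply Lp.ext
  filter_upwards [coe_PM k j (cvL h f), coe_cvL h f, coe_cvL h (PM k j f)] with x h1 h2 h3
  rw [h1, h2, h3, cvf_congr (coe_PM k j f) x]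
  unfold cvf
  have i1 := integrable_cvf h (Lp.stronglyMeasurable f) (lintegral_sq_lt f) x
  have e1 := (MM k j).integral_comp_comm i1
  rw [MM_apply] at e1
  rw [← e1]
  congr 1
  ext1 y
  rw [map_smul, MM_apply]

theorem PM_mulV (h : MB m B) (k j : Fin 3) (f : V3) :
    PM k j (mulV h f) = mulV h (PM k j f) := by
  apply Lp.ext
  filter_upwards [coe_PM k j (mulV h f), coe_mulV h f, coe_mulV h (PM k j f), coe_PM k j f]
    with x h1 h2 h3 h4
  rw [h1, h2, h3, h4, smul_smul]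
  rfl

/-- the coordinate operators on Schwartz fields -/
noncomputable def PS (k j : Fin 3) (ψ : 𝓢(E3, E3)) : 𝓢(E3, E3) := ψ.postcompCLM (MM k j)

theorem PS_apply (k j : Fin 3) (ψ : 𝓢(E3, E3)) (x : E3) : PS k j ψ x = ψ x k • ee j := rfl

theorem emb_PS (k j : Fin 3) (ψ : 𝓢(E3, E3)) : emb (PS k j ψ) = PM k j (emb ψ) := by
  apply Lp.ext
  filter_upwards [coe_PM k j (emb ψ), ψ.coeFn_toLp 2 (volume : Measure E3),
    (PS k j ψ).coeFn_toLp 2 (volume : Measure E3)] with x h1 h2 h3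
  rw [h1, emb_apply, emb_apply, h2, h3, PS_apply]

theorem lineDeriv_PS (k j i : Fin 3) (ψ : 𝓢(E3, E3)) :
    ∂_{ee i} (PS k j ψ) = PS k j (∂_{ee i} ψ) := lineDeriv_postcomp _ _ _

theorem weak_PM (k j : Fin 3) {i : Fin 3} {f g : V3} (h : IsWeakDeriv i f g) :
    IsWeakDeriv i (PM k j f) (PM k j g) := by
  intro φ
  rw [integral_inner_eq, integral_inner_eq, inner_PM, inner_PM]
  have h1 := weak_emb h (PS j k φ)
  rw [lineDeriv_PS, emb_PS, emb_PS] at h1
  exact h1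

/-- the divergence vanishes -/
theorem sum_PM_div {f : V3} (hf : IsDivFree f) {df : Fin 3 → V3}
    (hd : ∀ k, IsWeakDeriv k f (df k)) (i : Fin 3) : ∑ k, PM k i (df k) = 0 := by
  apply ext_inner_left ℝ
  intro g
  rw [inner_zero_right]
  obtain ⟨φ, hφ⟩ := exists_seq_toLp g
  have l1 : Tendsto (fun n => ⟪emb (φ n), ∑ k, PM k i (df k)⟫_ℝ) atTop
      (𝓝 ⟪g, ∑ k, PM k i (df k)⟫_ℝ) := hφ.inner tendsto_const_nhds
  refine tendsto_nhds_unique l1 (tendsto_const_nhds.congr fun n => ?_)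
  have h1 := divfree_ext hf (Q := emb (φ n)) (DQ := fun k => emb (∂_{ee k} (φ n)))
    (fun k => weak_schwartz (φ n) k) i
  rw [inner_sum]
  have h2 : ∀ k, ⟪emb (φ n), PM k i (df k)⟫_ℝ =
      -⟪emb (∂_{ee k} (φ n)), (MM k i).compLp f⟫_ℝ := by
    intro k
    have h3 := weak_emb (weak_PM k i (hd k)) (φ n)
    change ⟪emb (∂_{ee k} (φ n)), (MM k i).compLp f⟫_ℝ = _ at h3
    rw [h3, neg_neg]
  simp only [h2, Finset.sum_neg_distrib]
  rw [h1, neg_zero]

/-- supports -/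
def SuppIn (f : V3) (E : Set E3) : Prop := ∀ᵐ x ∂(volume : Measure E3), x ∉ E → f x = 0

theorem norm_le_of_supp {f : V3} {A M : ℝ} {E : Set E3} (hA : 0 ≤ A) (hM : 0 ≤ M) (hf : Bd f A)
    (hs : SuppIn f E) (hE : MeasurableSet E) (hv : volume E ≤ ENNReal.ofReal M) :
    ‖f‖ ≤ A * √M := by
  apply le_of_sq_ofReal (by positivity)
  rw [← enorm_sq_ofReal, ← lintegral_sq_V3, mul_pow, Real.sq_sqrt hM,
    ENNReal.ofReal_mul (by positivity)]
  calc ∫⁻ x, ‖f x‖ₑ ^ 2 ≤ ∫⁻ x, E.indicator (fun _ => ENNReal.ofReal (A ^ 2)) x := by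
        apply lintegral_mono_ae
        filter_upwards [hf, hs] with x h1 h2
        by_cases hx : x ∈ E
        · rw [indicator_of_mem hx, ← ofReal_norm, ← ENNReal.ofReal_pow (norm_nonneg _)]
          exact ENNReal.ofReal_le_ofReal (pow_le_pow_left₀ (norm_nonneg _) h1 2)
        · rw [h2 hx]
          simp
    _ = ENNReal.ofReal (A ^ 2) * volume E := by
        rw [lintegral_indicator hE, setLIntegral_const]
    _ ≤ _ := by gcongr

theorem suppIn_add {f g : V3} {E : Set E3} (hf : SuppIn f E) (hg : SuppIn g E) :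
    SuppIn (f + g) E := by
  unfold SuppIn at *
  filter_upwards [hf, hg, Lp.coeFn_add f g] with x h1 h2 h3 hx
  rw [h3, Pi.add_apply, h1 hx, h2 hx, add_zero]

theorem suppIn_sum {f : Fin 3 → V3} {E : Set E3} (hf : ∀ j, SuppIn (f j) E) :
    SuppIn (∑ j, f j) E := by
  rw [Fin.sum_univ_three]
  exact suppIn_add (suppIn_add (hf 0) (hf 1)) (hf 2)

theorem suppIn_mulV (h : MB m B) {E : Set E3} (hm : ∀ x, x ∉ E → m x = 0) (f : V3) :
    SuppIn (mulV h f) E := by
  unfold SuppIn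
  filter_upwards [coe_mulV h f] with x h1 hx
  rw [h1, hm x hx, zero_smul]

end Pool.Agent.TP
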