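import Pool.Agent.TP.Pot
import Pool.Agent.TP.Duh
import Pool.Agent.TC.Comb
import Pool.Agent.TB.DivSub

/-!
# The product formula for the mollified solutions
-/

set_option autoImplicit false

namespace Pool.Agent.TP

open MeasureTheory Set Filter Topology Pool.Agent.TO Pool.Agent.TB Pool.Agent.TC
open scoped ENNReal NNReal Real InnerProductSpace SchwartzMap LineDeriv Laplacian

variable {r : ℝ}

theorem divFree_of_adm {f : V3} (h : Adm f) : IsDivFree f := by
  obtain ⟨ψ, h1, h2⟩ := h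
  rw [div_iff]
  intro φ
  have l : Tendsto (fun n => ⟪emb (gR φ), emb (ψ n)⟫_ℝ) atTop (𝓝 ⟪emb (gR φ), f⟫_ℝ) :=
    tendsto_const_nhds.inner h2
  have e : ∀ n, ⟪emb (gR φ), emb (ψ n)⟫_ℝ = 0 := fun n => (div_iff _).1 (div_schwartz (h1 n)) φ
  simp only [e] at l
  exact tendsto_nhds_unique l tendsto_const_nhds

theorem div_SS (hr : 0 < r) {f : V3} (hf : IsDivFree f) : IsDivFree (SS hr f) :=
  divFree_of_adm ((adm_of_divFree hf).mol hr)

theorem weak_DK (hr : 0 < r) (f : V3) (k : Fin 3) : IsWeakDeriv k (SS hr f) (DK hr k f) := by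
  obtain ⟨ψ, h1⟩ := exists_seq_toLp f
  have l1 := ((DK hr k).continuous.tendsto _).comp h1
  have l2 := ((SS hr).continuous.tendsto _).comp h1
  refine weak_of_tendsto l2 l1 fun n => ?_
  simp only [Function.comp]
  have e1 : DK hr k (emb (ψ n)) = emb (∂_{ee k} (mol hr (ψ n))) := by
    rw [DK, cvL_kkS, ← lineDeriv_mK_left]
    rfl
  have e2 : SS hr (emb (ψ n)) = emb (mol hr (ψ n)) := SS_emb hr (ψ n)
  change IsWeakDeriv k (SS hr (emb (ψ n))) (DK hr k (emb (ψ n)))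
  rw [e1, e2]
  exact weak_schwartz _ k

theorem weak_iff {k : Fin 3} {f g : V3} : IsWeakDeriv k f g ↔
    ∀ φ : 𝓢(E3, E3), ⟪emb (∂_{ee k} φ), f⟫_ℝ = -⟪emb φ, g⟫_ℝ := by
  unfold IsWeakDeriv
  simp only [integral_inner_eq]
  rfl

theorem weak_smul {k : Fin 3} {f g : V3} (h : IsWeakDeriv k f g) (c : ℝ) :
    IsWeakDeriv k (c • f) (c • g) := by
  rw [weak_iff] at h ⊢
  intro φ
  rw [inner_smul_right, inner_smul_right, h φ]
  ring

variable {χ : E3 → ℝ} {χ1 : Fin 3 → E3 → ℝ} {χ2 : Fin 3 → Fin 3 → E3 → ℝ} {b1 b2 : ℝ}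
  {E : Set E3} {ρ ρ' : ℝ} (hc : Cut χ χ1 χ2 b1 b2 E) (hρ : 0 < ρ) (h : ρ ≤ ρ')

theorem YY_add (f g : V3) : YY hc hρ h (f + g) = YY hc hρ h f + YY hc hρ h g := by
  unfold YY
  simp only [bj_add, map_add, Finset.sum_add_distrib]
  abel

theorem YY_smul (c : ℝ) (f : V3) : YY hc hρ h (c • f) = c • YY hc hρ h f := by
  unfold YY
  simp only [bj_smul, map_smul, Finset.smul_sum, smul_add]

theorem Om_add (a b : Fin 3 → V3) (j : Fin 3) :
    Om (fun k => a k + b k) j = Om a j + Om b j := by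
  unfold Om
  simp only [map_add, Finset.sum_add_distrib]
  abel

theorem Om_smul (c : ℝ) (a : Fin 3 → V3) (j : Fin 3) :
    Om (fun k => c • a k) j = c • Om a j := by
  unfold Om
  simp only [map_smul, smul_sub, Finset.smul_sum]

theorem XX_add (a b : Fin 3 → V3) :
    XX hc hρ h (fun k => a k + b k) = XX hc hρ h a + XX hc hρ h b := by
  unfold XX
  simp only [Om_add, map_add, Finset.sum_add_distrib]

theorem XX_smul (c : ℝ) (a : Fin 3 → V3) :
    XX hc hρ h (fun k => c • a k) = c • XX hc hρ h a := by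
  unfold XX
  simp only [Om_smul, map_smul, Finset.smul_sum]

theorem XX_sub (a b : Fin 3 → V3) :
    XX hc hρ h (fun k => a k - b k) = XX hc hρ h a - XX hc hρ h b := by
  have h1 := XX_add hc hρ h a (fun k => (-1:ℝ) • b k)
  rw [XX_smul] at h1
  have h2 : (fun k => a k - b k) = fun k => a k + (-1:ℝ) • b k := by
    funext k
    rw [neg_one_smul, sub_eq_add_neg]
  rw [h2, h1, neg_one_smul, sub_eq_add_neg]

/-- the bound for the operator `YY` -/
noncomputable def cY (b1 ρ' : ℝ) : ℝ := 2 + 12 * (b1 * (cg * ρ'))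

include hc hρ h in
theorem cY_nonneg : 0 ≤ cY b1 ρ' := by
  have := cg_pos
  have h1 := (hc.m1 0).nonneg
  have h2 : 0 < ρ' := hρ.trans_le h
  unfold cY
  positivity

theorem norm_YY_le (f : V3) : ‖YY hc hρ h f‖ ≤ cY b1 ρ' * ‖f‖ := by
  have hb1 := (hc.m1 0).nonneg
  have h1 : ‖mulV hc.m0 (NP hρ h f)‖ ≤ 2 * ‖f‖ := by
    refine (norm_mulV_le _ _).trans ?_
    rw [one_mul, NP_apply]
    have h2 := norm_SP_le hρ f
    have h3 := norm_SP_le (hρ.trans_le h) f
    exact (norm_sub_le _ _).trans (by linarith)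
  have h2 : ∀ j, ‖mulV (hc.m1 j) (bj hρ h j f)‖ ≤ b1 * (4 * (cg * ρ' * ‖f‖)) := fun j =>
    (norm_mulV_le _ _).trans (mul_le_mul_of_nonneg_left (norm_bj_le hρ h j f) hb1)
  calc ‖YY hc hρ h f‖ ≤ ‖mulV hc.m0 (NP hρ h f)‖ + ‖∑ j, mulV (hc.m1 j) (bj hρ h j f)‖ :=
        norm_add_le _ _
    _ ≤ 2 * ‖f‖ + ∑ _j : Fin 3, b1 * (4 * (cg * ρ' * ‖f‖)) :=
        add_le_add h1 (norm_sum_le_of_le _ fun j _ => h2 j)
    _ = cY b1 ρ' * ‖f‖ := by
        rw [Finset.sum_const, Finset.card_univ, Fintype.card_fin, nsmul_eq_mul, cY]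
        push_cast
        ring

theorem norm_XX_le {g : V3} {dg : Fin 3 → V3} (hg : ∀ k, IsWeakDeriv k g (dg k)) :
    ‖XX hc hρ h dg‖ ≤ cY b1 ρ' * ‖g‖ := by
  have h1 := inner_YY_XX hc hρ h (div_XX hc hρ h dg) hg
  rw [real_inner_self_eq_norm_sq] at h1
  have h2 : |⟪g, YY hc hρ h (XX hc hρ h dg)⟫_ℝ| ≤ ‖g‖ * (cY b1 ρ' * ‖XX hc hρ h dg‖) :=
    (abs_real_inner_le_norm _ _).trans
      (mul_le_mul_of_nonneg_left (norm_YY_le hc hρ h _) (norm_nonneg _))
  rw [h1, abs_neg, abs_of_nonneg (sq_nonneg _)] at h2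
  rcases (norm_nonneg (XX hc hρ h dg)).eq_or_lt with h3 | h3
  · rw [← h3]
    exact mul_nonneg (cY_nonneg hc hρ h) (norm_nonneg _)
  · nlinarith

variable (hr : 0 < r)

/-- the combination of the mollified difference and the mollified correction -/
noncomputable def yS (c : ℝ) (f g : V3) : V3 := SS hr (g - f) + c • YY hc hρ h (SS hr f)

/-- the derivatives of `yS` -/
noncomputable def dyS (c : ℝ) (f g : V3) (k : Fin 3) : V3 :=
  DK hr k (g - f) + c • DY hc hρ h k (SS hr f) (DK hr k f)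

theorem weak_yS (c : ℝ) (f g : V3) (k : Fin 3) :
    IsWeakDeriv k (yS hc hρ h hr c f g) (dyS hc hρ h hr c f g k) :=
  weak_add (weak_DK hr _ k) (weak_smul (weak_YY hc hρ h (fun k => weak_DK hr f k) k) c)

theorem div_add {f g : V3} (hf : IsDivFree f) (hg : IsDivFree g) (c : ℝ) :
    IsDivFree (f + c • g) := by
  rw [div_iff] at hf hg ⊢
  intro φ
  rw [inner_add_right, inner_smul_right, hf, hg, mul_zero, add_zero]

theorem div_yS (c : ℝ) {f g : V3} (hf : IsDivFree f) (hg : IsDivFree g) :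
    IsDivFree (yS hc hρ h hr c f g) :=
  div_add (div_SS hr (isDivFree_sub hg hf)) (div_YY hc hρ h (div_SS hr hf)) c

/-- the derivative of the squared norm of `yS` -/
noncomputable def gamS (c : ℝ) (f g f' g' : V3) : ℝ :=
  rh hr (yS hc hρ h hr c f g) g' - rh hr (yS hc hρ h hr c f g) f' -
    c * rh hr (XX hc hρ h (dyS hc hρ h hr c f g)) f'

theorem gamS_sub (c : ℝ) (f g f1 g1 f' g' : V3) {C D : ℝ} (hf : ‖f'‖ ≤ C) (hg : ‖g'‖ ≤ D) :
    |gamS hc hρ h hr c f g f' g' - gamS hc hρ h hr c f1 g1 f' g'| ≤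
      (cr hr D + cr hr C + |c| * (cr hr C * cY b1 ρ')) *
        ‖yS hc hρ h hr c f g - yS hc hρ h hr c f1 g1‖ := by
  have hw : ∀ k, IsWeakDeriv k (yS hc hρ h hr c f g - yS hc hρ h hr c f1 g1)
      (dyS hc hρ h hr c f g k - dyS hc hρ h hr c f1 g1 k) := fun k =>
    (weak_yS hc hρ h hr c f g k).sub (weak_yS hc hρ h hr c f1 g1 k)
  have hX := norm_XX_le hc hρ h hw
  rw [XX_sub] at hX
  set y := yS hc hρ h hr c f g with hy
  set y1 := yS hc hρ h hr c f1 g1 with hy1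
  set X := XX hc hρ h (dyS hc hρ h hr c f g) with hXd
  set X1 := XX hc hρ h (dyS hc hρ h hr c f1 g1) with hX1d
  have e : gamS hc hρ h hr c f g f' g' - gamS hc hρ h hr c f1 g1 f' g' =
      rh hr (y - y1) g' - rh hr (y - y1) f' - c * rh hr (X - X1) f' := by
    rw [← rh_sub, ← rh_sub, ← rh_sub, gamS, gamS]
    ring
  rw [e]
  have h1 := abs_rh_le hr (y - y1) hg
  have h2 := abs_rh_le hr (y - y1) hf
  have h3 := abs_rh_le hr (X - X1) hf
  have h4 : |c * rh hr (X - X1) f'| ≤ |c| * (cr hr C * (cY b1 ρ' * ‖y - y1‖)) := by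
    rw [abs_mul]
    refine mul_le_mul_of_nonneg_left (h3.trans ?_) (abs_nonneg _)
    exact mul_le_mul_of_nonneg_left hX (cr_nonneg hr ((norm_nonneg _).trans hf))
  calc |rh hr (y - y1) g' - rh hr (y - y1) f' - c * rh hr (X - X1) f'|
      ≤ |rh hr (y - y1) g'| + |rh hr (y - y1) f'| + |c * rh hr (X - X1) f'| :=
        (abs_sub _ _).trans (add_le_add (abs_sub _ _) le_rfl)
    _ ≤ cr hr D * ‖y - y1‖ + cr hr C * ‖y - y1‖ + |c| * (cr hr C * (cY b1 ρ' * ‖y - y1‖)) := by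
        gcongr
    _ = _ := by ring

variable {T : ℝ} {u₀ v₀ : V3} {u v : ℝ → V3}

theorem yy_formula (hu : IsLeray T u₀ u) (hv : IsLeray T v₀ v) (c : ℝ) {s t : ℝ}
    (hs : 0 ≤ s) (hst : s ≤ t) (ht : t < T) :
    IntervalIntegrable (fun τ => gamS hc hρ h hr c (u τ) (v τ) (u τ) (v τ)) volume s t ∧
    ‖yS hc hρ h hr c (u t) (v t)‖ ^ 2 - ‖yS hc hρ h hr c (u s) (v s)‖ ^ 2 =
      2 * ∫ τ in s..t, gamS hc hρ h hr c (u τ) (v τ) (u τ) (v τ) := by
  have hmem : ∀ x ∈ Icc s t, x ∈ Ico 0 T := fun x hx => ⟨hs.trans hx.1, hx.2.trans_lt ht⟩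
  have hadm : ∀ x ∈ Icc s t, Adm (yS hc hρ h hr c (u x) (v x)) := fun x hx =>
    adm_of_divFree (div_yS hc hρ h hr c (hu.div x (hmem x hx)) (hv.div x (hmem x hx)))
  have hadm2 : ∀ x : ℝ, Adm (XX hc hρ h (dyS hc hρ h hr c (u x) (v x))) := fun x =>
    adm_of_divFree (div_XX hc hρ h _)
  set m : ℝ := cr hr ‖v₀‖ + cr hr ‖u₀‖ + |c| * (cr hr ‖u₀‖ * cY b1 ρ') with hm
  have hm0 : 0 ≤ m := by
    have := cr_nonneg hr (norm_nonneg u₀)
    have := cr_nonneg hr (norm_nonneg v₀)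
    have := cY_nonneg hc hρ h
    positivity
  have key := norm_sq_formula (𝕜 := ℝ) (y := fun τ => yS hc hρ h hr c (u τ) (v τ))
    (Γ := fun x τ => gamS hc hρ h hr c (u x) (v x) (u τ) (v τ)) (m := fun _ => m) hst
    (by simp) (Eventually.of_forall fun _ => hm0)
    (by
      intro x hx
      exact ((integrable_rh hv hr _ hs hst ht).sub (integrable_rh hu hr _ hs hst ht)).sub
        ((integrable_rh hu hr _ hs hst ht).const_mul c))
    (by
      intro x hx y hy z hz hyz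
      have hy0 : 0 ≤ y := hs.trans hy.1
      have hz0 : z < T := hz.2.trans_lt ht
      have hyz' := hmem y hy
      have hzz' := hmem z hz
      simp only [RCLike.re_to_real]
      have e1 : ∀ q ∈ Ico 0 T, ⟪yS hc hρ h hr c (u x) (v x), yS hc hρ h hr c (u q) (v q)⟫_ℝ =
          ⟪SS hr (yS hc hρ h hr c (u x) (v x)), v q⟫_ℝ -
          ⟪SS hr (yS hc hρ h hr c (u x) (v x)), u q⟫_ℝ -
          c * ⟪SS hr (XX hc hρ h (dyS hc hρ h hr c (u x) (v x))), u q⟫_ℝ := by
        intro q hq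
        have e2 : ⟪yS hc hρ h hr c (u x) (v x), SS hr (v q - u q)⟫_ℝ =
            ⟪SS hr (yS hc hρ h hr c (u x) (v x)), v q⟫_ℝ -
            ⟪SS hr (yS hc hρ h hr c (u x) (v x)), u q⟫_ℝ := by
          rw [← inner_sub_right]
          exact symm_avL (ker_mu hr) _ _
        have e3 : ⟪yS hc hρ h hr c (u x) (v x), YY hc hρ h (SS hr (u q))⟫_ℝ =
            -⟪SS hr (XX hc hρ h (dyS hc hρ h hr c (u x) (v x))), u q⟫_ℝ := by
          rw [inner_YY_XX hc hρ h (div_SS hr (hu.div q hq)) (weak_yS hc hρ h hr c (u x) (v x))]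
          congr 1
          exact symm_avL (ker_mu hr) _ _
        have e4 : yS hc hρ h hr c (u q) (v q) =
            SS hr (v q - u q) + c • YY hc hρ h (SS hr (u q)) := rfl
        rw [e4, inner_add_right, inner_smul_right, e2, e3]
        ring
      rw [e1 y hyz', e1 z hzz']
      unfold gamS
      rw [intervalIntegral.integral_sub
        ((integrable_rh hv hr _ hy0 hyz hz0).sub (integrable_rh hu hr _ hy0 hyz hz0))
        ((integrable_rh hu hr _ hy0 hyz hz0).const_mul c),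
        intervalIntegral.integral_sub (integrable_rh hv hr _ hy0 hyz hz0)
          (integrable_rh hu hr _ hy0 hyz hz0),
        intervalIntegral.integral_const_mul,
        ← tested hu hr (hadm x hx) hy0 hyz hz0, ← tested hv hr (hadm x hx) hy0 hyz hz0,
        ← tested hu hr (hadm2 x) hy0 hyz hz0]
      ring)
    (by
      filter_upwards [ae_restrict_mem measurableSet_Ioo] with τ hτ x _ y _
      have hτ' : τ ∈ Ico 0 T := hmem τ (Ioo_subset_Icc_self hτ)
      exact gamS_sub hc hρ h hr c _ _ _ _ _ _ (hu.norm_le hτ') (hv.norm_le hτ'))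
  exact key.2

/-- the derivative of the product -/
noncomputable def zS (f g : V3) : ℝ :=
  rh hr (YY hc hρ h (SS hr f)) g - rh hr (YY hc hρ h (SS hr f)) f -
    rh hr (XX hc hρ h (fun k => DK hr k (g - f))) f

theorem rh_smul (c : ℝ) (φ f : V3) : rh hr (c • φ) f = c * rh hr φ f := by
  unfold rh
  simp only [map_smul, inner_smul_left, smul_apply]
  simp
  ring

theorem gamS_polar (f g : V3) :
    gamS hc hρ h hr 1 f g f g - gamS hc hρ h hr (-1) f g f g = 2 * zS hc hρ h hr f g := by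
  have e1 : ∀ c f', rh hr (yS hc hρ h hr c f g) f' =
      rh hr (SS hr (g - f)) f' + c * rh hr (YY hc hρ h (SS hr f)) f' := by
    intro c f'
    rw [yS, rh_add_smul, rh_smul]
  have e2 : ∀ c, XX hc hρ h (dyS hc hρ h hr c f g) = XX hc hρ h (fun k => DK hr k (g - f)) +
      c • XX hc hρ h (fun k => DY hc hρ h k (SS hr f) (DK hr k f)) := by
    intro c
    rw [← XX_smul, ← XX_add]
    rfl
  simp only [gamS, e1, e2, rh_add_smul, rh_smul, zS]
  ring

theorem yS_polar (f g : V3) :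
    ‖yS hc hρ h hr 1 f g‖ ^ 2 - ‖yS hc hρ h hr (-1) f g‖ ^ 2 =
      4 * ⟪SS hr (g - f), YY hc hρ h (SS hr f)⟫_ℝ := by
  unfold yS
  rw [one_smul, neg_one_smul, ← sub_eq_add_neg, norm_add_sq_real, norm_sub_sq_real]
  ring

/-- **the product formula for the mollified solutions** -/
theorem zS_formula (hu : IsLeray T u₀ u) (hv : IsLeray T v₀ v) {s t : ℝ}
    (hs : 0 ≤ s) (hst : s ≤ t) (ht : t < T) :
    IntervalIntegrable (fun τ => zS hc hρ h hr (u τ) (v τ)) volume s t ∧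
    ⟪SS hr (v t - u t), YY hc hρ h (SS hr (u t))⟫_ℝ -
      ⟪SS hr (v s - u s), YY hc hρ h (SS hr (u s))⟫_ℝ =
      ∫ τ in s..t, zS hc hρ h hr (u τ) (v τ) := by
  obtain ⟨i1, e1⟩ := yy_formula hc hρ h hr hu hv 1 hs hst ht
  obtain ⟨i2, e2⟩ := yy_formula hc hρ h hr hu hv (-1) hs hst ht
  have e3 : ∀ τ, zS hc hρ h hr (u τ) (v τ) = (1 / 2) *
      (gamS hc hρ h hr 1 (u τ) (v τ) (u τ) (v τ) -
        gamS hc hρ h hr (-1) (u τ) (v τ) (u τ) (v τ)) := by
    intro τ
    rw [gamS_polar]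
    ring
  have p1 := yS_polar hc hρ h hr (u t) (v t)
  have p2 := yS_polar hc hρ h hr (u s) (v s)
  constructor
  · simp only [e3]
    exact (i1.sub i2).const_mul _
  · simp only [e3]
    rw [intervalIntegral.integral_const_mul, intervalIntegral.integral_sub i1 i2]
    linarith

end Pool.Agent.TP
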