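import Pool.Agent.TP.Prod
import Pool.Agent.TC.Rel

/-!
# The product formula
-/

set_option autoImplicit false

namespace Pool.Agent.TP

open MeasureTheory Set Filter Topology Pool.Agent.TO Pool.Agent.TB Pool.Agent.TC
open scoped ENNReal NNReal Real InnerProductSpace SchwartzMap LineDeriv Laplacian

variable {r : ℝ}

theorem tendsto_SS_comp {a : ℕ → V3} {a0 : V3} (h : Tendsto a atTop (𝓝 a0)) :
    Tendsto (fun n => SS (rn_pos n) (a n)) atTop (𝓝 a0) := by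
  rw [tendsto_iff_norm_sub_tendsto_zero] at h ⊢
  have h2 := tendsto_iff_norm_sub_tendsto_zero.1 (tendsto_SS a0)
  have h3 := h.add h2
  rw [add_zero] at h3
  refine squeeze_zero (fun n => norm_nonneg _) (fun n => ?_) h3
  calc ‖SS (rn_pos n) (a n) - a0‖ = ‖SS (rn_pos n) (a n - a0) + (SS (rn_pos n) a0 - a0)‖ := by
        congr 1
        rw [map_sub]
        abel
    _ ≤ ‖SS (rn_pos n) (a n - a0)‖ + ‖SS (rn_pos n) a0 - a0‖ := norm_add_le _ _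
    _ ≤ ‖a n - a0‖ + ‖SS (rn_pos n) a0 - a0‖ := by
        gcongr
        exact norm_SS_le _ _

variable {χ : E3 → ℝ} {χ1 : Fin 3 → E3 → ℝ} {χ2 : Fin 3 → Fin 3 → E3 → ℝ} {b1 b2 : ℝ}
  {E : Set E3} {ρ ρ' : ℝ} (hc : Cut χ χ1 χ2 b1 b2 E) (hρ : 0 < ρ) (h : ρ ≤ ρ')

theorem bd_NP {f : V3} {A : ℝ} (hA : 0 ≤ A) (hf : Bd f A) : Bd (NP hρ h f) (2 * A) := by
  rw [NP_apply]
  exact bd_mono (bd_sub (bd_SP hρ hA hf) (bd_SP (hρ.trans_le h) hA hf)) (by linarith)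

theorem bd_YY {f : V3} {A : ℝ} (hA : 0 ≤ A) (hf : Bd f A) :
    Bd (YY hc hρ h f) (cY b1 ρ' * A) := by
  have h1 := bd_mulV hc.m0 (bd_NP hρ h hA hf)
  have h2 := fun j => bd_mulV (hc.m1 j) (bd_bj hρ h j hA hf)
  refine bd_mono (bd_add h1 (bd_sum3 h2)) (le_of_eq ?_)
  unfold cY
  ring

/-- the constant in the bound for `DY` -/
noncomputable def cD (b1 b2 ρ' : ℝ) : ℝ := 2 * b1 + 12 * (b2 * (cg * ρ'))

theorem norm_NP_le (f : V3) : ‖NP hρ h f‖ ≤ 2 * ‖f‖ := by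
  rw [NP_apply]
  have h2 := norm_SP_le hρ f
  have h3 := norm_SP_le (hρ.trans_le h) f
  exact (norm_sub_le _ _).trans (by linarith)

theorem norm_DY_le (k : Fin 3) (f g : V3) :
    ‖DY hc hρ h k f g‖ ≤ cD b1 b2 ρ' * ‖f‖ + cY b1 ρ' * ‖g‖ := by
  have hb1 := (hc.m1 0).nonneg
  have hb2 := (hc.m2 0 0).nonneg
  have h1 : ‖mulV (hc.m1 k) (NP hρ h f)‖ ≤ b1 * (2 * ‖f‖) :=
    (norm_mulV_le _ _).trans (mul_le_mul_of_nonneg_left (norm_NP_le hρ h f) hb1)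
  have h2 : ‖mulV hc.m0 (NP hρ h g)‖ ≤ 1 * (2 * ‖g‖) :=
    (norm_mulV_le _ _).trans (mul_le_mul_of_nonneg_left (norm_NP_le hρ h g) zero_le_one)
  have h3 : ∀ j, ‖mulV (hc.m2 k j) (bj hρ h j f) + mulV (hc.m1 j) (bj hρ h j g)‖ ≤
      b2 * (4 * (cg * ρ' * ‖f‖)) + b1 * (4 * (cg * ρ' * ‖g‖)) := fun j =>
    (norm_add_le _ _).trans (add_le_add
      ((norm_mulV_le _ _).trans (mul_le_mul_of_nonneg_left (norm_bj_le hρ h j f) hb2))
      ((norm_mulV_le _ _).trans (mul_le_mul_of_nonneg_left (norm_bj_le hρ h j g) hb1)))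
  calc ‖DY hc hρ h k f g‖ ≤ (‖mulV (hc.m1 k) (NP hρ h f)‖ + ‖mulV hc.m0 (NP hρ h g)‖) +
      ‖∑ j, (mulV (hc.m2 k j) (bj hρ h j f) + mulV (hc.m1 j) (bj hρ h j g))‖ :=
        (norm_add_le _ _).trans (add_le_add (norm_add_le _ _) le_rfl)
    _ ≤ (b1 * (2 * ‖f‖) + 1 * (2 * ‖g‖)) +
        ∑ _j : Fin 3, (b2 * (4 * (cg * ρ' * ‖f‖)) + b1 * (4 * (cg * ρ' * ‖g‖))) :=
        add_le_add (add_le_add h1 h2) (norm_sum_le_of_le _ fun j _ => h3 j)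
    _ = _ := by
        rw [Finset.sum_const, Finset.card_univ, Fintype.card_fin, nsmul_eq_mul, cY, cD]
        push_cast
        ring

theorem bd_DY (k : Fin 3) {f g : V3} {A A' : ℝ} (hA : 0 ≤ A) (hf : Bd f A) (hA' : 0 ≤ A')
    (hg : Bd g A') : Bd (DY hc hρ h k f g) (cD b1 b2 ρ' * A + cY b1 ρ' * A') := by
  have h1 := bd_mulV (hc.m1 k) (bd_NP hρ h hA hf)
  have h2 := bd_mulV hc.m0 (bd_NP hρ h hA' hg)
  have h3 := fun j => bd_add (bd_mulV (hc.m2 k j) (bd_bj hρ h j hA hf))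
    (bd_mulV (hc.m1 j) (bd_bj hρ h j hA' hg))
  refine bd_mono (bd_add (bd_add h1 h2) (bd_sum3 h3)) (le_of_eq ?_)
  unfold cD cY
  ring

theorem tendsto_clm (L : V3 →L[ℝ] V3) {a : ℕ → V3} {a0 : V3} (ha : Tendsto a atTop (𝓝 a0)) :
    Tendsto (fun n => L (a n)) atTop (𝓝 (L a0)) := (L.continuous.tendsto a0).comp ha

theorem tendsto_bj (j : Fin 3) {a : ℕ → V3} {a0 : V3} (ha : Tendsto a atTop (𝓝 a0)) :
    Tendsto (fun n => bj hρ h j (a n)) atTop (𝓝 (bj hρ h j a0)) :=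
  ((continuous_bj hρ h j).tendsto a0).comp ha

theorem tendsto_YY {a : ℕ → V3} {a0 : V3} (ha : Tendsto a atTop (𝓝 a0)) :
    Tendsto (fun n => YY hc hρ h (a n)) atTop (𝓝 (YY hc hρ h a0)) :=
  ((continuous_YY hc hρ h).tendsto a0).comp ha

theorem tendsto_DY (k : Fin 3) {a b : ℕ → V3} {a0 b0 : V3} (ha : Tendsto a atTop (𝓝 a0))
    (hb : Tendsto b atTop (𝓝 b0)) :
    Tendsto (fun n => DY hc hρ h k (a n) (b n)) atTop (𝓝 (DY hc hρ h k a0 b0)) := by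
  unfold DY
  exact ((tendsto_clm (mulV (hc.m1 k)) (tendsto_clm (NP hρ h) ha)).add
    (tendsto_clm (mulV hc.m0) (tendsto_clm (NP hρ h) hb))).add
    (tendsto_finsetSum _ fun j _ => (tendsto_clm (mulV (hc.m2 k j)) (tendsto_bj hρ h j ha)).add
      (tendsto_clm (mulV (hc.m1 j)) (tendsto_bj hρ h j hb)))

theorem tendsto_Om {dg : ℕ → Fin 3 → V3} {dg0 : Fin 3 → V3}
    (hl : ∀ k, Tendsto (fun n => dg n k) atTop (𝓝 (dg0 k))) (j : Fin 3) :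
    Tendsto (fun n => Om (dg n) j) atTop (𝓝 (Om dg0 j)) := by
  unfold Om
  exact (hl j).sub (tendsto_finsetSum _ fun i _ => tendsto_clm (PM j i) (hl i))

theorem tendsto_XX {dg : ℕ → Fin 3 → V3} {dg0 : Fin 3 → V3}
    (hl : ∀ k, Tendsto (fun n => dg n k) atTop (𝓝 (dg0 k))) :
    Tendsto (fun n => XX hc hρ h (dg n)) atTop (𝓝 (XX hc hρ h dg0)) := by
  unfold XX
  exact tendsto_finsetSum _ fun j _ => tendsto_clm (Cj hρ h j)
    (tendsto_clm (mulV hc.m0) (tendsto_Om hl j))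

/-- the derivative of the product, the mollified form -/
noncomputable def zM (hr : 0 < r) (f g : V3) (df dg : Fin 3 → V3) : ℝ :=
  -∑ k, ⟪SS hr (DY hc hρ h k (SS hr f) (SS hr (df k))), dg k - df k⟫_ℝ -
    ∑ k, ⟪dg k, tens k g (SS hr (YY hc hρ h (SS hr f)))⟫_ℝ +
    ∑ k, ⟪df k, tens k f (SS hr (YY hc hρ h (SS hr f)))⟫_ℝ -
    ∑ j, ⟪mulV hc.m0 (Om (fun k => SS hr (dg k - df k)) j), NP hρ h (SS hr (df j))⟫_ℝ +
    ∑ k, ⟪df k, tens k f (SS hr (XX hc hρ h (fun k => SS hr (dg k - df k))))⟫_ℝ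

/-- the derivative of the product -/
noncomputable def zL (f g : V3) (df dg : Fin 3 → V3) : ℝ :=
  -∑ k, ⟪DY hc hρ h k f (df k), dg k - df k⟫_ℝ -
    ∑ k, ⟪dg k, tens k g (YY hc hρ h f)⟫_ℝ +
    ∑ k, ⟪df k, tens k f (YY hc hρ h f)⟫_ℝ -
    ∑ j, ⟪mulV hc.m0 (Om (fun k => dg k - df k) j), NP hρ h (df j)⟫_ℝ +
    ∑ k, ⟪df k, tens k f (XX hc hρ h (fun k => dg k - df k))⟫_ℝ

theorem zS_eq (hr : 0 < r) {f g : V3} (hf : IsDivFree f) (hg : IsDivFree g) {df dg : Fin 3 → V3}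
    (hdf : ∀ k, IsWeakDeriv k f (df k)) (hdg : ∀ k, IsWeakDeriv k g (dg k)) :
    zS hc hρ h hr f g = zM hc hρ h hr f g df dg := by
  have hdw : ∀ k, IsWeakDeriv k (g - f) (dg k - df k) := fun k => (hdg k).sub (hdf k)
  have e1 : (fun k => DK hr k (g - f)) = fun k => SS hr (dg k - df k) := by
    funext k
    exact DK_eq hr hdw k
  have hY : ∀ k, IsWeakDeriv k (YY hc hρ h (SS hr f))
      (DY hc hρ h k (SS hr f) (SS hr (df k))) := fun k => by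
    have := weak_YY hc hρ h (fun k => weak_DK hr f k) k
    rwa [DK_eq hr hdf k] at this
  set Y := YY hc hρ h (SS hr f) with hYd
  set X := XX hc hρ h (fun k => SS hr (dg k - df k)) with hX
  have a1 : ⟪LL hr Y, g⟫_ℝ - ⟪LL hr Y, f⟫_ℝ =
      -∑ k, ⟪SS hr (DY hc hρ h k (SS hr f) (SS hr (df k))), dg k - df k⟫_ℝ := by
    rw [← inner_sub_right]
    exact inner_LL' hr hY hdw
  have a2 : ⟪GG hr Y g, g⟫_ℝ = -∑ k, ⟪dg k, tens k g (SS hr Y)⟫_ℝ :=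
    inner_GG_unbdd' hr Y hg hdg
  have a3 : ⟪GG hr Y f, f⟫_ℝ = -∑ k, ⟪df k, tens k f (SS hr Y)⟫_ℝ :=
    inner_GG_unbdd' hr Y hf hdf
  have a4 : ⟪GG hr X f, f⟫_ℝ = -∑ k, ⟪df k, tens k f (SS hr X)⟫_ℝ :=
    inner_GG_unbdd' hr X hf hdf
  have a5 : ⟪LL hr X, f⟫_ℝ =
      ∑ j, ⟪mulV hc.m0 (Om (fun k => SS hr (dg k - df k)) j), NP hρ h (SS hr (df j))⟫_ℝ := by
    rw [LL_symm, hX, inner_XX, ← Finset.sum_neg_distrib]
    refine Finset.sum_congr rfl fun j _ => ?_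
    rw [Cj_LL hρ h hr hdf j, inner_neg_right, neg_neg]
  rw [zS, e1, rh, rh, rh, zM]
  linarith

theorem norm_Om_le (dg : Fin 3 → V3) (j : Fin 3) {q : ℝ} (hq : ∀ k, ‖dg k‖ ≤ q) :
    ‖Om dg j‖ ≤ 4 * q := by
  unfold Om
  calc ‖dg j - ∑ i, PM j i (dg i)‖ ≤ ‖dg j‖ + ‖∑ i, PM j i (dg i)‖ := norm_sub_le _ _
    _ ≤ q + ∑ _i : Fin 3, q := by
        refine add_le_add (hq j) (norm_sum_le_of_le _ fun i _ => (norm_PM_le _ _ _).trans (hq i))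
    _ = 4 * q := by
        rw [Finset.sum_const, Finset.card_univ, Fintype.card_fin, nsmul_eq_mul]
        push_cast
        ring

theorem sum_abs_inner_le {a b : Fin 3 → V3} {x y : ℝ} (hx : 0 ≤ x) (ha : ∀ k, ‖a k‖ ≤ x)
    (hb : ∀ k, ‖b k‖ ≤ y) : |∑ k, ⟪a k, b k⟫_ℝ| ≤ 3 * (x * y) := by
  refine (Finset.abs_sum_le_sum_abs _ _).trans ?_
  calc ∑ k, |⟪a k, b k⟫_ℝ| ≤ ∑ _k : Fin 3, x * y := by
        refine Finset.sum_le_sum fun k _ => (abs_real_inner_le_norm _ _).trans ?_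
        exact mul_le_mul (ha k) (hb k) (norm_nonneg _) hx
    _ = _ := by
        rw [Finset.sum_const, Finset.card_univ, Fintype.card_fin, nsmul_eq_mul]
        push_cast
        ring

theorem abs_zM_le (hr : 0 < r) {f g : V3} {A : ℝ} (hA : 0 ≤ A) (hb : Bd f A)
    {df dg : Fin 3 → V3} (hdf : ∀ k, IsWeakDeriv k f (df k)) (hdg : ∀ k, IsWeakDeriv k g (dg k)) :
    |zM hc hρ h hr f g df dg| ≤ (6 * (cD b1 b2 ρ' + cY b1 ρ') + 12 * (cY b1 ρ' * A) + 48) *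
      ((‖f‖ ^ 2 + ‖g‖ ^ 2) + (∑ k, ‖df k‖ ^ 2 + ∑ k, ‖dg k‖ ^ 2)) := by
  have hcY := cY_nonneg hc hρ h
  have hcD : 0 ≤ cD b1 b2 ρ' := by
    have hb1 := (hc.m1 0).nonneg
    have hb2 := (hc.m2 0 0).nonneg
    have := cg_pos
    have h2 : 0 < ρ' := hρ.trans_le h
    unfold cD
    positivity
  set Q := (‖f‖ ^ 2 + ‖g‖ ^ 2) + (∑ k, ‖df k‖ ^ 2 + ∑ k, ‖dg k‖ ^ 2) with hQ
  have s1 : ∀ k, ‖df k‖ ^ 2 ≤ ∑ k, ‖df k‖ ^ 2 := fun k =>
    Finset.single_le_sum (f := fun k => ‖df k‖ ^ 2) (fun _ _ => by positivity) (Finset.mem_univ k)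
  have s2 : ∀ k, ‖dg k‖ ^ 2 ≤ ∑ k, ‖dg k‖ ^ 2 := fun k =>
    Finset.single_le_sum (f := fun k => ‖dg k‖ ^ 2) (fun _ _ => by positivity) (Finset.mem_univ k)
  have s3 : 0 ≤ ∑ k, ‖df k‖ ^ 2 := Finset.sum_nonneg fun _ _ => by positivity
  have s4 : 0 ≤ ∑ k, ‖dg k‖ ^ 2 := Finset.sum_nonneg fun _ _ => by positivity
  have hQ0 : 0 ≤ Q := by positivity
  set q := √Q with hq
  have hq0 : 0 ≤ q := Real.sqrt_nonneg _
  have hqq : q ^ 2 = Q := Real.sq_sqrt hQ0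
  have bf : ‖f‖ ≤ q := Real.le_sqrt_of_sq_le (by nlinarith [sq_nonneg ‖g‖])
  have bg : ‖g‖ ≤ q := Real.le_sqrt_of_sq_le (by nlinarith [sq_nonneg ‖f‖])
  have bdf : ∀ k, ‖df k‖ ≤ q := fun k => Real.le_sqrt_of_sq_le (by
    nlinarith [sq_nonneg ‖f‖, sq_nonneg ‖g‖, s1 k])
  have bdg : ∀ k, ‖dg k‖ ≤ q := fun k => Real.le_sqrt_of_sq_le (by
    nlinarith [sq_nonneg ‖f‖, sq_nonneg ‖g‖, s2 k])
  have bdw : ∀ k, ‖dg k - df k‖ ≤ 2 * q := fun k =>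
    (norm_sub_le _ _).trans (by linarith [bdf k, bdg k])
  have bSdw : ∀ k, ‖SS hr (dg k - df k)‖ ≤ 2 * q := fun k => (norm_SS_le hr _).trans (bdw k)
  have bY : Bd (SS hr (YY hc hρ h (SS hr f))) (cY b1 ρ' * A) :=
    bd_SS hr (bd_YY hc hρ h hA (bd_SS hr hb))
  have t1 : |∑ k, ⟪SS hr (DY hc hρ h k (SS hr f) (SS hr (df k))), dg k - df k⟫_ℝ| ≤
      3 * (((cD b1 b2 ρ' + cY b1 ρ') * q) * (2 * q)) := by
    refine sum_abs_inner_le (by positivity) (fun k => ?_) bdw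
    refine (norm_SS_le hr _).trans ((norm_DY_le hc hρ h k _ _).trans ?_)
    have h1 := (norm_SS_le hr f).trans bf
    have h2 := (norm_SS_le hr (df k)).trans (bdf k)
    calc cD b1 b2 ρ' * ‖SS hr f‖ + cY b1 ρ' * ‖SS hr (df k)‖ ≤
        cD b1 b2 ρ' * q + cY b1 ρ' * q := by gcongr
      _ = _ := by ring
  have t2 : |∑ k, ⟪dg k, tens k g (SS hr (YY hc hρ h (SS hr f)))⟫_ℝ| ≤
      3 * (q * (cY b1 ρ' * A * q)) :=
    sum_abs_inner_le hq0 bdg fun k => (norm_tens_right_le k g bY).trans (by gcongr)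
  have t3 : |∑ k, ⟪df k, tens k f (SS hr (YY hc hρ h (SS hr f)))⟫_ℝ| ≤
      3 * (q * (cY b1 ρ' * A * q)) :=
    sum_abs_inner_le hq0 bdf fun k => (norm_tens_right_le k f bY).trans (by gcongr)
  have t4 : |∑ j, ⟪mulV hc.m0 (Om (fun k => SS hr (dg k - df k)) j),
      NP hρ h (SS hr (df j))⟫_ℝ| ≤ 3 * ((4 * (2 * q)) * (2 * q)) := by
    refine sum_abs_inner_le (by positivity) (fun j => ?_) fun j => ?_
    · exact (norm_mulV_le _ _).trans (by rw [one_mul]; exact norm_Om_le _ j bSdw)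
    · refine (norm_NP_le hρ h _).trans ?_
      have := (norm_SS_le hr (df j)).trans (bdf j)
      linarith
  have bX : ‖XX hc hρ h (fun k => SS hr (dg k - df k))‖ ≤ cY b1 ρ' * (2 * q) := by
    have hw : ∀ k, IsWeakDeriv k (SS hr (g - f)) (SS hr (dg k - df k)) := fun k =>
      weak_avL _ ((hdg k).sub (hdf k))
    refine (norm_XX_le hc hρ h hw).trans ?_
    have h1 : ‖SS hr (g - f)‖ ≤ 2 * q :=
      (norm_SS_le hr _).trans ((norm_sub_le _ _).trans (by linarith))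
    gcongr
  have t5 : |∑ k, ⟪df k, tens k f (SS hr (XX hc hρ h (fun k => SS hr (dg k - df k))))⟫_ℝ| ≤
      3 * (q * (A * (cY b1 ρ' * (2 * q)))) := by
    refine sum_abs_inner_le hq0 bdf fun k => ?_
    have h1 := tens_sub_le k hb (SS hr (XX hc hρ h (fun k => SS hr (dg k - df k)))) 0
    have h2 : tens k f (0:V3) = 0 := by
      apply Lp.ext
      filter_upwards [coe_tens_left k hb (0:V3), Lp.coeFn_zero E3 2 (volume : Measure E3)]
        with x hx h0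
      rw [hx, h0]
      simp
    rw [h2, sub_zero, sub_zero] at h1
    refine h1.trans (mul_le_mul_of_nonneg_left ?_ hA)
    exact (norm_SS_le hr _).trans bX
  have tot : |zM hc hρ h hr f g df dg| ≤ 3 * (((cD b1 b2 ρ' + cY b1 ρ') * q) * (2 * q)) +
      3 * (q * (cY b1 ρ' * A * q)) + 3 * (q * (cY b1 ρ' * A * q)) + 3 * ((4 * (2 * q)) * (2 * q)) +
      3 * (q * (A * (cY b1 ρ' * (2 * q)))) := by
    unfold zM
    rw [abs_le] at t1 t2 t3 t4 t5 ⊢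
    constructor <;> linarith [t1.1, t1.2, t2.1, t2.2, t3.1, t3.2, t4.1, t4.2, t5.1, t5.2]
  refine tot.trans (le_of_eq ?_)
  rw [← hqq]
  ring

theorem tendsto_zM {f g : V3} {A : ℝ} (hA : 0 ≤ A) (hb : Bd f A) (df dg : Fin 3 → V3) :
    Tendsto (fun n => zM hc hρ h (rn_pos n) f g df dg) atTop (𝓝 (zL hc hρ h f g df dg)) := by
  have lf := tendsto_SS f
  have ldf := fun k => tendsto_SS (df k)
  have ldw := fun k => tendsto_SS (dg k - df k)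
  have lY : Tendsto (fun n => YY hc hρ h (SS (rn_pos n) f)) atTop (𝓝 (YY hc hρ h f)) :=
    tendsto_YY hc hρ h lf
  have lSY := tendsto_SS_comp lY
  have bY : ∀ n, Bd (SS (rn_pos n) (YY hc hρ h (SS (rn_pos n) f))) (cY b1 ρ' * A) := fun n =>
    bd_SS _ (bd_YY hc hρ h hA (bd_SS _ hb))
  have bY0 : Bd (YY hc hρ h f) (cY b1 ρ' * A) := bd_YY hc hρ h hA hb
  have lDY : ∀ k, Tendsto (fun n => SS (rn_pos n) (DY hc hρ h k (SS (rn_pos n) f)
      (SS (rn_pos n) (df k)))) atTop (𝓝 (DY hc hρ h k f (df k))) := by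
    intro k
    exact tendsto_SS_comp (tendsto_DY hc hρ h k lf (ldf k))
  have lX := tendsto_SS_comp (tendsto_XX hc hρ h ldw)
  unfold zM zL
  refine ((((tendsto_finsetSum _ fun k _ => ?_).neg.sub (tendsto_finsetSum _ fun k _ => ?_)).add
    (tendsto_finsetSum _ fun k _ => ?_)).sub (tendsto_finsetSum _ fun j _ => ?_)).add
    (tendsto_finsetSum _ fun k _ => ?_)
  · exact (lDY k).inner tendsto_const_nhds
  · exact tendsto_const_nhds.inner (tendsto_tens k g lSY bY bY0)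
  · exact tendsto_const_nhds.inner (tendsto_tens k f lSY bY bY0)
  · exact (tendsto_clm (mulV hc.m0) (tendsto_Om ldw j)).inner (tendsto_clm (NP hρ h) (ldf j))
  · refine tendsto_const_nhds.inner ?_
    rw [tendsto_iff_norm_sub_tendsto_zero] at lX ⊢
    have h2 := lX.const_mul A
    rw [mul_zero] at h2
    exact squeeze_zero (fun n => norm_nonneg _) (fun n => tens_sub_le k hb _ _) h2

variable {T : ℝ} {u₀ v₀ : V3} {u v : ℝ → V3} {a : ℝ → ℝ} {Du Dv : ℝ → Fin 3 → V3}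

/-- **the product formula** -/
theorem zL_formula (P : Rel T u₀ v₀ u v a Du Dv) {s t A : ℝ} (hs : 0 ≤ s) (hst : s ≤ t)
    (ht : t < T) (hA : 0 ≤ A) (ha : ∀ τ ∈ Ioo s t, a τ ≤ A) :
    IntegrableOn (fun τ => zL hc hρ h (u τ) (v τ) (Du τ) (Dv τ)) (Ioo s t) volume ∧
    ⟪v t - u t, YY hc hρ h (u t)⟫_ℝ - ⟪v s - u s, YY hc hρ h (u s)⟫_ℝ =
      ∫ τ in Ioo s t, zL hc hρ h (u τ) (v τ) (Du τ) (Dv τ) := by
  have hsubT : Ioo s t ⊆ Ioo 0 T := Ioo_subset_Ioo hs ht.le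
  have hsub0 : Ioo s t ⊆ Ioo 0 t := Ioo_subset_Ioo hs le_rfl
  have ht0 : t ∈ Ico 0 T := ⟨hs.trans hst, ht⟩
  have hDu := ae_restrict_of_ae_restrict_of_subset hsubT P.hDu
  have hDv := ae_restrict_of_ae_restrict_of_subset hsubT P.hDv
  have hua := ae_restrict_of_ae_restrict_of_subset hsubT P.hua
  set K : ℝ := 6 * (cD b1 b2 ρ' + cY b1 ρ') + 12 * (cY b1 ρ' * A) + 48 with hK
  have hK0 : 0 ≤ K := by
    have hcY := cY_nonneg hc hρ h
    have hb1 := (hc.m1 0).nonneg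
    have hb2 := (hc.m2 0 0).nonneg
    have := cg_pos
    have h2 : 0 < ρ' := hρ.trans_le h
    have hcD : 0 ≤ cD b1 b2 ρ' := by
      unfold cD
      positivity
    positivity
  set M : ℝ → ℝ := fun τ => K * ((‖u₀‖ ^ 2 + ‖v₀‖ ^ 2) +
    (∑ k, ‖Du τ k‖ ^ 2 + ∑ k, ‖Dv τ k‖ ^ 2)) with hM
  refine limit_formula (F := fun n τ => zS hc hρ h (rn_pos n) (u τ) (v τ)) (M := M)
    (A := fun n => ⟪SS (rn_pos n) (v t - u t), YY hc hρ h (SS (rn_pos n) (u t))⟫_ℝ -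
      ⟪SS (rn_pos n) (v s - u s), YY hc hρ h (SS (rn_pos n) (u s))⟫_ℝ) ?_ ?_ ?_ ?_ ?_ ?_
  · intro n
    have := (zS_formula hc hρ h (rn_pos n) P.hu P.hv hs hst ht).1
    rwa [intervalIntegrable_iff_integrableOn_Ioo_of_le hst] at this
  · exact ((integrableOn_const (by simp) (by simp)).add (((P.hDui t ht0).mono_set hsub0).add
      ((P.hDvi t ht0).mono_set hsub0))).const_mul K
  · intro n
    filter_upwards [hDu, hDv, hua, ae_restrict_mem measurableSet_Ioo] with τ h1 h2 h3 h4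
    have hτ : τ ∈ Ico 0 T := ⟨hs.trans h4.1.le, h4.2.trans ht⟩
    rw [zS_eq hc hρ h (rn_pos n) (P.hu.div τ hτ) (P.hv.div τ hτ) h1 h2, Real.norm_eq_abs]
    refine (abs_zM_le hc hρ h (rn_pos n) hA (bd_mono h3 (ha τ h4)) h1 h2).trans ?_
    have g1 := P.hu.norm_le hτ
    have g2 := P.hv.norm_le hτ
    simp only [hM]
    gcongr
  · filter_upwards [hDu, hDv, hua, ae_restrict_mem measurableSet_Ioo] with τ h1 h2 h3 h4
    have hτ : τ ∈ Ico 0 T := ⟨hs.trans h4.1.le, h4.2.trans ht⟩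
    have e1 : ∀ n, zS hc hρ h (rn_pos n) (u τ) (v τ) =
        zM hc hρ h (rn_pos n) (u τ) (v τ) (Du τ) (Dv τ) := fun n =>
      zS_eq hc hρ h (rn_pos n) (P.hu.div τ hτ) (P.hv.div τ hτ) h1 h2
    simp only [e1]
    exact tendsto_zM hc hρ h hA (bd_mono h3 (ha τ h4)) _ _
  · have l1 : ∀ q : ℝ, Tendsto (fun n => ⟪SS (rn_pos n) (v q - u q),
        YY hc hρ h (SS (rn_pos n) (u q))⟫_ℝ) atTop (𝓝 ⟪v q - u q, YY hc hρ h (u q)⟫_ℝ) := fun q =>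
      (tendsto_SS _).inner (tendsto_YY hc hρ h (tendsto_SS _))
    exact (l1 t).sub (l1 s)
  · intro n
    rw [(zS_formula hc hρ h (rn_pos n) P.hu P.hv hs hst ht).2,
      intervalIntegral.integral_of_le hst, integral_Ioc_eq_integral_Ioo]

end Pool.Agent.TP
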