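import Pool.Agent.TP.Fld

/-!
# Weighted local energies
-/

set_option autoImplicit false

namespace Pool.Agent.TP

open MeasureTheory Set Filter Topology Pool.Agent.TO Pool.Agent.TB Pool.Agent.TC
open scoped ENNReal NNReal Real InnerProductSpace SchwartzMap LineDeriv Laplacian

variable {ρ : ℝ}

theorem mb_sg (hρ : 0 < ρ) (z : E3) : MB (fun y => sg ρ (y - z) ^ 2) (ρ⁻¹ ^ 2) where
  cont := by
    have := continuous_sg hρ
    fun_prop
  le := by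
    intro x
    have h1 := sg_pos hρ (x - z)
    rw [abs_of_nonneg (by positivity)]
    gcongr
    exact sg_le_inv hρ _

/-- the local energy with the weight `(ρ² + |y - z|²)^(-2)` -/
noncomputable def Qr (hρ : 0 < ρ) (z : E3) (f : V3) : ℝ := ‖mulV (mb_sg hρ z) f‖ ^ 2

theorem Qr_nonneg (hρ : 0 < ρ) (z : E3) (f : V3) : 0 ≤ Qr hρ z f := sq_nonneg _

theorem ofReal_Qr (hρ : 0 < ρ) (z : E3) (f : V3) :
    ENNReal.ofReal (Qr hρ z f) = ∫⁻ y, ENNReal.ofReal (sg ρ (y - z) ^ 4) * ‖f y‖ₑ ^ 2 := by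
  rw [Qr, ← enorm_sq_ofReal, ← lintegral_sq_V3]
  apply lintegral_congr_ae
  filter_upwards [coe_mulV (mb_sg hρ z) f] with y hy
  have h1 := sg_pos hρ (y - z)
  rw [hy, enorm_smul, mul_pow]
  congr 1
  rw [← ofReal_norm, Real.norm_of_nonneg (by positivity), ← ENNReal.ofReal_pow (by positivity)]
  congr 1
  ring

theorem meas_sg_shift (hρ : 0 < ρ) (n : ℕ) :
    Measurable (Function.uncurry fun z y : E3 => ENNReal.ofReal (sg ρ (y - z) ^ n)) := by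
  apply ENNReal.measurable_ofReal.comp
  have h := continuous_sg hρ
  have : Continuous (Function.uncurry fun z y : E3 => sg ρ (y - z) ^ n) := by
    unfold Function.uncurry
    fun_prop
  exact this.measurable

theorem meas_sg_y (hρ : 0 < ρ) (n : ℕ) (z : E3) :
    Measurable fun y : E3 => ENNReal.ofReal (sg ρ (y - z) ^ n) := by
  have h := continuous_sg hρ
  have h1 : Continuous fun y : E3 => sg ρ (y - z) ^ n := by fun_prop
  exact h1.measurable.ennreal_ofReal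

theorem meas_sg_z (hρ : 0 < ρ) (n : ℕ) (y : E3) :
    Measurable fun z : E3 => ENNReal.ofReal (sg ρ (y - z) ^ n) := by
  have h := continuous_sg hρ
  have h1 : Continuous fun z : E3 => sg ρ (y - z) ^ n := by fun_prop
  exact h1.measurable.ennreal_ofReal

theorem lint_sg (hρ : 0 < ρ) {n : ℕ} (hn : 4 ≤ n) (y : E3) :
    ∫⁻ z, ENNReal.ofReal (sg ρ (y - z) ^ n) = ENNReal.ofReal (ρ ^ 3 * ρ⁻¹ ^ n * JJ n) := by
  rw [← integral_sg hρ n, ofReal_integral_eq_lintegral_ofReal (integrable_sg hρ hn)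
    (Eventually.of_forall fun x => by have := sg_pos hρ x; simp only [Pi.zero_apply]; positivity)]
  exact lintegral_sub_left_eq_self (fun z => ENNReal.ofReal (sg ρ z ^ n)) y

theorem lint_sg' (hρ : 0 < ρ) {n : ℕ} (hn : 4 ≤ n) (z : E3) :
    ∫⁻ y, ENNReal.ofReal (sg ρ (y - z) ^ n) = ENNReal.ofReal (ρ ^ 3 * ρ⁻¹ ^ n * JJ n) := by
  rw [← integral_sg hρ n, ofReal_integral_eq_lintegral_ofReal (integrable_sg hρ hn)
    (Eventually.of_forall fun x => by have := sg_pos hρ x; simp only [Pi.zero_apply]; positivity)]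
  exact lintegral_sub_right_eq_self (fun z => ENNReal.ofReal (sg ρ z ^ n)) z

theorem rho4 (hρ : 0 < ρ) : ρ ^ 3 * ρ⁻¹ ^ 4 * JJ 4 = JJ 4 / ρ := by
  field_simp

/-- the integral of the local energies -/
theorem lint_Qr (hρ : 0 < ρ) (f : V3) :
    ∫⁻ z, ENNReal.ofReal (Qr hρ z f) = ENNReal.ofReal (JJ 4 / ρ * ‖f‖ ^ 2) := by
  have hJ := JJ_pos (n := 4) (by norm_num)
  simp only [ofReal_Qr]
  have mf := (Lp.stronglyMeasurable f).enorm.pow_const 2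
  rw [lintegral_lintegral_swap]
  · have e1 : ∀ y : E3, ∫⁻ z, ENNReal.ofReal (sg ρ (y - z) ^ 4) * ‖f y‖ₑ ^ 2 =
        ENNReal.ofReal (JJ 4 / ρ) * ‖f y‖ₑ ^ 2 := by
      intro y
      have m1 := meas_sg_z hρ 4 y
      rw [lintegral_mul_const _ m1, lint_sg hρ (by norm_num), rho4 hρ]
    simp only [e1]
    rw [lintegral_const_mul _ mf, lintegral_sq_V3, enorm_sq_ofReal,
      ← ENNReal.ofReal_mul (by positivity)]
  · exact ((meas_sg_shift hρ 4).mul (mf.comp measurable_snd)).aemeasurable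

theorem Qr_le (hρ : 0 < ρ) (z : E3) (f : V3) : Qr hρ z f ≤ ρ⁻¹ ^ 4 * ‖f‖ ^ 2 := by
  unfold Qr
  calc ‖mulV (mb_sg hρ z) f‖ ^ 2 ≤ (ρ⁻¹ ^ 2 * ‖f‖) ^ 2 :=
        pow_le_pow_left₀ (norm_nonneg _) (norm_mulV_le _ f) 2
    _ = _ := by ring

/-- Harnack's inequality for the weight -/
theorem sg_harnack (hρ : 0 < ρ) {y z z' : E3} (h : ‖z - z'‖ ≤ ρ) :
    sg ρ (y - z) ^ 4 ≤ 9 * sg ρ (y - z') ^ 4 := by
  have h1 := sg_pos hρ (y - z)
  have h2 := sg_pos hρ (y - z')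
  have e1 := sg_sq hρ (y - z)
  have e2 := sg_sq hρ (y - z')
  have h3 : ‖y - z'‖ ≤ ‖y - z‖ + ‖z - z'‖ := by
    have : y - z' = (y - z) + (z - z') := by abel
    rw [this]
    exact norm_add_le _ _
  have h4 : ρ ^ 2 + ‖y - z'‖ ^ 2 ≤ 3 * (ρ ^ 2 + ‖y - z‖ ^ 2) := by
    nlinarith [norm_nonneg (y - z), norm_nonneg (y - z'), norm_nonneg (z - z'),
      sq_nonneg (‖y - z‖ - ‖z - z'‖), sq_nonneg ‖y - z‖]
  have h5 : sg ρ (y - z) ^ 2 ≤ 3 * sg ρ (y - z') ^ 2 := by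
    have hp : 0 < ρ ^ 2 + ‖y - z‖ ^ 2 := sg_arg_pos hρ _
    have hp' : 0 < ρ ^ 2 + ‖y - z'‖ ^ 2 := sg_arg_pos hρ _
    have a1 : sg ρ (y - z) ^ 2 = (ρ ^ 2 + ‖y - z‖ ^ 2)⁻¹ := eq_inv_of_mul_eq_one_left e1
    have a2 : sg ρ (y - z') ^ 2 = (ρ ^ 2 + ‖y - z'‖ ^ 2)⁻¹ := eq_inv_of_mul_eq_one_left e2
    rw [a1, a2, inv_eq_one_div, inv_eq_one_div, mul_one_div, div_le_div_iff₀ hp hp']
    linarith
  have h6 : (sg ρ (y - z) ^ 2) ^ 2 ≤ (3 * sg ρ (y - z') ^ 2) ^ 2 :=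
    pow_le_pow_left₀ (by positivity) h5 2
  nlinarith

theorem Qr_harnack (hρ : 0 < ρ) {z z' : E3} (h : ‖z - z'‖ ≤ ρ) (f : V3) :
    Qr hρ z f ≤ 9 * Qr hρ z' f := by
  have h1 : ENNReal.ofReal (Qr hρ z f) ≤ ENNReal.ofReal (9 * Qr hρ z' f) := by
    rw [ENNReal.ofReal_mul (by norm_num), ofReal_Qr, ofReal_Qr, ← lintegral_const_mul]
    · apply lintegral_mono
      intro y
      simp only
      rw [← mul_assoc]
      gcongr
      have h2 := sg_pos hρ (y - z')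
      rw [← ENNReal.ofReal_mul (by norm_num)]
      exact ENNReal.ofReal_le_ofReal (sg_harnack hρ h)
    · exact (meas_sg_y hρ 4 z').mul ((Lp.stronglyMeasurable f).enorm.pow_const 2)
  exact (ENNReal.ofReal_le_ofReal_iff (by have := Qr_nonneg hρ z' f; positivity)).1 h1

theorem sg2_lip (hρ : 0 < ρ) (a b : E3) : |sg ρ a ^ 2 - sg ρ b ^ 2| ≤ 2 * ρ⁻¹ ^ 3 * ‖a - b‖ := by
  have h1 : ∀ x : E3, HasFDerivAt (fun x : E3 => sg ρ x ^ 2)
      (-(2 * sg ρ x ^ 4) • innerSL ℝ x) x := by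
    intro x
    have := hasFDerivAt_sg_pow hρ 2 x
    simpa using this
  have h2 : ∀ x ∈ (univ : Set E3), ‖-(2 * sg ρ x ^ 4) • innerSL ℝ x‖ ≤ 2 * ρ⁻¹ ^ 3 := by
    intro x _
    have hp := sg_pos hρ x
    rw [norm_smul, innerSL_apply_norm, norm_neg, Real.norm_of_nonneg (by positivity)]
    calc 2 * sg ρ x ^ 4 * ‖x‖ = 2 * sg ρ x ^ 3 * (‖x‖ * sg ρ x) := by ring
      _ ≤ 2 * ρ⁻¹ ^ 3 * 1 := by
          gcongr
          · exact sg_le_inv hρ x
          · exact nrm_sg hρ x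
      _ = _ := mul_one _
  have h3 := (convex_univ (𝕜 := ℝ) (E := E3)).norm_image_sub_le_of_norm_hasFDerivWithin_le
    (fun x _ => (h1 x).hasFDerivWithinAt) h2 (mem_univ b) (mem_univ a)
  rwa [Real.norm_eq_abs] at h3

theorem mulV_sg_sub_le (hρ : 0 < ρ) (z z' : E3) (f : V3) :
    ‖mulV (mb_sg hρ z) f - mulV (mb_sg hρ z') f‖ ≤ 2 * ρ⁻¹ ^ 3 * ‖z - z'‖ * ‖f‖ := by
  apply Lp.norm_le_mul_norm_of_ae_le_mul
  filter_upwards [Lp.coeFn_sub (mulV (mb_sg hρ z) f) (mulV (mb_sg hρ z') f),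
    coe_mulV (mb_sg hρ z) f, coe_mulV (mb_sg hρ z') f] with y h1 h2 h3
  rw [h1, Pi.sub_apply, h2, h3, ← sub_smul, norm_smul, Real.norm_eq_abs]
  gcongr
  refine (sg2_lip hρ _ _).trans (le_of_eq ?_)
  rw [show y - z - (y - z') = z' - z by abel, norm_sub_rev]

theorem continuous_Qr (hρ : 0 < ρ) : Continuous (Function.uncurry (Qr hρ)) := by
  have h1 : Continuous fun p : E3 × V3 => mulV (mb_sg hρ p.1) p.2 := by
    rw [continuous_iff_continuousAt]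
    intro p
    rw [ContinuousAt, tendsto_iff_norm_sub_tendsto_zero]
    have h2 : Tendsto (fun q : E3 × V3 => ρ⁻¹ ^ 2 * ‖q.2 - p.2‖ +
        2 * ρ⁻¹ ^ 3 * ‖q.1 - p.1‖ * ‖p.2‖) (𝓝 p) (𝓝 0) := by
      have : Continuous fun q : E3 × V3 => ρ⁻¹ ^ 2 * ‖q.2 - p.2‖ +
        2 * ρ⁻¹ ^ 3 * ‖q.1 - p.1‖ * ‖p.2‖ := by fun_prop
      have h3 := this.tendsto p
      simpa using h3
    refine squeeze_zero (fun q => norm_nonneg _) (fun q => ?_) h2
    have e1 : mulV (mb_sg hρ q.1) q.2 - mulV (mb_sg hρ p.1) p.2 =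
        mulV (mb_sg hρ q.1) (q.2 - p.2) + (mulV (mb_sg hρ q.1) p.2 - mulV (mb_sg hρ p.1) p.2) := by
      rw [map_sub]
      abel
    rw [e1]
    exact (norm_add_le _ _).trans (add_le_add (norm_mulV_le _ _) (mulV_sg_sub_le hρ _ _ _))
  exact (h1.norm.pow 2)

/-- joint measurability -/
theorem meas_Qr (hρ : 0 < ρ) {g : ℝ → V3} (hg : StronglyMeasurable g) :
    Measurable (Function.uncurry fun (z : E3) (τ : ℝ) => Qr hρ z (g τ)) := by
  have h1 : StronglyMeasurable fun p : E3 × ℝ => (p.1, g p.2) :=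
    (measurable_fst.stronglyMeasurable).prodMk (hg.comp_measurable measurable_snd)
  exact ((continuous_Qr hρ).comp_stronglyMeasurable h1).measurable

/-- linear functionals with a kernel bounded by the weight -/
theorem lin_le (hρ : 0 < ρ) (z : E3) (g : V3) {F : E3 → ℝ} {C : ℝ} (hC : 0 ≤ C)
    (hF : ∀ᵐ y ∂(volume : Measure E3), |F y| ≤ C * sg ρ (y - z) ^ 4 * ‖g y‖) :
    |∫ y, F y| ≤ C * √(JJ 4 / ρ) * √(Qr hρ z g) := by
  have hJ := JJ_pos (n := 4) (by norm_num)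
  have hQ := Qr_nonneg hρ z g
  apply le_of_sq_ofReal (by positivity)
  have m1 := meas_sg_y hρ 4 z
  have mg := (Lp.stronglyMeasurable g).enorm
  have h1 : ‖∫ y, F y‖ₑ ≤ ENNReal.ofReal C *
      ∫⁻ y, ENNReal.ofReal (sg ρ (y - z) ^ 4) * ‖g y‖ₑ := by
    refine (enorm_integral_le_lintegral_enorm _).trans ?_
    have m2 : Measurable fun y => ENNReal.ofReal (sg ρ (y - z) ^ 4) * ‖g y‖ₑ := m1.mul mg
    rw [← lintegral_const_mul _ m2]
    apply lintegral_mono_ae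
    filter_upwards [hF] with y hy
    have h2 := sg_pos hρ (y - z)
    rw [← ofReal_norm, ← ofReal_norm, Real.norm_eq_abs, ← ENNReal.ofReal_mul (by positivity),
      ← ENNReal.ofReal_mul hC]
    apply ENNReal.ofReal_le_ofReal
    linarith
  have h2 : ENNReal.ofReal (|∫ y, F y| ^ 2) = ‖∫ y, F y‖ₑ ^ 2 := by
    rw [← ofReal_norm, Real.norm_eq_abs, ENNReal.ofReal_pow (abs_nonneg _)]
  rw [h2]
  calc ‖∫ y, F y‖ₑ ^ 2 ≤ (ENNReal.ofReal C *
      ∫⁻ y, ENNReal.ofReal (sg ρ (y - z) ^ 4) * ‖g y‖ₑ) ^ 2 := pow_le_pow_left₀ zero_le h1 2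
    _ = ENNReal.ofReal (C ^ 2) * (∫⁻ y, ENNReal.ofReal (sg ρ (y - z) ^ 4) * ‖g y‖ₑ) ^ 2 := by
        rw [mul_pow, ENNReal.ofReal_pow hC]
    _ ≤ ENNReal.ofReal (C ^ 2) * ((∫⁻ y, ENNReal.ofReal (sg ρ (y - z) ^ 4)) *
        ∫⁻ y, ENNReal.ofReal (sg ρ (y - z) ^ 4) * ‖g y‖ₑ ^ 2) := by
        gcongr
        exact cs_weight m1.aemeasurable mg.aemeasurable
    _ = ENNReal.ofReal ((C * √(JJ 4 / ρ) * √(Qr hρ z g)) ^ 2) := by
        rw [← ofReal_Qr, lint_sg' hρ (by norm_num), rho4 hρ, ← ENNReal.ofReal_mul (by positivity),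
          ← ENNReal.ofReal_mul (by positivity), mul_pow, mul_pow, Real.sq_sqrt (by positivity),
          Real.sq_sqrt hQ, mul_assoc]

theorem quad_le (hρ : 0 < ρ) (z : E3) (g : V3) {F : E3 → ℝ} {C : ℝ} (hC : 0 ≤ C)
    (hF : ∀ᵐ y ∂(volume : Measure E3), |F y| ≤ C * sg ρ (y - z) ^ 4 * ‖g y‖ ^ 2) :
    |∫ y, F y| ≤ C * Qr hρ z g := by
  have hQ := Qr_nonneg hρ z g
  have m1 := meas_sg_y hρ 4 z
  have mg := (Lp.stronglyMeasurable g).enorm
  have h1 : ENNReal.ofReal |∫ y, F y| ≤ ENNReal.ofReal (C * Qr hρ z g) := by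
    have m2 : Measurable fun y => ENNReal.ofReal (sg ρ (y - z) ^ 4) * ‖g y‖ₑ ^ 2 :=
      m1.mul (mg.pow_const 2)
    rw [ENNReal.ofReal_mul hC, ofReal_Qr, ← Real.norm_eq_abs, ofReal_norm,
      ← lintegral_const_mul _ m2]
    refine (enorm_integral_le_lintegral_enorm _).trans ?_
    apply lintegral_mono_ae
    filter_upwards [hF] with y hy
    have h2 := sg_pos hρ (y - z)
    rw [← ofReal_norm, ← ofReal_norm, Real.norm_eq_abs, ← ENNReal.ofReal_pow (norm_nonneg _),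
      ← ENNReal.ofReal_mul (by positivity), ← ENNReal.ofReal_mul hC]
    apply ENNReal.ofReal_le_ofReal
    linarith
  exact (ENNReal.ofReal_le_ofReal_iff (by positivity)).1 h1

end Pool.Agent.TP
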