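import Pool.Agent.TP.Est
import Pool.Agent.TP.LowB
import Pool.Agent.TP.Gsum
import Pool.Agent.TP.Cutoff
import Pool.Agent.TP.Far

/-!
# The correction at one scale
-/

set_option autoImplicit false

namespace Pool.Agent.TP

open MeasureTheory Set Filter Topology Pool.Agent.TO Pool.Agent.TB Pool.Agent.TC
open scoped ENNReal NNReal Real InnerProductSpace SchwartzMap LineDeriv Laplacian

/-- the radius of the cut-off -/
noncomputable def rr (q S : ℝ) : ℝ := S / (64 * cg * q ^ 12)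

noncomputable def cY0 : ℝ := 2 + 768 * cg ^ 2 * Cb
noncomputable def cD0 : ℝ := 128 * cg * Cb + 49152 * cg ^ 3 * Cb
noncomputable def a20 : ℝ := 12 * cg + 2 + 48 * C1 * JJ 4
noncomputable def a3 : ℝ := a20 + 1536 * cg ^ 2 * Cb
noncomputable def B00 : ℝ := 3 * C1 ^ 2 * (1572864 * cg ^ 2 * JJ 4 ^ 2 + 5308416 * 4 * cg ^ 2 * JJ 4 +
  4718592 * cg ^ 2 * JJ 4 ^ 2)
noncomputable def s0 : ℝ := 16 * cY0 + 4 * cD0 + 96 + 288 * cg
noncomputable def Cx : ℝ := a3 + 4 * √B00 + 6 * √(JJ 4) * s0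

section
variable {q S M : ℝ}

theorem rr_pos (hq : 0 < q) (hS : 0 < S) : 0 < rr q S := by
  have := cg_pos
  unfold rr
  positivity

theorem J4_pos : 0 < JJ 4 := JJ_pos le_rfl

theorem pow_le_of_le (hq : 0 < q) (hq1 : q ≤ 1) {m n : ℕ} (h : m ≤ n) : q ^ n ≤ q ^ m :=
  pow_le_pow_of_le_one hq.le hq1 h

theorem L1 (hq : 0 < q) (hS : 0 < S) :
    Cb / rr q S * (cg * (S / q ^ 4)) = 64 * cg ^ 2 * Cb * q ^ 8 := by
  have := cg_pos
  unfold rr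
  field_simp

theorem cY0_pos : 0 < cY0 := by
  have := cg_pos
  have := Cb_pos
  unfold cY0
  positivity

theorem cD0_pos : 0 < cD0 := by
  have := cg_pos
  have := Cb_pos
  unfold cD0
  positivity

theorem L2 (hq : 0 < q) (hq1 : q ≤ 1) (hS : 0 < S) : cY (Cb / rr q S) (S / q ^ 4) ≤ cY0 := by
  have h1 := cg_pos
  have h2 := Cb_pos
  unfold cY cY0
  rw [L1 hq hS]
  have h3 : q ^ 8 ≤ 1 := pow_le_one₀ hq.le hq1
  have h4 : 0 ≤ cg ^ 2 * Cb := by positivity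
  nlinarith

theorem L3 (hq : 0 < q) (hq1 : q ≤ 1) (hS : 0 < S) :
    cD (Cb / rr q S) (Cb / rr q S ^ 2) (S / q ^ 4) ≤ cD0 * q ^ 12 / S := by
  have h1 := cg_pos
  have h2 := Cb_pos
  have e : cD (Cb / rr q S) (Cb / rr q S ^ 2) (S / q ^ 4) =
      (128 * cg * Cb * q ^ 12 + 49152 * cg ^ 3 * Cb * q ^ 20) / S := by
    unfold cD rr
    field_simp
    ring
  rw [e]
  unfold cD0
  have h3 : q ^ 20 ≤ q ^ 12 := pow_le_of_le hq hq1 (by norm_num)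
  have h4 : 0 ≤ cg ^ 3 * Cb := by positivity
  gcongr
  nlinarith

/-- the logarithmic factor -/
noncomputable def lg (q : ℝ) : ℝ := 1 + Real.log q⁻¹

theorem one_le_lg (hq : 0 < q) (hq1 : q ≤ 1) : 1 ≤ lg q := by
  have h : 0 ≤ Real.log q⁻¹ := Real.log_nonneg (by rw [← inv_one]; gcongr)
  unfold lg
  linarith

theorem log_le (hq : 0 < q) {τ : ℝ} (hτ : S ^ 2 / 4 < τ) (hS : 0 < S) :
    Real.log ((S / q ^ 4) ^ 2 / τ) ≤ 8 * lg q := by
  have hτ0 : 0 < τ := lt_trans (by positivity) hτ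
  have h1 : (S / q ^ 4) ^ 2 / τ ≤ 4 * (q⁻¹) ^ 8 := by
    rw [div_le_iff₀ hτ0, div_pow]
    calc S ^ 2 / (q ^ 4) ^ 2 = 4 * q⁻¹ ^ 8 * (S ^ 2 / 4) := by
          field_simp
      _ ≤ 4 * q⁻¹ ^ 8 * τ := by gcongr
  have h2 : 0 < (S / q ^ 4) ^ 2 / τ := by positivity
  have h3 := Real.log_le_log h2 h1
  have hqi : 0 < q⁻¹ := by positivity
  rw [Real.log_mul (by norm_num) (by positivity), Real.log_pow] at h3
  have h4 : Real.log 4 ≤ 2 := by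
    have e : (4:ℝ) = 2 ^ 2 := by norm_num
    rw [e, Real.log_pow]
    have := Real.log_two_lt_d9
    push_cast
    linarith
  push_cast at h3
  unfold lg
  linarith

/-- the volume of the support -/
theorem LV (hq : 0 < q) (hS : 0 < S) :
    9 * (JJ 4 / rr q S * M * (4 * S ^ 2)) / (1 / (q ^ 16 * rr q S)) =
      (6 * √(JJ 4) * q ^ 8 * S) ^ 2 * M := by
  have h1 := rr_pos hq hS
  have h2 : √(JJ 4) ^ 2 = JJ 4 := Real.sq_sqrt J4_pos.le
  rw [mul_pow, mul_pow, mul_pow, h2]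
  field_simp
  ring

theorem LVs (hq : 0 < q) (hS : 0 < S) :
    √((6 * √(JJ 4) * q ^ 8 * S) ^ 2 * M) = 6 * √(JJ 4) * q ^ 8 * S * √M := by
  have := J4_pos
  rw [Real.sqrt_mul (by positivity), Real.sqrt_sq (by positivity)]

theorem LB (hq : 0 < q) (hq1 : q ≤ 1) (hS : 0 < S) (hM : 0 ≤ M) {τ : ℝ} (hτ : τ ≤ 4 * S ^ 2) :
    3 * C1 ^ 2 * (32 * 3 * (JJ 4 / rr q S) ^ 2 * τ +
      36 * (9 * (1 / (q ^ 16 * rr q S))) * (JJ 4 / rr q S) * (4 * S ^ 2) +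
      288 * (JJ 4 / rr q S) ^ 2 * (q ^ 12) ^ 2 * τ) * M ≤ (√B00 * q ^ 4 * √M) ^ 2 := by
  have hJ := J4_pos
  have hcg := cg_pos
  have hC1 := C1_pos
  have hB : 0 ≤ B00 := by
    unfold B00
    positivity
  have e0 : (√B00 * q ^ 4 * √M) ^ 2 = B00 * q ^ 8 * M := by
    rw [mul_pow, mul_pow, Real.sq_sqrt hB, Real.sq_sqrt hM]
    ring
  rw [e0]
  have hrr := rr_pos hq hS
  have h1 : 32 * 3 * (JJ 4 / rr q S) ^ 2 * τ ≤ 1572864 * cg ^ 2 * JJ 4 ^ 2 * q ^ 8 := by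
    calc 32 * 3 * (JJ 4 / rr q S) ^ 2 * τ ≤ 32 * 3 * (JJ 4 / rr q S) ^ 2 * (4 * S ^ 2) := by gcongr
      _ = 1572864 * cg ^ 2 * JJ 4 ^ 2 * q ^ 24 := by
          unfold rr
          field_simp
          ring
      _ ≤ _ := by
          have := pow_le_of_le hq hq1 (m := 8) (n := 24) (by norm_num)
          gcongr
  have h2 : 36 * (9 * (1 / (q ^ 16 * rr q S))) * (JJ 4 / rr q S) * (4 * S ^ 2) ≤
      5308416 * 4 * cg ^ 2 * JJ 4 * q ^ 8 := by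
    have e : 36 * (9 * (1 / (q ^ 16 * rr q S))) * (JJ 4 / rr q S) * (4 * S ^ 2) =
        5308416 * cg ^ 2 * JJ 4 * q ^ 8 := by
      unfold rr
      field_simp
      ring
    rw [e]
    have : 0 ≤ cg ^ 2 * JJ 4 * q ^ 8 := by positivity
    linarith
  have h3 : 288 * (JJ 4 / rr q S) ^ 2 * (q ^ 12) ^ 2 * τ ≤ 4718592 * cg ^ 2 * JJ 4 ^ 2 * q ^ 8 := by
    calc 288 * (JJ 4 / rr q S) ^ 2 * (q ^ 12) ^ 2 * τ ≤
        288 * (JJ 4 / rr q S) ^ 2 * (q ^ 12) ^ 2 * (4 * S ^ 2) := by gcongr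
      _ = 4718592 * cg ^ 2 * JJ 4 ^ 2 * q ^ 48 := by
          unfold rr
          field_simp
          ring
      _ ≤ _ := by
          have := pow_le_of_le hq hq1 (m := 8) (n := 48) (by norm_num)
          gcongr
  calc _ ≤ 3 * C1 ^ 2 * (1572864 * cg ^ 2 * JJ 4 ^ 2 * q ^ 8 +
        5308416 * 4 * cg ^ 2 * JJ 4 * q ^ 8 + 4718592 * cg ^ 2 * JJ 4 ^ 2 * q ^ 8) * M := by gcongr
    _ = B00 * q ^ 8 * M := by
        unfold B00
        ring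

end

end Pool.Agent.TP
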