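import Pool.Agent.TP.Scale

/-!
# The correction at one scale: the estimates
-/

set_option autoImplicit false

namespace Pool.Agent.TP

open MeasureTheory Set Filter Topology Pool.Agent.TO Pool.Agent.TB Pool.Agent.TC
open scoped ENNReal NNReal Real InnerProductSpace SchwartzMap LineDeriv Laplacian

section
variable {q S M : ℝ}

theorem B00_pos : 0 < B00 := by
  have := cg_pos
  have := C1_pos
  have := J4_pos
  unfold B00
  positivity

theorem a20_pos : 0 < a20 := by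
  have := cg_pos
  have := C1_pos
  have := J4_pos
  unfold a20
  positivity

theorem a3_pos : 0 < a3 := by
  have := cg_pos
  have := Cb_pos
  have := a20_pos
  unfold a3
  positivity

theorem s0_pos : 0 < s0 := by
  have := cg_pos
  have := cY0_pos
  have := cD0_pos
  unfold s0
  positivity

theorem Cx_pos : 0 < Cx := by
  have := a3_pos
  have := s0_pos
  have := J4_pos
  unfold Cx
  positivity

theorem Ls (hq : 0 < q) (hq1 : q ≤ 1) (hS : 0 < S) {y d : ℝ} (hy : y ≤ cY0)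
    (hd : d ≤ cD0 * q ^ 12 / S) :
    2 * ((2 * q ^ 12 / S) * (y * (2 * q ^ 12 / S))) +
      2 * (d * (2 * q ^ 12 / S) + y * (4 * q ^ 12 / S ^ 2)) + 24 * (4 * q ^ 12 / S ^ 2) +
      36 * (cg * (S / q ^ 4) * ((2 * q ^ 12 / S) * (4 * q ^ 12 / S ^ 2))) ≤ s0 * q ^ 12 / S ^ 2 := by
  have hcg := cg_pos
  have h1 := cY0_pos
  have h2 := cD0_pos
  have h24 : q ^ 24 ≤ q ^ 12 := pow_le_of_le hq hq1 (by norm_num)
  have h20 : q ^ 20 ≤ q ^ 12 := pow_le_of_le hq hq1 (by norm_num)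
  calc 2 * ((2 * q ^ 12 / S) * (y * (2 * q ^ 12 / S))) +
      2 * (d * (2 * q ^ 12 / S) + y * (4 * q ^ 12 / S ^ 2)) + 24 * (4 * q ^ 12 / S ^ 2) +
      36 * (cg * (S / q ^ 4) * ((2 * q ^ 12 / S) * (4 * q ^ 12 / S ^ 2)))
      ≤ 2 * ((2 * q ^ 12 / S) * (cY0 * (2 * q ^ 12 / S))) +
      2 * ((cD0 * q ^ 12 / S) * (2 * q ^ 12 / S) + cY0 * (4 * q ^ 12 / S ^ 2)) +
      24 * (4 * q ^ 12 / S ^ 2) +
      36 * (cg * (S / q ^ 4) * ((2 * q ^ 12 / S) * (4 * q ^ 12 / S ^ 2))) := by gcongr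
    _ = (8 * cY0 * q ^ 24 + 4 * cD0 * q ^ 24 + 8 * cY0 * q ^ 12 + 96 * q ^ 12 +
        288 * cg * q ^ 20) / S ^ 2 := by
        field_simp
        ring
    _ ≤ (8 * cY0 * q ^ 12 + 4 * cD0 * q ^ 12 + 8 * cY0 * q ^ 12 + 96 * q ^ 12 +
        288 * cg * q ^ 12) / S ^ 2 := by gcongr
    _ = s0 * q ^ 12 / S ^ 2 := by
        unfold s0
        ring

theorem Lx (hq : 0 < q) (hq1 : q ≤ 1) (hS : 0 < S) {Z : ℝ}
    (hZ : Z ≤ s0 * q ^ 12 / S ^ 2) :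
    2 * (2 * q ^ 12 / S) * (√B00 * q ^ 4 * √M) +
      (a20 * q ^ 16 * lg q / S + 12 * (Cb / rr q S * (cg * (S / q ^ 4))) * (2 * q ^ 12 / S)) * √M +
      √((6 * √(JJ 4) * q ^ 8 * S) ^ 2 * M) * Z ≤ Cx * q ^ 16 * lg q * √M / S := by
  have hcg := cg_pos
  have hCb := Cb_pos
  have hJ := J4_pos
  have hs0 := s0_pos
  rw [L1 hq hS, LVs hq hS]
  have hl := one_le_lg hq hq1
  have hl0 : 0 ≤ lg q := zero_le_one.trans hl
  have h16 : q ^ 16 ≤ q ^ 16 * lg q := le_mul_of_one_le_right (by positivity) hl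
  have h20 : q ^ 20 ≤ q ^ 16 * lg q := (pow_le_of_le hq hq1 (by norm_num)).trans h16
  have hsM : 0 ≤ √M := Real.sqrt_nonneg M
  calc 2 * (2 * q ^ 12 / S) * (√B00 * q ^ 4 * √M) +
      (a20 * q ^ 16 * lg q / S + 12 * (64 * cg ^ 2 * Cb * q ^ 8) * (2 * q ^ 12 / S)) * √M +
      6 * √(JJ 4) * q ^ 8 * S * √M * Z
      ≤ 2 * (2 * q ^ 12 / S) * (√B00 * q ^ 4 * √M) +
      (a20 * q ^ 16 * lg q / S + 12 * (64 * cg ^ 2 * Cb * q ^ 8) * (2 * q ^ 12 / S)) * √M +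
      6 * √(JJ 4) * q ^ 8 * S * √M * (s0 * q ^ 12 / S ^ 2) := by gcongr
    _ = (4 * √B00 * q ^ 16 + a20 * (q ^ 16 * lg q) + 1536 * cg ^ 2 * Cb * q ^ 20 +
        6 * √(JJ 4) * s0 * q ^ 20) * √M / S := by
        field_simp
        ring
    _ ≤ (4 * √B00 * (q ^ 16 * lg q) + a20 * (q ^ 16 * lg q) +
        1536 * cg ^ 2 * Cb * (q ^ 16 * lg q) +
        6 * √(JJ 4) * s0 * (q ^ 16 * lg q)) * √M / S := by gcongr
    _ = _ := by
        unfold Cx a3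
        ring

theorem Ly (hq : 0 < q) (hq1 : q ≤ 1) (hS : 0 < S) (hM : 0 ≤ M) {y : ℝ} (hy : y ≤ cY0) :
    3 * (4 * q ^ 12 / S ^ 2 * √M * (y * (2 * q ^ 12 / S) *
      √((6 * √(JJ 4) * q ^ 8 * S) ^ 2 * M))) ≤
      144 * √(JJ 4) * cY0 * (q ^ 32 * lg q ^ 2) * M / S ^ 2 := by
  have hJ := J4_pos
  have h1 := cY0_pos
  rw [LVs hq hS]
  have hl := one_le_lg hq hq1
  have h32 : q ^ 32 ≤ q ^ 32 * lg q ^ 2 :=
    le_mul_of_one_le_right (by positivity) (one_le_pow₀ hl)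
  have hMM : √M * √M = M := Real.mul_self_sqrt hM
  calc 3 * (4 * q ^ 12 / S ^ 2 * √M * (y * (2 * q ^ 12 / S) * (6 * √(JJ 4) * q ^ 8 * S * √M)))
      ≤ 3 * (4 * q ^ 12 / S ^ 2 * √M * (cY0 * (2 * q ^ 12 / S) *
        (6 * √(JJ 4) * q ^ 8 * S * √M))) := by gcongr
    _ = 144 * √(JJ 4) * cY0 * q ^ 32 * (√M * √M) / S ^ 2 := by
        field_simp
        ring
    _ ≤ _ := by
        rw [hMM]
        gcongr

theorem Lp1 (hq : 0 < q) (hS : 0 < S) (hM : 0 ≤ M) {y : ℝ} (hy : y ≤ cY0) :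
    √M * (y * (2 * q ^ 12 / S) * √((6 * √(JJ 4) * q ^ 8 * S) ^ 2 * M)) ≤
      12 * √(JJ 4) * cY0 * q ^ 20 * M := by
  have hJ := J4_pos
  have h1 := cY0_pos
  rw [LVs hq hS]
  have hMM : √M * √M = M := Real.mul_self_sqrt hM
  calc √M * (y * (2 * q ^ 12 / S) * (6 * √(JJ 4) * q ^ 8 * S * √M)) ≤
      √M * (cY0 * (2 * q ^ 12 / S) * (6 * √(JJ 4) * q ^ 8 * S * √M)) := by gcongr
    _ = 12 * √(JJ 4) * cY0 * q ^ 20 * (√M * √M) := by
        field_simp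
        ring
    _ = _ := by rw [hMM]

theorem Lp2 (hq : 0 < q) (hS : 0 < S) :
    2 * (4 * (cg * (S / q ^ 4) * (2 * q ^ 12 / S)) * √((6 * √(JJ 4) * q ^ 8 * S) ^ 2 * M)) =
      96 * cg * √(JJ 4) * q ^ 16 * S * √M := by
  rw [LVs hq hS]
  field_simp
  ring

end

variable {T : ℝ} {u₀ : V3} {u v : ℝ → V3} {a : ℝ → ℝ} {Du Dv : ℝ → Fin 3 → V3}

/-- the final constant -/
noncomputable def Cf : ℝ := 2 * Cx ^ 2 + 288 * √(JJ 4) * cY0 + 12 * √(JJ 4) * cY0 +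
  96 * cg * √(JJ 4)

theorem Cf_pos : 0 < Cf := by
  have := Cx_pos
  have := J4_pos
  have := cY0_pos
  have := cg_pos
  unfold Cf
  positivity

/-- the low frequencies are small where the difference is not concentrated -/
theorem a2_bd (P : Rel T u₀ u₀ u v a Du Dv) {q S : ℝ} (hq : 0 < q) (hq2 : q ≤ 1 / 2)
    (hS : 0 < S) (hT1 : (S / q ^ 4) ^ 2 ≤ T)
    (hb : ∀ᵐ s ∂(volume.restrict (Ioo 0 ((S / q ^ 4) ^ 2))), Bd (u s) (q ^ 12 / √s) ∧
      ∀ k, Bd (Du s k) (q ^ 12 / s)) (h0 : 0 < q ^ 4 * S) (h : q ^ 4 * S ≤ S / q ^ 4) {τ : ℝ}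
    (hτ : τ ∈ Ioo (S ^ 2 / 4) (4 * S ^ 2)) (hd : ∀ k, IsWeakDeriv k (u τ) (Du τ k))
    (hdb : ∀ k, Bd (Du τ k) (4 * q ^ 12 / S ^ 2)) :
    Bd (u τ - NP h0 h (u τ)) (a20 * q ^ 16 * lg q / S) := by
  have hcg := cg_pos
  have hC1 := C1_pos
  have hJ := J4_pos
  have hq1 : q ≤ 1 := by linarith
  have hτ0 : 0 < τ := lt_trans (by positivity) hτ.1
  have hρ1 : 0 < S / q ^ 4 := by positivity
  have hq8 : q ^ 8 ≤ 1 / 8 := by
    calc q ^ 8 ≤ (1 / 2) ^ 8 := by gcongr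
      _ ≤ 1 / 8 := by norm_num
  have h1 := SP_close_bd h0 (by positivity) hd hdb
  have h2 : 2 * τ ≤ (S / q ^ 4) ^ 2 := by
    rw [div_pow, le_div_iff₀ (by positivity)]
    have e : (q ^ 4) ^ 2 = q ^ 8 := by ring
    rw [e]
    have := hτ.2
    calc 2 * τ * q ^ 8 ≤ 2 * (4 * S ^ 2) * (1 / 8) := by gcongr
      _ = S ^ 2 := by ring
  have h3 := far P.hu P.hDu P.hDui hρ1 (e := q ^ 12) (by positivity)
    (pow_le_one₀ hq.le hq1) hτ0 h2 hT1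
    (ae_restrict_of_ae_restrict_of_subset (Ioo_subset_Ioo hτ0.le le_rfl) hb)
  have h4 := log_le hq hτ.1 hS
  have hl := one_le_lg hq hq1
  have hl0 : 0 ≤ lg q := zero_le_one.trans hl
  rw [NP_apply]
  have e1 : u τ - (SP h0 (u τ) - SP (h0.trans_le h) (u τ)) =
      (u τ - SP h0 (u τ)) + SP (h0.trans_le h) (u τ) := by abel
  rw [e1]
  refine bd_mono (bd_add h1 h3) ?_
  have h6 : q ^ 12 / (S / q ^ 4) * (2 + 6 * C1 * JJ 4 * (8 * lg q)) =
      (2 * q ^ 16 + 48 * C1 * JJ 4 * (q ^ 16 * lg q)) / S := by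
    field_simp
    ring
  have h7 : 3 * (cg * (q ^ 4 * S) * (4 * q ^ 12 / S ^ 2)) = 12 * cg * q ^ 16 / S := by
    field_simp
    ring
  have h8 : q ^ 16 ≤ q ^ 16 * lg q := le_mul_of_one_le_right (by positivity) hl
  rw [h7]
  calc 12 * cg * q ^ 16 / S + q ^ 12 / (S / q ^ 4) *
      (2 + 6 * C1 * JJ 4 * Real.log ((S / q ^ 4) ^ 2 / τ))
      ≤ 12 * cg * q ^ 16 / S + (2 * q ^ 16 + 48 * C1 * JJ 4 * (q ^ 16 * lg q)) / S := by
        rw [← h6]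
        gcongr
    _ ≤ 12 * cg * (q ^ 16 * lg q) / S +
        (2 * (q ^ 16 * lg q) + 48 * C1 * JJ 4 * (q ^ 16 * lg q)) / S := by gcongr
    _ = _ := by
        unfold a20
        ring

/-- **the correction at one scale** -/
theorem scale (P : Rel T u₀ u₀ u v a Du Dv) {q S M : ℝ} (hq : 0 < q) (hq2 : q ≤ 1 / 2)
    (hS : 0 < S) (h4 : 4 * S ^ 2 < T) (hT1 : (S / q ^ 4) ^ 2 ≤ T)
    (ham : AEStronglyMeasurable a (volume.restrict (Ioo 0 (4 * S ^ 2))))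
    (ha : ∀ s ∈ Ioo 0 (4 * S ^ 2), a s ≤ q ^ 12 / √s)
    (hb : ∀ᵐ s ∂(volume.restrict (Ioo 0 ((S / q ^ 4) ^ 2))), Bd (u s) (q ^ 12 / √s) ∧
      ∀ k, Bd (Du s k) (q ^ 12 / s))
    (hM : ∀ s ∈ Ioc 0 (4 * S ^ 2), RE u₀ u v Dv s ≤ M) :
    ∃ p z : ℝ → ℝ, (∀ s t, S ^ 2 / 4 ≤ s → s ≤ t → t ≤ 4 * S ^ 2 →
      IntegrableOn z (Ioo s t) volume ∧ p t - p s = ∫ τ in Ioo s t, z τ) ∧
      ∀ᵐ τ ∂(volume.restrict (Ioo (S ^ 2 / 4) (4 * S ^ 2))),
        2 * (re0 (u τ) (v τ) (Du τ) (Dv τ) + z τ) ≤ -Gd Du Dv τ + Cf * (q ^ 32 * lg q ^ 2) * M / S ^ 2 ∧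
        |p τ| ≤ Cf * q ^ 20 * M ∧ |p τ| ≤ √(Gd Du Dv τ) * (Cf * q ^ 16 * S * √M) := by
  have hcg := cg_pos
  have hC1 := C1_pos
  have hJ := J4_pos
  have hCb := Cb_pos
  have hcY0 := cY0_pos
  have hCx := Cx_pos
  have hq1 : q ≤ 1 := by linarith
  have hrr := rr_pos hq hS
  set ts : ℝ := 4 * S ^ 2 with hts
  have hts0 : 0 < ts := by positivity
  have hM0 : 0 ≤ M := ((sq_nonneg _).trans (P.le_RE ⟨hts0.le, h4⟩)).trans (hM ts ⟨hts0, le_rfl⟩)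
  have hMw : ∀ τ ∈ Ioo 0 ts, ‖v τ - u τ‖ ^ 2 ≤ M := fun τ hτ =>
    (P.le_RE ⟨hτ.1.le, hτ.2.trans h4⟩).trans (hM τ ⟨hτ.1, hτ.2.le⟩)
  -- the cut-off
  have hint : ∫⁻ z, HH hrr ts u v z ≤ ENNReal.ofReal (JJ 4 / rr q S * M * ts) := by
    rw [rel_lint_HH P hrr h4.le]
    calc ∫⁻ τ in Ioo 0 ts, ENNReal.ofReal (JJ 4 / rr q S * ‖v τ - u τ‖ ^ 2)
        ≤ ∫⁻ _τ in Ioo 0 ts, ENNReal.ofReal (JJ 4 / rr q S * M) := by
          apply setLIntegral_mono' measurableSet_Ioo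
          intro τ hτ
          apply ENNReal.ofReal_le_ofReal
          have := hMw τ hτ
          gcongr
      _ = ENNReal.ofReal (JJ 4 / rr q S * M * ts) := by
          rw [setLIntegral_const, Real.volume_Ioo, sub_zero, ← ENNReal.ofReal_mul (by positivity)]
  obtain ⟨χ, χ1, χ2, E, hc, hχ, hvol⟩ := exists_cut hrr (rel_meas_HH P hrr h4.le)
    (fun z z' h => HH_harnack hrr ts u v h) (h0 := 1 / (q ^ 16 * rr q S)) (by positivity)
    (I := JJ 4 / rr q S * M * ts) (by positivity) hint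
  rw [hts, LV hq hS] at hvol
  set V : ℝ := (6 * √(JJ 4) * q ^ 8 * S) ^ 2 * M with hV
  have hV0 : 0 ≤ V := by positivity
  have h0 : 0 < q ^ 4 * S := by positivity
  have h : q ^ 4 * S ≤ S / q ^ 4 := by
    rw [le_div_iff₀ (by positivity)]
    have : q ^ 4 * q ^ 4 ≤ 1 := by
      have := pow_le_one₀ (n := 4) hq.le hq1
      nlinarith [pow_pos hq 4]
    calc q ^ 4 * S * q ^ 4 = (q ^ 4 * q ^ 4) * S := by ring
      _ ≤ 1 * S := by gcongr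
      _ = S := one_mul S
  have h' := mb_one_sub hc.m0 hc.nn
  refine ⟨fun τ => ⟪v τ - u τ, YY hc h0 h (u τ)⟫_ℝ,
    fun τ => zL hc h0 h (u τ) (v τ) (Du τ) (Dv τ), ?_, ?_⟩
  · intro s t hs hst ht
    have hs0 : 0 < s := lt_of_lt_of_le (by positivity) hs
    refine zL_formula hc h0 h P (A := q ^ 12 / √s) hs0.le hst (ht.trans_lt h4) (by positivity) ?_
    intro τ hτ
    refine (ha τ ⟨hs0.trans hτ.1, hτ.2.trans_le ht⟩).trans ?_
    have h1 : √s ≤ √τ := Real.sqrt_le_sqrt hτ.1.le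
    have h2 : 0 < √s := Real.sqrt_pos.2 hs0
    gcongr
  · have hsub : Ioo (S ^ 2 / 4) ts ⊆ Ioo 0 T := Ioo_subset_Ioo (by positivity) h4.le
    have hq8 : q ^ 8 ≤ 1 / 8 := by
      calc q ^ 8 ≤ (1 / 2) ^ 8 := by gcongr
        _ ≤ 1 / 8 := by norm_num
    have hts' : ts ≤ (S / q ^ 4) ^ 2 := by
      rw [hts, div_pow, le_div_iff₀ (by positivity)]
      have e : (q ^ 4) ^ 2 = q ^ 8 := by ring
      rw [e]
      calc 4 * S ^ 2 * q ^ 8 ≤ 4 * S ^ 2 * (1 / 8) := by gcongr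
        _ ≤ S ^ 2 := by nlinarith [sq_nonneg S]
    filter_upwards [ae_restrict_of_ae_restrict_of_subset hsub P.hDu,
      ae_restrict_of_ae_restrict_of_subset hsub P.hDv,
      ae_restrict_of_ae_restrict_of_subset (Ioo_subset_Ioo (by positivity) hts') hb,
      ae_restrict_mem measurableSet_Ioo] with τ hdu hdv hbτ hτ
    have hτ0 : 0 < τ := lt_trans (by positivity) hτ.1
    have hτT : τ ∈ Ico 0 T := ⟨hτ0.le, hτ.2.trans h4⟩
    have hsτ : S / 2 ≤ √τ := Real.le_sqrt_of_sq_le (by nlinarith [hτ.1])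
    have bu : Bd (u τ) (2 * q ^ 12 / S) := bd_mono hbτ.1 (by
      calc q ^ 12 / √τ ≤ q ^ 12 / (S / 2) := by gcongr
        _ = 2 * q ^ 12 / S := by field_simp)
    have bdu : ∀ k, Bd (Du τ k) (4 * q ^ 12 / S ^ 2) := fun k => bd_mono (hbτ.2 k) (by
      have := hτ.1.le
      calc q ^ 12 / τ ≤ q ^ 12 / (S ^ 2 / 4) := by gcongr
        _ = 4 * q ^ 12 / S ^ 2 := by field_simp)
    have hA : 0 ≤ 2 * q ^ 12 / S := by positivity
    have hA' : 0 ≤ 4 * q ^ 12 / S ^ 2 := by positivity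
    have hW : ‖v τ - u τ‖ ≤ √M := Real.le_sqrt_of_sq_le (hMw τ ⟨hτ0, hτ.2⟩)
    have ha2 := a2_bd P hq hq2 hS hT1 hb h0 h hτ hdu bdu
    have hdw : ∀ k, IsWeakDeriv k (v τ - u τ) (Dv τ k - Du τ k) := fun k => (hdv k).sub (hdu k)
    -- the low frequencies
    have hsubτ : Ioo 0 τ ⊆ Ioo 0 ts := Ioo_subset_Ioo le_rfl hτ.2.le
    have hG := G_lint P (ε := q ^ 12) (t := τ) (by positivity) (pow_le_one₀ hq.le hq1)
      ⟨hτ0, hτT.2⟩ (ham.mono_measure (Measure.restrict_mono hsubτ le_rfl))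
      (fun s hs => ha s (hsubτ hs)) (fun s hs => hM s ⟨hs.1, hs.2.trans hτ.2.le⟩)
    have hB := B_le P hrr (ε := q ^ 12) (t := τ) (ts := ts) (M := M) (cG := 3)
      (h1 := 9 * (1 / (q ^ 16 * rr q S))) (by positivity) ⟨hτ0, hτT.2⟩ hτ.2.le h4.le
      (fun s hs => ha s (hsubτ hs)) hM0 hMw (by norm_num) hG (by positivity) h' (fun z hz => hχ z hz)
    have hB2 := abs_le_of_sq_le_sq (hB.trans (by
      have := LB hq hq1 hS hM0 hτ.2.le
      rw [hts]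
      exact this)) (by have := B00_pos; positivity)
    have hB3 := (le_abs_self _).trans hB2
    -- the estimate
    have h8 : 4 * cg * rr q S * (2 * q ^ 12 / S) ≤ 1 / 8 := by
      have e : 4 * cg * rr q S * (2 * q ^ 12 / S) = 1 / 8 := by
        unfold rr
        field_simp
        norm_num
      rw [e]
    have key := static hc h0 h h' (r := rr q S) (a2 := a20 * q ^ 16 * lg q / S) (W := √M)
      (Bq := √B00 * q ^ 4 * √M) (V := V) hrr hA bu hA' bdu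
      (by have := a20_pos; have := one_le_lg hq hq1; positivity) ha2 hdu hdv hW hB3 hV0 hvol h8
    have hcY := L2 hq hq1 hS
    have hcD := L3 hq hq1 hS
    have hLs := Ls hq hq1 hS hcY hcD
    have hLx := Lx (M := M) hq hq1 hS hLs
    have hLy := Ly hq hq1 hS hM0 hcY
    refine ⟨?_, ?_, ?_⟩
    · set x := 2 * (2 * q ^ 12 / S) * (√B00 * q ^ 4 * √M) +
        (a20 * q ^ 16 * lg q / S +
          12 * (Cb / rr q S * (cg * (S / q ^ 4))) * (2 * q ^ 12 / S)) * √M +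
        √((6 * √(JJ 4) * q ^ 8 * S) ^ 2 * M) *
        (2 * ((2 * q ^ 12 / S) * (cY (Cb / rr q S) (S / q ^ 4) * (2 * q ^ 12 / S))) +
        2 * (cD (Cb / rr q S) (Cb / rr q S ^ 2) (S / q ^ 4) * (2 * q ^ 12 / S) +
          cY (Cb / rr q S) (S / q ^ 4) * (4 * q ^ 12 / S ^ 2)) + 24 * (4 * q ^ 12 / S ^ 2) +
        36 * (cg * (S / q ^ 4) * ((2 * q ^ 12 / S) * (4 * q ^ 12 / S ^ 2)))) with hx
      have hx0 : 0 ≤ x := by
        have i1 := cY_nonneg hc h0 h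
        have i2 := cD_nonneg hc h0 h
        have i3 := a20_pos
        have i4 := B00_pos
        have i5 := one_le_lg hq hq1
        positivity
      have hx2 : x ^ 2 ≤ (Cx * q ^ 16 * lg q * √M / S) ^ 2 := pow_le_pow_left₀ hx0 hLx 2
      have e2 : (Cx * q ^ 16 * lg q * √M / S) ^ 2 = Cx ^ 2 * (q ^ 32 * lg q ^ 2) * M / S ^ 2 := by
        rw [div_pow, mul_pow, mul_pow, mul_pow, Real.sq_sqrt hM0]
        ring
      rw [e2] at hx2
      have hGd : Gd Du Dv τ = ∑ k, ‖Dv τ k - Du τ k‖ ^ 2 := rfl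
      have hfin : 2 * (re0 (u τ) (v τ) (Du τ) (Dv τ) + zL hc h0 h (u τ) (v τ) (Du τ) (Dv τ)) ≤
          -Gd Du Dv τ + 2 * (Cx ^ 2 * (q ^ 32 * lg q ^ 2) * M / S ^ 2) +
          2 * (144 * √(JJ 4) * cY0 * (q ^ 32 * lg q ^ 2) * M / S ^ 2) := by
        rw [hGd]
        linarith
      refine hfin.trans ?_
      have e3 : -Gd Du Dv τ + 2 * (Cx ^ 2 * (q ^ 32 * lg q ^ 2) * M / S ^ 2) +
          2 * (144 * √(JJ 4) * cY0 * (q ^ 32 * lg q ^ 2) * M / S ^ 2) =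
          -Gd Du Dv τ + (2 * Cx ^ 2 + 288 * √(JJ 4) * cY0) * (q ^ 32 * lg q ^ 2) * M / S ^ 2 := by ring
      rw [e3]
      have h5 : 2 * Cx ^ 2 + 288 * √(JJ 4) * cY0 ≤ Cf := by
        unfold Cf
        have : 0 ≤ 12 * √(JJ 4) * cY0 := by positivity
        have : 0 ≤ 96 * cg * √(JJ 4) := by positivity
        linarith
      gcongr
    · refine (pair_le1 hc h0 h hA bu hV0 hvol (v τ - u τ) hW).trans ?_
      refine (Lp1 hq hS hM0 hcY).trans ?_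
      have h5 : 12 * √(JJ 4) * cY0 ≤ Cf := by
        unfold Cf
        have : 0 ≤ 288 * √(JJ 4) * cY0 := by positivity
        have : 0 ≤ 96 * cg * √(JJ 4) := by positivity
        have : 0 ≤ 2 * Cx ^ 2 := by positivity
        linarith
      gcongr
    · refine (pair_le2 hc h0 h (P.hu.div τ hτT) hA bu hV0 hvol hdw).trans ?_
      have e4 := Lp2 (M := M) hq hS
      rw [e4]
      have h5 : 96 * cg * √(JJ 4) ≤ Cf := by
        unfold Cf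
        have : 0 ≤ 288 * √(JJ 4) * cY0 := by positivity
        have : 0 ≤ 12 * √(JJ 4) * cY0 := by positivity
        have : 0 ≤ 2 * Cx ^ 2 := by positivity
        linarith
      change √(Gd Du Dv τ) * _ ≤ _
      gcongr

end Pool.Agent.TP
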