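import Pool.Agent.TP.Cv

/-!
# The averaging operators and the potentials
-/

set_option autoImplicit false

namespace Pool.Agent.TP

open MeasureTheory Set Filter Topology Pool.Agent.TO Pool.Agent.TB Pool.Agent.TC
open scoped ENNReal NNReal Real InnerProductSpace SchwartzMap LineDeriv Laplacian

variable {ρ ρ' : ℝ}

theorem kk_et0 (hρ : 0 < ρ) : KK (et0 ρ) 1 where
  cont := continuous_et0 hρ
  int := integrable_et0 hρ
  le := by
    have : ∀ y, |et0 ρ y| = et0 ρ y := fun y => abs_of_nonneg (et0_nonneg hρ y)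
    simp only [this, integral_et0 hρ, le_refl]
  bdd := by
    have := c0_pos
    refine ⟨15 / 2 * c0 * ρ ^ 4 * ρ⁻¹ ^ 7, by positivity, fun y => ?_⟩
    rw [abs_of_nonneg (et0_nonneg hρ y), et0]
    have h1 := sg_pos hρ y
    have h2 := sg_le_inv hρ y
    gcongr

/-- the averaging operator -/
noncomputable def SP (hρ : 0 < ρ) : V3 →L[ℝ] V3 := cvL (kk_et0 hρ)

theorem norm_SP_le (hρ : 0 < ρ) (f : V3) : ‖SP hρ f‖ ≤ ‖f‖ := by
  have := norm_cvL_le (kk_et0 hρ) f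
  rwa [one_mul] at this

theorem bd_SP (hρ : 0 < ρ) {f : V3} {A : ℝ} (hA : 0 ≤ A) (hf : Bd f A) : Bd (SP hρ f) A := by
  have := bd_cvL (kk_et0 hρ) hA hf
  rwa [one_mul] at this

theorem symm_SP (hρ : 0 < ρ) (f g : V3) : ⟪f, SP hρ g⟫_ℝ = ⟪SP hρ f, g⟫_ℝ :=
  symm_cvL (kk_et0 hρ) (fun _ => et0_neg _) f g

theorem weak_SP (hρ : 0 < ρ) {k : Fin 3} {f g : V3} (h : IsWeakDeriv k f g) :
    IsWeakDeriv k (SP hρ f) (SP hρ g) := weak_cvL _ h

/-- the kernel of the potential -/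
noncomputable def gk (ρ ρ' : ℝ) (j : Fin 3) (x : E3) : ℝ := x j * (Ps ρ x - Ps ρ' x)

/-- its derivative -/
noncomputable def gk2 (ρ ρ' : ℝ) (i j : Fin 3) (x : E3) : ℝ :=
  (if i = j then Ps ρ x - Ps ρ' x else 0) + x i * x j * (be ρ x - be ρ' x)

theorem gk_neg (j : Fin 3) (x : E3) : gk ρ ρ' j (-x) = -gk ρ ρ' j x := by
  unfold gk Ps
  simp only [sg_neg, PiLp.neg_apply]
  ring

theorem continuous_coord (j : Fin 3) : Continuous fun x : E3 => x j :=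
  (EuclideanSpace.proj (𝕜 := ℝ) j).continuous

theorem continuous_gk (hρ : 0 < ρ) (hρ' : 0 < ρ') (j : Fin 3) : Continuous (gk ρ ρ' j) :=
  (continuous_coord j).mul ((continuous_Ps hρ).sub (continuous_Ps hρ'))

theorem continuous_gk2 (hρ : 0 < ρ) (hρ' : 0 < ρ') (i j : Fin 3) :
    Continuous (gk2 ρ ρ' i j) := by
  unfold gk2
  have h1 := (continuous_Ps hρ).sub (continuous_Ps hρ')
  have h2 := (continuous_be hρ).sub (continuous_be hρ')
  have h3 := ((continuous_coord i).mul (continuous_coord j)).mul h2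
  split_ifs
  · exact h1.add h3
  · exact continuous_const.add h3

theorem inner_ee' (x : E3) (j : Fin 3) : innerSL ℝ x (ee j) = x j := by
  rw [innerSL_apply_apply]
  exact inner_ee x j

theorem hasFDerivAt_coord (j : Fin 3) (x : E3) :
    HasFDerivAt (fun x : E3 => x j) (EuclideanSpace.proj (𝕜 := ℝ) j : E3 →L[ℝ] ℝ) x :=
  (EuclideanSpace.proj (𝕜 := ℝ) j : E3 →L[ℝ] ℝ).hasFDerivAt

theorem ee_apply (i j : Fin 3) : (ee i : E3) j = if i = j then 1 else 0 := by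
  rw [ee, EuclideanSpace.single_apply]
  simp [eq_comm]

theorem line_gk (hρ : 0 < ρ) (hρ' : 0 < ρ') (i j : Fin 3) (x : E3) :
    HasLineDerivAt ℝ (gk ρ ρ' j) (gk2 ρ ρ' i j x) x (ee i) := by
  have h1 := (hasFDerivAt_coord j x).mul ((hasFDerivAt_Ps hρ x).sub (hasFDerivAt_Ps hρ' x))
  have h2 := h1.hasLineDerivAt (ee i)
  have h3 : HasLineDerivAt ℝ (gk ρ ρ' j) _ x (ee i) := h2
  convert h3 using 1
  simp only [add_apply, sub_apply, smul_apply, smul_eq_mul, inner_ee', gk2]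
  change _ = x j * (be ρ x * x i - be ρ' x * x i) + (Ps ρ x - Ps ρ' x) * (ee i : E3) j
  rw [ee_apply]
  split_ifs <;> ring

theorem gk2_symm (i j : Fin 3) (x : E3) : gk2 ρ ρ' i j x = gk2 ρ ρ' j i x := by
  unfold gk2
  simp only [eq_comm (a := i)]
  ring

theorem gk2_trace (hρ : 0 < ρ) (hρ' : 0 < ρ') (x : E3) :
    ∑ k, gk2 ρ ρ' k k x = -(et0 ρ x - et0 ρ' x) := by
  have h1 := trace_id hρ x
  have h2 := trace_id hρ' x
  have h3 := sum_sq_eq x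
  unfold gk2
  simp only [if_true]
  rw [Fin.sum_univ_three] at h3 ⊢
  linear_combination h1 - h2 + (be ρ x - be ρ' x) * h3

theorem abs_Ps_le (hρ : 0 < ρ) (x : E3) : |Ps ρ x| ≤ 5 / 2 * c0 * sg ρ x ^ 3 := by
  have h1 := sg_pos hρ x
  have h2 := rho_sg hρ x
  have h3 := c0_pos
  have h4 : (ρ * sg ρ x) ^ 2 ≤ 1 := pow_le_one₀ (by positivity) h2
  unfold Ps
  rw [abs_mul, abs_neg, abs_of_pos h3, abs_of_nonneg (by positivity)]
  have h5 : ρ ^ 2 * sg ρ x ^ 5 ≤ sg ρ x ^ 3 := by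
    have : ρ ^ 2 * sg ρ x ^ 5 = (ρ * sg ρ x) ^ 2 * sg ρ x ^ 3 := by ring
    rw [this]
    exact mul_le_of_le_one_left (by positivity) h4
  nlinarith

theorem be_nonneg (hρ : 0 < ρ) (x : E3) : 0 ≤ be ρ x := by
  have h1 := sg_pos hρ x
  have h3 := c0_pos
  unfold be
  positivity

theorem be_le (hρ : 0 < ρ) (x : E3) : be ρ x ≤ 21 / 2 * c0 * sg ρ x ^ 5 := by
  have h1 := sg_pos hρ x
  have h2 := rho_sg hρ x
  have h3 := c0_pos
  have h4 : (ρ * sg ρ x) ^ 2 ≤ 1 := pow_le_one₀ (by positivity) h2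
  unfold be
  have h5 : ρ ^ 2 * sg ρ x ^ 7 ≤ sg ρ x ^ 5 := by
    have : ρ ^ 2 * sg ρ x ^ 7 = (ρ * sg ρ x) ^ 2 * sg ρ x ^ 5 := by ring
    rw [this]
    exact mul_le_of_le_one_left (by positivity) h4
  nlinarith

theorem coord_sg (hρ : 0 < ρ) (j : Fin 3) (x : E3) : |x j| * sg ρ x ≤ 1 :=
  (mul_le_mul_of_nonneg_right (abs_coord_le x j) (sg_pos hρ x).le).trans (nrm_sg hρ x)

theorem coord_Ps_le (hρ : 0 < ρ) (j : Fin 3) (x : E3) :
    |x j * Ps ρ x| ≤ 5 / 2 * c0 * ρ⁻¹ ^ 2 := by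
  have h1 := sg_pos hρ x
  have h2 := coord_sg hρ j x
  have h3 := c0_pos
  rw [abs_mul]
  calc |x j| * |Ps ρ x| ≤ |x j| * (5 / 2 * c0 * sg ρ x ^ 3) := by
        gcongr
        exact abs_Ps_le hρ x
    _ = 5 / 2 * c0 * ((|x j| * sg ρ x) * sg ρ x ^ 2) := by ring
    _ ≤ 5 / 2 * c0 * (1 * ρ⁻¹ ^ 2) := by
        gcongr
        exact sg_le_inv hρ x
    _ = _ := by ring

theorem bdd_gk (hρ : 0 < ρ) (hρ' : 0 < ρ') (j : Fin 3) :
    ∃ C : ℝ, 0 ≤ C ∧ ∀ y, |gk ρ ρ' j y| ≤ C := by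
  have h3 := c0_pos
  refine ⟨5 / 2 * c0 * ρ⁻¹ ^ 2 + 5 / 2 * c0 * ρ'⁻¹ ^ 2, by positivity, fun y => ?_⟩
  unfold gk
  rw [mul_sub]
  refine (abs_sub _ _).trans ?_
  exact add_le_add (coord_Ps_le hρ j y) (coord_Ps_le hρ' j y)

theorem coord2_be_le (hρ : 0 < ρ) (i j : Fin 3) (x : E3) :
    |x i * x j * be ρ x| ≤ 21 / 2 * c0 * ρ⁻¹ ^ 3 := by
  have h1 := sg_pos hρ x
  have h2 := coord_sg hρ i x
  have h2' := coord_sg hρ j x
  have h3 := c0_pos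
  rw [abs_mul, abs_mul, abs_of_nonneg (be_nonneg hρ x)]
  calc |x i| * |x j| * be ρ x ≤ |x i| * |x j| * (21 / 2 * c0 * sg ρ x ^ 5) := by
        gcongr
        exact be_le hρ x
    _ = 21 / 2 * c0 * ((|x i| * sg ρ x) * (|x j| * sg ρ x) * sg ρ x ^ 3) := by ring
    _ ≤ 21 / 2 * c0 * (1 * 1 * ρ⁻¹ ^ 3) := by
        gcongr
        exact sg_le_inv hρ x
    _ = _ := by ring

theorem Ps_le' (hρ : 0 < ρ) (x : E3) : |Ps ρ x| ≤ 5 / 2 * c0 * ρ⁻¹ ^ 3 := by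
  have h1 := sg_pos hρ x
  have h3 := c0_pos
  refine (abs_Ps_le hρ x).trans ?_
  gcongr
  exact sg_le_inv hρ x

theorem bdd_gk2 (hρ : 0 < ρ) (hρ' : 0 < ρ') (i j : Fin 3) :
    ∃ C : ℝ, 0 ≤ C ∧ ∀ y, |gk2 ρ ρ' i j y| ≤ C := by
  have h3 := c0_pos
  refine ⟨(5 / 2 * c0 * ρ⁻¹ ^ 3 + 5 / 2 * c0 * ρ'⁻¹ ^ 3) +
    (21 / 2 * c0 * ρ⁻¹ ^ 3 + 21 / 2 * c0 * ρ'⁻¹ ^ 3), by positivity, fun y => ?_⟩
  unfold gk2
  refine (abs_add_le _ _).trans ?_
  have h4 : |y i * y j * (be ρ y - be ρ' y)| ≤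
      21 / 2 * c0 * ρ⁻¹ ^ 3 + 21 / 2 * c0 * ρ'⁻¹ ^ 3 := by
    rw [mul_sub]
    refine (abs_sub _ _).trans ?_
    exact add_le_add (coord2_be_le hρ i j y) (coord2_be_le hρ' i j y)
  have h5 : |if i = j then Ps ρ y - Ps ρ' y else 0| ≤
      5 / 2 * c0 * ρ⁻¹ ^ 3 + 5 / 2 * c0 * ρ'⁻¹ ^ 3 := by
    split_ifs
    · refine (abs_sub _ _).trans ?_
      exact add_le_add (Ps_le' hρ y) (Ps_le' hρ' y)
    · rw [abs_zero]
      positivity
  exact add_le_add h5 h4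

/-- the derivative of `sg` in `ρ` -/
theorem hasDerivAt_sg_rho (hρ : 0 < ρ) (x : E3) :
    HasDerivAt (fun ρ => sg ρ x) (-(ρ * sg ρ x ^ 3)) ρ := by
  have h0 := sg_arg_pos hρ x
  have h3 : √(ρ ^ 2 + ‖x‖ ^ 2) ≠ 0 := by positivity
  have h1 : HasDerivAt (fun ρ : ℝ => ρ ^ 2 + ‖x‖ ^ 2) (2 * ρ) ρ := by
    have := (hasDerivAt_pow 2 ρ).add_const (‖x‖ ^ 2)
    simpa using this
  have h2 := ((Real.hasDerivAt_sqrt h0.ne').inv h3).comp ρ h1
  have h4 : HasDerivAt (fun ρ => sg ρ x) _ ρ := h2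
  convert h4 using 1
  unfold sg
  field_simp

theorem hasDerivAt_Ps_rho (hρ : 0 < ρ) (x : E3) :
    HasDerivAt (fun ρ => Ps ρ x) (15 / 2 * c0 * ρ ^ 3 * sg ρ x ^ 7) ρ := by
  have h1 := hasDerivAt_sg_rho hρ x
  have h2 := ((h1.pow 3).add (((hasDerivAt_pow 2 ρ).const_mul (3 / 2)).mul (h1.pow 5))).const_mul
    (-c0)
  have h4 : HasDerivAt (fun ρ => Ps ρ x) _ ρ := h2
  convert h4 using 1
  simp only [Pi.pow_apply]
  push_cast
  ring

theorem meas_sg2 : Measurable fun p : E3 × ℝ => sg p.2 p.1 := by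
  unfold sg
  fun_prop

theorem gk_le_int (hρ : 0 < ρ) (h : ρ ≤ ρ') (j : Fin 3) (x : E3) :
    ‖gk ρ ρ' j x‖ₑ ≤ ∫⁻ s in Ioc ρ ρ', ENNReal.ofReal (15 / 2 * c0 * s ^ 3 * sg s x ^ 6) := by
  have h3 := c0_pos
  have hρ' : 0 < ρ' := hρ.trans_le h
  have hcont : ContinuousOn (fun s => 15 / 2 * c0 * s ^ 3 * sg s x ^ 7) (uIcc ρ ρ') := by
    rw [uIcc_of_le h]
    intro s hs
    have hs0 : 0 < s := hρ.trans_le hs.1
    have := (hasDerivAt_sg_rho hs0 x).continuousAt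
    exact (((continuousAt_id.pow 3).const_mul _).mul (this.pow 7)).continuousWithinAt
  have e1 : Ps ρ' x - Ps ρ x = ∫ s in ρ..ρ', 15 / 2 * c0 * s ^ 3 * sg s x ^ 7 := by
    rw [intervalIntegral.integral_eq_sub_of_hasDerivAt]
    · intro s hs
      rw [uIcc_of_le h] at hs
      exact hasDerivAt_Ps_rho (hρ.trans_le hs.1) x
    · exact hcont.intervalIntegrable
  have hcont6 : ContinuousOn (fun s => 15 / 2 * c0 * s ^ 3 * sg s x ^ 6) (uIcc ρ ρ') := by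
    rw [uIcc_of_le h]
    intro s hs
    have hs0 : 0 < s := hρ.trans_le hs.1
    have := (hasDerivAt_sg_rho hs0 x).continuousAt
    exact (((continuousAt_id.pow 3).const_mul _).mul (this.pow 6)).continuousWithinAt
  have e2 : |gk ρ ρ' j x| ≤ ∫ s in ρ..ρ', 15 / 2 * c0 * s ^ 3 * sg s x ^ 6 := by
    unfold gk
    have e3 : x j * (Ps ρ x - Ps ρ' x) = -(x j * (Ps ρ' x - Ps ρ x)) := by ring
    have e4 : 0 ≤ Ps ρ' x - Ps ρ x := by
      rw [e1]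
      apply intervalIntegral.integral_nonneg h
      intro s hs
      have := sg_pos (hρ.trans_le hs.1) x
      have := hρ.trans_le hs.1
      positivity
    rw [e3, abs_neg, abs_mul, abs_of_nonneg e4, e1, ← intervalIntegral.integral_const_mul]
    apply intervalIntegral.integral_mono_on h (hcont.intervalIntegrable.const_mul _)
      hcont6.intervalIntegrable
    intro s hs
    have hs0 := hρ.trans_le hs.1
    have h5 := sg_pos hs0 x
    have h6 := coord_sg hs0 j x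
    calc |x j| * (15 / 2 * c0 * s ^ 3 * sg s x ^ 7) =
        15 / 2 * c0 * s ^ 3 * ((|x j| * sg s x) * sg s x ^ 6) := by ring
      _ ≤ 15 / 2 * c0 * s ^ 3 * (1 * sg s x ^ 6) := by gcongr
      _ = _ := by ring
  rw [← ofReal_norm, Real.norm_eq_abs]
  refine (ENNReal.ofReal_le_ofReal e2).trans (le_of_eq ?_)
  rw [intervalIntegral.integral_of_le h, ofReal_integral_eq_lintegral_ofReal]
  · have := hcont6.intervalIntegrable (μ := volume)
    rwa [intervalIntegrable_iff_integrableOn_Ioc_of_le h] at this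
  · rw [EventuallyLE, ae_restrict_iff' measurableSet_Ioc]
    refine Eventually.of_forall fun s hs => ?_
    have hs0 := hρ.trans hs.1
    have h5 := sg_pos hs0 x
    simp only [Pi.zero_apply]
    positivity

/-- the constant for the potential -/
noncomputable def cg : ℝ := 15 / 2 * c0 * JJ 6

theorem cg_pos : 0 < cg := by
  have := c0_pos
  have := JJ_pos (n := 6) (by norm_num)
  unfold cg
  positivity

theorem lint_gk (hρ : 0 < ρ) (h : ρ ≤ ρ') (j : Fin 3) :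
    ∫⁻ x, ‖gk ρ ρ' j x‖ₑ ≤ ENNReal.ofReal (cg * ρ') := by
  have h3 := c0_pos
  have hρ' : 0 < ρ' := hρ.trans_le h
  have hJ := JJ_pos (n := 6) (by norm_num)
  have hm : Measurable (Function.uncurry fun (x : E3) (s : ℝ) =>
      ENNReal.ofReal (15 / 2 * c0 * s ^ 3 * sg s x ^ 6)) := by
    apply ENNReal.measurable_ofReal.comp
    have := meas_sg2
    exact ((measurable_snd.pow_const 3).const_mul _).mul (this.pow_const 6)
  calc ∫⁻ x, ‖gk ρ ρ' j x‖ₑ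
      ≤ ∫⁻ x, ∫⁻ s in Ioc ρ ρ', ENNReal.ofReal (15 / 2 * c0 * s ^ 3 * sg s x ^ 6) :=
        lintegral_mono fun x => gk_le_int hρ h j x
    _ = ∫⁻ s in Ioc ρ ρ', ∫⁻ x : E3, ENNReal.ofReal (15 / 2 * c0 * s ^ 3 * sg s x ^ 6) :=
        lintegral_lintegral_swap hm.aemeasurable
    _ = ∫⁻ _s in Ioc ρ ρ', ENNReal.ofReal cg := by
        apply setLIntegral_congr_fun measurableSet_Ioc
        intro s hs
        have hs0 := hρ.trans hs.1
        simp only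
        rw [← ofReal_integral_eq_lintegral_ofReal ((integrable_sg hs0 (by norm_num)).const_mul _)
          (Eventually.of_forall fun x => by have := sg_pos hs0 x; simp only [Pi.zero_apply]; positivity),
          integral_const_mul, integral_sg hs0, cg]
        congr 1
        field_simp
    _ = ENNReal.ofReal cg * ENNReal.ofReal (ρ' - ρ) := by
        rw [setLIntegral_const, Real.volume_Ioc]
    _ ≤ ENNReal.ofReal (cg * ρ') := by
        rw [← ENNReal.ofReal_mul cg_pos.le]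
        apply ENNReal.ofReal_le_ofReal
        have := cg_pos
        gcongr
        linarith

theorem kk_gk (hρ : 0 < ρ) (h : ρ ≤ ρ') (j : Fin 3) : KK (gk ρ ρ' j) (cg * ρ') where
  cont := continuous_gk hρ (hρ.trans_le h) j
  int := by
    refine ⟨(continuous_gk hρ (hρ.trans_le h) j).aestronglyMeasurable, ?_⟩
    rw [hasFiniteIntegral_iff_enorm]
    exact (lint_gk hρ h j).trans_lt ENNReal.ofReal_lt_top
  le := by
    have h1 := lint_gk hρ h j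
    have hρ' : 0 < ρ' := hρ.trans_le h
    have h2 := cg_pos
    have h3 : ∫ y, |gk ρ ρ' j y| = (∫⁻ y, ‖gk ρ ρ' j y‖ₑ).toReal := by
      have := integral_norm_eq_lintegral_enorm (μ := (volume : Measure E3))
        (f := gk ρ ρ' j) (continuous_gk hρ hρ' j).aestronglyMeasurable
      simpa [Real.norm_eq_abs] using this
    rw [h3]
    exact ENNReal.toReal_le_of_le_ofReal (by positivity) h1
  bdd := bdd_gk hρ (hρ.trans_le h) j

/-- the potential operators -/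
noncomputable def Cj (hρ : 0 < ρ) (h : ρ ≤ ρ') (j : Fin 3) : V3 →L[ℝ] V3 := cvL (kk_gk hρ h j)

theorem norm_Cj_le (hρ : 0 < ρ) (h : ρ ≤ ρ') (j : Fin 3) (f : V3) :
    ‖Cj hρ h j f‖ ≤ cg * ρ' * ‖f‖ := norm_cvL_le _ f

theorem bd_Cj (hρ : 0 < ρ) (h : ρ ≤ ρ') (j : Fin 3) {f : V3} {A : ℝ} (hA : 0 ≤ A)
    (hf : Bd f A) : Bd (Cj hρ h j f) (cg * ρ' * A) := bd_cvL _ hA hf

theorem anti_Cj (hρ : 0 < ρ) (h : ρ ≤ ρ') (j : Fin 3) (f g : V3) :
    ⟪f, Cj hρ h j g⟫_ℝ = -⟪Cj hρ h j f, g⟫_ℝ := anti_cvL _ (gk_neg j) f g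

theorem weak_Cj (hρ : 0 < ρ) (h : ρ ≤ ρ') (j : Fin 3) {k : Fin 3} {f g : V3}
    (hfg : IsWeakDeriv k f g) : IsWeakDeriv k (Cj hρ h j f) (Cj hρ h j g) := weak_cvL _ hfg

theorem int_bdd_smul {κ : E3 → ℝ} {C : ℝ} (hκ : Continuous κ) (hb : ∀ y, |κ y| ≤ C)
    {g : E3 → E3} (hg : Integrable g (volume : Measure E3)) :
    Integrable (fun y => κ y • g y) (volume : Measure E3) := by
  refine Integrable.mono' (hg.norm.const_mul C)
    (hκ.aestronglyMeasurable.smul hg.aestronglyMeasurable) ?_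
  refine Eventually.of_forall fun y => ?_
  rw [norm_smul, Real.norm_eq_abs]
  gcongr
  exact hb y

theorem int_shift (ψ : 𝓢(E3, E3)) (x : E3) :
    Integrable (fun y => ψ (x - y)) (volume : Measure E3) := ψ.integrable.comp_sub_left x

/-- integration by parts -/
theorem ibp {κ κ' : E3 → ℝ} {C C' : ℝ} (hκ : Continuous κ) (hκ' : Continuous κ')
    (hb : ∀ y, |κ y| ≤ C) (hb' : ∀ y, |κ' y| ≤ C') {i : Fin 3}
    (hl : ∀ y, HasLineDerivAt ℝ κ (κ' y) y (ee i)) (ψ : 𝓢(E3, E3)) (x : E3) :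
    cvf κ (∂_{ee i} ψ : 𝓢(E3, E3)) x = cvf κ' ψ x := by
  have hg : ∀ y, HasLineDerivAt ℝ (fun y => ψ (x - y)) (-(∂_{ee i} ψ) (x - y)) y (ee i) := by
    intro y
    have h1 : HasFDerivAt (fun y : E3 => x - y) (-ContinuousLinearMap.id ℝ E3) y :=
      (hasFDerivAt_id y).const_sub x
    have h2 := (ψ.differentiableAt (x := x - y)).hasFDerivAt.comp y h1
    have h3 := h2.hasLineDerivAt (ee i)
    have h4 : HasLineDerivAt ℝ (fun y => ψ (x - y)) _ y (ee i) := h3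
    convert h4 using 1
    rw [SchwartzMap.lineDerivOp_apply_eq_fderiv]
    simp
  have key := integral_bilinear_hasLineDerivAt_right_eq_neg_left_of_integrable
    (μ := (volume : Measure E3)) (f := κ) (f' := κ') (g := fun y => ψ (x - y))
    (g' := fun y => -(∂_{ee i} ψ) (x - y)) (v := ee i)
    (B := ContinuousLinearMap.lsmul ℝ ℝ) (int_bdd_smul hκ' hb' (int_shift ψ x))
    (int_bdd_smul hκ hb (int_shift (∂_{ee i} ψ) x).neg)
    (int_bdd_smul hκ hb (int_shift ψ x)) (fun y _ => hl y) (fun y _ => hg y)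
  simp only [ContinuousLinearMap.lsmul_apply, smul_neg, integral_neg, neg_inj] at key
  exact key

/-- the action on Schwartz fields -/
theorem coe_cvL_emb {κ : E3 → ℝ} {L : ℝ} (h : KK κ L) (ψ : 𝓢(E3, E3)) :
    (cvL h (emb ψ) : E3 → E3) =ᵐ[volume] cvf κ ψ := by
  filter_upwards [coe_cvL h (emb ψ)] with x hx
  rw [hx]
  exact cvf_congr (ψ.coeFn_toLp 2 (volume : Measure E3)) x

theorem Cj_swap (hρ : 0 < ρ) (h : ρ ≤ ρ') (i j : Fin 3) (ψ : 𝓢(E3, E3)) :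
    Cj hρ h j (emb (∂_{ee i} ψ)) = Cj hρ h i (emb (∂_{ee j} ψ)) := by
  have hρ' : 0 < ρ' := hρ.trans_le h
  apply Lp.ext
  filter_upwards [coe_cvL_emb (kk_gk hρ h j) (∂_{ee i} ψ),
    coe_cvL_emb (kk_gk hρ h i) (∂_{ee j} ψ)] with x h1 h2
  rw [Cj, Cj, h1, h2]
  obtain ⟨C, -, hC⟩ := bdd_gk hρ hρ' j
  obtain ⟨C', -, hC'⟩ := bdd_gk hρ hρ' i
  obtain ⟨K, -, hK⟩ := bdd_gk2 hρ hρ' i j
  obtain ⟨K', -, hK'⟩ := bdd_gk2 hρ hρ' j i
  rw [ibp (continuous_gk hρ hρ' j) (continuous_gk2 hρ hρ' i j) hC hK (line_gk hρ hρ' i j),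
    ibp (continuous_gk hρ hρ' i) (continuous_gk2 hρ hρ' j i) hC' hK' (line_gk hρ hρ' j i)]
  unfold cvf
  congr 1
  ext1 y
  rw [gk2_symm]

/-- the difference of two averages -/
noncomputable def NP (hρ : 0 < ρ) (h : ρ ≤ ρ') : V3 →L[ℝ] V3 := SP hρ - SP (hρ.trans_le h)

theorem NP_apply (hρ : 0 < ρ) (h : ρ ≤ ρ') (f : V3) :
    NP hρ h f = SP hρ f - SP (hρ.trans_le h) f := rfl

theorem Cj_sum (hρ : 0 < ρ) (h : ρ ≤ ρ') (ψ : 𝓢(E3, E3)) :
    ∑ k, Cj hρ h k (emb (∂_{ee k} ψ)) = -NP hρ h (emb ψ) := by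
  have hρ' : 0 < ρ' := hρ.trans_le h
  apply Lp.ext
  have hh : ∀ k, ∀ x, cvf (gk ρ ρ' k) (∂_{ee k} ψ : 𝓢(E3, E3)) x = cvf (gk2 ρ ρ' k k) ψ x := by
    intro k x
    obtain ⟨C, -, hC⟩ := bdd_gk hρ hρ' k
    obtain ⟨K, -, hK⟩ := bdd_gk2 hρ hρ' k k
    exact ibp (continuous_gk hρ hρ' k) (continuous_gk2 hρ hρ' k k) hC hK (line_gk hρ hρ' k k) ψ x
  have s1 : ((∑ k, Cj hρ h k (emb (∂_{ee k} ψ)) : V3) : E3 → E3) =ᵐ[volume]
      fun x => ∑ k, (Cj hρ h k (emb (∂_{ee k} ψ)) : E3 → E3) x := by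
    simp only [Fin.sum_univ_three]
    filter_upwards [Lp.coeFn_add (Cj hρ h 0 (emb (∂_{ee 0} ψ)) + Cj hρ h 1 (emb (∂_{ee 1} ψ)))
      (Cj hρ h 2 (emb (∂_{ee 2} ψ))), Lp.coeFn_add (Cj hρ h 0 (emb (∂_{ee 0} ψ)))
      (Cj hρ h 1 (emb (∂_{ee 1} ψ)))] with x h1 h2
    rw [h1, Pi.add_apply, h2, Pi.add_apply]
  filter_upwards [s1, coe_cvL_emb (kk_gk hρ h 0) (∂_{ee 0} ψ),
    coe_cvL_emb (kk_gk hρ h 1) (∂_{ee 1} ψ), coe_cvL_emb (kk_gk hρ h 2) (∂_{ee 2} ψ),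
    coe_cvL_emb (kk_et0 hρ) ψ, coe_cvL_emb (kk_et0 hρ') ψ,
    Lp.coeFn_neg (NP hρ h (emb ψ)),
    Lp.coeFn_sub (SP hρ (emb ψ)) (SP hρ' (emb ψ))] with x h1 h2 h3 h4 h5 h6 h7 h8
  rw [h1, h7, Pi.neg_apply, NP_apply, h8, Pi.sub_apply, Fin.sum_univ_three]
  unfold Cj SP
  rw [h2, h3, h4, h5, h6, hh, hh, hh]
  unfold cvf
  have i0 : ∀ k, Integrable (fun y => gk2 ρ ρ' k k y • ψ (x - y)) (volume : Measure E3) := by
    intro k
    obtain ⟨K, -, hK⟩ := bdd_gk2 hρ hρ' k k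
    exact int_bdd_smul (continuous_gk2 hρ hρ' k k) hK (int_shift ψ x)
  have i1 : ∀ {ρ : ℝ}, 0 < ρ → Integrable (fun y => et0 ρ y • ψ (x - y))
      (volume : Measure E3) := by
    intro ρ hρ
    obtain ⟨K, -, hK⟩ := (kk_et0 hρ).bdd
    exact int_bdd_smul (continuous_et0 hρ) hK (int_shift ψ x)
  have e1 : (∫ y, gk2 ρ ρ' 0 0 y • ψ (x - y)) + (∫ y, gk2 ρ ρ' 1 1 y • ψ (x - y)) +
      (∫ y, gk2 ρ ρ' 2 2 y • ψ (x - y)) = ∫ y, (∑ k, gk2 ρ ρ' k k y) • ψ (x - y) := by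
    rw [← Fin.sum_univ_three (fun k => ∫ y, gk2 ρ ρ' k k y • ψ (x - y)),
      ← integral_finsetSum _ (fun k _ => i0 k)]
    congr 1
    ext1 y
    rw [Finset.sum_smul]
  rw [e1, ← integral_sub (i1 hρ) (i1 hρ'), ← integral_neg]
  congr 1
  ext1 y
  rw [← sub_smul, ← neg_smul, ← gk2_trace hρ hρ']

end Pool.Agent.TP
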