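import Pool.Agent.TP.Chain

/-!
# The sum over the scales
-/

set_option autoImplicit false

namespace Pool.Agent.TP

open MeasureTheory Set Filter Topology
open scoped ENNReal NNReal Real

theorem me_le {p q : ℝ} (hp : p < 8 / 3) (hq : 0 < q) (hq1 : q ≤ 1) :
    me q ≤ (1 + 2 / (32 - 12 * p)) ^ 2 * q ^ (12 * p) := by
  set δ : ℝ := 32 - 12 * p with hδ
  have hδ0 : 0 < δ := by rw [hδ]; linarith
  have hqi : 0 < q⁻¹ := inv_pos.2 hq
  have h1 : Real.log q⁻¹ ≤ q⁻¹ ^ (δ / 2) / (δ / 2) :=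
    Real.log_le_rpow_div hqi.le (by positivity)
  have h2 : 1 ≤ q⁻¹ ^ (δ / 2) := Real.one_le_rpow (by rw [← inv_one]; gcongr) (by positivity)
  have h3 : lg q ≤ (1 + 2 / δ) * q⁻¹ ^ (δ / 2) := by
    have e : q⁻¹ ^ (δ / 2) / (δ / 2) = 2 / δ * q⁻¹ ^ (δ / 2) := by
      field_simp
    rw [e] at h1
    unfold lg
    linarith
  have h4 : 0 ≤ lg q := zero_le_one.trans (one_le_lg hq hq1)
  have h5 : (q⁻¹ ^ (δ / 2)) ^ 2 = q⁻¹ ^ δ := by
    rw [← Real.rpow_natCast, ← Real.rpow_mul hqi.le]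
    congr 1
    push_cast
    ring
  have h6 : lg q ^ 2 ≤ (1 + 2 / δ) ^ 2 * q⁻¹ ^ δ := by
    calc lg q ^ 2 ≤ ((1 + 2 / δ) * q⁻¹ ^ (δ / 2)) ^ 2 := pow_le_pow_left₀ h4 h3 2
      _ = _ := by rw [mul_pow, h5]
  have h7 : q ^ 32 * q⁻¹ ^ δ = q ^ (12 * p) := by
    rw [Real.inv_rpow hq.le, ← Real.rpow_neg hq.le, ← Real.rpow_natCast,
      ← Real.rpow_add hq]
    congr 1
    rw [hδ]
    push_cast
    ring
  unfold me
  calc q ^ 32 * lg q ^ 2 ≤ q ^ 32 * ((1 + 2 / δ) ^ 2 * q⁻¹ ^ δ) := by gcongr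
    _ = (1 + 2 / δ) ^ 2 * (q ^ 32 * q⁻¹ ^ δ) := by ring
    _ = _ := by rw [h7]

variable {ε : ℝ → ℝ} {T p : ℝ}

/-- the primitive of the control function -/
noncomputable def II (ε : ℝ → ℝ) (p x : ℝ) : ℝ := ∫ t in Ioo 0 x, ε t ^ p / t

theorem II_nonneg (hε : ∀ t ∈ Ioo 0 T, 0 < ε t) {x : ℝ} (hx : x ≤ T) : 0 ≤ II ε p x := by
  apply setIntegral_nonneg measurableSet_Ioo
  intro t ht
  have := hε t ⟨ht.1, ht.2.trans_le hx⟩
  have := ht.1
  positivity

theorem II_sub (hint : IntegrableOn (fun t => ε t ^ p / t) (Ioo 0 T) volume) {x y : ℝ}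
    (hx : 0 ≤ x) (hxy : x ≤ y) (hy : y ≤ T) :
    II ε p y - II ε p x = ∫ t in Ioo x y, ε t ^ p / t := by
  have j1 : IntervalIntegrable (fun t => ε t ^ p / t) volume 0 x := by
    rw [intervalIntegrable_iff_integrableOn_Ioo_of_le hx]
    exact hint.mono_set (Ioo_subset_Ioo le_rfl (hxy.trans hy))
  have j2 : IntervalIntegrable (fun t => ε t ^ p / t) volume x y := by
    rw [intervalIntegrable_iff_integrableOn_Ioo_of_le hxy]
    exact hint.mono_set (Ioo_subset_Ioo hx hy)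
  have j3 := intervalIntegral.integral_add_adjacent_intervals j1 j2
  rw [intervalIntegral.integral_of_le hx, intervalIntegral.integral_of_le hxy,
    intervalIntegral.integral_of_le (hx.trans hxy), integral_Ioc_eq_integral_Ioo,
    integral_Ioc_eq_integral_Ioo, integral_Ioc_eq_integral_Ioo] at j3
  unfold II
  linarith

/-- one dyadic block -/
theorem block (hp : 0 < p) (hmono : MonotoneOn ε (Ioo 0 T)) (hε : ∀ t ∈ Ioo 0 T, 0 < ε t)
    (hint : IntegrableOn (fun t => ε t ^ p / t) (Ioo 0 T) volume) {s : ℝ} (hs : 0 < s)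
    (hs2 : 2 * s ≤ T) : ε s ^ p ≤ 2 * (II ε p (2 * s) - II ε p s) := by
  rw [II_sub hint hs.le (by linarith) hs2]
  have h1 : ∫ _t in Ioo s (2 * s), ε s ^ p / (2 * s) ≤ ∫ t in Ioo s (2 * s), ε t ^ p / t := by
    apply setIntegral_mono_on (integrableOn_const (by simp) (by simp))
      (hint.mono_set (Ioo_subset_Ioo hs.le hs2)) measurableSet_Ioo
    intro t ht
    have ht0 : 0 < t := hs.trans ht.1
    have hsT : s ∈ Ioo 0 T := ⟨hs, by linarith⟩
    have h2 := hmono hsT ⟨ht0, ht.2.trans_le hs2⟩ ht.1.le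
    have h3 := (hε s hsT).le
    have h4 := ht.2.le
    have h5 : 0 ≤ ε t ^ p := Real.rpow_nonneg (h3.trans h2) _
    gcongr
  rw [setIntegral_const, measureReal_def, Real.volume_Ioo, ENNReal.toReal_ofReal (by linarith),
    smul_eq_mul] at h1
  have e : (2 * s - s) * (ε s ^ p / (2 * s)) = ε s ^ p / 2 := by
    field_simp
    ring
  rw [e] at h1
  linarith

theorem sum_block (hp : 0 < p) (hmono : MonotoneOn ε (Ioo 0 T)) (hε : ∀ t ∈ Ioo 0 T, 0 < ε t)
    (hint : IntegrableOn (fun t => ε t ^ p / t) (Ioo 0 T) volume) {S : ℝ} (hS : 0 < S)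
    (hS2 : 2 * S ≤ T) (n : ℕ) :
    ∑ k ∈ Finset.range n, ε (S / 2 ^ k) ^ p ≤ 2 * II ε p (2 * S) := by
  have h1 : ∀ k : ℕ, S / 2 ^ k ≤ S := fun k => div_le_self hS.le (one_le_pow₀ (by norm_num))
  have h2 : ∀ k, ε (S / 2 ^ k) ^ p ≤ 2 * II ε p (2 * S / 2 ^ k) - 2 * II ε p (2 * S / 2 ^ (k + 1)) := by
    intro k
    have h3 := block hp hmono hε hint (s := S / 2 ^ k) (by positivity) (by
      have := h1 k
      linarith)
    have e1 : 2 * (S / 2 ^ k) = 2 * S / 2 ^ k := by ring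
    have e2 : 2 * S / 2 ^ (k + 1) = S / 2 ^ k := by
      rw [pow_succ]
      field_simp
    rw [e2, ← e1]
    linarith
  calc ∑ k ∈ Finset.range n, ε (S / 2 ^ k) ^ p
      ≤ ∑ k ∈ Finset.range n, (2 * II ε p (2 * S / 2 ^ k) - 2 * II ε p (2 * S / 2 ^ (k + 1))) :=
        Finset.sum_le_sum fun k _ => h2 k
    _ = 2 * II ε p (2 * S / 2 ^ 0) - 2 * II ε p (2 * S / 2 ^ n) :=
        Finset.sum_range_sub' (fun k => 2 * II ε p (2 * S / 2 ^ k)) n
    _ ≤ 2 * II ε p (2 * S) := by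
        have h4 : 0 ≤ II ε p (2 * S / 2 ^ n) := by
          apply II_nonneg hε
          exact (div_le_self (by positivity) (one_le_pow₀ (by norm_num))).trans hS2
        rw [pow_zero, div_one]
        linarith

theorem tendsto_II (hint : IntegrableOn (fun t => ε t ^ p / t) (Ioo 0 T) volume) (hT : 0 < T) :
    Tendsto (fun S => II ε p (2 * S)) (𝓝[>] 0) (𝓝 0) := by
  have h1 : IntegrableOn (fun t => ε t ^ p / t) (Icc 0 T) volume := by
    rwa [integrableOn_Icc_iff_integrableOn_Ioo]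
  have h2 := intervalIntegral.continuousOn_primitive h1
  have h3 : ContinuousWithinAt (fun x => ∫ t in Ioc 0 x, ε t ^ p / t) (Icc 0 T) 0 :=
    h2 0 (left_mem_Icc.2 hT.le)
  have h4 : Tendsto (fun x => ∫ t in Ioc 0 x, ε t ^ p / t) (𝓝[Icc 0 T] 0) (𝓝 0) := by
    have h5 : Tendsto (fun x => ∫ t in Ioc 0 x, ε t ^ p / t) (𝓝[Icc 0 T] 0)
      (𝓝 (∫ t in Ioc 0 0, ε t ^ p / t)) := h3
    simpa using h5
  have h6 : Tendsto (fun S : ℝ => 2 * S) (𝓝[>] 0) (𝓝[Icc 0 T] 0) := by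
    rw [tendsto_nhdsWithin_iff]
    constructor
    · have : Tendsto (fun S : ℝ => 2 * S) (𝓝 0) (𝓝 (2 * 0)) := tendsto_id.const_mul 2
      rw [mul_zero] at this
      exact this.mono_left nhdsWithin_le_nhds
    · have h7 : Ioo 0 (T / 2) ∈ 𝓝[>] (0:ℝ) := Ioo_mem_nhdsGT (by positivity)
      filter_upwards [h7] with S hS
      exact ⟨by linarith [hS.1], by linarith [hS.2]⟩
  refine (h4.comp h6).congr fun S => ?_
  simp only [Function.comp, II]
  rw [integral_Ioc_eq_integral_Ioo]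

theorem tendsto_eps (hp : 0 < p) (hT : 0 < T) (hmono : MonotoneOn ε (Ioo 0 T))
    (hε : ∀ t ∈ Ioo 0 T, 0 < ε t)
    (hint : IntegrableOn (fun t => ε t ^ p / t) (Ioo 0 T) volume) :
    Tendsto ε (𝓝[>] 0) (𝓝 0) := by
  have h1 : Tendsto (fun s => ε s ^ p) (𝓝[>] 0) (𝓝 0) := by
    have h2 := (tendsto_II hint hT).const_mul 2
    rw [mul_zero] at h2
    refine squeeze_zero' ?_ ?_ h2
    · filter_upwards [Ioo_mem_nhdsGT hT] with s hs
      have := hε s hs
      positivity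
    · filter_upwards [Ioo_mem_nhdsGT (half_pos hT)] with s hs
      have h3 := block hp hmono hε hint hs.1 (by linarith [hs.2])
      have h4 : 0 ≤ II ε p s := II_nonneg hε (by linarith [hs.2])
      linarith
  have h5 := h1.rpow_const (p := 1 / p) (Or.inr (by positivity))
  rw [Real.zero_rpow (by positivity)] at h5
  refine h5.congr' ?_
  filter_upwards [Ioo_mem_nhdsGT hT] with s hs
  have := hε s hs
  rw [← Real.rpow_mul this.le, mul_one_div, div_self hp.ne', Real.rpow_one]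

/-- the parameter at one scale -/
noncomputable def qe (ε : ℝ → ℝ) (s : ℝ) : ℝ := ε s ^ (((12:ℕ) : ℝ)⁻¹)

theorem qe_pos {s : ℝ} (h : 0 < ε s) : 0 < qe ε s := Real.rpow_pos_of_pos h _

theorem qe_pow {s : ℝ} (h : 0 < ε s) : qe ε s ^ 12 = ε s :=
  Real.rpow_inv_natCast_pow h.le (by norm_num)

theorem qe_rpow {s : ℝ} (h : 0 < ε s) : qe ε s ^ (12 * p) = ε s ^ p := by
  unfold qe
  rw [← Real.rpow_mul h.le]
  congr 1
  push_cast
  ring

theorem le_qe {s : ℝ} (hs : 0 < s) (h : s * √s ≤ ε s) : s ≤ qe ε s ^ 8 := by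
  have h0 : 0 < s * √s := by
    have := Real.sqrt_pos.2 hs
    positivity
  have hε : 0 < ε s := h0.trans_le h
  have hq := qe_pos hε
  have h1 : s ^ 3 ≤ (qe ε s ^ 8) ^ 3 := by
    have e : (qe ε s ^ 8) ^ 3 = (qe ε s ^ 12) ^ 2 := by ring
    rw [e, qe_pow hε]
    calc s ^ 3 = (s * √s) ^ 2 := by
          rw [mul_pow, Real.sq_sqrt hs.le]
          ring
      _ ≤ ε s ^ 2 := pow_le_pow_left₀ h0.le h 2
  exact le_of_pow_le_pow_left₀ (by norm_num) (by positivity) h1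

theorem tendsto_qe (h : Tendsto ε (𝓝[>] 0) (𝓝 0)) : Tendsto (qe ε) (𝓝[>] 0) (𝓝 0) := by
  have h5 := h.rpow_const (p := ((12:ℕ) : ℝ)⁻¹) (Or.inr (by positivity))
  rwa [Real.zero_rpow (by norm_num)] at h5

end Pool.Agent.TP
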